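import Mathlib

/-! Bases adapted to a filtration. -/

open Finset

namespace Pool.Agent.Helper223

variable {K : Type*} [Field K] {V : Type*} [AddCommGroup V] [Module K V]

lemma exists_flag_sets (L : ℕ) : ∀ (E : ℕ → Submodule K V), Antitone E →
    (∀ l, L ≤ l → E l = ⊥) →
    ∃ B : ℕ → Set V, (∀ l, B (l + 1) ⊆ B l) ∧ (∀ l, LinearIndepOn K id (B l)) ∧
      ∀ l, Submodule.span K (B l) = E l := by
  induction L with
  | zero =>
    intro E _ h0
    refine ⟨fun _ => ∅, fun _ => le_rfl, fun _ => linearIndepOn_empty _ _, fun l => ?_⟩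
    rw [h0 l (Nat.zero_le _), Submodule.span_empty]
  | succ L ih =>
    intro E hE h0
    obtain ⟨B, h1, h2, h3⟩ := ih (fun l => E (l + 1)) (fun a b hab => hE (by omega))
      (fun l hl => h0 (l + 1) (by omega))
    have hsub : B 0 ⊆ (E 0 : Set V) := by
      intro x hx
      have : x ∈ E 1 := by rw [← h3 0]; exact Submodule.subset_span hx
      exact hE (Nat.zero_le 1) this
    obtain ⟨b, hb1, hb2, hb3, hb4⟩ := exists_linearIndepOn_id_extension (h2 0) hsub
    refine ⟨fun l => Nat.casesOn l b (fun l => B l), ?_, ?_, ?_⟩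
    · intro l
      cases l with
      | zero => exact hb2
      | succ l => exact h1 l
    · intro l
      cases l with
      | zero => exact hb4
      | succ l => exact h2 l
    · intro l
      cases l with
      | zero => exact le_antisymm (Submodule.span_le.mpr hb1) hb3
      | succ l => exact h3 l

/-- every finite filtration has an adapted basis -/
lemma exists_adapted_basis [Module.Finite K V] (E : ℕ → Submodule K V) (hE : Antitone E)
    (hE0 : E 0 = ⊤) (L : ℕ) (hL : ∀ l, L ≤ l → E l = ⊥) :
    ∃ (b : Module.Basis (Fin (Module.finrank K V)) K V) (r : Fin (Module.finrank K V) → ℕ),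
      ∀ l, E l = Submodule.span K (b '' {i | l ≤ r i}) := by
  classical
  obtain ⟨B, h1, h2, h3⟩ := exists_flag_sets L E hE hL
  have hanti : Antitone B := antitone_nat_of_succ_le h1
  have hspan : ⊤ ≤ Submodule.span K (Set.range (Subtype.val : B 0 → V)) := by
    rw [Subtype.range_coe, h3 0, hE0]
  let b0 : Module.Basis (B 0) K V := Module.Basis.mk (h2 0) hspan
  have hfin : Finite (B 0) := Module.Finite.finite_basis b0
  have := Fintype.ofFinite (B 0)
  have hcard : Fintype.card (B 0) = Module.finrank K V := (Module.finrank_eq_card_basis b0).symm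
  let e : B 0 ≃ Fin (Module.finrank K V) := Fintype.equivFinOfCardEq hcard
  refine ⟨b0.reindex e, fun i => Nat.findGreatest (fun l => (e.symm i : V) ∈ B l) L, ?_⟩
  intro l
  rw [← h3 l]
  congr 1
  ext x
  simp only [Set.mem_image, Set.mem_ofPred_eq, Module.Basis.reindex_apply]
  have hb0 : ∀ y : B 0, b0 y = y := by
    intro y; simp [b0]
  constructor
  · intro hx
    have hx0 : x ∈ B 0 := hanti (Nat.zero_le l) hx
    have hlL : l ≤ L := by
      by_contra hcon
      have h4 : Submodule.span K (B l) = ⊥ := by rw [h3 l, hL l (by omega)]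
      have h5 : x = 0 := by
        have : x ∈ Submodule.span K (B l) := Submodule.subset_span hx
        rw [h4] at this; simpa using this
      have h6 := (h2 l).ne_zero hx
      exact h6 (by simpa using h5)
    refine ⟨e ⟨x, hx0⟩, ?_, ?_⟩
    · rw [Equiv.symm_apply_apply]
      exact Nat.le_findGreatest hlL hx
    · rw [Equiv.symm_apply_apply, hb0]
  · rintro ⟨i, hi, rfl⟩
    rw [hb0]
    have h0 : ((e.symm i : B 0) : V) ∈ B 0 := (e.symm i).2
    have h4 := Nat.findGreatest_spec (P := fun l => (e.symm i : V) ∈ B l) (Nat.zero_le L) h0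
    exact hanti hi h4

end Pool.Agent.Helper223
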