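import Pool.Agent.Helper223_Chow.Comb

/-! The asymptotic form of the combinatorial inequality. -/

open Finset Filter

namespace Pool.Agent.Helper223

/-- from the explicit inequality to the limit inequality -/
lemma asym_of_main {k : ℕ} (hk : 1 ≤ k) {w d : ℕ → ℕ} {N : ℕ} {S R C : ℝ} (hRS : R ≤ S)
    (hN : 2 * N = 3 * k ^ 2 + 3 * k + 2)
    (hd : ∀ m, 2 * d m = 3 * (k * m) ^ 2 + 3 * (k * m) + 2)
    (hm : ∀ m : ℕ, 2 ≤ m → 3 * (k : ℝ) ^ 2 * S * m ^ 3 - C * m ^ 2 ≤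
      (3 * (k : ℝ) ^ 2 + 3 * k + 2) * w m) (hS : 0 ≤ S) {ε : ℝ} (hε : 0 < ε) :
    ∀ᶠ m : ℕ in atTop, R / N - ε ≤ (w m : ℝ) / (m * d m) := by
  have hk' : (1 : ℝ) ≤ k := by exact_mod_cast hk
  have hN' : 2 * (N : ℝ) = 3 * (k : ℝ) ^ 2 + 3 * k + 2 := by exact_mod_cast hN
  have hNpos : (0 : ℝ) < N := by nlinarith
  obtain ⟨M, hM⟩ := exists_nat_gt ((|C| + 3 * k * S + 2 * S) / (3 * N * ε * k ^ 2))
  filter_upwards [eventually_ge_atTop (max M 2)] with m hm2
  have h2 : 2 ≤ m := le_trans (le_max_right _ _) hm2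
  have hMm : M ≤ m := le_trans (le_max_left _ _) hm2
  have h1 := hm m h2
  have hmr : (2 : ℝ) ≤ m := by exact_mod_cast h2
  have hd' : 2 * (d m : ℝ) = 3 * ((k : ℝ) * m) ^ 2 + 3 * (k * m) + 2 := by exact_mod_cast hd m
  have hkpos : (0 : ℝ) < k := by linarith
  have hmpos : (0 : ℝ) < m := by linarith
  have hkm : (0 : ℝ) < k * m := mul_pos hkpos hmpos
  have hdpos : (0 : ℝ) < d m := by nlinarith
  have hRN : R / N ≤ S / N := by gcongr
  rw [le_div_iff₀ (by positivity)]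
  have hc : (|C| + 3 * k * S + 2 * S) < m * (3 * N * ε * k ^ 2) := by
    have : (|C| + 3 * k * S + 2 * S) / (3 * N * ε * k ^ 2) < m :=
      lt_of_lt_of_le hM (by exact_mod_cast hMm)
    rwa [div_lt_iff₀ (by positivity)] at this
  have hstep : (S / N - ε) * (m * d m) ≤ w m := by
    have e1 : 2 * N * ((S / N - ε) * (m * d m)) =
        (S - N * ε) * m * (3 * ((k : ℝ) * m) ^ 2 + 3 * (k * m) + 2) := by
      rw [← hd']; field_simp
    have e2 : (S - N * ε) * m * (3 * ((k : ℝ) * m) ^ 2 + 3 * (k * m) + 2) ≤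
        3 * (k : ℝ) ^ 2 * S * m ^ 3 - C * m ^ 2 := by
      have hCle : C ≤ |C| := le_abs_self C
      have a1 : (|C| + 3 * k * S + 2 * S) * (m : ℝ) ^ 2 ≤ m * (3 * N * ε * k ^ 2) * m ^ 2 := by
        apply mul_le_mul_of_nonneg_right hc.le (by positivity)
      have a2 : C * (m : ℝ) ^ 2 ≤ |C| * m ^ 2 := mul_le_mul_of_nonneg_right hCle (by positivity)
      have a3 : 0 ≤ N * ε * m * (3 * (k * m) + 2) := by positivity
      have a4 : 2 * S * (m : ℝ) ≤ 2 * S * m ^ 2 :=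
        mul_le_mul_of_nonneg_left (by nlinarith) (by linarith)
      nlinarith
    have e3 : 2 * N * ((S / N - ε) * (m * d m)) ≤ 2 * N * w m := by
      rw [e1]; refine le_trans e2 (le_trans h1 (le_of_eq ?_)); rw [hN']
    exact le_of_mul_le_mul_left e3 (by positivity)
  refine le_trans ?_ hstep
  apply mul_le_mul_of_nonneg_right _ (by positivity)
  linarith

end Pool.Agent.Helper223
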