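import Pool.Agent.Helper223_Chow.Destab

/-! Chow (semi)stability at any level implies GIT (semi)stability. -/

open MvPolynomial Finset Filter

namespace Pool.Agent.Helper223

variable {K : Type*} [Field K]

/-- exponents of degree `k` and weight exactly `R` -/
noncomputable def expoEq (β : Fin 4 → ℕ) (k R : ℕ) : Finset (Fin 4 →₀ ℕ) :=
  (expo k).filter fun m => bw β m = R

lemma four_indices : ∀ i j : Fin 4, i ≠ j → ∃ a b : Fin 4,
    (univ : Finset (Fin 4)) = {i, j, a, b} ∧ i ≠ a ∧ i ≠ b ∧ j ≠ a ∧ j ≠ b ∧ a ≠ b := by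
  decide

lemma card_expoEq (β : Fin 4 → ℕ) (k R : ℕ) (h : ∃ i j, β i ≠ β j) :
    2 * (expoEq β k R).card ≤ (k + 1) * (k + 2) := by
  classical
  obtain ⟨i, j, hij⟩ := h
  have hij' : i ≠ j := fun h => hij (by rw [h])
  obtain ⟨a, b, hu, h1, h2, h3, h4, h5⟩ := four_indices i j hij'
  have hsum : ∀ φ : Fin 4 → ℕ, ∑ l, φ l = φ i + (φ j + (φ a + φ b)) := by
    intro φ
    rw [hu, sum_insert (by simp [hij', h1, h2]), sum_insert (by simp [h3, h4]),
      sum_insert (by simp [h5]), sum_singleton]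
  rw [← card_Tri (k + 1)]
  apply Nat.mul_le_mul_left
  apply card_le_card_of_injOn (fun m => (m a, m b))
  · intro m hm
    rw [mem_coe, expoEq, mem_filter, mem_expo, hsum] at hm
    rw [mem_coe, mem_Tri]
    simp only
    omega
  · intro m hm m' hm' hmm
    rw [mem_coe, expoEq, mem_filter, mem_expo, hsum] at hm hm'
    simp only [Prod.mk.injEq] at hmm
    obtain ⟨hm1, hm2⟩ := hm
    obtain ⟨hm1', hm2'⟩ := hm'
    rw [bw, hsum] at hm2 hm2'
    have e1 : m i + m j = m' i + m' j := by omega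
    have e2 : β i * m i + β j * m j = β i * m' i + β j * m' j := by
      rw [hmm.1, hmm.2] at hm2; omega
    have e3 : m i = m' i := by
      have e1' : (m i : ℤ) + m j = m' i + m' j := by exact_mod_cast e1
      have e2' : (β i : ℤ) * m i + β j * m j = β i * m' i + β j * m' j := by exact_mod_cast e2
      have e4 : ((β i : ℤ) - β j) * (m i - m' i) = 0 := by
        linear_combination e2' - (β j : ℤ) * e1'
      rcases mul_eq_zero.mp e4 with h | h
      · exfalso; apply hij; have : (β i : ℤ) = β j := by linarith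
        exact_mod_cast this
      · have : (m i : ℤ) = m' i := by linarith
        exact_mod_cast this
    have e4 : m j = m' j := by omega
    ext l
    have hl : l ∈ (univ : Finset (Fin 4)) := mem_univ l
    rw [hu] at hl
    simp only [mem_insert, mem_singleton] at hl
    rcases hl with rfl | rfl | rfl | rfl
    · exact e3
    · exact e4
    · exact hmm.1
    · exact hmm.2

lemma Fs_le_sup (β : Fin 4 → ℕ) (k R : ℕ) :
    Fs K β k R ≤ restrictSupport K (expoEq β k R : Set (Fin 4 →₀ ℕ)) ⊔ Fs K β k (R + 1) := by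
  rw [Fs, restrictSupport_eq_span, Submodule.span_le]
  rintro _ ⟨m, hm, rfl⟩
  rw [mem_coe, expoGe, mem_filter] at hm
  by_cases h : bw β m = R
  · apply Submodule.mem_sup_left
    rw [restrictSupport_eq_span]
    exact Submodule.subset_span ⟨m, mem_coe.mpr (mem_filter.mpr ⟨hm.1, h⟩), rfl⟩
  · apply Submodule.mem_sup_right
    rw [Fs, restrictSupport_eq_span]
    exact Submodule.subset_span ⟨m, mem_coe.mpr (mem_filter.mpr ⟨hm.1, by omega⟩), rfl⟩

lemma weights_nonconstant {f : MvPolynomial (Fin 4) K} (hf : f.IsHomogeneous 3) (hf0 : f ≠ 0)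
    (β : Fin 4 → ℕ) (hβ : ∃ i j, β i ≠ β j) {k N : ℕ} (hk : 1 ≤ k)
    (s : Module.Basis (Fin N) K (sec f k)) (r : Fin N → ℕ)
    (h : ∀ l, Fa f β k l = chowFil f (fun i => (s i : CRing f)) r 1 l) :
    ∃ i j, r i ≠ r j := by
  by_contra hcon
  push Not at hcon
  have hN : Module.finrank K (sec f k) = N := by
    simpa using Module.finrank_eq_card_basis s
  have hN2 := two_mul_finrank_sec hf hf0 k
  rw [hN] at hN2
  have hNpos : 0 < N := by nlinarith
  let i0 : Fin N := ⟨0, hNpos⟩
  have h1 : Fa f β k (r i0) = sec f k := by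
    rw [h]
    refine Eq.trans ?_ (chowFil_one_zero s r)
    rw [chowFil_one, chowFil_one]
    congr 2
    ext i
    simp [hcon i i0]
  have h2 : Fa f β k (r i0 + 1) = ⊥ := by
    rw [h, chowFil_one]
    have : {i | r i0 + 1 ≤ r i} = (∅ : Set (Fin N)) := by
      ext i; simp [hcon i i0]
    rw [this]; simp
  have h3 : sec f k ≤
      (restrictSupport K (expoEq β k (r i0) : Set (Fin 4 →₀ ℕ))).map (qm f).toLinearMap := by
    rw [← h1, Fa]
    refine (Submodule.map_mono (Fs_le_sup β k (r i0))).trans ?_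
    rw [Submodule.map_sup]
    have : (Fs K β k (r i0 + 1)).map (qm f).toLinearMap = ⊥ := h2
    rw [this, sup_bot_eq]
  have h4 := Submodule.finrank_mono h3
  have h5 := Submodule.finrank_map_le (qm f).toLinearMap
    (restrictSupport K (expoEq β k (r i0) : Set (Fin 4 →₀ ℕ)))
  rw [finrank_restrictSupport] at h5
  rw [hN] at h4
  have h6 := card_expoEq β k (r i0) hβ
  nlinarith

lemma exists_beta (a : Fin 4 → ℤ) (ha : ∑ i, a i = 0) :
    ∃ (β : Fin 4 → ℕ) (M : ℕ), (∀ i, (β i : ℤ) = a i + M) ∧ ∑ i, β i = 4 * M := by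
  refine ⟨fun i => (a i + (∑ j, (a j).natAbs : ℕ)).toNat, ∑ j, (a j).natAbs, ?_, ?_⟩
  · intro i
    apply Int.toNat_of_nonneg
    have : (a i).natAbs ≤ ∑ j, (a j).natAbs :=
      single_le_sum (f := fun j => (a j).natAbs) (fun _ _ => Nat.zero_le _) (mem_univ i)
    omega
  · have h1 : ∀ i, (((a i + (∑ j, (a j).natAbs : ℕ)).toNat : ℕ) : ℤ) =
        a i + (∑ j, (a j).natAbs : ℕ) := by
      intro i
      apply Int.toNat_of_nonneg
      have : (a i).natAbs ≤ ∑ j, (a j).natAbs :=
        single_le_sum (f := fun j => (a j).natAbs) (fun _ _ => Nat.zero_le _) (mem_univ i)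
      omega
    have h2 : ((∑ i, (a i + (∑ j, (a j).natAbs : ℕ)).toNat : ℕ) : ℤ) =
        4 * (∑ j, (a j).natAbs : ℕ) := by
      rw [Nat.cast_sum, sum_congr rfl (fun i _ => h1 i), sum_add_distrib, ha]
      simp
    exact_mod_cast h2

lemma bw_of_beta {a : Fin 4 → ℤ} {β : Fin 4 → ℕ} {M : ℕ} (h : ∀ i, (β i : ℤ) = a i + M)
    {F : MvPolynomial (Fin 4) K} (hF : F.IsHomogeneous 3) {m : Fin 4 →₀ ℕ}
    (hm : m ∈ F.support) : (bw β m : ℤ) = ∑ i, a i * (m i : ℤ) + 3 * M := by
  have h1 : ∑ i, m i = 3 := by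
    have := hF (mem_support_iff.mp hm)
    rw [← this, Finsupp.weight_apply, Finsupp.sum_fintype _ _ (by simp)]
    simp
  rw [bw]
  push_cast
  simp only [h, add_mul, sum_add_distrib, ← mul_sum]
  have : (∑ i, (m i : ℤ)) = 3 := by exact_mod_cast h1
  rw [this]; ring

lemma eventually_small (C : ℝ) {η : ℝ} (hη : 0 < η) : ∀ᶠ m : ℕ in atTop, C / m < η := by
  have h := tendsto_const_div_atTop_nhds_zero_nat C
  exact (h.eventually (gt_mem_nhds hη))

lemma kappa_pos {k : ℕ} (hk : 1 ≤ k) :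
    (0 : ℝ) < (k * (12 * k - 4)) / (9 * (3 * (k : ℝ) ^ 2 + 3 * k + 2)) := by
  have hk' : (1 : ℝ) ≤ k := by exact_mod_cast hk
  apply div_pos
  · apply mul_pos <;> linarith
  · positivity

/-- Chow semistability at some level `k ≥ 1` implies GIT semistability. -/
theorem git_semistable_of_chow {f : MvPolynomial (Fin 4) K} (hf : f.IsHomogeneous 3)
    (hf0 : f ≠ 0) {k : ℕ} (hk : 1 ≤ k) (h : ChowSemistableAt f k) : GITSemistable f := by
  intro g hg a ha
  by_contra hcon
  push Not at hcon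
  obtain ⟨β, M, hβ, hM⟩ := exists_beta a ha
  have hF := lsubst_homog g hf
  have hF0 := lsubst_ne_zero hg hf0
  have hord : 3 * M + 1 ≤ ord β (lsubst g f) := by
    rw [← wtGe_iff_le_ord β _ hF0]
    intro m hm
    have h1 := hcon m hm
    have h2 := bw_of_beta hβ hF hm
    omega
  obtain ⟨N, s, r, h1, C, hC⟩ := weights_of_order hF hF0 β hM hk
  have h2 := semistable_lsubst hg hf hf0 h
  have hκ := kappa_pos hk
  have hδ : (1 : ℝ) ≤ (ord β (lsubst g f) : ℝ) - 3 * M := by
    have : (3 * M + 1 : ℝ) ≤ ord β (lsubst g f) := by exact_mod_cast hord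
    linarith
  have h3 := h2 N s r _ (half_pos hκ)
  obtain ⟨m, hm1, hm2, hm3⟩ :=
    (h3.and ((eventually_small C (half_pos hκ)).and (eventually_ge_atTop 1))).exists
  have h4 := hC m hm3
  have h5 : (k * (12 * k - 4)) / (9 * (3 * (k : ℝ) ^ 2 + 3 * k + 2)) ≤
      ((ord β (lsubst g f) : ℝ) - 3 * M) * (k * (12 * k - 4)) /
        (9 * (3 * k ^ 2 + 3 * k + 2)) := by
    rw [mul_div_assoc ((ord β (lsubst g f) : ℝ) - 3 * M)]
    exact le_mul_of_one_le_left hκ.le hδ
  linarith

/-- Chow stability at some level `k ≥ 1` implies GIT stability. -/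
theorem git_stable_of_chow {f : MvPolynomial (Fin 4) K} (hf : f.IsHomogeneous 3)
    (hf0 : f ≠ 0) {k : ℕ} (hk : 1 ≤ k) (h : ChowStableAt f k) : GITStable f := by
  intro g hg a ha ha0
  by_contra hcon
  push Not at hcon
  obtain ⟨β, M, hβ, hM⟩ := exists_beta a ha
  have hF := lsubst_homog g hf
  have hF0 := lsubst_ne_zero hg hf0
  have hord : 3 * M ≤ ord β (lsubst g f) := by
    rw [← wtGe_iff_le_ord β _ hF0]
    intro m hm
    have h1 := hcon m hm
    have h2 := bw_of_beta hβ hF hm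
    omega
  obtain ⟨N, s, r, h1, C, hC⟩ := weights_of_order hF hF0 β hM hk
  have hβ2 : ∃ i j, β i ≠ β j := by
    by_contra hc
    push Not at hc
    apply ha0
    funext i
    have h2 : ∀ j, a j = a i := by
      intro j
      have h3 := hβ i
      have h4 := hβ j
      rw [hc j i] at h4
      linarith
    have h3 : ∑ j, a j = 4 * a i := by
      rw [sum_congr rfl (fun j _ => h2 j)]; simp
    rw [ha] at h3
    simp only [Pi.zero_apply]
    omega
  have hr := weights_nonconstant hF hF0 β hβ2 hk s r h1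
  obtain ⟨ε, hε, h3⟩ := stable_lsubst hg hf hf0 h N s r hr
  have hκ := kappa_pos hk
  have hδ : (0 : ℝ) ≤ (ord β (lsubst g f) : ℝ) - 3 * M := by
    have : (3 * M : ℝ) ≤ ord β (lsubst g f) := by exact_mod_cast hord
    linarith
  obtain ⟨m, hm1, hm2, hm3⟩ :=
    (h3.and ((eventually_small C hε).and (eventually_ge_atTop 1))).exists
  have h4 := hC m hm3
  have h5 : 0 ≤ ((ord β (lsubst g f) : ℝ) - 3 * M) * (k * (12 * k - 4)) /
        (9 * (3 * k ^ 2 + 3 * k + 2)) := by
    rw [mul_div_assoc]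
    exact mul_nonneg hδ hκ.le
  linarith

end Pool.Agent.Helper223
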