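import Pool.Agent.Helper223_Chow.TOrd

/-! Filtrations of Chow weight zero on the toric cubic surface are given by monomials. -/

open MvPolynomial Finset Filter

namespace Pool.Agent.Helper223

variable {K : Type*} [Field K]

/-- coordinate functional -/
def zc (i : Fin 3) : (Fin 3 → ℕ) →+ ℕ := linHom (Pi.single i 1)

lemma zc_apply (i : Fin 3) (a : Fin 3 → ℕ) : zc i a = a i := by
  fin_cases i <;> simp [zc, linHom_apply]

def zs (i j : Fin 3) : (Fin 3 → ℕ) →+ ℕ := linHom (Pi.single i 1 + Pi.single j 1)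

lemma zs_apply (i j : Fin 3) (a : Fin 3 → ℕ) : zs i j a = a i + a j := by
  fin_cases i <;> fin_cases j <;> simp [zs, linHom_apply] <;> ring

lemma exists_third {i j : Fin 3} (hij : i ≠ j) : ∃ l, i ≠ l ∧ j ≠ l := by
  fin_cases i <;> fin_cases j <;>
    first
      | exact absurd rfl hij
      | exact ⟨0, by decide, by decide⟩
      | exact ⟨1, by decide, by decide⟩
      | exact ⟨2, by decide, by decide⟩

/-- highest `i`, then `j` -/
noncomputable def tT (K : Type*) [Field K] (i j : Fin 3) (hij : i ≠ j) : TStr (f0 K) :=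
  t0 K (zc i) (zc j) (by
    intro a b h1 h2 h3
    obtain ⟨l, hil, hjl⟩ := exists_third hij
    rw [zc_apply, zc_apply] at h1 h2
    rw [tot_ijl hij hil hjl, tot_ijl hij hil hjl] at h3
    exact ext_ijl hij hil hjl h1 h2 (by omega))

/-- lowest `l`, then highest `p` -/
noncomputable def tL (K : Type*) [Field K] {i j l : Fin 3} (hij : i ≠ j) (hil : i ≠ l)
    (hjl : j ≠ l) (p : Fin 3) (hp : p ≠ l) : TStr (f0 K) :=
  t0 K (zs i j) (zc p) (by
    intro a b h1 h2 h3
    rw [zc_apply, zc_apply] at h2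
    rw [zs_apply, zs_apply] at h1
    rw [tot_ijl hij hil hjl, tot_ijl hij hil hjl] at h3
    have hp' : p = i ∨ p = j := by
      fin_cases i <;> fin_cases j <;> fin_cases l <;> fin_cases p <;> simp_all
    rcases hp' with rfl | rfl
    · exact ext_ijl hij hil hjl h2 (by omega) (by omega)
    · exact ext_ijl hij hil hjl (by omega) h2 (by omega))

section

variable {i j l : Fin 3} (hij : i ≠ j) (hil : i ≠ l) (hjl : j ≠ l)

include hij hil hjl

lemma flip_T : FlipData (tT K l i hil.symm) (tT K l j hjl.symm) i j l where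
  hij := hij
  hil := hil
  hjl := hjl
  hz a := rfl
  hdir := by
    left
    intro a a' _
    change zc l a < zc l a' ↔ _
    rw [zc_apply, zc_apply]
  h1 a a' h h' := by
    rw [tT, t0_A, lexLT_rowHom h]
    simp only [zc_apply]
    omega
  h2 a a' h h' := by
    rw [tT, t0_A, lexLT_rowHom h]
    simp only [zc_apply]
    omega

lemma flip_L : FlipData (tL K hij hil hjl i hil) (tL K hij hil hjl j hjl) i j l where
  hij := hij
  hil := hil
  hjl := hjl
  hz a := rfl
  hdir := by
    right
    intro a a' h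
    change zs i j a < zs i j a' ↔ _
    rw [zs_apply, zs_apply]
    rw [tot_ijl hij hil hjl, tot_ijl hij hil hjl] at h
    omega
  h1 a a' h h' := by
    rw [tL, t0_A, lexLT_rowHom h]
    simp only [zc_apply, zs_apply]
    rw [tot_ijl hij hil hjl, tot_ijl hij hil hjl] at h
    omega
  h2 a a' h h' := by
    rw [tL, t0_A, lexLT_rowHom h]
    simp only [zc_apply, zs_apply]
    rw [tot_ijl hij hil hjl, tot_ijl hij hil hjl] at h
    omega

lemma corner_facts (k : ℕ) : (vc k i) i = 3 * k ∧ (vc k i) j = 0 ∧ (vc k i) l = 0 ∧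
    (vc k l) i = 0 ∧ (vc k l) j = 0 ∧ (vc k l) l = 3 * k := by
  simp [vc, hil, hij.symm, hil.symm, hjl]

lemma ne_corner {k : ℕ} {b : Fin 3 → ℕ} (hb : b ∈ Lk k) (hne : b ≠ vc k i) :
    b i < 3 * k ∧ tot b = tot (vc k i) := by
  have h1 := (mem_Lk_ijl hij hil hjl).mp hb
  obtain ⟨v1, v2, v3, _, _, _⟩ := corner_facts hij hil hjl k
  refine ⟨?_, by rw [tot_of_mem hb, tot_of_mem (vc_mem k i)]⟩
  by_contra hcon
  apply hne
  apply ext_ijl hij hil hjl <;> omega

lemma T_max (k : ℕ) : ∀ b ∈ Lk k, b ≠ vc k i →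
    lexLT ((tT K i j hij).A b) ((tT K i j hij).A (vc k i)) := by
  intro b hb hne
  obtain ⟨h1, h2⟩ := ne_corner hij hil hjl hb hne
  obtain ⟨v1, v2, v3, _, _, _⟩ := corner_facts hij hil hjl k
  rw [tT, t0_A, lexLT_rowHom h2]
  simp only [zc_apply]
  omega

lemma T_min (k : ℕ) : ∀ b ∈ Lk k, b ≠ vc k l →
    lexLT ((tT K i j hij).A (vc k l)) ((tT K i j hij).A b) := by
  intro b hb hne
  obtain ⟨h1, h2⟩ := ne_corner hjl.symm hil.symm hij.symm hb hne
  obtain ⟨_, _, _, v1, v2, v3⟩ := corner_facts hij hil hjl k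
  have h3 := (mem_Lk_ijl hij hil hjl).mp hb
  rw [tT, t0_A, lexLT_rowHom h2.symm]
  simp only [zc_apply]
  omega

lemma L_max (k : ℕ) : ∀ b ∈ Lk k, b ≠ vc k i →
    lexLT ((tL K hij hil hjl i hil).A b) ((tL K hij hil hjl i hil).A (vc k i)) := by
  intro b hb hne
  obtain ⟨h1, h2⟩ := ne_corner hij hil hjl hb hne
  obtain ⟨v1, v2, v3, _, _, _⟩ := corner_facts hij hil hjl k
  have h3 := (mem_Lk_ijl hij hil hjl).mp hb
  rw [tL, t0_A, lexLT_rowHom h2]
  simp only [zc_apply, zs_apply]
  omega

lemma L_min (k : ℕ) : ∀ b ∈ Lk k, b ≠ vc k l →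
    lexLT ((tL K hij hil hjl i hil).A (vc k l)) ((tL K hij hil hjl i hil).A b) := by
  intro b hb hne
  obtain ⟨h1, h2⟩ := ne_corner hjl.symm hil.symm hij.symm hb hne
  obtain ⟨_, _, _, v1, v2, v3⟩ := corner_facts hij hil hjl k
  have h3 := (mem_Lk_ijl hij hil hjl).mp hb
  rw [tL, t0_A, lexLT_rowHom h2.symm]
  simp only [zc_apply, zs_apply]
  omega

end

lemma tL_comm {i j l : Fin 3} (hij : i ≠ j) (hil : i ≠ l) (hjl : j ≠ l) (p : Fin 3)
    (hp : p ≠ l) : (tL K hij hil hjl p hp).A = (tL K hij.symm hjl hil p hp).A := by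
  rw [tL, tL, t0_A, t0_A]
  have : zs i j = zs j i := by
    ext a; rw [zs, zs, add_comm]
  rw [this]

section bad

variable {k N : ℕ} (s : Module.Basis (Fin N) K (sec (f0 K) k)) (r : Fin N → ℕ) (hk : 1 ≤ k)
  (hb : Bad (f0 K) k (fun i => (s i : CRing (f0 K))) r)

include hk hb

lemma GG_right {i j l : Fin 3} (hij : i ≠ j) (hil : i ≠ l) (hjl : j ≠ l) (m : Fin 3) :
    (tT K l i hil.symm).GG k (fun i => (s i : CRing (f0 K))) r m =
      (tT K l j hjl.symm).GG k (fun i => (s i : CRing (f0 K))) r m :=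
  (flip_T hij hil hjl).flip s r f0_homog f0_ne_zero hk hb m

lemma GG_TL {i j l : Fin 3} (hij : i ≠ j) (hil : i ≠ l) (hjl : j ≠ l) (m : Fin 3) :
    (tT K i j hij).GG k (fun i => (s i : CRing (f0 K))) r m =
      (tL K hij hil hjl i hil).GG k (fun i => (s i : CRing (f0 K))) r m :=
  TStr.GG_eq_of_type _ _ s r f0_homog f0_ne_zero hk hb hij hil hjl
    (T_max hij hil hjl k) (L_max hij hil hjl k) (T_min hij hil hjl k) (L_min hij hil hjl k) m

lemma GG_TL' {i j l : Fin 3} (hij : i ≠ j) (hil : i ≠ l) (hjl : j ≠ l) (m : Fin 3) :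
    (tT K j i hij.symm).GG k (fun i => (s i : CRing (f0 K))) r m =
      (tL K hij hil hjl j hjl).GG k (fun i => (s i : CRing (f0 K))) r m := by
  refine TStr.GG_eq_of_type _ _ s r f0_homog f0_ne_zero hk hb hij.symm hjl hil
    (T_max hij.symm hjl hil k) ?_ (T_min hij.symm hjl hil k) ?_ m
  · rw [tL_comm]; exact L_max hij.symm hjl hil k
  · rw [tL_comm]; exact L_min hij.symm hjl hil k

lemma GG_swap {i j : Fin 3} (hij : i ≠ j) (m : Fin 3) :
    (tT K i j hij).GG k (fun i => (s i : CRing (f0 K))) r m =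
      (tT K j i hij.symm).GG k (fun i => (s i : CRing (f0 K))) r m := by
  obtain ⟨l, hil, hjl⟩ := exists_third hij
  rw [GG_TL s r hk hb hij hil hjl, GG_TL' s r hk hb hij hil hjl]
  exact (flip_L hij hil hjl).flip s r f0_homog f0_ne_zero hk hb m

lemma GG_all {i j : Fin 3} (hij : i ≠ j) (m : Fin 3) :
    (tT K i j hij).GG k (fun i => (s i : CRing (f0 K))) r m =
      (tT K 0 1 (by decide)).GG k (fun i => (s i : CRing (f0 K))) r m := by
  have h1 := GG_swap s r hk hb (i := 0) (j := 1) (by decide) m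
  have h2 := GG_right s r hk hb (i := 0) (j := 2) (l := 1) (by decide) (by decide) (by decide) m
  have h3 := GG_swap s r hk hb (i := 1) (j := 2) (by decide) m
  have h4 := GG_right s r hk hb (i := 1) (j := 0) (l := 2) (by decide) (by decide) (by decide) m
  have h5 := GG_swap s r hk hb (i := 2) (j := 0) (by decide) m
  fin_cases i <;> fin_cases j
  · exact absurd rfl hij
  · rfl
  · exact (h1.trans (h2.trans (h3.trans (h4.trans h5)))).symm
  · exact h1.symm
  · exact absurd rfl hij
  · exact (h1.trans h2).symm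
  · exact (h1.trans (h2.trans (h3.trans h4))).symm
  · exact (h1.trans (h2.trans h3)).symm
  · exact absurd rfl hij

end bad

/-- sorting three numbers that are not all equal -/
lemma exists_sorted (G : Fin 3 → ℕ) (h : ∃ a b, G a ≠ G b) : ∃ i j l : Fin 3, i ≠ j ∧ i ≠ l ∧
    j ≠ l ∧ G i ≤ G j ∧ G j ≤ G l ∧ G i < G l := by
  have h' : ¬ (G 0 = G 1 ∧ G 1 = G 2) := by
    rintro ⟨h1, h2⟩
    obtain ⟨a, b, hab⟩ := h
    apply hab
    fin_cases a <;> fin_cases b <;> simp <;> omega
  rcases le_total (G 0) (G 1) with h1 | h1 <;> rcases le_total (G 1) (G 2) with h2 | h2 <;>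
    rcases le_total (G 0) (G 2) with h3 | h3
  · exact ⟨0, 1, 2, by decide, by decide, by decide, h1, h2, by omega⟩
  · exact ⟨0, 1, 2, by decide, by decide, by decide, h1, h2, by omega⟩
  · exact ⟨0, 2, 1, by decide, by decide, by decide, h3, h2, by omega⟩
  · exact ⟨2, 0, 1, by decide, by decide, by decide, h3, h1, by omega⟩
  · exact ⟨1, 0, 2, by decide, by decide, by decide, h1, h3, by omega⟩
  · exact ⟨1, 2, 0, by decide, by decide, by decide, h2, h3, by omega⟩
  · exact ⟨2, 1, 0, by decide, by decide, by decide, h2, h1, by omega⟩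
  · exact ⟨2, 1, 0, by decide, by decide, by decide, h2, h1, by omega⟩

/-- the final order: the first row is `c`, decreasing along `i, j, l` -/
lemma exists_final (K : Type*) [Field K] {i j l : Fin 3} (hij : i ≠ j) (hil : i ≠ l)
    (hjl : j ≠ l) (c : Fin 3 → ℕ) (h1 : c j ≤ c i) (h2 : c l ≤ c j) (h3 : c l < c i) :
    ∃ t : TStr (f0 K), (∀ a, (t.A a) 0 = c i * a i + c j * a j + c l * a l) ∧
      (∀ k, ∀ b ∈ Lk k, b ≠ vc k i → lexLT (t.A b) (t.A (vc k i))) ∧
      (∀ k, ∀ b ∈ Lk k, b ≠ vc k l → lexLT (t.A (vc k l)) (t.A b)) := by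
  have key : ∀ p : Fin 3, (p = i ∧ c l < c j ∨ p = j ∧ c l = c j) →
      ∃ t : TStr (f0 K), t.A = rowHom (linHom c) (zc p) := by
    intro p hp
    refine ⟨t0 K (linHom c) (zc p) ?_, rfl⟩
    intro a b e1 e2 e3
    rw [linHom_ijl hij hil hjl, linHom_ijl hij hil hjl] at e1
    rw [zc_apply, zc_apply] at e2
    rw [tot_ijl hij hil hjl, tot_ijl hij hil hjl] at e3
    obtain ⟨x, hx⟩ := Nat.exists_eq_add_of_le h2
    obtain ⟨y, hy⟩ := Nat.exists_eq_add_of_le h1
    rcases hp with ⟨rfl, hp⟩ | ⟨rfl, hp⟩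
    · have hxpos : 0 < x := by omega
      rw [hy, hx] at e1
      have e5 : a j + a l = b j + b l := by omega
      have e6 : x * a j = x * b j := by
        rw [e2] at e1; nlinarith
      have e7 := Nat.eq_of_mul_eq_mul_left hxpos e6
      exact ext_ijl hij hil hjl e2 e7 (by omega)
    · have hx0 : x = 0 := by omega
      subst hx0
      have hypos : 0 < y := by omega
      rw [hy, hx] at e1
      have e5 : a i + a l = b i + b l := by omega
      have e6 : y * a i = y * b i := by
        rw [e2] at e1; nlinarith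
      have e7 := Nat.eq_of_mul_eq_mul_left hypos e6
      exact ext_ijl hij hil hjl e7 e2 (by omega)
  obtain ⟨p, hp⟩ : ∃ p : Fin 3, (p = i ∧ c l < c j ∨ p = j ∧ c l = c j) := by
    rcases Nat.lt_or_eq_of_le h2 with h | h
    · exact ⟨i, Or.inl ⟨rfl, h⟩⟩
    · exact ⟨j, Or.inr ⟨rfl, h⟩⟩
  obtain ⟨t, ht⟩ := key p hp
  obtain ⟨x, hx⟩ := Nat.exists_eq_add_of_le h2
  obtain ⟨y, hy⟩ := Nat.exists_eq_add_of_le h1
  refine ⟨t, fun a => ?_, fun k b hb hne => ?_, fun k b hb hne => ?_⟩
  · rw [ht]; exact linHom_ijl hij hil hjl c a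
  · obtain ⟨b1, b2⟩ := ne_corner hij hil hjl hb hne
    obtain ⟨v1, v2, v3, _, _, _⟩ := corner_facts hij hil hjl k
    have b3 := (mem_Lk_ijl hij hil hjl).mp hb
    rw [ht, lexLT_rowHom b2, linHom_ijl hij hil hjl, linHom_ijl hij hil hjl, zc_apply, zc_apply,
      v1, v2, v3, hy, hx, ← b3.1]
    have e : (c l + x + y) * (b i + b j + b l) + (c l + x) * 0 + c l * 0 =
      ((c l + x + y) * b i + (c l + x) * b j + c l * b l) + (y * b j + (x + y) * b l) := by ring
    rw [e]
    rcases Nat.eq_zero_or_pos (y * b j + (x + y) * b l) with h0 | h0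
    · have hl0 : b l = 0 := by
        have : (x + y) * b l = 0 := by omega
        rcases Nat.mul_eq_zero.mp this with h | h
        · omega
        · exact h
      have hj0 : y * b j = 0 := by omega
      right
      refine ⟨by omega, ?_⟩
      rcases hp with ⟨rfl, hp⟩ | ⟨rfl, hp⟩
      · rw [v1]; exact b1
      · exfalso
        have : b p = 0 := by
          rcases Nat.mul_eq_zero.mp hj0 with h | h
          · omega
          · exact h
        omega
    · left; omega
  · obtain ⟨b1, b2⟩ := ne_corner hjl.symm hil.symm hij.symm hb hne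
    obtain ⟨_, _, _, v1, v2, v3⟩ := corner_facts hij hil hjl k
    have b3 := (mem_Lk_ijl hij hil hjl).mp hb
    rw [ht, lexLT_rowHom b2.symm, linHom_ijl hij hil hjl, linHom_ijl hij hil hjl, zc_apply,
      zc_apply, v1, v2, v3, hy, hx, ← b3.1]
    have e : (c l + x + y) * b i + (c l + x) * b j + c l * b l =
      ((c l + x + y) * 0 + (c l + x) * 0 + c l * (b i + b j + b l)) +
        ((x + y) * b i + x * b j) := by ring
    rw [e]
    rcases Nat.eq_zero_or_pos ((x + y) * b i + x * b j) with h0 | h0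
    · have hi0 : b i = 0 := by
        have : (x + y) * b i = 0 := by omega
        rcases Nat.mul_eq_zero.mp this with h | h
        · omega
        · exact h
      have hj0 : x * b j = 0 := by omega
      right
      refine ⟨by omega, ?_⟩
      rcases hp with ⟨rfl, hp⟩ | ⟨rfl, hp⟩
      · exfalso
        have : b j = 0 := by
          rcases Nat.mul_eq_zero.mp hj0 with h | h
          · omega
          · exact h
        omega
      · rw [v2]; omega
    · left; omega

lemma LT_zero_le {p q : Fin 3 → ℕ} (h : lexLT p q) : p 0 ≤ q 0 := by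
  rcases h with h | h
  · exact h.le
  · exact h.1.le

/-- filtrations of Chow weight zero on the toric cubic surface are monomial, and given by an
affine function -/
theorem claimB {k N : ℕ} (s : Module.Basis (Fin N) K (sec (f0 K) k)) (r : Fin N → ℕ)
    (hk : 1 ≤ k) (hb : Bad (f0 K) k (fun i => (s i : CRing (f0 K))) r)
    (hr : ∃ i j, r i ≠ r j) :
    ∃ (G : Fin 3 → ℕ) (η : (Fin 3 → ℕ) → ℕ),
      (∀ a ∈ Lk k, 3 * k * η a = ∑ m, a m * G m) ∧
      (∑ a ∈ Lk k, η a = ∑ i, r i) ∧
      (∀ l, (univ.filter fun i => l ≤ r i).card = ((Lk k).filter fun a => l ≤ η a).card) ∧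
      ∀ l, chowFil (f0 K) (fun i => (s i : CRing (f0 K))) r 1 l =
        Submodule.span K (bm (f0 K) '' {a | a ∈ Lk k ∧ l ≤ η a}) := by
  classical
  set S := fun i => (s i : CRing (f0 K)) with hS
  set t := tT K 0 1 (by decide) with ht
  have haff := fun a (ha : a ∈ Lk k) => t.affine s r f0_homog f0_ne_zero hk hb ha
  have hcard := t.card_level s r f0_homog f0_ne_zero hk hb
  have hsum := (t.equality s r f0_homog f0_ne_zero hk hb).1
  refine ⟨t.GG k S r, t.gg S r, haff, hsum, hcard, ?_⟩
  intro l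
  -- the corner values are not all equal
  have hG : ∃ a b, t.GG k S r a ≠ t.GG k S r b := by
    by_contra hcon
    push Not at hcon
    obtain ⟨i, j, hij⟩ := hr
    have hconst : ∀ a ∈ Lk k, t.gg S r a = t.GG k S r 0 := by
      intro a ha
      have h1 := haff a ha
      rw [Fin.sum_univ_three, hcon 1 0, hcon 2 0, ← add_mul, ← add_mul,
        sum_of_mem_Lk ha] at h1
      exact Nat.eq_of_mul_eq_mul_left (by omega) h1
    wlog hlt : r i < r j generalizing i j
    · exact this j i hij.symm (by omega)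
    have h2 := hcard (r j)
    have h3 : ((Lk k).filter fun a => r j ≤ t.gg S r a) = ∅ ∨
        ((Lk k).filter fun a => r j ≤ t.gg S r a) = Lk k := by
      by_cases h : r j ≤ t.GG k S r 0
      · right; rw [filter_eq_self]; intro a ha; rw [hconst a ha]; exact h
      · left; rw [filter_eq_empty_iff]; intro a ha; rw [hconst a ha]; exact h
    have h4 : j ∈ univ.filter fun a => r j ≤ r a := by simp
    have h5 : i ∉ univ.filter fun a => r j ≤ r a := by simp; omega
    rcases h3 with h3 | h3
    · rw [h3, card_empty] at h2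
      exact absurd (card_eq_zero.mp h2) (ne_empty_of_mem h4)
    · rw [h3] at h2
      have h6 := card_Lk k
      have h7 := TStr.two_N f0_homog f0_ne_zero s
      have h8 : (univ.filter fun a => r j ≤ r a).card = (univ : Finset (Fin N)).card := by
        rw [h2, card_univ, Fintype.card_fin]; omega
      have := (card_eq_iff_eq_univ _).mp (h8.trans card_univ)
      rw [this] at h5
      exact h5 (mem_univ i)
  obtain ⟨i, j, l', hij, hil, hjl, g1, g2, g3⟩ := exists_sorted _ hG
  obtain ⟨tF, hF0, hFmax, hFmin⟩ := exists_final K hij hil hjl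
    (fun m => t.GG k S r l' - t.GG k S r m) (by omega) (by omega) (by omega)
  have hFG : ∀ m, tF.GG k S r m = t.GG k S r m := by
    intro m
    rw [← GG_all s r hk hb hij m]
    exact TStr.GG_eq_of_type _ _ s r f0_homog f0_ne_zero hk hb hij hil hjl (hFmax k)
      (T_max hij hil hjl k) (hFmin k) (T_min hij hil hjl k) m
  have hle : chowFil (f0 K) S r 1 l ≤
      Submodule.span K (bm (f0 K) '' {a | a ∈ Lk k ∧ l ≤ t.gg S r a}) := by
    intro y hy
    by_cases hy0 : y = 0
    · rw [hy0]; exact Submodule.zero_mem _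
    have hsec := chowFil_one_le_sec s r l hy
    obtain ⟨c, hc⟩ := tF.exists_coord f0_homog f0_ne_zero hsec
    obtain ⟨b, hbL, hlb⟩ := tF.psi_ne f0_homog f0_ne_zero hsec hy0
    have hstar := tF.star s r f0_homog f0_ne_zero hk hb le_rfl ⟨y, hy, hlb⟩
    have e1 : ∑ m, b m * tF.GG k (fun i => (s i : CRing (f0 K))) r m =
        ∑ m, b m * t.GG k S r m := sum_congr rfl fun m _ => by rw [← hFG m]
    rw [e1] at hstar
    rw [hc] at hlb ⊢
    obtain ⟨o1, o2, o3⟩ := tF.of_LD c hlb
    apply Submodule.sum_mem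
    intro a ha
    by_cases hca : c a = 0
    · rw [hca, zero_smul]; exact Submodule.zero_mem _
    apply Submodule.smul_mem
    apply Submodule.subset_span
    refine ⟨a, ⟨ha, ?_⟩, rfl⟩
    have h1 : (tF.A a) 0 ≤ (tF.A b) 0 := by
      by_cases hab : a = b
      · rw [hab]
      · exact LT_zero_le (o3 a ha hca hab)
    rw [hF0, hF0] at h1
    have h2 := haff a ha
    rw [sum_ijl hij hil hjl] at h2 hstar
    have s1 := (mem_Lk_ijl hij hil hjl).mp ha
    have s2 := (mem_Lk_ijl hij hil hjl).mp hbL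
    change 3 * k * t.gg S r a = a i * t.GG k S r i + a j * t.GG k S r j +
      a l' * t.GG k S r l' at h2
    obtain ⟨p, hp⟩ := Nat.exists_eq_add_of_le g2
    obtain ⟨q, hq⟩ := Nat.exists_eq_add_of_le g1
    have d1 : t.GG k S r l' - t.GG k S r i = p + q := by omega
    have d2 : t.GG k S r l' - t.GG k S r j = p := by omega
    have d3 : t.GG k S r l' - t.GG k S r l' = 0 := by omega
    rw [d1, d2, d3] at h1
    rw [hp, hq] at h2 hstar
    have h5 : 3 * k * l ≤ 3 * k * t.gg S r a := by
      rw [h2]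
      refine hstar.trans ?_
      have e3 : b i * t.GG k S r i + b j * (t.GG k S r i + q) +
          b l' * (t.GG k S r i + q + p) + ((p + q) * b i + p * b j) =
          3 * k * (t.GG k S r i + q + p) := by rw [← s2.1]; ring
      have e4 : a i * t.GG k S r i + a j * (t.GG k S r i + q) +
          a l' * (t.GG k S r i + q + p) + ((p + q) * a i + p * a j) =
          3 * k * (t.GG k S r i + q + p) := by rw [← s1.1]; ring
      omega
    exact Nat.le_of_mul_le_mul_left h5 (by omega)
  have hfin : Module.Finite K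
      (Submodule.span K (bm (f0 K) '' {a | a ∈ Lk k ∧ l ≤ t.gg S r a})) :=
    Module.Finite.span_of_finite K (Set.Finite.image _
      (Set.Finite.subset (Lk k).finite_toSet (fun a ha => ha.1)))
  apply Submodule.eq_of_le_of_finrank_le hle
  rw [finrank_chowFil_one s r l, hcard l]
  have h1 : (bm (f0 K) '' {a | a ∈ Lk k ∧ l ≤ t.gg S r a}) =
      ((((Lk k).filter fun a => l ≤ t.gg S r a).image (bm (f0 K)) : Finset _) :
        Set (CRing (f0 K))) := by
    ext x
    simp only [Set.mem_image, Set.mem_ofPred_eq, coe_image, coe_filter]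
  rw [h1]
  exact (finrank_span_finset_le_card _).trans card_image_le

end Pool.Agent.Helper223
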