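import Pool.Agent.Helper223_Chow.Expand

/-! Normal form of a GIT semistable, not stable cubic form. -/

open MvPolynomial Finset

namespace Pool.Agent.Helper223

variable {K : Type*} [Field K]

/-- weight of the `i`-th cubic monomial -/
def tw (a : Fin 4 → ℤ) (i : Fin 20) : ℤ := ∑ j, a j * (tab i j : ℤ)

lemma sum_fs_tab (a : Fin 4 → ℤ) (i : Fin 20) :
    ∑ j, a j * ((fs (tab i) j : ℕ) : ℤ) = tw a i := rfl

/-- case distinction for the support of a non-stable form -/
lemma cls1 (c : Fin 20 → K) (a : Fin 4 → ℤ) (hs : a 0 + a 1 + a 2 + a 3 = 0)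
    (h01 : a 1 ≤ a 0) (h12 : a 2 ≤ a 1) (h23 : a 3 ≤ a 2) (hne : a 3 < a 0)
    (h : ∀ i, c i ≠ 0 → 0 ≤ tw a i) :
    (∀ i ∈ ({9, 12, 14, 15, 17, 18, 19} : Finset (Fin 20)), c i = 0) ∨
    (∀ i ∈ ({8, 9, 14, 15, 17, 18, 19} : Finset (Fin 20)), c i = 0) ∨
    (∀ i ∈ ({11, 12, 13, 14, 15, 16, 17, 18, 19} : Finset (Fin 20)), c i = 0) := by
  by_cases h1 : 0 ≤ 2 * a 1 + a 3
  · right; left
    intro i hi
    by_contra hc
    have := h i hc
    simp only [mem_insert, mem_singleton] at hi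
    simp only [tw, Fin.sum_univ_four] at this
    rcases hi with rfl | rfl | rfl | rfl | rfl | rfl | rfl <;> simp [tab] at this <;> omega
  · by_cases h2 : 0 ≤ a 0 + 2 * a 3
    · right; right
      intro i hi
      by_contra hc
      have := h i hc
      simp only [mem_insert, mem_singleton] at hi
      simp only [tw, Fin.sum_univ_four] at this
      rcases hi with rfl | rfl | rfl | rfl | rfl | rfl | rfl | rfl | rfl <;>
        simp [tab] at this <;> omega
    · left
      intro i hi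
      by_contra hc
      have := h i hc
      simp only [mem_insert, mem_singleton] at hi
      simp only [tw, Fin.sum_univ_four] at this
      rcases hi with rfl | rfl | rfl | rfl | rfl | rfl | rfl <;> simp [tab] at this <;> omega

/-- binary quadratic forms have a zero -/
lemma exists_zero_quad [IsAlgClosed K] (A B C : K) :
    ∃ u v : K, (u ≠ 0 ∨ v ≠ 0) ∧ A * u ^ 2 + B * (u * v) + C * v ^ 2 = 0 := by
  by_cases hA : A = 0
  · exact ⟨1, 0, Or.inl one_ne_zero, by rw [hA]; ring⟩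
  · obtain ⟨u, hu⟩ := IsAlgClosed.exists_root
      (Polynomial.C A * Polynomial.X ^ 2 + Polynomial.C B * Polynomial.X + Polynomial.C C)
      (by rw [Polynomial.degree_quadratic hA]; exact two_ne_zero)
    refine ⟨u, 1, Or.inr one_ne_zero, ?_⟩
    simp only [Polynomial.IsRoot, Polynomial.eval_add, Polynomial.eval_mul, Polynomial.eval_C,
      Polynomial.eval_pow, Polynomial.eval_X] at hu
    linear_combination hu

lemma exists_complement {u v : K} (h : u ≠ 0 ∨ v ≠ 0) : ∃ p r : K, p * v - u * r ≠ 0 := by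
  by_cases hv : v = 0
  · refine ⟨0, 1, ?_⟩
    rcases h with h | h
    · simpa using h
    · exact absurd hv h
  · exact ⟨1, 0, by simpa using hv⟩

/-- `F` is obtained from `f` by an invertible linear substitution -/
def LinEq (f F : MvPolynomial (Fin 4) K) : Prop :=
  ∃ g : Matrix (Fin 4) (Fin 4) K, IsUnit g.det ∧ F = lsubst g f

lemma LinEq.step {f F : MvPolynomial (Fin 4) K} (h : LinEq f F)
    (g : Matrix (Fin 4) (Fin 4) K) (hg : IsUnit g.det) : LinEq f (lsubst g F) := by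
  obtain ⟨g', hg', rfl⟩ := h
  exact ⟨g' * g, by rw [Matrix.det_mul]; exact hg'.mul hg, lsubst_comp _ _ _⟩

/-- semistability excludes supports of positive weight -/
lemma no_positive {f : MvPolynomial (Fin 4) K} (hs : GITSemistable f) {c : Fin 20 → K}
    (h : LinEq f (P20 c)) (a : Fin 4 → ℤ) (ha : ∑ i, a i = 0) :
    ∃ i, c i ≠ 0 ∧ tw a i ≤ 0 := by
  obtain ⟨g, hg, hF⟩ := h
  obtain ⟨m, hm, hm2⟩ := hs g hg a ha
  rw [← hF] at hm
  obtain ⟨i, hi, rfl⟩ := mem_support_P20 hm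
  exact ⟨i, hi, hm2⟩

/-- condition A -/
def CondA (c : Fin 20 → K) : Prop :=
  c 9 = 0 ∧ c 12 = 0 ∧ c 14 = 0 ∧ c 15 = 0 ∧ c 17 = 0 ∧ c 18 = 0 ∧ c 19 = 0

lemma caseB [IsAlgClosed K] {f : MvPolynomial (Fin 4) K} {c : Fin 20 → K}
    (h : LinEq f (P20 c))
    (hc : ∀ i ∈ ({8, 9, 14, 15, 17, 18, 19} : Finset (Fin 20)), c i = 0) :
    ∃ c', LinEq f (P20 c') ∧ CondA c' := by
  obtain ⟨u, v, huv, h0⟩ := exists_zero_quad (c 3) (c 6) (c 12)
  obtain ⟨p, r, hdet⟩ := exists_complement huv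
  have h1 := h.step (mx01 p u r v) (by rw [mx01_det]; exact isUnit_iff_ne_zero.mpr hdet)
  rw [mx01_P20] at h1
  refine ⟨_, h1, ?_⟩
  have e8 := hc 8 (by decide)
  have e9 := hc 9 (by decide)
  have e14 := hc 14 (by decide)
  have e15 := hc 15 (by decide)
  have e17 := hc 17 (by decide)
  have e18 := hc 18 (by decide)
  have e19 := hc 19 (by decide)
  refine ⟨?_, ?_, ?_, ?_, ?_, ?_, ?_⟩ <;> simp only [Matrix.cons_val] <;>
    try simp only [e8, e9, e14, e15, e17, e18, e19, zero_mul, add_zero]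
  exact h0

lemma caseC [IsAlgClosed K] {f : MvPolynomial (Fin 4) K} {c : Fin 20 → K}
    (h : LinEq f (P20 c))
    (hc : ∀ i ∈ ({11, 12, 13, 14, 15, 16, 17, 18, 19} : Finset (Fin 20)), c i = 0) :
    ∃ c', LinEq f (P20 c') ∧ CondA c' := by
  obtain ⟨u, v, huv, h0⟩ := exists_zero_quad (c 7) (c 8) (c 9)
  obtain ⟨p, r, hdet⟩ := exists_complement huv
  have h1 := h.step (mx23 p u r v) (by rw [mx23_det]; exact isUnit_iff_ne_zero.mpr hdet)
  rw [mx23_P20] at h1
  refine ⟨_, h1, ?_⟩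
  have e11 := hc 11 (by decide)
  have e12 := hc 12 (by decide)
  have e13 := hc 13 (by decide)
  have e14 := hc 14 (by decide)
  have e15 := hc 15 (by decide)
  have e16 := hc 16 (by decide)
  have e17 := hc 17 (by decide)
  have e18 := hc 18 (by decide)
  have e19 := hc 19 (by decide)
  refine ⟨?_, ?_, ?_, ?_, ?_, ?_, ?_⟩ <;> simp only [Matrix.cons_val] <;>
    try simp only [e11, e12, e13, e14, e15, e16, e17, e18, e19, zero_mul, add_zero]
  exact h0

/-- the normal form -/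
def CondN (c : Fin 20 → K) : Prop := CondA c ∧ c 8 = 0 ∧ c 6 ≠ 0 ∧ c 16 ≠ 0

lemma ne_zero_16 {f : MvPolynomial (Fin 4) K} (hs : GITSemistable f) {c : Fin 20 → K}
    (h : LinEq f (P20 c)) (hc : CondA c) (h8 : c 8 = 0) : c 16 ≠ 0 := by
  obtain ⟨e9, e12, e14, e15, e17, e18, e19⟩ := hc
  intro h16
  obtain ⟨i, hi, hw⟩ := no_positive hs h ![4, 4, -1, -7] (by simp [Fin.sum_univ_four])
  fin_cases i <;> simp_all [tw, tab, Fin.sum_univ_four]

lemma caseA {f : MvPolynomial (Fin 4) K} (hs : GITSemistable f) {c : Fin 20 → K}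
    (h : LinEq f (P20 c)) (hc : CondA c) :
    ∃ c', LinEq f (P20 c') ∧ CondN c' := by
  obtain ⟨e9, e12, e14, e15, e17, e18, e19⟩ := hc
  have hne : c 6 ≠ 0 ∨ c 8 ≠ 0 := by
    by_contra hcon
    push Not at hcon
    obtain ⟨i, hi, hw⟩ := no_positive hs h ![3, 1, 1, -5] (by simp [Fin.sum_univ_four])
    obtain ⟨e6, e8⟩ := hcon
    fin_cases i <;> simp_all [tw, tab, Fin.sum_univ_four]
  obtain ⟨p, r, hpr⟩ : ∃ p r : K, c 6 * p + c 8 * r ≠ 0 := by
    rcases hne with h6 | h8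
    · exact ⟨1, 0, by simpa using h6⟩
    · exact ⟨0, 1, by simpa using h8⟩
  have h1 := h.step (mx12 p (-c 8) r (c 6)) (by
    rw [mx12_det]; apply isUnit_iff_ne_zero.mpr
    intro h0; apply hpr; linear_combination h0)
  rw [mx12_P20] at h1
  have hA : CondA ![c 0, c 1 * p + c 2 * r, c 1 * -c 8 + c 2 * c 6, c 3,
      c 4 * p ^ 2 + c 5 * (p * r) + c 7 * r ^ 2,
      c 4 * (2 * p * -c 8) + c 5 * (-c 8 * r + p * c 6) + c 7 * (2 * r * c 6),
      c 6 * p + c 8 * r,
      c 4 * (-c 8) ^ 2 + c 5 * (-c 8 * c 6) + c 7 * c 6 ^ 2, c 6 * -c 8 + c 8 * c 6, c 9,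
      c 10 * p ^ 3 + c 11 * (p ^ 2 * r) + c 13 * (p * r ^ 2) + c 16 * r ^ 3,
      c 10 * (3 * p ^ 2 * -c 8) + c 11 * (2 * p * -c 8 * r + p ^ 2 * c 6) +
        c 13 * (-c 8 * r ^ 2 + 2 * p * r * c 6) + c 16 * (3 * r ^ 2 * c 6),
      c 12 * p ^ 2 + c 14 * (p * r) + c 17 * r ^ 2,
      c 10 * (3 * p * (-c 8) ^ 2) + c 11 * ((-c 8) ^ 2 * r + 2 * p * -c 8 * c 6) +
            c 13 * (2 * -c 8 * r * c 6 + p * c 6 ^ 2) + c 16 * (3 * r * c 6 ^ 2),
      c 12 * (2 * p * -c 8) + c 14 * (-c 8 * r + p * c 6) + c 17 * (2 * r * c 6),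
      c 15 * p + c 18 * r,
      c 10 * (-c 8) ^ 3 + c 11 * ((-c 8) ^ 2 * c 6) + c 13 * (-c 8 * c 6 ^ 2) + c 16 * c 6 ^ 3,
      c 12 * (-c 8) ^ 2 + c 14 * (-c 8 * c 6) + c 17 * c 6 ^ 2, c 15 * -c 8 + c 18 * c 6,
      c 19] := by
    refine ⟨?_, ?_, ?_, ?_, ?_, ?_, ?_⟩
    · simp only [Matrix.cons_val, e9]
    · simp only [Matrix.cons_val, e12, e14, e17, zero_mul, add_zero]
    · simp only [Matrix.cons_val, e12, e14, e17, zero_mul, add_zero]
    · simp only [Matrix.cons_val, e15, e18, zero_mul, add_zero]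
    · simp only [Matrix.cons_val, e12, e14, e17, zero_mul, add_zero]
    · simp only [Matrix.cons_val, e15, e18, zero_mul, add_zero]
    · simp only [Matrix.cons_val, e19]
  refine ⟨_, h1, hA, ?_, ?_, ne_zero_16 hs h1 hA ?_⟩
  · simp only [Matrix.cons_val]; ring
  · simp only [Matrix.cons_val]; exact hpr
  · simp only [Matrix.cons_val]; ring

/-- permutation matrices realise renamings -/
lemma lsubst_perm (σ : Equiv.Perm (Fin 4)) (F : MvPolynomial (Fin 4) K) :
    lsubst (σ.permMatrix K) F = rename σ F := by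
  have : lsubst (σ.permMatrix K) = rename σ := by
    apply algHom_ext
    intro i
    rw [lsubst_X, rename_X, Finset.sum_eq_single (σ i)]
    · simp [Equiv.Perm.permMatrix, PEquiv.toMatrix_apply]
    · intro j _ hj
      simp [Equiv.Perm.permMatrix, PEquiv.toMatrix_apply, hj.symm]
    · intro h; exact absurd (mem_univ _) h
  rw [this]

/-- A form that is GIT semistable but not GIT stable has the normal form `CondN`. -/
theorem normal_form [IsAlgClosed K] {f : MvPolynomial (Fin 4) K} (hf : f.IsHomogeneous 3)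
    (hs : GITSemistable f) (hns : ¬ GITStable f) :
    ∃ c, LinEq f (P20 c) ∧ CondN c := by
  classical
  unfold GITStable at hns
  push Not at hns
  obtain ⟨g, hg, a, ha, ha0, hw⟩ := hns
  -- sort the weights
  let τ : Equiv.Perm (Fin 4) := Tuple.sort (fun i => -a i)
  have hmono : Monotone ((fun i => -a i) ∘ τ) := Tuple.monotone_sort _
  have hmono' : ∀ i j, i ≤ j → a (τ j) ≤ a (τ i) := fun i j hij => by
    have := hmono hij
    simp only [Function.comp] at this
    omega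
  have hdet : IsUnit ((τ⁻¹).permMatrix K).det := by
    rw [Matrix.det_permutation]
    rcases Int.units_eq_one_or (Equiv.Perm.sign τ⁻¹) with h | h <;> rw [h] <;> simp
  have h1 : LinEq f (lsubst ((τ⁻¹).permMatrix K) (lsubst g f)) :=
    LinEq.step ⟨g, hg, rfl⟩ _ hdet
  have hF := lsubst_homog g hf
  have hG := lsubst_homog ((τ⁻¹).permMatrix K) hF
  rw [expand hG] at h1
  have hsup : ∀ m ∈ (lsubst ((τ⁻¹).permMatrix K) (lsubst g f)).support,
      0 ≤ ∑ i, a (τ i) * (m i : ℤ) := by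
    intro m hm
    rw [lsubst_perm, support_rename_of_injective (τ⁻¹).injective, mem_image] at hm
    obtain ⟨m', hm', rfl⟩ := hm
    have h2 := hw m' hm'
    rw [← Equiv.sum_comp τ] at h2
    refine h2.trans (le_of_eq ?_)
    apply sum_congr rfl
    intro i _
    congr 2
    have : i = τ⁻¹ (τ i) := by simp
    conv_rhs => rw [this]
    rw [Finsupp.mapDomain_apply (τ⁻¹).injective]
  obtain ⟨c, hc⟩ : ∃ c : Fin 20 → K, c = fun i => coeff (fs (tab i))
    (lsubst ((τ⁻¹).permMatrix K) (lsubst g f)) := ⟨_, rfl⟩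
  rw [← hc] at h1
  have hcw : ∀ i, c i ≠ 0 → 0 ≤ tw (fun j => a (τ j)) i := by
    intro i hi
    rw [← sum_fs_tab]
    apply hsup
    rw [mem_support_iff]
    rw [hc] at hi
    exact hi
  have hsum : a (τ 0) + a (τ 1) + a (τ 2) + a (τ 3) = 0 := by
    rw [← Fin.sum_univ_four (fun j => a (τ j)), Equiv.sum_comp τ a, ha]
  have hne : a (τ 3) < a (τ 0) := by
    by_contra hcon
    apply ha0
    have h01 := hmono' 0 1 (by decide)
    have h12 := hmono' 1 2 (by decide)
    have h23 := hmono' 2 3 (by decide)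
    have : ∀ j, a (τ j) = 0 := by
      intro j
      fin_cases j <;> simp <;> omega
    funext i
    have h3 := this (τ⁻¹ i)
    simpa using h3
  rcases cls1 c (fun j => a (τ j)) hsum (hmono' 0 1 (by decide)) (hmono' 1 2 (by decide))
    (hmono' 2 3 (by decide)) hne hcw with h | h | h
  · exact caseA hs h1 ⟨h 9 (by decide), h 12 (by decide), h 14 (by decide), h 15 (by decide),
      h 17 (by decide), h 18 (by decide), h 19 (by decide)⟩
  · obtain ⟨c', h2, h3⟩ := caseB h1 h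
    exact caseA hs h2 h3
  · obtain ⟨c', h2, h3⟩ := caseC h1 h
    exact caseA hs h2 h3

end Pool.Agent.Helper223
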