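import Mathlib

/-! Combinatorics of the triangle with vertices `(3,0,0), (0,3,0), (0,0,3)`. -/

open Finset

namespace Pool.Agent.Helper223

/-- pairs with sum smaller than `n` -/
def Tri (n : ℕ) : Finset (ℕ × ℕ) := (range n ×ˢ range n).filter fun p => p.1 + p.2 < n

lemma mem_Tri {n : ℕ} {p : ℕ × ℕ} : p ∈ Tri n ↔ p.1 + p.2 < n := by
  simp only [Tri, mem_filter, mem_product, mem_range]; omega

lemma sum_Tri {M : Type*} [AddCommMonoid M] (n : ℕ) (f : ℕ → ℕ → M) :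
    ∑ p ∈ Tri n, f p.1 p.2 = ∑ s ∈ range n, ∑ t ∈ range (n - s), f s t := by
  rw [Finset.sum_sigma']
  refine Finset.sum_bij' (fun p _ => ⟨p.1, p.2⟩) (fun x _ => (x.1, x.2)) ?_ ?_ ?_ ?_ ?_
  · intro p hp
    rw [mem_Tri] at hp
    simp only [mem_sigma, mem_range]; omega
  · intro x hx
    simp only [mem_sigma, mem_range] at hx
    rw [mem_Tri]; simp only; omega
  · intro p _; rfl
  · intro x _; rfl
  · intro p _; rfl

lemma Tri_succ_sum {M : Type*} [AddCommMonoid M] (n : ℕ) (f : ℕ → ℕ → M) :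
    ∑ p ∈ Tri (n + 1), f p.1 p.2 =
      ∑ p ∈ Tri n, f p.1 p.2 + ∑ s ∈ range (n + 1), f s (n - s) := by
  rw [sum_Tri, sum_Tri]
  have : ∀ s ∈ range (n + 1), ∑ t ∈ range (n + 1 - s), f s t =
      ∑ t ∈ range (n - s), f s t + f s (n - s) := by
    intro s hs
    have h : n + 1 - s = (n - s) + 1 := by have := mem_range.mp hs; omega
    rw [h, sum_range_succ]
  rw [sum_congr rfl this, sum_add_distrib, sum_range_succ (fun s => ∑ t ∈ range (n - s), f s t)]
  simp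

lemma Tri_succ_sum_row {M : Type*} [AddCommMonoid M] (n : ℕ) (f : ℕ → ℕ → M) :
    ∑ p ∈ Tri (n + 1), f p.1 p.2 =
      ∑ p ∈ Tri n, f p.1 (p.2 + 1) + ∑ s ∈ range (n + 1), f s 0 := by
  rw [sum_Tri, sum_Tri n (fun a b => f a (b + 1))]
  have : ∀ s ∈ range (n + 1), ∑ t ∈ range (n + 1 - s), f s t =
      ∑ t ∈ range (n - s), f s (t + 1) + f s 0 := by
    intro s hs
    have h : n + 1 - s = (n - s) + 1 := by have := mem_range.mp hs; omega
    rw [h, sum_range_succ']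
  rw [sum_congr rfl this, sum_add_distrib,
    sum_range_succ (fun s => ∑ t ∈ range (n - s), f s (t + 1))]
  simp

lemma Tri_succ_sum_col {M : Type*} [AddCommMonoid M] (n : ℕ) (f : ℕ → ℕ → M) :
    ∑ p ∈ Tri (n + 1), f p.1 p.2 =
      ∑ p ∈ Tri n, f (p.1 + 1) p.2 + ∑ t ∈ range (n + 1), f 0 t := by
  rw [sum_Tri, sum_Tri n (fun a b => f (a + 1) b), sum_range_succ']
  simp

/-- the identity counting the triangles at each lattice point of a sector -/
lemma sector_identity (k : ℕ) (hk : 1 ≤ k) (G : ℕ → ℕ → ℕ) :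
    ∑ p ∈ Tri k, (G p.1 p.2 + G (p.1 + 1) p.2 + G p.1 (p.2 + 1)) +
      ∑ p ∈ Tri (k - 1), (G (p.1 + 1) (p.2 + 1) + G (p.1 + 1) p.2 + G p.1 (p.2 + 1)) +
      3 * ∑ s ∈ range (k + 1), G s (k - s) + 3 * ∑ s ∈ range (k + 1), G s 0 +
      3 * ∑ t ∈ range (k + 1), G 0 t =
    6 * ∑ p ∈ Tri (k + 1), G p.1 p.2 + G 0 0 + G 0 k + G k 0 := by
  obtain ⟨k, rfl⟩ := Nat.exists_eq_add_of_le' hk
  simp only [Nat.add_sub_cancel]
  have h1 := Tri_succ_sum (k + 1) G
  have h2 := Tri_succ_sum_row (k + 1) G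
  have h3 := Tri_succ_sum_col (k + 1) G
  -- upper ones
  have h4 := Tri_succ_sum_row k (fun a b => G (a + 1) b)
  have h5 := Tri_succ_sum k (fun a b => G (a + 1) b)
  have h6 := Tri_succ_sum k (fun a b => G a (b + 1))
  have e1 : ∑ s ∈ range (k + 1 + 1), G s 0 = ∑ s ∈ range (k + 1), G (s + 1) 0 + G 0 0 :=
    sum_range_succ' _ _
  have e2 : ∑ s ∈ range (k + 1 + 1), G s (k + 1 - s) =
      ∑ s ∈ range (k + 1), G (s + 1) (k - s) + G 0 (k + 1) := by
    rw [sum_range_succ']; simp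
  have e3 : ∑ s ∈ range (k + 1 + 1), G s (k + 1 - s) =
      ∑ s ∈ range (k + 1), G s (k - s + 1) + G (k + 1) 0 := by
    rw [sum_range_succ, Nat.sub_self]
    congr 1
    apply sum_congr rfl
    intro s hs
    have := mem_range.mp hs
    congr 1; omega
  simp only [sum_add_distrib] at *
  omega

/-- sums over triangles of the barycentric coordinates -/
lemma sum_Tri_fst (n : ℕ) : 6 * ∑ p ∈ Tri n, (p.1 + 1) = n * (n + 1) * (n + 2) := by
  induction n with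
  | zero => simp [Tri]
  | succ n ih =>
    have h := Tri_succ_sum n (fun a _ => a + 1)
    rw [h, mul_add, ih]
    have h2 : 2 * ∑ s ∈ range (n + 1), (s + 1) = (n + 1) * (n + 2) := by
      clear ih h
      induction n with
      | zero => simp
      | succ n ih => rw [sum_range_succ, mul_add, ih]; ring
    nlinarith

lemma sum_Tri_snd (n : ℕ) : 6 * ∑ p ∈ Tri n, (p.2 + 1) = n * (n + 1) * (n + 2) := by
  rw [← sum_Tri_fst n]
  congr 1
  refine Finset.sum_bij' (fun p _ => (p.2, p.1)) (fun p _ => (p.2, p.1)) ?_ ?_ ?_ ?_ ?_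
  all_goals simp [mem_Tri]
  all_goals omega

lemma card_Tri (n : ℕ) : 2 * (Tri n).card = n * (n + 1) := by
  induction n with
  | zero => simp [Tri]
  | succ n ih =>
    have h := Tri_succ_sum n (fun _ _ => 1)
    simp only [sum_const, smul_eq_mul, mul_one, card_range] at h
    rw [h, mul_add, ih]; ring

lemma sum_Tri_rest (n : ℕ) :
    6 * ∑ p ∈ Tri n, (n - p.1 - p.2) = n * (n + 1) * (n + 2) := by
  have h1 := sum_Tri_fst n
  have h2 := sum_Tri_snd n
  have h3 := card_Tri n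
  have h : ∑ p ∈ Tri n, ((n - p.1 - p.2) + (p.1 + 1) + (p.2 + 1)) =
      ∑ p ∈ Tri n, (n + 2) := by
    apply sum_congr rfl
    intro p hp
    rw [mem_Tri] at hp
    omega
  simp only [sum_add_distrib, sum_const, smul_eq_mul] at h h1 h2
  have : 6 * ((Tri n).card * (n + 2)) = 3 * (n * (n + 1) * (n + 2)) := by
    calc 6 * ((Tri n).card * (n + 2)) = 3 * (2 * (Tri n).card) * (n + 2) := by ring
      _ = _ := by rw [h3]; ring
  nlinarith

/-- the lattice points of the `n`-th multiple of the triangle, in the sector `e` -/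
def Pt (n : ℕ) (e : Fin 3) (S T : ℕ) : Fin 3 → ℕ := fun i =>
  if i = e then 3 * S + (n - S - T) else if i = e + 1 then 3 * T + (n - S - T)
  else n - S - T

lemma Pt_add {n n' S T S' T' : ℕ} (e : Fin 3) (h : S + T ≤ n) (h' : S' + T' ≤ n') :
    Pt n e S T + Pt n' e S' T' = Pt (n + n') e (S + S') (T + T') := by
  funext i
  simp only [Pt, Pi.add_apply]
  split_ifs <;> omega

lemma Pt_smul {n S T : ℕ} (e : Fin 3) (h : S + T ≤ n) (c : ℕ) :
    c • Pt n e S T = Pt (c * n) e (c * S) (c * T) := by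
  induction c with
  | zero => funext i; simp [Pt]
  | succ c ih =>
    rw [succ_nsmul, ih, Pt_add e (by nlinarith) h]
    congr 1 <;> ring

lemma Pt_zero (n : ℕ) (e : Fin 3) : Pt n e 0 0 = fun _ => n := by
  funext i; simp [Pt]

lemma Pt_swap (n : ℕ) (e : Fin 3) (T : ℕ) : Pt n e 0 T = Pt n (e + 1) T 0 := by
  funext i
  simp only [Pt]
  fin_cases e <;> fin_cases i <;> simp

lemma Pt_inj {n S T S' T' : ℕ} {e e' : Fin 3} (_h : S + T ≤ n) (_h' : S' + T' ≤ n)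
    (hS : 1 ≤ S) (hS' : 1 ≤ S') (H : Pt n e S T = Pt n e' S' T') :
    e = e' ∧ S = S' ∧ T = T' := by
  have h0 := congrFun H 0
  have h1 := congrFun H 1
  have h2 := congrFun H 2
  simp only [Pt] at h0 h1 h2
  fin_cases e <;> fin_cases e' <;> simp at h0 h1 h2 ⊢ <;> omega

/-- an additive system of decompositions -/
structure Dec (k : ℕ) (g : (Fin 3 → ℕ) → ℕ) (D : ℕ → (Fin 3 → ℕ) → ℕ → Prop) : Prop where
  zero : D 0 0 0
  add : ∀ {m b l m' b' l'}, D m b l → D m' b' l' → D (m + m') (b + b') (l + l')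
  one : ∀ e S T, S + T ≤ k → D 1 (Pt k e S T) (g (Pt k e S T))
  mono : ∀ {m b l l'}, D m b l → l' ≤ l → D m b l'

section dec

variable {k : ℕ} {g : (Fin 3 → ℕ) → ℕ} {D : ℕ → (Fin 3 → ℕ) → ℕ → Prop}

lemma Dec.smul (h : Dec k g D) {m b l} (hd : D m b l) (n : ℕ) : D (n * m) (n • b) (n * l) := by
  induction n with
  | zero => simpa using h.zero
  | succ n ih =>
    have := h.add ih hd
    rwa [← succ_nsmul, ← Nat.succ_mul, ← Nat.succ_mul] at this

lemma Dec.smul_one (h : Dec k g D) (n : ℕ) (e : Fin 3) (S T : ℕ) (hST : S + T ≤ k) :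
    D n (Pt (n * k) e (n * S) (n * T)) (n * g (Pt k e S T)) := by
  have := h.smul (h.one e S T hST) n
  rwa [mul_one, Pt_smul e hST] at this

lemma Dec.lower (h : Dec k g D) (n : ℕ) (e : Fin 3) {s t σ τ : ℕ} (hst : s + t < k)
    (hστ : σ + τ < n) :
    D (n + 2) (Pt ((n + 2) * k) e ((n + 2) * s + (σ + 1)) ((n + 2) * t + (τ + 1)))
      ((n - σ - τ) * g (Pt k e s t) + (σ + 1) * g (Pt k e (s + 1) t) +
        (τ + 1) * g (Pt k e s (t + 1))) := by
  have h1 := h.smul_one (n - σ - τ) e s t (by omega)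
  have h2 := h.smul_one (σ + 1) e (s + 1) t (by omega)
  have h3 := h.smul_one (τ + 1) e s (t + 1) (by omega)
  have h4 := h.add (h.add h1 h2) h3
  obtain ⟨c, hc⟩ : ∃ c, c = n - σ - τ := ⟨_, rfl⟩
  have hn : n + 2 = c + (σ + 1) + (τ + 1) := by omega
  rw [← hc] at h4 ⊢
  rw [Pt_add e (by nlinarith) (by nlinarith), Pt_add e (by nlinarith) (by nlinarith)] at h4
  have E1 : (n + 2) * k = c * k + (σ + 1) * k + (τ + 1) * k := by rw [hn]; ring
  have E2 : (n + 2) * s + (σ + 1) = c * s + (σ + 1) * (s + 1) + (τ + 1) * s := by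
    rw [hn]; ring
  have E3 : (n + 2) * t + (τ + 1) = c * t + (σ + 1) * t + (τ + 1) * (t + 1) := by
    rw [hn]; ring
  rw [E1, E2, E3, hn]
  exact h4

lemma Dec.upper (h : Dec k g D) (n : ℕ) (e : Fin 3) {s t σ τ : ℕ} (hst : s + t + 1 < k)
    (hστ : σ + τ < n) :
    D (n + 2) (Pt ((n + 2) * k) e ((n + 2) * s + (n + 1 - σ)) ((n + 2) * t + (n + 1 - τ)))
      ((n - σ - τ) * g (Pt k e (s + 1) (t + 1)) + (τ + 1) * g (Pt k e (s + 1) t) +
        (σ + 1) * g (Pt k e s (t + 1))) := by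
  have h1 := h.smul_one (n - σ - τ) e (s + 1) (t + 1) (by omega)
  have h2 := h.smul_one (τ + 1) e (s + 1) t (by omega)
  have h3 := h.smul_one (σ + 1) e s (t + 1) (by omega)
  have h4 := h.add (h.add h1 h2) h3
  obtain ⟨c, hc⟩ : ∃ c, c = n - σ - τ := ⟨_, rfl⟩
  have hn : n + 2 = c + (τ + 1) + (σ + 1) := by omega
  rw [← hc] at h4 ⊢
  rw [Pt_add e (by nlinarith) (by nlinarith), Pt_add e (by nlinarith) (by nlinarith)] at h4
  have e1 : n + 1 - σ = c + (τ + 1) := by omega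
  have e2 : n + 1 - τ = c + (σ + 1) := by omega
  have E1 : (n + 2) * k = c * k + (τ + 1) * k + (σ + 1) * k := by rw [hn]; ring
  have E2 : (n + 2) * s + (n + 1 - σ) =
      c * (s + 1) + (τ + 1) * (s + 1) + (σ + 1) * s := by
    rw [hn, e1]; ring
  have E3 : (n + 2) * t + (n + 1 - τ) =
      c * (t + 1) + (τ + 1) * t + (σ + 1) * (t + 1) := by
    rw [hn, e2]; ring
  rw [E1, E2, E3, hn]
  exact h4

/-- `w` bounds the sum of the values over distinct lattice points -/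
def Cnt (D : ℕ → (Fin 3 → ℕ) → ℕ → Prop) (w : ℕ → ℕ) : Prop :=
  ∀ (m : ℕ) {ι : Type} (I : Finset ι) (β : ι → Fin 3 → ℕ) (B : ι → ℕ),
    Set.InjOn β I → (∀ i ∈ I, D m (β i) (B i)) → ∑ i ∈ I, B i ≤ w m

lemma divmod {n a b a' b' : ℕ} (hb : b < n) (hb' : b' < n) (h : n * a + b = n * a' + b') :
    a = a' ∧ b = b' := by
  have h1 : a = a' := by
    have e1 : (n * a + b) / n = a := by
      rw [Nat.mul_add_div (by omega), Nat.div_eq_of_lt hb, add_zero]
    have e2 : (n * a' + b') / n = a' := by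
      rw [Nat.mul_add_div (by omega), Nat.div_eq_of_lt hb', add_zero]
    rw [← e1, h, e2]
  subst h1
  exact ⟨rfl, by omega⟩

/-- the triangle sum appearing in the fine triangulation -/
def fineSum (k : ℕ) (g : (Fin 3 → ℕ) → ℕ) : ℕ :=
  ∑ e : Fin 3, ∑ p ∈ Tri k, (g (Pt k e p.1 p.2) + g (Pt k e (p.1 + 1) p.2) +
      g (Pt k e p.1 (p.2 + 1))) +
  ∑ e : Fin 3, ∑ p ∈ Tri (k - 1), (g (Pt k e (p.1 + 1) (p.2 + 1)) +
      g (Pt k e (p.1 + 1) p.2) + g (Pt k e p.1 (p.2 + 1)))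

lemma sum_Tri_lin (n a b c : ℕ) :
    6 * ∑ q ∈ Tri n, ((n - q.1 - q.2) * a + (q.1 + 1) * b + (q.2 + 1) * c) =
      n * (n + 1) * (n + 2) * (a + b + c) := by
  have h1 := sum_Tri_fst n
  have h2 := sum_Tri_snd n
  have h3 := sum_Tri_rest n
  rw [sum_add_distrib, sum_add_distrib, ← sum_mul, ← sum_mul, ← sum_mul, mul_add, mul_add,
    ← mul_assoc, ← mul_assoc, ← mul_assoc, h1, h2, h3]
  ring

lemma Cnt.two {w : ℕ → ℕ} (hw : Cnt D w) (m : ℕ) {ι₁ ι₂ : Type} (I₁ : Finset ι₁)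
    (I₂ : Finset ι₂) (β₁ : ι₁ → Fin 3 → ℕ) (β₂ : ι₂ → Fin 3 → ℕ) (B₁ : ι₁ → ℕ) (B₂ : ι₂ → ℕ)
    (i1 : Set.InjOn β₁ I₁) (i2 : Set.InjOn β₂ I₂) (hd : ∀ i ∈ I₁, ∀ j ∈ I₂, β₁ i ≠ β₂ j)
    (h1 : ∀ i ∈ I₁, D m (β₁ i) (B₁ i)) (h2 : ∀ i ∈ I₂, D m (β₂ i) (B₂ i)) :
    ∑ i ∈ I₁, B₁ i + ∑ i ∈ I₂, B₂ i ≤ w m := by
  have := hw m (I₁.disjSum I₂) (Sum.elim β₁ β₂) (Sum.elim B₁ B₂) ?_ ?_
  · simpa [Finset.sum_disjSum] using this
  · rintro (x | x) hx (y | y) hy hxy
    · rw [i1 (by simpa using hx) (by simpa using hy) hxy]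
    · exact absurd hxy (hd x (by simpa using hx) y (by simpa using hy))
    · exact absurd hxy.symm (hd y (by simpa using hy) x (by simpa using hx))
    · rw [i2 (by simpa using hx) (by simpa using hy) hxy]
  · rintro (x | x) hx
    · exact h1 x (by simpa using hx)
    · exact h2 x (by simpa using hx)

lemma Dec.bound1 (h : Dec k g D) {w : ℕ → ℕ} (hw : Cnt D w) (n : ℕ) :
    n * (n + 1) * (n + 2) * fineSum k g ≤ 6 * w (n + 2) := by
  have key := hw.two (n + 2) (univ ×ˢ Tri k ×ˢ Tri n : Finset (Fin 3 × (ℕ × ℕ) × (ℕ × ℕ)))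
    (univ ×ˢ Tri (k - 1) ×ˢ Tri n : Finset (Fin 3 × (ℕ × ℕ) × (ℕ × ℕ)))
    (fun x => Pt ((n + 2) * k) x.1 ((n + 2) * x.2.1.1 + (x.2.2.1 + 1))
      ((n + 2) * x.2.1.2 + (x.2.2.2 + 1)))
    (fun x => Pt ((n + 2) * k) x.1 ((n + 2) * x.2.1.1 + (n + 1 - x.2.2.1))
      ((n + 2) * x.2.1.2 + (n + 1 - x.2.2.2)))
    (fun x => (n - x.2.2.1 - x.2.2.2) * g (Pt k x.1 x.2.1.1 x.2.1.2) +
      (x.2.2.1 + 1) * g (Pt k x.1 (x.2.1.1 + 1) x.2.1.2) +
        (x.2.2.2 + 1) * g (Pt k x.1 x.2.1.1 (x.2.1.2 + 1)))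
    (fun x => (n - x.2.2.1 - x.2.2.2) * g (Pt k x.1 (x.2.1.1 + 1) (x.2.1.2 + 1)) +
      (x.2.2.2 + 1) * g (Pt k x.1 (x.2.1.1 + 1) x.2.1.2) +
        (x.2.2.1 + 1) * g (Pt k x.1 x.2.1.1 (x.2.1.2 + 1))) ?_ ?_ ?_ ?_ ?_
  · rw [sum_product, sum_product] at key
    simp only [sum_product] at key
    refine le_trans (le_of_eq ?_) (Nat.mul_le_mul_left 6 key)
    rw [fineSum, mul_add (n * (n + 1) * (n + 2)), mul_add 6]
    congr 1
    · rw [mul_sum, mul_sum]
      apply sum_congr rfl; intro e _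
      rw [mul_sum, mul_sum]
      apply sum_congr rfl; intro p _
      rw [← sum_Tri_lin]
    · rw [mul_sum, mul_sum]
      apply sum_congr rfl; intro e _
      rw [mul_sum, mul_sum]
      apply sum_congr rfl; intro p _
      have := sum_Tri_lin n (g (Pt k e (p.1 + 1) (p.2 + 1)))
        (g (Pt k e p.1 (p.2 + 1))) (g (Pt k e (p.1 + 1) p.2))
      rw [add_right_comm, ← this]
      congr 1
      apply sum_congr rfl; intro q _
      ring
  · rintro ⟨e, p, q⟩ hx ⟨e', p', q'⟩ hy hxy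
    simp only [coe_product, Set.mem_prod, mem_coe, mem_univ, true_and, mem_Tri] at hx hy
    simp only at hxy
    obtain ⟨h1, h2, h3⟩ := Pt_inj (by nlinarith) (by nlinarith) (by omega) (by omega) hxy
    obtain ⟨h4, h5⟩ := divmod (by omega) (by omega) h2
    obtain ⟨h6, h7⟩ := divmod (by omega) (by omega) h3
    ext <;> simp <;> omega
  · rintro ⟨e, p, q⟩ hx ⟨e', p', q'⟩ hy hxy
    simp only [coe_product, Set.mem_prod, mem_coe, mem_univ, true_and, mem_Tri] at hx hy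
    simp only at hxy
    have b1 : (n + 2) * p.1 + (n + 1 - q.1) + ((n + 2) * p.2 + (n + 1 - q.2)) ≤ (n + 2) * k := by
      have : p.1 + p.2 + 2 ≤ k := by omega
      have := Nat.mul_le_mul_left (n + 2) this
      have h8 : (n + 2) * (p.1 + p.2 + 2) = (n + 2) * p.1 + (n + 2) * p.2 + 2 * (n + 2) := by ring
      omega
    have b2 : (n + 2) * p'.1 + (n + 1 - q'.1) + ((n + 2) * p'.2 + (n + 1 - q'.2)) ≤
        (n + 2) * k := by
      have : p'.1 + p'.2 + 2 ≤ k := by omega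
      have := Nat.mul_le_mul_left (n + 2) this
      have h8 : (n + 2) * (p'.1 + p'.2 + 2) =
        (n + 2) * p'.1 + (n + 2) * p'.2 + 2 * (n + 2) := by ring
      omega
    obtain ⟨h1, h2, h3⟩ := Pt_inj b1 b2 (by omega) (by omega) hxy
    obtain ⟨h4, h5⟩ := divmod (by omega) (by omega) h2
    obtain ⟨h6, h7⟩ := divmod (by omega) (by omega) h3
    ext <;> simp <;> omega
  · rintro ⟨e, p, q⟩ hx ⟨e', p', q'⟩ hy hxy
    simp only [mem_product, mem_univ, true_and, mem_Tri] at hx hy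
    simp only at hxy
    have b2 : (n + 2) * p'.1 + (n + 1 - q'.1) + ((n + 2) * p'.2 + (n + 1 - q'.2)) ≤
        (n + 2) * k := by
      have : p'.1 + p'.2 + 2 ≤ k := by omega
      have := Nat.mul_le_mul_left (n + 2) this
      have h8 : (n + 2) * (p'.1 + p'.2 + 2) =
        (n + 2) * p'.1 + (n + 2) * p'.2 + 2 * (n + 2) := by ring
      omega
    obtain ⟨h1, h2, h3⟩ := Pt_inj (by nlinarith) b2 (by omega) (by omega) hxy
    obtain ⟨h4, h5⟩ := divmod (by omega) (by omega) h2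
    obtain ⟨h6, h7⟩ := divmod (by omega) (by omega) h3
    omega
  · rintro ⟨e, p, q⟩ hi
    simp only [mem_product, mem_univ, true_and, mem_Tri] at hi
    exact h.lower n e hi.1 hi.2
  · rintro ⟨e, p, q⟩ hi
    simp only [mem_product, mem_univ, true_and, mem_Tri] at hi
    exact h.upper n e (s := p.1) (t := p.2) (σ := q.1) (τ := q.2) (by omega) hi.2

/-- sum over the boundary lattice points -/
def bdSum (k : ℕ) (g : (Fin 3 → ℕ) → ℕ) : ℕ :=
  ∑ e : Fin 3, ∑ c ∈ range k, g (Pt k e (k - c) c)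

/-- sum over the corners -/
def coSum (k : ℕ) (g : (Fin 3 → ℕ) → ℕ) : ℕ := ∑ e : Fin 3, g (Pt k e k 0)

/-- sum over all lattice points -/
def totSum (k : ℕ) (g : (Fin 3 → ℕ) → ℕ) : ℕ :=
  g (Pt k 0 0 0) + ∑ e : Fin 3, ∑ p ∈ Tri k, g (Pt k e (p.1 + 1) p.2)

lemma coSum' (k : ℕ) (g : (Fin 3 → ℕ) → ℕ) : ∑ e : Fin 3, g (Pt k e 0 k) = coSum k g := by
  rw [coSum, ← Equiv.sum_comp (Equiv.addRight (1 : Fin 3)) (fun e => g (Pt k e k 0))]
  apply sum_congr rfl
  intro e _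
  rw [Pt_swap]; rfl

lemma bdSum' (k : ℕ) (g : (Fin 3 → ℕ) → ℕ) :
    ∑ e : Fin 3, ∑ c ∈ range k, g (Pt k e (k - (c + 1)) (c + 1)) = bdSum k g := by
  have h1 : ∀ e : Fin 3, ∑ c ∈ range (k + 1), g (Pt k e (k - c) c) =
      ∑ c ∈ range k, g (Pt k e (k - (c + 1)) (c + 1)) + g (Pt k e k 0) := by
    intro e; rw [sum_range_succ']; simp
  have h2 : ∀ e : Fin 3, ∑ c ∈ range (k + 1), g (Pt k e (k - c) c) =
      ∑ c ∈ range k, g (Pt k e (k - c) c) + g (Pt k e 0 k) := by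
    intro e; rw [sum_range_succ]; simp
  have h3 : ∑ e : Fin 3, ∑ c ∈ range (k + 1), g (Pt k e (k - c) c) =
      ∑ e : Fin 3, ∑ c ∈ range (k + 1), g (Pt k e (k - c) c) := rfl
  conv_lhs at h3 => rw [sum_congr rfl (fun e _ => h1 e), sum_add_distrib]
  conv_rhs at h3 => rw [sum_congr rfl (fun e _ => h2 e), sum_add_distrib, coSum']
  change _ + coSum k g = bdSum k g + coSum k g at h3
  omega

lemma fine_identity (k : ℕ) (hk : 1 ≤ k) (g : (Fin 3 → ℕ) → ℕ) :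
    fineSum k g + 3 * bdSum k g + coSum k g + 3 * g (Pt k 0 0 0) = 6 * totSum k g := by
  have h1 := fun e : Fin 3 => sector_identity k hk (fun a b => g (Pt k e a b))
  have h2 := Finset.sum_congr (rfl : (univ : Finset (Fin 3)) = univ) (fun e _ => h1 e)
  have hd : ∑ e : Fin 3, ∑ s ∈ range (k + 1), g (Pt k e s (k - s)) =
      bdSum k g + coSum k g := by
    rw [← coSum', bdSum, ← sum_add_distrib]
    apply sum_congr rfl
    intro e _
    rw [← sum_range_reflect (fun s => g (Pt k e s (k - s)))]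
    rw [sum_range_succ]
    simp only [Nat.add_sub_cancel, Nat.sub_self, Nat.sub_zero]
    congr 1
    apply sum_congr rfl
    intro c hc
    have := mem_range.mp hc
    congr 2; omega
  have hrc : ∑ e : Fin 3, ∑ t ∈ range (k + 1), g (Pt k e 0 t) =
      ∑ e : Fin 3, ∑ s ∈ range (k + 1), g (Pt k e s 0) := by
    rw [← Equiv.sum_comp (Equiv.addRight (1 : Fin 3))
      (fun e => ∑ s ∈ range (k + 1), g (Pt k e s 0))]
    apply sum_congr rfl
    intro e _
    apply sum_congr rfl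
    intro t _
    rw [Pt_swap]; rfl
  have hA : ∑ e : Fin 3, ∑ p ∈ Tri (k + 1), g (Pt k e p.1 p.2) =
      ∑ e : Fin 3, ∑ p ∈ Tri k, g (Pt k e (p.1 + 1) p.2) +
        ∑ e : Fin 3, ∑ t ∈ range (k + 1), g (Pt k e 0 t) := by
    rw [← sum_add_distrib]
    apply sum_congr rfl
    intro e _
    exact Tri_succ_sum_col k (fun a b => g (Pt k e a b))
  have h0 : ∑ e : Fin 3, g (Pt k e 0 0) = 3 * g (Pt k 0 0 0) := by
    simp [Pt_zero]
  have hco := coSum' k g
  simp only [sum_add_distrib, ← mul_sum] at h2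
  rw [hd, hrc, hA, hrc, h0, hco] at h2
  simp only [fineSum, totSum, sum_add_distrib] at *
  change _ = _ + coSum k g at h2
  omega

lemma Dec.mid (h : Dec k g D) {Z : ℕ → ℕ} (hZ : ∀ x, D x (fun _ => x * k) (Z x)) (n : ℕ)
    (e : Fin 3) {c r i j : ℕ} (hc : c < k) (hr : r < k) (hij : i + j < n) :
    D (n + 1) (Pt ((n + 1) * k) e ((j + 1) * (k - c) + i * (k - (c + 1)) + r)
        ((j + 1) * c + i * (c + 1)))
      ((j + 1) * g (Pt k e (k - c) c) + i * g (Pt k e (k - (c + 1)) (c + 1)) +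
        Z (n - 1 - i - j)) := by
  have h1 := h.smul_one (j + 1) e (k - c) c (by omega)
  have h2 := h.smul_one i e (k - (c + 1)) (c + 1) (by omega)
  have h3 := h.mono (h.one e r 0 (by omega)) (Nat.zero_le _)
  have h0 := hZ (n - 1 - i - j)
  obtain ⟨d, hd⟩ := Nat.exists_eq_add_of_lt hc
  obtain ⟨x, hx⟩ : ∃ x, x = n - 1 - i - j := ⟨_, rfl⟩
  rw [← hx] at h0 ⊢
  rw [← Pt_zero _ e] at h0
  have h4 := h.add (h.add (h.add h1 h2) h3) h0
  have hn : n + 1 = (j + 1) + i + 1 + x := by omega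
  have e1 : k - c = d + 1 := by omega
  have e2 : k - (c + 1) = d := by omega
  rw [e1, e2] at h4 ⊢
  rw [Pt_add e (by nlinarith) (by nlinarith), Pt_add e (by nlinarith) (by nlinarith),
    Pt_add e (by nlinarith) (by nlinarith)] at h4
  have E1 : (n + 1) * k = (j + 1) * k + i * k + k + x * k := by rw [hn]; ring
  rw [E1, hn]
  simpa using h4

lemma Dec.bound2 (h : Dec k g D) {w : ℕ → ℕ} (hw : Cnt D w) {Z : ℕ → ℕ}
    (hZ : ∀ x, D x (fun _ => x * k) (Z x)) (n : ℕ) :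
    k * ((∑ p ∈ Tri n, (p.2 + 1)) * bdSum k g + (∑ p ∈ Tri n, p.1) * bdSum k g +
      3 * k * ∑ p ∈ Tri n, Z (n - 1 - p.1 - p.2)) ≤ w (n + 1) := by
  have key := hw (n + 1)
    (univ ×ˢ range k ×ˢ range k ×ˢ Tri n : Finset (Fin 3 × ℕ × ℕ × (ℕ × ℕ)))
    (fun x => Pt ((n + 1) * k) x.1
      ((x.2.2.2.2 + 1) * (k - x.2.1) + x.2.2.2.1 * (k - (x.2.1 + 1)) + x.2.2.1)
      ((x.2.2.2.2 + 1) * x.2.1 + x.2.2.2.1 * (x.2.1 + 1)))
    (fun x => (x.2.2.2.2 + 1) * g (Pt k x.1 (k - x.2.1) x.2.1) +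
      x.2.2.2.1 * g (Pt k x.1 (k - (x.2.1 + 1)) (x.2.1 + 1)) +
      Z (n - 1 - x.2.2.2.1 - x.2.2.2.2)) ?_ ?_
  · refine le_trans (le_of_eq ?_) key
    rw [sum_product]
    simp only [sum_product]
    have e1 : ∀ (e : Fin 3) (c : ℕ), ∑ _r ∈ range k, ∑ p ∈ Tri n,
        ((p.2 + 1) * g (Pt k e (k - c) c) + p.1 * g (Pt k e (k - (c + 1)) (c + 1)) +
          Z (n - 1 - p.1 - p.2)) =
        k * ((∑ p ∈ Tri n, (p.2 + 1)) * g (Pt k e (k - c) c) +
          (∑ p ∈ Tri n, p.1) * g (Pt k e (k - (c + 1)) (c + 1)) +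
          ∑ p ∈ Tri n, Z (n - 1 - p.1 - p.2)) := by
      intro e c
      rw [sum_const, card_range, smul_eq_mul, sum_add_distrib, sum_add_distrib, sum_mul, sum_mul]
    simp only [e1]
    simp only [← mul_sum, sum_add_distrib, sum_const, card_range, smul_eq_mul, card_univ,
      Fintype.card_fin]
    rw [← bdSum' k g, bdSum' k g]
    change k * (_ * bdSum k g + _ * bdSum k g + _) = k * (_ * bdSum k g + _ + _)
    ring
  · rintro ⟨e, c, r, i, j⟩ hx ⟨e', c', r', i', j'⟩ hy hxy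
    simp only [coe_product, Set.mem_prod, mem_coe, mem_univ, true_and, mem_Tri,
      mem_range] at hx hy
    simp only at hxy
    obtain ⟨hc, hr, hij⟩ := hx
    obtain ⟨hc', hr', hij'⟩ := hy
    obtain ⟨d, hd⟩ := Nat.exists_eq_add_of_lt hc
    obtain ⟨d', hd'⟩ := Nat.exists_eq_add_of_lt hc'
    have e1 : k - c = d + 1 := by omega
    have e2 : k - (c + 1) = d := by omega
    have e1' : k - c' = d' + 1 := by omega
    have e2' : k - (c' + 1) = d' := by omega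
    rw [e1, e2, e1', e2'] at hxy
    have s1 : (j + 1) * (d + 1) + i * d + r + ((j + 1) * c + i * (c + 1)) =
        k * (i + j + 1) + r := by rw [hd]; ring
    have s2 : (j' + 1) * (d' + 1) + i' * d' + r' + ((j' + 1) * c' + i' * (c' + 1)) =
        k * (i' + j' + 1) + r' := by rw [hd']; ring
    obtain ⟨h1, h2, h3⟩ := Pt_inj (by rw [s1]; nlinarith) (by rw [s2]; nlinarith)
      (by nlinarith) (by nlinarith) hxy
    have s3 : k * (i + j + 1) + r = k * (i' + j' + 1) + r' := by rw [← s1, ← s2, h2, h3]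
    obtain ⟨h4, h5⟩ := divmod hr hr' s3
    have s4 : (i + j + 1) * c + i = (i + j + 1) * c' + i' := by
      have : (j + 1) * c + i * (c + 1) = (i + j + 1) * c + i := by ring
      rw [← this, h3, h4]; ring
    obtain ⟨h6, h7⟩ := divmod (by omega) (by omega) s4
    have : j = j' := by omega
    subst h1 h5 h6 h7 this
    rfl
  · rintro ⟨e, c, r, i, j⟩ hx
    simp only [mem_product, mem_univ, true_and, mem_Tri, mem_range] at hx
    exact h.mid hZ n e hx.1 hx.2.1 hx.2.2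

lemma Dec.bound3 (h : Dec k g D) {w : ℕ → ℕ} (hw : Cnt D w) {Z : ℕ → ℕ} (hk : 1 ≤ k)
    (hZ : ∀ x, D x (fun _ => x * k) (Z x)) (hZ3 : ∀ x, x * coSum k g ≤ 3 * Z x + 2 * coSum k g)
    (n : ℕ) :
    (Tri (k * n)).card * n * coSum k g ≤ w (n + 2) + (Tri (k * n)).card * 2 * coSum k g := by
  have key := hw (n + 2)
    (univ ×ˢ Tri (k * n) : Finset (Fin 3 × (ℕ × ℕ)))
    (fun x => Pt ((n + 2) * k) x.1 (x.2.1 + 1) x.2.2)
    (fun x => ((x.2.1 + 1) / k) * g (Pt k x.1 k 0) + (x.2.2 / k) * g (Pt k x.1 0 k) +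
      Z (n - (x.2.1 + 1) / k - x.2.2 / k)) ?_ ?_
  · refine le_trans ?_ (Nat.add_le_add_right key _)
    rw [sum_product_right]
    have : ∀ p ∈ Tri (k * n), n * coSum k g ≤
        ∑ e : Fin 3, (((p.1 + 1) / k) * g (Pt k e k 0) + (p.2 / k) * g (Pt k e 0 k) +
          Z (n - (p.1 + 1) / k - p.2 / k)) + 2 * coSum k g := by
      intro p hp
      rw [mem_Tri] at hp
      have hle : (p.1 + 1) / k + p.2 / k ≤ n := by
        have h1 : k * ((p.1 + 1) / k) ≤ p.1 + 1 := Nat.mul_div_le _ _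
        have h2 : k * (p.2 / k) ≤ p.2 := Nat.mul_div_le _ _
        have h3 : k * ((p.1 + 1) / k + p.2 / k) ≤ k * n := by rw [mul_add]; omega
        exact Nat.le_of_mul_le_mul_left h3 (by omega)
      rw [sum_add_distrib, sum_add_distrib, ← mul_sum, ← mul_sum, coSum', sum_const, card_univ,
        Fintype.card_fin, smul_eq_mul]
      change _ ≤ (p.1 + 1) / k * coSum k g + p.2 / k * coSum k g + _ + _
      obtain ⟨x, hx⟩ : ∃ x, x = n - (p.1 + 1) / k - p.2 / k := ⟨_, rfl⟩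
      have h3 := hZ3 x
      rw [← hx]
      have hn : n = (p.1 + 1) / k + p.2 / k + x := by omega
      calc n * coSum k g = ((p.1 + 1) / k + p.2 / k + x) * coSum k g := by rw [← hn]
        _ ≤ _ := by nlinarith
    calc (Tri (k * n)).card * n * coSum k g = ∑ p ∈ Tri (k * n), n * coSum k g := by
          rw [sum_const, smul_eq_mul]; ring
      _ ≤ ∑ p ∈ Tri (k * n), (∑ e : Fin 3, (((p.1 + 1) / k) * g (Pt k e k 0) +
          (p.2 / k) * g (Pt k e 0 k) + Z (n - (p.1 + 1) / k - p.2 / k)) + 2 * coSum k g) :=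
          sum_le_sum this
      _ = _ := by rw [sum_add_distrib, sum_const, smul_eq_mul]; ring
  · rintro ⟨e, S, T⟩ hx ⟨e', S', T'⟩ hy hxy
    simp only [coe_product, Set.mem_prod, mem_coe, mem_univ, true_and, mem_Tri] at hx hy
    simp only at hxy
    obtain ⟨h1, h2, h3⟩ := Pt_inj (by nlinarith) (by nlinarith) (by omega) (by omega) hxy
    ext <;> simp <;> omega
  · rintro ⟨e, S, T⟩ hx
    simp only [mem_product, mem_univ, true_and, mem_Tri] at hx
    simp only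
    have hle : (S + 1) / k + T / k ≤ n := by
      have h1 : k * ((S + 1) / k) ≤ S + 1 := Nat.mul_div_le _ _
      have h2 : k * (T / k) ≤ T := Nat.mul_div_le _ _
      have h3 : k * ((S + 1) / k + T / k) ≤ k * n := by rw [mul_add]; omega
      exact Nat.le_of_mul_le_mul_left h3 (by omega)
    have r1 : (S + 1) % k < k := Nat.mod_lt _ (by omega)
    have r2 : T % k < k := Nat.mod_lt _ (by omega)
    have d1 : k * ((S + 1) / k) + (S + 1) % k = S + 1 := Nat.div_add_mod _ _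
    have d2 : k * (T / k) + T % k = T := Nat.div_add_mod _ _
    have h1 := h.smul_one ((S + 1) / k) e k 0 (by omega)
    have h2 := h.smul_one (T / k) e 0 k (by omega)
    have h3 := h.mono (h.one e ((S + 1) % k) 0 (by omega)) (Nat.zero_le _)
    have h4 := h.mono (h.one e 0 (T % k) (by omega)) (Nat.zero_le _)
    have h0 := hZ (n - (S + 1) / k - T / k)
    rw [← Pt_zero _ e] at h0
    have h5 := h.add (h.add (h.add (h.add h1 h2) h3) h4) h0
    obtain ⟨x, hx⟩ : ∃ x, x = n - (S + 1) / k - T / k := ⟨_, rfl⟩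
    rw [← hx] at h5 ⊢
    rw [Pt_add e (by nlinarith) (by nlinarith), Pt_add e (by nlinarith) (by nlinarith),
      Pt_add e (by nlinarith) (by nlinarith), Pt_add e (by nlinarith) (by nlinarith)] at h5
    have hn : n + 2 = (S + 1) / k + T / k + 1 + 1 + x := by omega
    have E1 : (n + 2) * k = (S + 1) / k * k + T / k * k + k + k + x * k := by rw [hn]; ring
    have E2 : (S + 1) / k * k + T / k * 0 + (S + 1) % k + 0 + 0 = S + 1 := by
      rw [mul_comm]; omega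
    have E3 : (S + 1) / k * 0 + T / k * k + 0 + T % k + 0 = T := by
      rw [mul_comm (T / k)]; omega
    rw [E2, E3] at h5
    rw [E1, hn]
    simpa using h5

lemma Dec.zeroA (h : Dec k g D) (x : ℕ) : D x (fun _ => x * k) (x * g (Pt k 0 0 0)) := by
  have := h.smul_one x 0 0 0 (by omega)
  simpa [Pt_zero] using this

lemma Dec.sum3 (h : Dec k g D) {m : ℕ} {b : Fin 3 → Fin 3 → ℕ} {l : Fin 3 → ℕ}
    (hd : ∀ e, D m (b e) (l e)) : D (3 * m) (∑ e, b e) (∑ e, l e) := by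
  have := h.add (h.add (hd 0) (hd 1)) (hd 2)
  rw [Fin.sum_univ_three, Fin.sum_univ_three]
  have e : 3 * m = m + m + m := by ring
  rw [e]; exact this

lemma sum3_Pt {k c : ℕ} (hc : c ≤ k) :
    ∑ e : Fin 3, Pt k e (k - c) c = fun _ => 3 * k := by
  funext i
  rw [Fin.sum_univ_three]
  simp only [Pi.add_apply, Pt]
  fin_cases i <;> simp <;> omega

lemma Dec.zeroAdd (h : Dec k g D) {x y a b : ℕ} (hx : D x (fun _ => x * k) a)
    (hy : D y (fun _ => y * k) b) : D (x + y) (fun _ => (x + y) * k) (a + b) := by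
  have := h.add hx hy
  convert this using 1
  funext i; simp [add_mul]

lemma Dec.zeroSmul (h : Dec k g D) {x a : ℕ} (hx : D x (fun _ => x * k) a) (n : ℕ) :
    D (n * x) (fun _ => (n * x) * k) (n * a) := by
  have := h.smul hx n
  convert this using 1
  funext i; simp [mul_assoc]

lemma Dec.zeroB (h : Dec k g D) : ∀ j ≤ k,
    D (3 * j) (fun _ => (3 * j) * k) (∑ e : Fin 3, ∑ c ∈ range j, g (Pt k e (k - c) c)) := by
  intro j
  induction j with
  | zero =>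
    intro _
    have : (fun _ => 3 * 0 * k : Fin 3 → ℕ) = 0 := by funext i; simp
    rw [this]; simpa using h.zero
  | succ j ih =>
    intro hj
    have h1 := ih (by omega)
    have h2 := h.sum3 (fun e => h.one e (k - j) j (by omega))
    rw [sum3_Pt (by omega)] at h2
    have h3 := h.zeroAdd h1 (y := 3) (by simpa using h2)
    have e : 3 * (j + 1) = 3 * j + 3 := by ring
    rw [e]
    simpa [sum_range_succ, sum_add_distrib] using h3

lemma Dec.zeroRem (h : Dec k g D) (x : ℕ) : D x (fun _ => x * k) 0 :=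
  h.mono (h.zeroA x) (Nat.zero_le _)

/-- decompositions of multiples of the centre through points of total multiplicity `q` -/
lemma Dec.zeroDiv (h : Dec k g D) {q a : ℕ} (hq : D q (fun _ => q * k) a)
    (x : ℕ) : D x (fun _ => x * k) (x / q * a) := by
  have h1 := h.zeroSmul hq (x / q)
  have h2 := h.zeroRem (x % q)
  have h3 := h.zeroAdd h1 h2
  have e : x / q * q + x % q = x := by rw [mul_comm]; exact Nat.div_add_mod x q
  rwa [e, add_zero] at h3

lemma Dec.zeroC (h : Dec k g D) : D 3 (fun _ => 3 * k) (coSum k g) := by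
  have h2 := h.sum3 (fun e => h.one e k 0 (by omega))
  have h3 := sum3_Pt (k := k) (c := 0) (by omega)
  simp only [Nat.sub_zero] at h3
  rw [h3] at h2
  simpa [coSum] using h2

lemma arith_main {x κ W S X b c g z3 : ℝ} (hx : 0 ≤ x) (hκ : 1 ≤ κ) (hX : 0 ≤ X) (hb : 0 ≤ b)
    (hc : 0 ≤ c) (hg : 0 ≤ g) (cF : X + 3 * b + c + 3 * g = 6 * S)
    (W1 : x * (x + 1) * (x + 2) * X ≤ 6 * W)
    (W2 : κ * ((x + 1) * (x + 2) * (x + 3) / 6 * b + (x + 1) * (x + 2) * x / 6 * b +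
      3 * κ * ((x + 1) * (x + 2) * x / 6 * g)) ≤ W)
    (W3 : κ * ((x + 1) * (x + 2) * (x + 3) / 6 * b + (x + 1) * (x + 2) * x / 6 * b +
      3 * κ * z3) ≤ W)
    (Z3 : (x + 1) * (x + 2) * x / 6 * b ≤ 3 * κ * z3 + 3 * κ * ((x + 1) * (x + 2) / 2 * b))
    (W4 : κ * x * (κ * x + 1) / 2 * x * c ≤ W + κ * x * (κ * x + 1) / 2 * 2 * c) :
    3 * κ ^ 2 * S * (x + 2) ^ 3 - (κ ^ 2 / 2 * 3 * X + κ / 2 * (3 * b + 9 * κ * g) +
      (3 * κ - 2) / 6 * κ * (6 + 9 * κ) * b + κ / 2 * 8 * κ * c) * (x + 2) ^ 2 ≤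
      (3 * κ ^ 2 + 3 * κ + 2) * W := by
  have hS : S = (X + 3 * b + c + 3 * g) / 6 := by linarith
  subst hS
  have M1 := mul_le_mul_of_nonneg_left W1 (show 0 ≤ κ ^ 2 / 2 by positivity)
  have M2 := mul_le_mul_of_nonneg_left W2 (show (0 : ℝ) ≤ 3 by norm_num)
  have W3' : κ * ((x + 1) * (x + 2) * (x + 3) / 6 * b + (x + 1) * (x + 2) * x / 6 * b +
      ((x + 1) * (x + 2) * x / 6 * b - 3 * κ * ((x + 1) * (x + 2) / 2 * b))) ≤ W := by
    refine le_trans ?_ W3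
    apply mul_le_mul_of_nonneg_left _ (by linarith)
    linarith
  have M3 := mul_le_mul_of_nonneg_left W3' (show 0 ≤ 3 * κ - 2 by linarith)
  have N1 : 0 ≤ κ ^ 2 * (x + 2) * X := by positivity
  have N2 : 0 ≤ 3 * κ ^ 2 * (x + 2) * g := by positivity
  have N3 : 0 ≤ κ / 2 * (κ * (20 * x + 24) + x ^ 2 - 2 * x) * c := by
    apply mul_nonneg (mul_nonneg (by linarith) _) hc
    nlinarith [mul_nonneg (sub_nonneg.mpr hκ) hx]
  have N4 : 0 ≤ (x + 2) * b * (κ * (x + 1) * (2 * x + 3) / 2 +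
      (3 * κ - 2) * κ * (x + 1) * ((x + 1) / 2 - 3 * κ / 2) - 3 * κ ^ 2 / 2 * (x + 2) ^ 2 +
      (3 * κ / 2 + (3 * κ - 2) / 6 * κ * (6 + 9 * κ)) * (x + 2)) := by
    apply mul_nonneg (mul_nonneg (by linarith) hb)
    obtain ⟨u, rfl⟩ : ∃ u, κ = u + 1 := ⟨κ - 1, by ring⟩
    have hu : 0 ≤ u := by linarith
    have : 0 ≤ u * x := mul_nonneg hu hx
    ring_nf
    positivity
  nlinarith [M1, M2, M3, W4, N1, N2, N3, N4]

/-- the main asymptotic inequality, with explicit error term -/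
lemma Dec.main (h : Dec k g D) {w : ℕ → ℕ} (hw : Cnt D w) (hk : 1 ≤ k) :
    ∃ C : ℝ, ∀ m : ℕ, 2 ≤ m →
      3 * (k : ℝ) ^ 2 * totSum k g * m ^ 3 - C * m ^ 2 ≤ (3 * (k : ℝ) ^ 2 + 3 * k + 2) * w m := by
  set X := fineSum k g with hX
  set b := bdSum k g with hb
  set c := coSum k g with hc
  set g0 := g (Pt k 0 0 0) with hg0
  have hF := fine_identity k hk g
  rw [← hX, ← hb, ← hc, ← hg0] at hF
  refine ⟨(k ^ 2 / 2 : ℝ) * 3 * X + (k / 2 : ℝ) * (3 * b + 9 * k * g0) +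
    ((3 * k - 2) / 6 : ℝ) * k * (6 + 9 * k) * b + (k / 2 : ℝ) * 8 * k * c, ?_⟩
  intro m hm
  obtain ⟨n, rfl⟩ := Nat.exists_eq_add_of_le' hm
  have B1 := h.bound1 hw n
  have B2 := h.bound2 hw (Z := fun x => x * g0) (fun x => h.zeroA x) (n + 1)
  have hZb := h.zeroB k le_rfl
  have B3 := h.bound2 hw (Z := fun x => x / (3 * k) * b) (fun x => h.zeroDiv hZb x) (n + 1)
  have B4 := h.bound3 hw (Z := fun x => x / 3 * c) hk (fun x => h.zeroDiv h.zeroC x) (by
    intro x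
    have : x ≤ 3 * (x / 3) + 2 := by omega
    calc x * coSum k g ≤ (3 * (x / 3) + 2) * coSum k g := Nat.mul_le_mul_right _ this
      _ = _ := by rw [hc]; ring) n
  -- sums over triangles
  have T1 := sum_Tri_fst (n + 1)
  have T2 := sum_Tri_snd (n + 1)
  have T3 := sum_Tri_rest (n + 1)
  have T4 := card_Tri (n + 1)
  have T5 := card_Tri (k * n)
  have T1' : 6 * ∑ p ∈ Tri (n + 1), p.1 = (n + 1) * (n + 2) * n := by
    rw [sum_add_distrib] at T1
    simp only [sum_const, smul_eq_mul, mul_one] at T1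
    nlinarith
  have T3' : 6 * ∑ p ∈ Tri (n + 1), (n + 1 - 1 - p.1 - p.2) = (n + 1) * (n + 2) * n := by
    have : ∑ p ∈ Tri (n + 1), (n + 1 - p.1 - p.2) =
        ∑ p ∈ Tri (n + 1), ((n + 1 - 1 - p.1 - p.2) + 1) := by
      apply sum_congr rfl
      intro p hp
      rw [mem_Tri] at hp
      omega
    rw [this, sum_add_distrib] at T3
    simp only [sum_const, smul_eq_mul, mul_one] at T3
    nlinarith
  have hZ3 : ∑ p ∈ Tri (n + 1), (n + 1 - 1 - p.1 - p.2) * b ≤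
      3 * k * ∑ p ∈ Tri (n + 1), (n + 1 - 1 - p.1 - p.2) / (3 * k) * b +
        3 * k * ((Tri (n + 1)).card * b) := by
    rw [mul_sum, ← smul_eq_mul (a := (Tri (n + 1)).card), ← sum_const, mul_sum,
      ← sum_add_distrib]
    apply sum_le_sum
    intro p _
    have h1 : n + 1 - 1 - p.1 - p.2 ≤
        3 * k * ((n + 1 - 1 - p.1 - p.2) / (3 * k)) + 3 * k := by
      have := Nat.lt_mul_div_succ (n + 1 - 1 - p.1 - p.2) (show 0 < 3 * k by omega)
      rw [mul_add, mul_one] at this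
      exact this.le
    calc _ ≤ (3 * k * ((n + 1 - 1 - p.1 - p.2) / (3 * k)) + 3 * k) * b :=
          Nat.mul_le_mul_right _ h1
      _ = _ := by ring
  rw [← sum_mul] at hZ3
  -- cast everything to the reals
  have hk' : (1 : ℝ) ≤ k := by exact_mod_cast hk
  have cF : (X : ℝ) + 3 * b + c + 3 * g0 = 6 * totSum k g := by exact_mod_cast hF
  have cB1 : (n : ℝ) * (n + 1) * (n + 2) * X ≤ 6 * w (n + 2) := by exact_mod_cast B1
  have cT2 : 6 * ((∑ p ∈ Tri (n + 1), (p.2 + 1) : ℕ) : ℝ) =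
      ((n : ℝ) + 1) * (n + 1 + 1) * (n + 1 + 2) := by exact_mod_cast T2
  have cT1 : 6 * ((∑ p ∈ Tri (n + 1), p.1 : ℕ) : ℝ) = ((n : ℝ) + 1) * (n + 2) * n := by
    exact_mod_cast T1'
  have cT3 : 6 * ((∑ p ∈ Tri (n + 1), (n + 1 - 1 - p.1 - p.2) : ℕ) : ℝ) =
      ((n : ℝ) + 1) * (n + 2) * n := by exact_mod_cast T3'
  have cT4 : 2 * (((Tri (n + 1)).card : ℕ) : ℝ) = ((n : ℝ) + 1) * (n + 1 + 1) := by
    exact_mod_cast T4
  have cT5 : 2 * (((Tri (k * n)).card : ℕ) : ℝ) = (k * n : ℝ) * (k * n + 1) := by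
    exact_mod_cast T5
  rw [← sum_mul] at B2
  have cB2 : (k : ℝ) * (((∑ p ∈ Tri (n + 1), (p.2 + 1) : ℕ) : ℝ) * b +
      ((∑ p ∈ Tri (n + 1), p.1 : ℕ) : ℝ) * b + 3 * k *
      (((∑ p ∈ Tri (n + 1), (n + 1 - 1 - p.1 - p.2) : ℕ) : ℝ) * g0)) ≤ w (n + 2) := by
    exact_mod_cast B2
  have cB3 : (k : ℝ) * (((∑ p ∈ Tri (n + 1), (p.2 + 1) : ℕ) : ℝ) * b +
      ((∑ p ∈ Tri (n + 1), p.1 : ℕ) : ℝ) * b + 3 * k *
      ((∑ p ∈ Tri (n + 1), (n + 1 - 1 - p.1 - p.2) / (3 * k) * b : ℕ) : ℝ)) ≤ w (n + 2) := by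
    exact_mod_cast B3
  have cZ3 : ((∑ p ∈ Tri (n + 1), (n + 1 - 1 - p.1 - p.2) : ℕ) : ℝ) * b ≤
      3 * k * ((∑ p ∈ Tri (n + 1), (n + 1 - 1 - p.1 - p.2) / (3 * k) * b : ℕ) : ℝ) +
        3 * k * ((((Tri (n + 1)).card : ℕ) : ℝ) * b) := by
    exact_mod_cast hZ3
  have cB4 : (((Tri (k * n)).card : ℕ) : ℝ) * n * c ≤
      w (n + 2) + (((Tri (k * n)).card : ℕ) : ℝ) * 2 * c := by exact_mod_cast B4
  push_cast
  generalize ((∑ p ∈ Tri (n + 1), (p.2 + 1) : ℕ) : ℝ) = t2 at *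
  generalize ((∑ p ∈ Tri (n + 1), p.1 : ℕ) : ℝ) = t1 at *
  generalize ((∑ p ∈ Tri (n + 1), (n + 1 - 1 - p.1 - p.2) : ℕ) : ℝ) = t3 at *
  generalize ((∑ p ∈ Tri (n + 1), (n + 1 - 1 - p.1 - p.2) / (3 * k) * b : ℕ) : ℝ) = z3 at *
  generalize (((Tri (n + 1)).card : ℕ) : ℝ) = t4 at *
  generalize (((Tri (k * n)).card : ℕ) : ℝ) = t5 at *
  generalize (w (n + 2) : ℝ) = W at *
  generalize (totSum k g : ℝ) = S at *
  have hXr : (0 : ℝ) ≤ X := Nat.cast_nonneg _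
  have hbr : (0 : ℝ) ≤ b := Nat.cast_nonneg _
  have hcr : (0 : ℝ) ≤ c := Nat.cast_nonneg _
  have hgr : (0 : ℝ) ≤ g0 := Nat.cast_nonneg _
  have hnr : (0 : ℝ) ≤ n := Nat.cast_nonneg _
  have et2 : t2 = ((n : ℝ) + 1) * (n + 2) * (n + 3) / 6 := by linarith
  have et1 : t1 = ((n : ℝ) + 1) * (n + 2) * n / 6 := by linarith
  have et3 : t3 = ((n : ℝ) + 1) * (n + 2) * n / 6 := by linarith
  have et4 : t4 = ((n : ℝ) + 1) * (n + 2) / 2 := by linarith
  have et5 : t5 = (k : ℝ) * n * (k * n + 1) / 2 := by linarith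
  rw [et2, et1, et3] at cB2
  rw [et2, et1] at cB3
  rw [et3, et4] at cZ3
  rw [et5] at cB4
  exact arith_main hnr hk' hXr hbr hcr hgr cF cB1 cB2 cB3 cZ3 cB4

end dec

end Pool.Agent.Helper223
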