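import Pool.Agent.Helper223_Chow.Lin

/-! Explicit cubic forms in four variables (generated). -/

open MvPolynomial Finset

namespace Pool.Agent.Helper223

variable {K : Type*} [Field K]

/-- exponents of the 20 cubic monomials -/
def tab : Fin 20 → Fin 4 → ℕ := ![![3, 0, 0, 0], ![2, 1, 0, 0], ![2, 0, 1, 0], ![2, 0, 0, 1], ![1, 2, 0, 0], ![1, 1, 1, 0], ![1, 1, 0, 1], ![1, 0, 2, 0], ![1, 0, 1, 1], ![1, 0, 0, 2], ![0, 3, 0, 0], ![0, 2, 1, 0], ![0, 2, 0, 1], ![0, 1, 2, 0], ![0, 1, 1, 1], ![0, 1, 0, 2], ![0, 0, 3, 0], ![0, 0, 2, 1], ![0, 0, 1, 2], ![0, 0, 0, 3]]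

/-- explicit cubic form -/
noncomputable def P20 {R : Type*} [CommRing R] (c : Fin 20 → R) : MvPolynomial (Fin 4) R :=
  C (c 0) * (X 0 ^ 3 * X 1 ^ 0 * X 2 ^ 0 * X 3 ^ 0) +
  C (c 1) * (X 0 ^ 2 * X 1 ^ 1 * X 2 ^ 0 * X 3 ^ 0) +
  C (c 2) * (X 0 ^ 2 * X 1 ^ 0 * X 2 ^ 1 * X 3 ^ 0) +
  C (c 3) * (X 0 ^ 2 * X 1 ^ 0 * X 2 ^ 0 * X 3 ^ 1) +
  C (c 4) * (X 0 ^ 1 * X 1 ^ 2 * X 2 ^ 0 * X 3 ^ 0) +
  C (c 5) * (X 0 ^ 1 * X 1 ^ 1 * X 2 ^ 1 * X 3 ^ 0) +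
  C (c 6) * (X 0 ^ 1 * X 1 ^ 1 * X 2 ^ 0 * X 3 ^ 1) +
  C (c 7) * (X 0 ^ 1 * X 1 ^ 0 * X 2 ^ 2 * X 3 ^ 0) +
  C (c 8) * (X 0 ^ 1 * X 1 ^ 0 * X 2 ^ 1 * X 3 ^ 1) +
  C (c 9) * (X 0 ^ 1 * X 1 ^ 0 * X 2 ^ 0 * X 3 ^ 2) +
  C (c 10) * (X 0 ^ 0 * X 1 ^ 3 * X 2 ^ 0 * X 3 ^ 0) +
  C (c 11) * (X 0 ^ 0 * X 1 ^ 2 * X 2 ^ 1 * X 3 ^ 0) +
  C (c 12) * (X 0 ^ 0 * X 1 ^ 2 * X 2 ^ 0 * X 3 ^ 1) +
  C (c 13) * (X 0 ^ 0 * X 1 ^ 1 * X 2 ^ 2 * X 3 ^ 0) +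
  C (c 14) * (X 0 ^ 0 * X 1 ^ 1 * X 2 ^ 1 * X 3 ^ 1) +
  C (c 15) * (X 0 ^ 0 * X 1 ^ 1 * X 2 ^ 0 * X 3 ^ 2) +
  C (c 16) * (X 0 ^ 0 * X 1 ^ 0 * X 2 ^ 3 * X 3 ^ 0) +
  C (c 17) * (X 0 ^ 0 * X 1 ^ 0 * X 2 ^ 2 * X 3 ^ 1) +
  C (c 18) * (X 0 ^ 0 * X 1 ^ 0 * X 2 ^ 1 * X 3 ^ 2) +
  C (c 19) * (X 0 ^ 0 * X 1 ^ 0 * X 2 ^ 0 * X 3 ^ 3)

/-- mixing the variables 0 and 1 -/
def mx01 (p u r v : K) : Matrix (Fin 4) (Fin 4) K := Matrix.of ![![p, u, 0, 0], ![r, v, 0, 0], ![0, 0, 1, 0], ![0, 0, 0, 1]]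

lemma mx01_det (p u r v : K) : (mx01 p u r v).det = p * v - u * r := by
  simp [mx01, Matrix.det_succ_row_zero, Fin.sum_univ_succ, Fin.succAbove]
  try ring

lemma mx01_P20 (p u r v : K) (c : Fin 20 → K) :
    lsubst (mx01 p u r v) (P20 c) = P20 ![c 0 * (p ^ 3) + c 1 * (p ^ 2 * r) + c 4 * (p * r ^ 2) + c 10 * (r ^ 3),
      c 0 * (3 * p ^ 2 * u) + c 1 * (2 * p * u * r + p ^ 2 * v) + c 4 * (u * r ^ 2 + 2 * p * r * v) + c 10 * (3 * r ^ 2 * v),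
      c 2 * (p ^ 2) + c 5 * (p * r) + c 11 * (r ^ 2),
      c 3 * (p ^ 2) + c 6 * (p * r) + c 12 * (r ^ 2),
      c 0 * (3 * p * u ^ 2) + c 1 * (u ^ 2 * r + 2 * p * u * v) + c 4 * (2 * u * r * v + p * v ^ 2) + c 10 * (3 * r * v ^ 2),
      c 2 * (2 * p * u) + c 5 * (u * r + p * v) + c 11 * (2 * r * v),
      c 3 * (2 * p * u) + c 6 * (u * r + p * v) + c 12 * (2 * r * v),
      c 7 * (p) + c 13 * (r),
      c 8 * (p) + c 14 * (r),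
      c 9 * (p) + c 15 * (r),
      c 0 * (u ^ 3) + c 1 * (u ^ 2 * v) + c 4 * (u * v ^ 2) + c 10 * (v ^ 3),
      c 2 * (u ^ 2) + c 5 * (u * v) + c 11 * (v ^ 2),
      c 3 * (u ^ 2) + c 6 * (u * v) + c 12 * (v ^ 2),
      c 7 * (u) + c 13 * (v),
      c 8 * (u) + c 14 * (v),
      c 9 * (u) + c 15 * (v),
      c 16,
      c 17,
      c 18,
      c 19] := by
  simp only [P20, map_add, map_mul, map_pow, lsubst_X, Fin.sum_univ_four, mx01,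
    Matrix.of_apply, Matrix.cons_val, map_zero, map_one, zero_mul, one_mul, add_zero, zero_add,
    ← algebraMap_eq, AlgHom.commutes, map_ofNat]
  ring

/-- mixing the variables 2 and 3 -/
def mx23 (p u r v : K) : Matrix (Fin 4) (Fin 4) K := Matrix.of ![![1, 0, 0, 0], ![0, 1, 0, 0], ![0, 0, p, u], ![0, 0, r, v]]

lemma mx23_det (p u r v : K) : (mx23 p u r v).det = p * v - u * r := by
  simp [mx23, Matrix.det_succ_row_zero, Fin.sum_univ_succ, Fin.succAbove]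
  try ring

lemma mx23_P20 (p u r v : K) (c : Fin 20 → K) :
    lsubst (mx23 p u r v) (P20 c) = P20 ![c 0,
      c 1,
      c 2 * (p) + c 3 * (r),
      c 2 * (u) + c 3 * (v),
      c 4,
      c 5 * (p) + c 6 * (r),
      c 5 * (u) + c 6 * (v),
      c 7 * (p ^ 2) + c 8 * (p * r) + c 9 * (r ^ 2),
      c 7 * (2 * p * u) + c 8 * (u * r + p * v) + c 9 * (2 * r * v),
      c 7 * (u ^ 2) + c 8 * (u * v) + c 9 * (v ^ 2),
      c 10,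
      c 11 * (p) + c 12 * (r),
      c 11 * (u) + c 12 * (v),
      c 13 * (p ^ 2) + c 14 * (p * r) + c 15 * (r ^ 2),
      c 13 * (2 * p * u) + c 14 * (u * r + p * v) + c 15 * (2 * r * v),
      c 13 * (u ^ 2) + c 14 * (u * v) + c 15 * (v ^ 2),
      c 16 * (p ^ 3) + c 17 * (p ^ 2 * r) + c 18 * (p * r ^ 2) + c 19 * (r ^ 3),
      c 16 * (3 * p ^ 2 * u) + c 17 * (2 * p * u * r + p ^ 2 * v) + c 18 * (u * r ^ 2 + 2 * p * r * v) + c 19 * (3 * r ^ 2 * v),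
      c 16 * (3 * p * u ^ 2) + c 17 * (u ^ 2 * r + 2 * p * u * v) + c 18 * (2 * u * r * v + p * v ^ 2) + c 19 * (3 * r * v ^ 2),
      c 16 * (u ^ 3) + c 17 * (u ^ 2 * v) + c 18 * (u * v ^ 2) + c 19 * (v ^ 3)] := by
  simp only [P20, map_add, map_mul, map_pow, lsubst_X, Fin.sum_univ_four, mx23,
    Matrix.of_apply, Matrix.cons_val, map_zero, map_one, zero_mul, one_mul, add_zero, zero_add,
    ← algebraMap_eq, AlgHom.commutes, map_ofNat]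
  ring

/-- mixing the variables 1 and 2 -/
def mx12 (p u r v : K) : Matrix (Fin 4) (Fin 4) K := Matrix.of ![![1, 0, 0, 0], ![0, p, u, 0], ![0, r, v, 0], ![0, 0, 0, 1]]

lemma mx12_det (p u r v : K) : (mx12 p u r v).det = p * v - u * r := by
  simp [mx12, Matrix.det_succ_row_zero, Fin.sum_univ_succ, Fin.succAbove]
  try ring

lemma mx12_P20 (p u r v : K) (c : Fin 20 → K) :
    lsubst (mx12 p u r v) (P20 c) = P20 ![c 0,
      c 1 * (p) + c 2 * (r),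
      c 1 * (u) + c 2 * (v),
      c 3,
      c 4 * (p ^ 2) + c 5 * (p * r) + c 7 * (r ^ 2),
      c 4 * (2 * p * u) + c 5 * (u * r + p * v) + c 7 * (2 * r * v),
      c 6 * (p) + c 8 * (r),
      c 4 * (u ^ 2) + c 5 * (u * v) + c 7 * (v ^ 2),
      c 6 * (u) + c 8 * (v),
      c 9,
      c 10 * (p ^ 3) + c 11 * (p ^ 2 * r) + c 13 * (p * r ^ 2) + c 16 * (r ^ 3),
      c 10 * (3 * p ^ 2 * u) + c 11 * (2 * p * u * r + p ^ 2 * v) + c 13 * (u * r ^ 2 + 2 * p * r * v) + c 16 * (3 * r ^ 2 * v),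
      c 12 * (p ^ 2) + c 14 * (p * r) + c 17 * (r ^ 2),
      c 10 * (3 * p * u ^ 2) + c 11 * (u ^ 2 * r + 2 * p * u * v) + c 13 * (2 * u * r * v + p * v ^ 2) + c 16 * (3 * r * v ^ 2),
      c 12 * (2 * p * u) + c 14 * (u * r + p * v) + c 17 * (2 * r * v),
      c 15 * (p) + c 18 * (r),
      c 10 * (u ^ 3) + c 11 * (u ^ 2 * v) + c 13 * (u * v ^ 2) + c 16 * (v ^ 3),
      c 12 * (u ^ 2) + c 14 * (u * v) + c 17 * (v ^ 2),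
      c 15 * (u) + c 18 * (v),
      c 19] := by
  simp only [P20, map_add, map_mul, map_pow, lsubst_X, Fin.sum_univ_four, mx12,
    Matrix.of_apply, Matrix.cons_val, map_zero, map_one, zero_mul, one_mul, add_zero, zero_add,
    ← algebraMap_eq, AlgHom.commutes, map_ofNat]
  ring

lemma map_P20 {R S : Type*} [CommRing R] [CommRing S] (φ : R →+* S) (c : Fin 20 → R) :
    map φ (P20 c) = P20 (fun i => φ (c i)) := by
  simp only [P20, map_add, map_mul, map_pow, map_C, map_X]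

/-- diagonal matrix -/
def dg (d0 d1 d2 d3 : K) : Matrix (Fin 4) (Fin 4) K :=
  Matrix.of ![![d0, 0, 0, 0], ![0, d1, 0, 0], ![0, 0, d2, 0], ![0, 0, 0, d3]]

lemma dg_det (d0 d1 d2 d3 : K) : (dg d0 d1 d2 d3).det = d0 * d1 * d2 * d3 := by
  simp [dg, Matrix.det_succ_row_zero, Fin.sum_univ_succ, Fin.succAbove]
  try ring

lemma dg_P20 (d0 d1 d2 d3 : K) (c : Fin 20 → K) :
    lsubst (dg d0 d1 d2 d3) (P20 c) = P20 ![c 0 * (d0 ^ 3),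
      c 1 * (d0 ^ 2 * d1),
      c 2 * (d0 ^ 2 * d2),
      c 3 * (d0 ^ 2 * d3),
      c 4 * (d0 * d1 ^ 2),
      c 5 * (d0 * d1 * d2),
      c 6 * (d0 * d1 * d3),
      c 7 * (d0 * d2 ^ 2),
      c 8 * (d0 * d2 * d3),
      c 9 * (d0 * d3 ^ 2),
      c 10 * (d1 ^ 3),
      c 11 * (d1 ^ 2 * d2),
      c 12 * (d1 ^ 2 * d3),
      c 13 * (d1 * d2 ^ 2),
      c 14 * (d1 * d2 * d3),
      c 15 * (d1 * d3 ^ 2),
      c 16 * (d2 ^ 3),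
      c 17 * (d2 ^ 2 * d3),
      c 18 * (d2 * d3 ^ 2),
      c 19 * (d3 ^ 3)] := by
  simp only [P20, map_add, map_mul, map_pow, lsubst_X, Fin.sum_univ_four, dg,
    Matrix.of_apply, Matrix.cons_val, map_zero, map_one, zero_mul, one_mul, add_zero, zero_add,
    ← algebraMap_eq, AlgHom.commutes, map_ofNat]
  ring

/-- scaled swap of the variables 2 and 3 -/
def sw (d0 d1 d2 d3 : K) : Matrix (Fin 4) (Fin 4) K :=
  Matrix.of ![![d0, 0, 0, 0], ![0, d1, 0, 0], ![0, 0, 0, d2], ![0, 0, d3, 0]]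

lemma sw_det (d0 d1 d2 d3 : K) : (sw d0 d1 d2 d3).det = -(d0 * d1 * d2 * d3) := by
  simp [sw, Matrix.det_succ_row_zero, Fin.sum_univ_succ, Fin.succAbove]
  try ring

lemma sw_P20 (d0 d1 d2 d3 : K) (c : Fin 20 → K) :
    lsubst (sw d0 d1 d2 d3) (P20 c) = P20 ![c 0 * (d0 ^ 3),
      c 1 * (d0 ^ 2 * d1),
      c 3 * (d0 ^ 2 * d3),
      c 2 * (d0 ^ 2 * d2),
      c 4 * (d0 * d1 ^ 2),
      c 6 * (d0 * d1 * d3),
      c 5 * (d0 * d1 * d2),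
      c 9 * (d0 * d3 ^ 2),
      c 8 * (d0 * d2 * d3),
      c 7 * (d0 * d2 ^ 2),
      c 10 * (d1 ^ 3),
      c 12 * (d1 ^ 2 * d3),
      c 11 * (d1 ^ 2 * d2),
      c 15 * (d1 * d3 ^ 2),
      c 14 * (d1 * d2 * d3),
      c 13 * (d1 * d2 ^ 2),
      c 19 * (d3 ^ 3),
      c 18 * (d2 * d3 ^ 2),
      c 17 * (d2 ^ 2 * d3),
      c 16 * (d2 ^ 3)] := by
  simp only [P20, map_add, map_mul, map_pow, lsubst_X, Fin.sum_univ_four, sw,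
    Matrix.of_apply, Matrix.cons_val, map_zero, map_one, zero_mul, one_mul, add_zero, zero_add,
    ← algebraMap_eq, AlgHom.commutes, map_ofNat]
  ring

end Pool.Agent.Helper223
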