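import Mathlib

/-!
Definitions: cubic surfaces, their homogeneous coordinate ring, Mumford's numerical
criterion for Chow stability at level `k`, and the Hilbert-Mumford numerical criterion for
GIT stability of cubic forms in four variables.
-/

open MvPolynomial Filter

namespace Pool.Agent.Helper223

/-- The homogeneous coordinate ring `K[x₀,x₁,x₂,x₃]/(f)` of the surface `f = 0`. -/
abbrev CRing {K : Type*} [Field K] (f : MvPolynomial (Fin 4) K) : Type _ :=
  MvPolynomial (Fin 4) K ⧸ Ideal.span {f}

/-- The degree `n` part of the homogeneous coordinate ring `K[x₀,x₁,x₂,x₃]/(f)`. For a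
cubic surface this is `H⁰(X, O(n))`. -/
noncomputable def sec {K : Type*} [Field K] (f : MvPolynomial (Fin 4) K) (n : ℕ) :
    Submodule K (CRing f) :=
  (homogeneousSubmodule (Fin 4) K n).map
    (Ideal.Quotient.mkₐ K (Ideal.span {f})).toLinearMap

/-- For sections `s i` with weights `r i`: the span of all products of `m` of the sections
(repetitions allowed) whose total weight is at least `l`. -/
noncomputable def chowFil {K : Type*} [Field K] (f : MvPolynomial (Fin 4) K) {ι : Type*}
    (s : ι → CRing f) (r : ι → ℕ) (m l : ℕ) : Submodule K (CRing f) :=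
  Submodule.span K {x | ∃ j : Fin m → ι, l ≤ ∑ i, r (j i) ∧ x = ∏ i, s (j i)}

/-- The total weight `∑_{l ≥ 1} dim chowFil f s r m l` (the spaces vanish for
`l > m * ∑ r`). -/
noncomputable def chowWt {K : Type*} [Field K] (f : MvPolynomial (Fin 4) K) {ι : Type*}
    [Fintype ι] (s : ι → CRing f) (r : ι → ℕ) (m : ℕ) : ℕ :=
  ∑ l ∈ Finset.Icc 1 (m * ∑ i, r i), Module.finrank K (chowFil f s r m l)

/-- Chow semistability at level `k`, by Mumford's numerical criterion: for every basis `s`
of `H⁰(X, O(k))` and all weights `r`, the limit over `m` of the average weight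
`chowWt m / (m * dim H⁰(X, O(k m)))` is at least the mean of the weights `r`. -/
def ChowSemistableAt {K : Type*} [Field K] (f : MvPolynomial (Fin 4) K) (k : ℕ) : Prop :=
  ∀ (N : ℕ) (s : Module.Basis (Fin N) K (sec f k)) (r : Fin N → ℕ) (ε : ℝ), 0 < ε →
    ∀ᶠ m : ℕ in atTop,
      (∑ i, (r i : ℝ)) / N - ε ≤
        (chowWt f (fun i => (s i : CRing f)) r m : ℝ) /
          (m * Module.finrank K (sec f (k * m)))

/-- Chow stability at level `k`, by Mumford's numerical criterion: for every basis `s` of
`H⁰(X, O(k))` and all nonconstant weights `r`, the limit of the average weights is larger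
than the mean of the weights `r`. -/
def ChowStableAt {K : Type*} [Field K] (f : MvPolynomial (Fin 4) K) (k : ℕ) : Prop :=
  ∀ (N : ℕ) (s : Module.Basis (Fin N) K (sec f k)) (r : Fin N → ℕ), (∃ i j, r i ≠ r j) →
    ∃ ε : ℝ, 0 < ε ∧ ∀ᶠ m : ℕ in atTop,
      (∑ i, (r i : ℝ)) / N + ε ≤
        (chowWt f (fun i => (s i : CRing f)) r m : ℝ) /
          (m * Module.finrank K (sec f (k * m)))

/-- The linear substitution `x_i ↦ ∑ j, g i j * x_j`. -/
noncomputable def lsubst {K : Type*} [Field K] (g : Matrix (Fin 4) (Fin 4) K) :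
    MvPolynomial (Fin 4) K →ₐ[K] MvPolynomial (Fin 4) K :=
  aeval fun i => ∑ j, C (g i j) * X j

/-- Semistability of the form `f` under `SL(4)`, by the Hilbert-Mumford criterion: in every
coordinate system and for every integer weight vector `a` of sum zero some monomial of
`f` has weight at most `0`. -/
def GITSemistable {K : Type*} [Field K] (f : MvPolynomial (Fin 4) K) : Prop :=
  ∀ g : Matrix (Fin 4) (Fin 4) K, IsUnit g.det → ∀ a : Fin 4 → ℤ, ∑ i, a i = 0 →
    ∃ m ∈ (lsubst g f).support, ∑ i, a i * (m i : ℤ) ≤ 0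

/-- Stability of the form `f` under `SL(4)`, by the Hilbert-Mumford criterion: in every
coordinate system and for every nonzero integer weight vector `a` of sum zero some
monomial of `f` has negative weight. -/
def GITStable {K : Type*} [Field K] (f : MvPolynomial (Fin 4) K) : Prop :=
  ∀ g : Matrix (Fin 4) (Fin 4) K, IsUnit g.det → ∀ a : Fin 4 → ℤ, ∑ i, a i = 0 → a ≠ 0 →
    ∃ m ∈ (lsubst g f).support, ∑ i, a i * (m i : ℤ) < 0

end Pool.Agent.Helper223
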