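import Mathlib

/-! Leading exponents and dimension. -/

open MvPolynomial

namespace Pool.Agent.Helper223

variable {K : Type*} [Field K] {V : Type*} [AddCommGroup V] [Module K V]

/-- leading exponent, as a function -/
noncomputable def lexp (p : MvPolynomial (Fin 3) K) : Fin 3 → ℕ :=
  ⇑((MonomialOrder.lex (σ := Fin 3)).degree p)

lemma lexp_mul {p q : MvPolynomial (Fin 3) K} (hp : p ≠ 0) (hq : q ≠ 0) :
    lexp (p * q) = lexp p + lexp q := by
  rw [lexp, MonomialOrder.degree_mul hp hq]; rfl

lemma lexp_one : lexp (1 : MvPolynomial (Fin 3) K) = 0 := by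
  rw [lexp, MonomialOrder.degree_one]; rfl

lemma lexp_monomial (d : Fin 3 →₀ ℕ) {c : K} (hc : c ≠ 0) :
    lexp (monomial d c : MvPolynomial (Fin 3) K) = d := by
  classical
  rw [lexp, MonomialOrder.degree_monomial, if_neg hc]

lemma lexp_injective {p q : MvPolynomial (Fin 3) K} (h : lexp p = lexp q) :
    (MonomialOrder.lex (σ := Fin 3)).degree p = (MonomialOrder.lex (σ := Fin 3)).degree q :=
  DFunLike.coe_injective h

/-- polynomials with distinct leading exponents are linearly independent -/
lemma linearIndependent_of_lexp {ι : Type*} (y : ι → MvPolynomial (Fin 3) K)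
    (h0 : ∀ i, y i ≠ 0) (hinj : Function.Injective fun i => lexp (y i)) :
    LinearIndependent K y := by
  classical
  rw [linearIndependent_iff']
  intro s c hc
  by_contra hcon
  push Not at hcon
  obtain ⟨i0, hi0, hci0⟩ := hcon
  let m := MonomialOrder.lex (σ := Fin 3)
  obtain ⟨i, hi, hmax⟩ := Finset.exists_max_image (s.filter fun i => c i ≠ 0)
    (fun i => m.toSyn (m.degree (y i))) ⟨i0, by simp [hi0, hci0]⟩
  simp only [Finset.mem_filter] at hi hmax
  have h1 := congrArg (coeff (m.degree (y i))) hc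
  rw [coeff_sum, coeff_zero, Finset.sum_eq_single i] at h1
  · rw [coeff_smul, smul_eq_mul, mul_eq_zero] at h1
    rcases h1 with h1 | h1
    · exact hi.2 h1
    · rw [MonomialOrder.coeff_degree_eq_zero_iff] at h1
      exact h0 i h1
  · intro j hj hji
    by_cases hcj : c j = 0
    · simp [hcj]
    · have hle := hmax j ⟨hj, hcj⟩
      have hne : m.toSyn (m.degree (y j)) ≠ m.toSyn (m.degree (y i)) := by
        intro h
        apply hji
        apply hinj
        change ((m.degree (y j) : Fin 3 →₀ ℕ) : Fin 3 → ℕ) = (m.degree (y i) : Fin 3 →₀ ℕ)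
        rw [m.toSyn.injective h]
      rw [coeff_smul, m.coeff_eq_zero_of_lt (lt_of_le_of_ne hle hne), smul_zero]
  · intro h; exact absurd hi.1 h

lemma card_le_finrank_of_lexp (φ : V →ₗ[K] MvPolynomial (Fin 3) K) (W : Submodule K V)
    [Module.Finite K W] {ι : Type*} (I : Finset ι) (y : ι → V) (hy : ∀ i ∈ I, y i ∈ W)
    (h0 : ∀ i ∈ I, φ (y i) ≠ 0) (hinj : Set.InjOn (fun i => lexp (φ (y i))) I) :
    I.card ≤ Module.finrank K W := by
  have h1 : LinearIndependent K (fun i : I => φ (y i)) :=
    linearIndependent_of_lexp _ (fun i => h0 i i.2)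
      (fun i j hij => Subtype.ext (hinj i.2 j.2 hij))
  have h2 : LinearIndependent K (fun i : I => y i) := LinearIndependent.of_comp φ h1
  have h3 : LinearIndependent K (fun i : I => (⟨y i, hy i i.2⟩ : W)) := by
    apply LinearIndependent.of_comp W.subtype
    exact h2
  simpa using h3.fintype_card_le_finrank

lemma finrank_le_card_of_lexp (φ : V →ₗ[K] MvPolynomial (Fin 3) K) (W : Submodule K V)
    [Module.Finite K W] (T : Finset (Fin 3 → ℕ)) (hφ : ∀ y ∈ W, φ y = 0 → y = 0)
    (hT : ∀ y ∈ W, y ≠ 0 → lexp (φ y) ∈ T) :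
    Module.finrank K W ≤ T.card := by
  let ψ : W →ₗ[K] (T → K) :=
    LinearMap.pi fun a => (lcoeff K (Finsupp.equivFunOnFinite.symm a.1)) ∘ₗ φ ∘ₗ W.subtype
  have hinj : Function.Injective ψ := by
    rw [← LinearMap.ker_eq_bot, LinearMap.ker_eq_bot']
    intro y hy
    by_contra hy0
    have hy0' : (y : V) ≠ 0 := fun h => hy0 (Subtype.ext h)
    have h1 := hT y y.2 hy0'
    have h2 := congrFun hy ⟨_, h1⟩
    have h3 : Finsupp.equivFunOnFinite.symm (lexp (φ (y : V))) =
        (MonomialOrder.lex (σ := Fin 3)).degree (φ (y : V)) := by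
      ext i; rfl
    simp only [ψ, LinearMap.pi_apply, LinearMap.comp_apply, Submodule.subtype_apply,
      lcoeff_apply, Pi.zero_apply, h3] at h2
    rw [MonomialOrder.coeff_degree_eq_zero_iff] at h2
    exact hy0' (hφ y y.2 h2)
  calc Module.finrank K W ≤ Module.finrank K (T → K) :=
        LinearMap.finrank_le_finrank_of_injective hinj
    _ = T.card := by simp

end Pool.Agent.Helper223
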