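import Pool.Agent.Helper223_Chow.Fil
import Pool.Agent.Helper223_Chow.LinAlg
import Pool.Agent.Helper223_Chow.Asym

/-! The toric cubic surface `w³ = xyz` is Chow semistable at every level. -/

open MvPolynomial Finset

namespace Pool.Agent.Helper223

variable {K : Type*} [Field K]

/-- the cubic form `x₃³ - x₀x₁x₂` -/
noncomputable def f0 (K : Type*) [Field K] : MvPolynomial (Fin 4) K :=
  X 3 ^ 3 - X 0 * X 1 * X 2

lemma f0_homog : (f0 K).IsHomogeneous 3 := by
  unfold f0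
  apply IsHomogeneous.sub
  · simpa using (isHomogeneous_X K (3 : Fin 4)).pow 3
  · exact ((isHomogeneous_X K 0).mul (isHomogeneous_X K 1)).mul (isHomogeneous_X K 2)

/-- the parametrisation of the toric surface -/
noncomputable def phi0 (K : Type*) [Field K] :
    MvPolynomial (Fin 4) K →ₐ[K] MvPolynomial (Fin 3) K :=
  aeval ![X 0 ^ 3, X 1 ^ 3, X 2 ^ 3, X 0 * X 1 * X 2]

lemma phi0_f0 : phi0 K (f0 K) = 0 := by
  simp [phi0, f0]; ring

lemma f0_ne_zero : (f0 K) ≠ 0 := by
  intro h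
  have h1 := congrArg (aeval (![0, 0, 0, 1] : Fin 4 → K)) h
  simp [f0] at h1

noncomputable def phi (K : Type*) [Field K] : CRing (f0 K) →ₐ[K] MvPolynomial (Fin 3) K :=
  Ideal.Quotient.liftₐ _ (phi0 K) (by
    intro a ha
    obtain ⟨b, rfl⟩ := Ideal.mem_span_singleton.mp ha
    rw [map_mul, phi0_f0, zero_mul])

lemma phi_qm (F : MvPolynomial (Fin 4) K) : phi K (qm (f0 K) F) = phi0 K F := rfl

/-- exponent vector of the image of a monomial -/
noncomputable def ex (n : ℕ) (e : Fin 3) (S T : ℕ) : Fin 3 →₀ ℕ :=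
  Finsupp.equivFunOnFinite.symm (Pt n e S T)

lemma phi0_monomial (u : Fin 4 →₀ ℕ) :
    phi0 K (monomial u 1) = monomial
      (Finsupp.equivFunOnFinite.symm ![3 * u 0 + u 3, 3 * u 1 + u 3, 3 * u 2 + u 3]) 1 := by
  rw [phi0, aeval_monomial, map_one, one_mul, Finsupp.prod_fintype _ _ (by simp),
    Fin.prod_univ_four]
  simp only [Matrix.cons_val]
  rw [show (Finsupp.equivFunOnFinite.symm ![3 * u 0 + u 3, 3 * u 1 + u 3, 3 * u 2 + u 3] :
    Fin 3 →₀ ℕ) = Finsupp.single 0 (3 * u 0 + u 3) + Finsupp.single 1 (3 * u 1 + u 3) +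
      Finsupp.single 2 (3 * u 2 + u 3) by
        ext i; fin_cases i <;> simp]
  rw [monomial_add_single, monomial_add_single, ← X_pow_eq_monomial]
  ring

lemma exists_Pt (u : Fin 4 →₀ ℕ) {n : ℕ} (hu : ∑ i, u i = n) :
    ∃ e S T, S + T ≤ n ∧ (S = 0 → T = 0) ∧
      (![3 * u 0 + u 3, 3 * u 1 + u 3, 3 * u 2 + u 3] : Fin 3 → ℕ) = Pt n e S T := by
  rw [Fin.sum_univ_four] at hu
  have key : ∃ e S T, S + T ≤ n ∧
      (![3 * u 0 + u 3, 3 * u 1 + u 3, 3 * u 2 + u 3] : Fin 3 → ℕ) = Pt n e S T := by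
    rcases le_total (u 0) (u 1) with h1 | h1 <;> rcases le_total (u 1) (u 2) with h2 | h2 <;>
      rcases le_total (u 0) (u 2) with h3 | h3
    · refine ⟨1, u 1 - u 0, u 2 - u 0, by omega, ?_⟩
      funext i; fin_cases i <;> simp [Pt] <;> omega
    · refine ⟨1, u 1 - u 0, u 2 - u 0, by omega, ?_⟩
      funext i; fin_cases i <;> simp [Pt] <;> omega
    · refine ⟨1, u 1 - u 0, u 2 - u 0, by omega, ?_⟩
      funext i; fin_cases i <;> simp [Pt] <;> omega
    · refine ⟨0, u 0 - u 2, u 1 - u 2, by omega, ?_⟩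
      funext i; fin_cases i <;> simp [Pt] <;> omega
    · refine ⟨2, u 2 - u 1, u 0 - u 1, by omega, ?_⟩
      funext i; fin_cases i <;> simp [Pt] <;> omega
    · refine ⟨2, u 2 - u 1, u 0 - u 1, by omega, ?_⟩
      funext i; fin_cases i <;> simp [Pt] <;> omega
    · refine ⟨0, u 0 - u 2, u 1 - u 2, by omega, ?_⟩
      funext i; fin_cases i <;> simp [Pt] <;> omega
    · refine ⟨0, u 0 - u 2, u 1 - u 2, by omega, ?_⟩
      funext i; fin_cases i <;> simp [Pt] <;> omega
  obtain ⟨e, S, T, h1, h2⟩ := key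
  by_cases hS : S = 0
  · subst hS
    exact ⟨e + 1, T, 0, by omega, fun _ => rfl, by rw [h2, Pt_swap]⟩
  · exact ⟨e, S, T, h1, fun h => absurd h hS, h2⟩

/-- monomial mapping to a given lattice point -/
lemma exists_mono (n : ℕ) (e : Fin 3) (S T : ℕ) (h : S + T ≤ n) :
    ∃ u : Fin 4 →₀ ℕ, ∑ i, u i = n ∧
      (![3 * u 0 + u 3, 3 * u 1 + u 3, 3 * u 2 + u 3] : Fin 3 → ℕ) = Pt n e S T := by
  fin_cases e
  · refine ⟨Finsupp.equivFunOnFinite.symm ![S, T, 0, n - S - T], ?_, ?_⟩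
    · rw [Fin.sum_univ_four]; simp; omega
    · funext i; fin_cases i <;> simp [Pt]
  · refine ⟨Finsupp.equivFunOnFinite.symm ![0, S, T, n - S - T], ?_, ?_⟩
    · rw [Fin.sum_univ_four]; simp; omega
    · funext i; fin_cases i <;> simp [Pt]
  · refine ⟨Finsupp.equivFunOnFinite.symm ![T, 0, S, n - S - T], ?_, ?_⟩
    · rw [Fin.sum_univ_four]; simp; omega
    · funext i; fin_cases i <;> simp [Pt]

lemma monomial_mem_sec (f : MvPolynomial (Fin 4) K) (u : Fin 4 →₀ ℕ) {n : ℕ}
    (hu : ∑ i, u i = n) : qm f (monomial u 1) ∈ sec f n :=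
  mem_sec.mpr ⟨_, isHomogeneous_monomial _ (by
    rw [← hu]; exact Finsupp.sum_fintype u (fun _ x => x) (by simp)), rfl⟩

/-- the finite set of lattice points -/
def Lk (k : ℕ) : Finset (Fin 3 → ℕ) :=
  insert (Pt k 0 0 0) ((univ ×ˢ Tri k : Finset (Fin 3 × (ℕ × ℕ))).image
    fun x => Pt k x.1 (x.2.1 + 1) x.2.2)

lemma mem_Lk {k : ℕ} {a : Fin 3 → ℕ} :
    a ∈ Lk k ↔ ∃ e S T, S + T ≤ k ∧ (S = 0 → T = 0) ∧ a = Pt k e S T := by
  simp only [Lk, mem_insert, mem_image, mem_product, mem_univ, true_and, mem_Tri]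
  constructor
  · rintro (rfl | ⟨x, hx, rfl⟩)
    · exact ⟨0, 0, 0, by omega, fun _ => rfl, rfl⟩
    · exact ⟨x.1, x.2.1 + 1, x.2.2, by omega, by omega, rfl⟩
  · rintro ⟨e, S, T, h1, h2, rfl⟩
    by_cases hS : S = 0
    · left; rw [hS, h2 hS, Pt_zero, Pt_zero]
    · right; exact ⟨(e, S - 1, T), by simp only; omega, by simp only; congr 1; omega⟩

lemma Lk_inj (k : ℕ) : Set.InjOn (fun x : Fin 3 × (ℕ × ℕ) => Pt k x.1 (x.2.1 + 1) x.2.2)
    (univ ×ˢ Tri k : Finset (Fin 3 × (ℕ × ℕ))) := by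
  rintro ⟨e, S, T⟩ hx ⟨e', S', T'⟩ hy hxy
  simp only [coe_product, Set.mem_prod, mem_coe, mem_univ, true_and, mem_Tri] at hx hy
  simp only at hxy
  obtain ⟨h1, h2, h3⟩ := Pt_inj (by omega) (by omega) (by omega) (by omega) hxy
  ext <;> simp <;> omega

lemma Lk_notMem (k : ℕ) : Pt k 0 0 0 ∉ (univ ×ˢ Tri k : Finset (Fin 3 × (ℕ × ℕ))).image
    fun x => Pt k x.1 (x.2.1 + 1) x.2.2 := by
  simp only [mem_image, mem_product, mem_univ, true_and, mem_Tri, not_exists, not_and]
  rintro ⟨e, S, T⟩ hx h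
  simp only at hx h
  rw [Pt_zero] at h
  have h0 := congrFun h 0
  have h1 := congrFun h 1
  have h2 := congrFun h 2
  fin_cases e <;> simp [Pt] at h0 h1 h2 <;> omega

lemma sum_Lk (k : ℕ) (g : (Fin 3 → ℕ) → ℕ) : ∑ a ∈ Lk k, g a = totSum k g := by
  classical
  rw [Lk, totSum, sum_insert (Lk_notMem k), sum_image (Lk_inj k), sum_product]

lemma card_Lk (k : ℕ) : 2 * (Lk k).card = 3 * k ^ 2 + 3 * k + 2 := by
  classical
  rw [Lk, card_insert_of_notMem (Lk_notMem k), card_image_of_injOn (Lk_inj k), card_product,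
    card_univ, Fintype.card_fin]
  have := card_Tri k
  nlinarith

/-- leading exponents of sections lie in `Lk` -/
lemma lexp_mem_Lk {k : ℕ} {y : CRing (f0 K)} (hy : y ∈ sec (f0 K) k) (h0 : phi K y ≠ 0) :
    lexp (phi K y) ∈ Lk k := by
  classical
  obtain ⟨F, hF, rfl⟩ := mem_sec.mp hy
  rw [phi_qm] at h0 ⊢
  have h1 := MonomialOrder.degree_mem_support (m := MonomialOrder.lex (σ := Fin 3)) h0
  have h2 : ∀ d ∈ (phi0 K F).support, (d : Fin 3 → ℕ) ∈ Lk k := by
    intro d hd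
    rw [F.as_sum, map_sum] at hd
    have hd2 := Finset.mem_of_subset (support_sum) hd
    rw [mem_biUnion] at hd2
    obtain ⟨u, hu, hdu⟩ := hd2
    have e1 : (monomial u (coeff u F) : MvPolynomial (Fin 4) K) =
        C (coeff u F) * monomial u 1 := by rw [C_mul_monomial, mul_one]
    rw [e1, map_mul, phi0_monomial, ← algebraMap_eq, AlgHom.commutes, algebraMap_eq,
      C_mul_monomial, mul_one] at hdu
    have hdu2 := support_monomial_subset hdu
    rw [mem_singleton] at hdu2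
    rw [hdu2, mem_Lk]
    have hsum : ∑ i, u i = k := by
      have := hF (mem_support_iff.mp hu)
      rw [← this, Finsupp.weight_apply, Finsupp.sum_fintype _ _ (by simp)]
      simp
    obtain ⟨e, S, T, h3, h4, h5⟩ := exists_Pt u hsum
    exact ⟨e, S, T, h3, h4, by rw [← h5]; rfl⟩
  exact h2 _ h1

/-- every lattice point is the leading exponent of a section -/
lemma exists_sec_lexp {k : ℕ} {a : Fin 3 → ℕ} (e : Fin 3) (S T : ℕ) (h : S + T ≤ k)
    (ha : a = Pt k e S T) : ∃ y ∈ sec (f0 K) k, phi K y ≠ 0 ∧ lexp (phi K y) = a := by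
  subst ha
  obtain ⟨u, hu, hu2⟩ := exists_mono k e S T h
  refine ⟨_, monomial_mem_sec (f0 K) u hu, ?_, ?_⟩
  · rw [phi_qm, phi0_monomial]
    simp
  · rw [phi_qm, phi0_monomial, lexp_monomial _ one_ne_zero, hu2]
    rfl

lemma phi_injOn (n : ℕ) {y : CRing (f0 K)} (hy : y ∈ sec (f0 K) n) (h0 : phi K y = 0) :
    y = 0 := by
  classical
  -- the image of `sec n` has dimension at least `card (Lk n)`
  let W := (sec (f0 K) n).map (phi K).toLinearMap
  have hN : 2 * Module.finrank K (sec (f0 K) n) = 3 * n ^ 2 + 3 * n + 2 :=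
    two_mul_finrank_sec f0_homog f0_ne_zero n
  have hex : ∀ a ∈ Lk n, ∃ y ∈ W, y ≠ 0 ∧ lexp y = a := by
    intro a ha
    obtain ⟨e, S, T, h1, _, h3⟩ := mem_Lk.mp ha
    obtain ⟨y, hy1, hy2, hy3⟩ := exists_sec_lexp (K := K) e S T h1 h3
    exact ⟨phi K y, Submodule.mem_map_of_mem hy1, hy2, hy3⟩
  choose! z hz1 hz2 hz3 using hex
  have h1 : (Lk n).card ≤ Module.finrank K W := by
    apply card_le_finrank_of_lexp LinearMap.id W (Lk n) z hz1
    · simpa using hz2
    · intro a ha b hb hab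
      simp only [LinearMap.id_apply] at hab
      rw [← hz3 a ha, ← hz3 b hb, hab]
  have h2 := finrank_map_add (phi K).toLinearMap (sec (f0 K) n)
  have h3 := card_Lk n
  have h4 : Module.finrank K
      (sec (f0 K) n ⊓ LinearMap.ker (phi K).toLinearMap : Submodule K (CRing (f0 K))) = 0 := by
    change Module.finrank K W + _ = _ at h2
    omega
  have h5 : (sec (f0 K) n ⊓ LinearMap.ker (phi K).toLinearMap : Submodule K (CRing (f0 K))) = ⊥ := by
    have : Module.Finite K (sec (f0 K) n ⊓ LinearMap.ker (phi K).toLinearMap :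
        Submodule K (CRing (f0 K))) := Submodule.finiteDimensional_of_le inf_le_left
    exact Submodule.finrank_eq_zero.mp h4
  have h6 : y ∈ (sec (f0 K) n ⊓ LinearMap.ker (phi K).toLinearMap :
      Submodule K (CRing (f0 K))) := ⟨hy, by simpa using h0⟩
  rw [h5] at h6
  simpa using h6

section main

variable {k N : ℕ} (s : Module.Basis (Fin N) K (sec (f0 K) k)) (r : Fin N → ℕ)

/-- `b` is the leading exponent of an element of the `l`-th step of the filtration -/
def DD (m : ℕ) (b : Fin 3 → ℕ) (l : ℕ) : Prop :=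
  ∃ y ∈ chowFil (f0 K) (fun i => (s i : CRing (f0 K))) r m l,
    phi K y ≠ 0 ∧ lexp (phi K y) = b

open Classical in
/-- the largest weight at a lattice point -/
noncomputable def gg (a : Fin 3 → ℕ) : ℕ := Nat.findGreatest (fun l => DD s r 1 a l) (∑ i, r i)

lemma dec_DD : Dec k (gg s r) (DD s r) where
  zero := ⟨1, one_mem_chowFil _ _, by rw [map_one]; exact one_ne_zero,
    by rw [map_one, lexp_one]⟩
  add := by
    rintro m b l m' b' l' ⟨y, hy, h0, hb⟩ ⟨y', hy', h0', hb'⟩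
    refine ⟨y * y', mul_mem_chowFil _ _ hy hy', ?_, ?_⟩
    · rw [map_mul]; exact mul_ne_zero h0 h0'
    · rw [map_mul, lexp_mul h0 h0', hb, hb']
  one := by
    classical
    intro e S T h
    have h1 : DD s r 1 (Pt k e S T) 0 := by
      obtain ⟨y, hy, h2, h3⟩ := exists_sec_lexp (K := K) e S T h rfl
      exact ⟨y, by rw [chowFil_one_zero s r]; exact hy, h2, h3⟩
    exact Nat.findGreatest_spec (P := fun l => DD s r 1 (Pt k e S T) l) (Nat.zero_le _) h1
  mono := by
    rintro m b l l' ⟨y, hy, h0, hb⟩ hl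
    exact ⟨y, chowFil_anti _ _ _ hl hy, h0, hb⟩

lemma cnt_DD : Cnt (DD s r) (chowWt (f0 K) (fun i => (s i : CRing (f0 K))) r) := by
  classical
  intro m ι I β B hβ hD
  choose! y hy h0 hb using hD
  have hB : ∀ i ∈ I, B i ≤ m * ∑ i, r i := by
    intro i hi
    apply le_of_ne_zero_mem _ _ (hy i hi)
    intro h
    apply h0 i hi
    rw [h, map_zero]
  rw [sum_layer I B _ hB, chowWt]
  apply sum_le_sum
  intro l _
  have := finite_chowFil (fun i => (s i : CRing (f0 K))) r m l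
  apply card_le_finrank_of_lexp (phi K).toLinearMap _ (I.filter fun i => l ≤ B i) y
  · intro i hi
    rw [mem_filter] at hi
    exact chowFil_anti _ _ _ hi.2 (hy i hi.1)
  · intro i hi
    rw [mem_filter] at hi
    exact h0 i hi.1
  · intro i hi j hj hij
    simp only [coe_filter, Set.mem_ofPred_eq] at hi hj
    apply hβ hi.1 hj.1
    rw [← hb i hi.1, ← hb j hj.1]
    exact hij

lemma sum_r_le : ∑ i, r i ≤ totSum k (gg s r) := by
  classical
  rw [← sum_Lk]
  have h1 := sum_layer univ r (∑ i, r i)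
    (fun i hi => single_le_sum (fun _ _ => Nat.zero_le _) hi)
  have h2 := sum_layer (Lk k) (gg s r) (∑ i, r i)
    (fun a _ => Nat.findGreatest_le _)
  rw [h1, h2]
  apply sum_le_sum
  intro l hl
  rw [mem_Icc] at hl
  rw [← finrank_chowFil_one s r l]
  have := finite_chowFil (fun i => (s i : CRing (f0 K))) r 1 l
  have hsec : chowFil (f0 K) (fun i => (s i : CRing (f0 K))) r 1 l ≤ sec (f0 K) k := by
    simpa using chowFil_le_sec (k := k) (fun i => (s i : CRing (f0 K))) r (fun i => (s i).2) 1 l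
  apply finrank_le_card_of_lexp (phi K).toLinearMap
  · intro y hy h0
    exact phi_injOn k (hsec hy) h0
  · intro y hy h0
    have h0' : phi K y ≠ 0 := fun h => h0 (phi_injOn k (hsec hy) h)
    rw [mem_filter]
    refine ⟨lexp_mem_Lk (hsec hy) h0', ?_⟩
    exact Nat.le_findGreatest (P := fun l => DD s r 1 (lexp (phi K y)) l) hl.2
      ⟨y, hy, h0', rfl⟩

end main

/-- The toric cubic surface `x₃³ = x₀x₁x₂` is Chow semistable at every level `k ≥ 1`. -/
theorem toric_semistable {k : ℕ} (hk : 1 ≤ k) : ChowSemistableAt (f0 K) k := by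
  intro N s r ε hε
  obtain ⟨C, hC⟩ := (dec_DD s r).main (cnt_DD s r) hk
  have hN : 2 * N = 3 * k ^ 2 + 3 * k + 2 := by
    have h1 := two_mul_finrank_sec (f0_homog (K := K)) f0_ne_zero k
    have h2 := Module.finrank_eq_card_basis s
    simp only [Fintype.card_fin] at h2
    rw [← h2]; exact h1
  have h := asym_of_main hk (R := ∑ i, (r i : ℝ)) (S := totSum k (gg s r))
    (by exact_mod_cast sum_r_le s r) hN
    (fun m => by
      have := two_mul_finrank_sec (f0_homog (K := K)) f0_ne_zero (k * m)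
      exact this) hC (Nat.cast_nonneg _) hε
  exact h

end Pool.Agent.Helper223
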