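import Pool.Agent.Helper223_Chow.Val
import Pool.Agent.Helper223_Chow.Toric

/-! Linear changes of coordinates. -/

open MvPolynomial Finset

namespace Pool.Agent.Helper223

variable {K : Type*} [Field K]

lemma lsubst_X (g : Matrix (Fin 4) (Fin 4) K) (i : Fin 4) :
    lsubst g (X i) = ∑ j, C (g i j) * X j := by simp [lsubst]

lemma lsubst_comp (g h : Matrix (Fin 4) (Fin 4) K) (F : MvPolynomial (Fin 4) K) :
    lsubst g (lsubst h F) = lsubst (h * g) F := by
  have : (lsubst g).comp (lsubst h) = lsubst (h * g) := by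
    apply algHom_ext
    intro i
    rw [AlgHom.comp_apply, lsubst_X, lsubst_X, map_sum]
    simp only [map_mul, lsubst_X, ← algebraMap_eq, AlgHom.commutes]
    simp only [algebraMap_eq, Matrix.mul_apply, map_sum, sum_mul, mul_sum, map_mul]
    rw [sum_comm]
    apply sum_congr rfl; intro j _
    apply sum_congr rfl; intro k _
    ring
  exact congrArg (fun φ => φ F) this

lemma lsubst_one (F : MvPolynomial (Fin 4) K) : lsubst (1 : Matrix (Fin 4) (Fin 4) K) F = F := by
  have : lsubst (1 : Matrix (Fin 4) (Fin 4) K) = AlgHom.id K _ := by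
    apply algHom_ext
    intro i
    rw [lsubst_X, AlgHom.id_apply, Finset.sum_eq_single i]
    · simp
    · intro j _ hj; simp [Matrix.one_apply_ne hj.symm]
    · intro h; exact absurd (mem_univ i) h
  rw [this]; rfl

lemma lsubst_homog (g : Matrix (Fin 4) (Fin 4) K) {F : MvPolynomial (Fin 4) K} {n : ℕ}
    (hF : F.IsHomogeneous n) : (lsubst g F).IsHomogeneous n := by
  have := hF.aeval (fun i => ∑ j, C (g i j) * X j) (n := 1) (fun i =>
    IsHomogeneous.sum _ _ _ (fun j _ => isHomogeneous_C_mul_X _ _))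
  simpa [lsubst] using this

lemma lsubst_inv_left {g : Matrix (Fin 4) (Fin 4) K} (hg : IsUnit g.det)
    (F : MvPolynomial (Fin 4) K) : lsubst g⁻¹ (lsubst g F) = F := by
  rw [lsubst_comp, Matrix.mul_nonsing_inv _ hg, lsubst_one]

lemma lsubst_injective {g : Matrix (Fin 4) (Fin 4) K} (hg : IsUnit g.det) :
    Function.Injective (lsubst g) := by
  intro a b h
  rw [← lsubst_inv_left hg a, h, lsubst_inv_left hg]

/-- transport along a linear change of coordinates -/
noncomputable def linSDegen {g : Matrix (Fin 4) (Fin 4) K} (hg : IsUnit g.det)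
    (f : MvPolynomial (Fin 4) K) : SDegen f (lsubst g f) where
  red W := W.map (lsubst g).toLinearMap
  le_Sn := by
    rintro n W hW _ ⟨x, hx, rfl⟩
    exact lsubst_homog g (hW hx)
  mono W W' h := Submodule.map_mono h
  finrank_eq n W _ := finrank_map_of_inj _ (lsubst_injective hg) W
  mul_mem := by
    rintro W W' _ _ ⟨x, hx, rfl⟩ ⟨y, hy, rfl⟩
    exact ⟨x * y, Submodule.mul_mem_mul hx hy, map_mul (lsubst g) _ _⟩
  one_mem W hW := ⟨1, hW, map_one (lsubst g)⟩
  f_mem := ⟨f, Submodule.mem_span_singleton_self _, rfl⟩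

lemma lsubst_ne_zero {g : Matrix (Fin 4) (Fin 4) K} (hg : IsUnit g.det)
    {f : MvPolynomial (Fin 4) K} (hf : f ≠ 0) : lsubst g f ≠ 0 := by
  intro h
  exact hf (lsubst_injective hg (by rw [h, map_zero]))

theorem semistable_of_lsubst {g : Matrix (Fin 4) (Fin 4) K} (hg : IsUnit g.det)
    {f : MvPolynomial (Fin 4) K} (hf : f.IsHomogeneous 3) (hf0 : f ≠ 0) {k : ℕ}
    (h : ChowSemistableAt (lsubst g f) k) : ChowSemistableAt f k :=
  (linSDegen hg f).semistable hf hf0 (lsubst_homog g hf) (lsubst_ne_zero hg hf0) h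

theorem stable_of_lsubst {g : Matrix (Fin 4) (Fin 4) K} (hg : IsUnit g.det)
    {f : MvPolynomial (Fin 4) K} (hf : f.IsHomogeneous 3) (hf0 : f ≠ 0) {k : ℕ}
    (h : ChowStableAt (lsubst g f) k) : ChowStableAt f k :=
  (linSDegen hg f).stable hf hf0 (lsubst_homog g hf) (lsubst_ne_zero hg hf0) h

theorem semistable_lsubst {g : Matrix (Fin 4) (Fin 4) K} (hg : IsUnit g.det)
    {f : MvPolynomial (Fin 4) K} (hf : f.IsHomogeneous 3) (hf0 : f ≠ 0) {k : ℕ}
    (h : ChowSemistableAt f k) : ChowSemistableAt (lsubst g f) k := by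
  have hg' : IsUnit (g⁻¹).det := Matrix.isUnit_nonsing_inv_det g hg
  apply semistable_of_lsubst hg' (lsubst_homog g hf) (lsubst_ne_zero hg hf0)
  rwa [lsubst_inv_left hg]

theorem stable_lsubst {g : Matrix (Fin 4) (Fin 4) K} (hg : IsUnit g.det)
    {f : MvPolynomial (Fin 4) K} (hf : f.IsHomogeneous 3) (hf0 : f ≠ 0) {k : ℕ}
    (h : ChowStableAt f k) : ChowStableAt (lsubst g f) k := by
  have hg' : IsUnit (g⁻¹).det := Matrix.isUnit_nonsing_inv_det g hg
  apply stable_of_lsubst hg' (lsubst_homog g hf) (lsubst_ne_zero hg hf0)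
  rwa [lsubst_inv_left hg]

/-- specialisation theorem: semistable special fibre implies semistable generic fibre -/
theorem specialisation_semistable {O : Type*} [CommRing O] [IsDomain O] [ValuationRing O]
    [Algebra O K] [IsFractionRing O K] {κ : Type*} [Field κ] (π : O →+* κ)
    (F : MvPolynomial (Fin 4) O) (hF : F.IsHomogeneous 3) (h0 : map π F ≠ 0) {k : ℕ}
    (h : ChowSemistableAt (map π F) k) : ChowSemistableAt (map (algebraMap O K) F) k := by
  refine (valSDegen π F).semistable (hF.map _) ?_ (hF.map _) h0 h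
  intro hz
  apply h0
  have : F = 0 := map_injective _ (IsFractionRing.injective O K) (by rw [hz, map_zero])
  rw [this, map_zero]

theorem specialisation_stable {O : Type*} [CommRing O] [IsDomain O] [ValuationRing O]
    [Algebra O K] [IsFractionRing O K] {κ : Type*} [Field κ] (π : O →+* κ)
    (F : MvPolynomial (Fin 4) O) (hF : F.IsHomogeneous 3) (h0 : map π F ≠ 0) {k : ℕ}
    (h : ChowStableAt (map π F) k) : ChowStableAt (map (algebraMap O K) F) k := by
  refine (valSDegen π F).stable (hF.map _) ?_ (hF.map _) h0 h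
  intro hz
  apply h0
  have : F = 0 := map_injective _ (IsFractionRing.injective O K) (by rw [hz, map_zero])
  rw [this, map_zero]

/-- descent along a field extension -/
theorem semistable_of_extension {K' : Type*} [Field K'] (φ : K →+* K')
    (f : MvPolynomial (Fin 4) K) (hf : f.IsHomogeneous 3) (hf0 : f ≠ 0) {k : ℕ}
    (h : ChowSemistableAt (map φ f) k) : ChowSemistableAt f k := by
  have h0 : map φ f ≠ 0 := by
    intro hz
    exact hf0 (map_injective _ φ.injective (by rw [hz, map_zero]))
  have := specialisation_semistable (O := K) (K := K) φ f hf h0 h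
  have e : map (algebraMap K K) f = f := by rw [Algebra.algebraMap_self, map_id]
  rwa [e] at this

theorem stable_of_extension {K' : Type*} [Field K'] (φ : K →+* K')
    (f : MvPolynomial (Fin 4) K) (hf : f.IsHomogeneous 3) (hf0 : f ≠ 0) {k : ℕ}
    (h : ChowStableAt (map φ f) k) : ChowStableAt f k := by
  have h0 : map φ f ≠ 0 := by
    intro hz
    exact hf0 (map_injective _ φ.injective (by rw [hz, map_zero]))
  have := specialisation_stable (O := K) (K := K) φ f hf h0 h
  have e : map (algebraMap K K) f = f := by rw [Algebra.algebraMap_self, map_id]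
  rwa [e] at this

end Pool.Agent.Helper223
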