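import Pool.Agent.Helper223_Chow.Weights
import Pool.Agent.Helper223_Chow.Lin

/-! Chow (semi)stability at any level implies GIT (semi)stability. -/

open MvPolynomial Finset Filter

namespace Pool.Agent.Helper223

variable {K : Type*} [Field K]

/-- a basis of `A_k` adapted to the weight filtration -/
lemma exists_basis_Fa (f : MvPolynomial (Fin 4) K) (β : Fin 4 → ℕ) (k : ℕ) :
    ∃ (N : ℕ) (s : Module.Basis (Fin N) K (sec f k)) (r : Fin N → ℕ),
      (∀ l, Fa f β k l = chowFil f (fun i => (s i : CRing f)) r 1 l) ∧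
      (∀ i, (s i : CRing f) ∈ Fa f β k (r i)) ∧ ∀ i, r i ≤ k * ∑ i, β i := by
  classical
  let E : ℕ → Submodule K (sec f k) := fun l => (Fa f β k l).comap (sec f k).subtype
  have hEmap : ∀ l, (E l).map (sec f k).subtype = Fa f β k l := by
    intro l
    rw [Submodule.map_comap_subtype]
    exact inf_eq_right.mpr (Fa_le_sec f β k l)
  have hanti : Antitone E := fun a b hab => Submodule.comap_mono (Fa_anti f β k hab)
  have h0 : E 0 = ⊤ := by
    rw [eq_top_iff]
    rintro ⟨x, hx⟩ _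
    obtain ⟨F, hF, rfl⟩ := mem_sec.mp hx
    exact ⟨F, mem_Fs.mpr ⟨hF, fun m _ => Nat.zero_le _⟩, rfl⟩
  have hL : ∀ l, k * ∑ i, β i + 1 ≤ l → E l = ⊥ := by
    intro l hl
    rw [eq_bot_iff]
    rintro ⟨x, hx⟩ ⟨F, hF, hFx⟩
    obtain ⟨h1, h2⟩ := mem_Fs.mp hF
    have : F = 0 := by
      by_contra hF0
      obtain ⟨m, hm⟩ := (support_nonempty (p := F)).mpr hF0
      have h3 := h2 m hm
      have h4 : m ∈ expo k := by
        have := h1 (mem_support_iff.mp hm)
        rw [mem_expo, ← this, Finsupp.weight_apply, Finsupp.sum_fintype _ _ (by simp)]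
        simp
      have := bw_le β h4
      omega
    rw [Submodule.mem_bot]
    apply Subtype.ext
    rw [this, map_zero] at hFx
    exact hFx.symm
  obtain ⟨b, r, hb⟩ := exists_adapted_basis E hanti h0 _ hL
  have h1 : ∀ l, Fa f β k l = chowFil f (fun i => (b i : CRing f)) r 1 l := by
    intro l
    rw [chowFil_one, ← hEmap l, hb l, Submodule.map_span, ← Set.image_comp]
    rfl
  refine ⟨_, b, r, h1, ?_, ?_⟩
  · intro i
    rw [h1]
    exact mem_chowFil_one _ r le_rfl
  · intro i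
    by_contra hcon
    have h2 : b i ∈ E (r i) := by
      rw [hb]
      exact Submodule.subset_span ⟨i, show r i ≤ r i from le_rfl, rfl⟩
    rw [hL _ (by omega)] at h2
    exact b.ne_zero i (by simpa using h2)

lemma chowFil_le_Fa {f : MvPolynomial (Fin 4) K} {β : Fin 4 → ℕ} {k : ℕ} {ι : Type*}
    (s : ι → CRing f) (r : ι → ℕ) (hs : ∀ i, s i ∈ Fa f β k (r i)) (m l : ℕ) :
    chowFil f s r m l ≤ Fa f β (k * m) l := by
  have hprod : ∀ m (j : Fin m → ι), ∏ i, s (j i) ∈ Fa f β (k * m) (∑ i, r (j i)) := by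
    intro m
    induction m with
    | zero =>
      intro j
      simp only [univ_eq_empty, prod_empty, mul_zero, sum_empty]
      exact ⟨1, mem_Fs.mpr ⟨isHomogeneous_one _ _, fun m _ => Nat.zero_le _⟩, map_one (qm f)⟩
    | succ m ih =>
      intro j
      rw [Fin.prod_univ_castSucc, Fin.sum_univ_castSucc, Nat.mul_succ]
      exact Fa_mul (ih _) (hs _)
  rw [chowFil, Submodule.span_le]
  rintro x ⟨j, hj, rfl⟩
  exact Fa_anti f β _ hj (hprod m j)

lemma chowWt_upper {f : MvPolynomial (Fin 4) K} (hf : f.IsHomogeneous 3) (hf0 : f ≠ 0)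
    (β : Fin 4 → ℕ) {M : ℕ} (hM : ∑ i, β i = 4 * M) {k N : ℕ}
    (s : Module.Basis (Fin N) K (sec f k)) (r : Fin N → ℕ)
    (h2 : ∀ i, (s i : CRing f) ∈ Fa f β k (r i)) (m : ℕ) :
    6 * (chowWt f (fun i => (s i : CRing f)) r m : ℝ) ≤
      6 * M * (k * m) * Module.finrank K (sec f (k * m)) -
        ((ord β f : ℝ) - 3 * M) * ((k * m) * (k * m - 1) * (k * m - 2)) := by
  obtain ⟨L, hL⟩ : ∃ L, L = (k * m) * ∑ i, β i + ord β f + m * ∑ i, r i := ⟨_, rfl⟩
  have e1 := sum_finrank_Fa hf hf0 β hM (k * m) (L := L) (by omega)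
  have e2 : chowWt f (fun i => (s i : CRing f)) r m ≤
      ∑ l ∈ Icc 1 L, Module.finrank K (Fa f β (k * m) l) := by
    rw [chowWt]
    refine (sum_le_sum (fun l _ => ?_)).trans
      (sum_le_sum_of_subset (Icc_subset_Icc_right (show m * ∑ i, r i ≤ L by omega)))
    have : Module.Finite K (Fa f β (k * m) l) :=
      Submodule.finiteDimensional_of_le (Fa_le_sec f β _ _)
    exact Submodule.finrank_mono (chowFil_le_Fa _ r h2 m l)
  have e3 : (chowWt f (fun i => (s i : CRing f)) r m : ℝ) ≤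
      ((∑ l ∈ Icc 1 L, Module.finrank K (Fa f β (k * m) l) : ℕ) : ℝ) := Nat.cast_le.mpr e2
  rw [Nat.cast_mul] at e1
  linarith

/-- real-number bookkeeping for the destabilising filtration -/
lemma weights_of_order {f : MvPolynomial (Fin 4) K} (hf : f.IsHomogeneous 3) (hf0 : f ≠ 0)
    (β : Fin 4 → ℕ) {M : ℕ} (hM : ∑ i, β i = 4 * M) {k : ℕ} (hk : 1 ≤ k) :
    ∃ (N : ℕ) (s : Module.Basis (Fin N) K (sec f k)) (r : Fin N → ℕ),
      (∀ l, Fa f β k l = chowFil f (fun i => (s i : CRing f)) r 1 l) ∧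
      ∃ C : ℝ, ∀ m : ℕ, 1 ≤ m →
        (chowWt f (fun i => (s i : CRing f)) r m : ℝ) / (m * Module.finrank K (sec f (k * m))) ≤
          (∑ i, (r i : ℝ)) / N - ((ord β f : ℝ) - 3 * M) * (k * (12 * k - 4)) /
            (9 * (3 * k ^ 2 + 3 * k + 2)) + C / m := by
  classical
  obtain ⟨N, s, r, h1, h2, h3⟩ := exists_basis_Fa f β k
  have hN : Module.finrank K (sec f k) = N := by
    simpa using Module.finrank_eq_card_basis s
  refine ⟨N, s, r, h1, ?_⟩
  set δ : ℝ := (ord β f : ℝ) - 3 * M with hδ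
  have hk' : (1 : ℝ) ≤ k := by exact_mod_cast hk
  have hNr : 2 * (N : ℝ) = 3 * (k : ℝ) ^ 2 + 3 * k + 2 := by
    rw [← hN]
    exact_mod_cast two_mul_finrank_sec hf hf0 k
  have hNpos : (0 : ℝ) < N := by nlinarith
  -- the sum of the weights
  have hr : 6 * (∑ i, (r i : ℝ)) = 6 * M * k * N - δ * (k * (k - 1) * (k - 2)) := by
    have hL : k * ∑ i, β i + ord β f ≤ k * ∑ i, β i + ord β f := le_rfl
    have e1 := sum_finrank_Fa hf hf0 β hM k hL
    have e2 : ∑ l ∈ Icc 1 (k * ∑ i, β i + ord β f), Module.finrank K (Fa f β k l) =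
        ∑ i, r i := by
      rw [sum_layer univ r (k * ∑ i, β i + ord β f)
        (fun i _ => (h3 i).trans (Nat.le_add_right _ _))]
      apply sum_congr rfl
      intro l _
      rw [h1, finrank_chowFil_one]
    rw [e2, hN] at e1
    rw [← e1, Nat.cast_sum]
  refine ⟨|δ| * k * 10, ?_⟩
  intro m hm
  have hmr : (1 : ℝ) ≤ m := by exact_mod_cast hm
  set d := Module.finrank K (sec f (k * m)) with hd
  have hdr : 2 * (d : ℝ) = 3 * ((k : ℝ) * m) ^ 2 + 3 * (k * m) + 2 := by
    exact_mod_cast two_mul_finrank_sec hf hf0 (k * m)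
  have hkm : (1 : ℝ) ≤ k * m := by nlinarith
  have hdpos : (0 : ℝ) < d := by nlinarith
  have hw : 6 * (chowWt f (fun i => (s i : CRing f)) r m : ℝ) ≤
      6 * M * (k * m) * d - δ * ((k * m) * (k * m - 1) * (k * m - 2)) :=
    chowWt_upper hf hf0 β hM s r h2 m
  have hmean : (∑ i, (r i : ℝ)) / N = M * k - δ * (k * (k - 1) * (k - 2)) / (6 * N) := by
    rw [div_eq_iff hNpos.ne']
    field_simp
    linarith
  have havg : (chowWt f (fun i => (s i : CRing f)) r m : ℝ) / (m * d) ≤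
      M * k - δ * (k * (k * m - 1) * (k * m - 2)) / (6 * d) := by
    rw [div_le_iff₀ (by positivity)]
    have : (M * k - δ * (k * (k * m - 1) * (k * m - 2)) / (6 * d)) * (m * d) =
        (6 * M * (k * m) * d - δ * ((k * m) * (k * m - 1) * (k * m - 2))) / 6 := by
      field_simp
    rw [this]
    linarith
  refine havg.trans ?_
  rw [hmean]
  have hN2 : (N : ℝ) = (3 * (k : ℝ) ^ 2 + 3 * k + 2) / 2 := by linarith
  have hd2 : (d : ℝ) = (3 * ((k : ℝ) * m) ^ 2 + 3 * (k * m) + 2) / 2 := by linarith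
  -- compare `k (km-1)(km-2)/(6d)` with its limit `k/9`
  have key : |k * (k * m - 1) * (k * m - 2) / (6 * d) - (k : ℝ) / 9| ≤ k * 10 / m := by
    have e1 : k * (k * m - 1) * (k * m - 2) / (6 * d) - (k : ℝ) / 9 =
        k * (4 - 12 * (k * m)) / (9 * (2 * d)) := by
      rw [hd2]; field_simp; ring
    rw [e1, abs_div, abs_mul, abs_of_pos (show (0:ℝ) < k by linarith),
      abs_of_pos (show (0 : ℝ) < 9 * (2 * d) by positivity),
      div_le_div_iff₀ (by positivity) (by linarith)]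
    have e2 : |4 - 12 * ((k : ℝ) * m)| ≤ 12 * (k * m) := by
      rw [abs_le]; constructor <;> nlinarith
    have e3 : (k : ℝ) * |4 - 12 * ((k : ℝ) * m)| * m ≤ k * (12 * (k * m)) * m := by gcongr
    refine e3.trans ?_
    rw [hdr]
    nlinarith [mul_pos (show (0:ℝ) < k by linarith) (show (0:ℝ) < m by linarith)]
  have e5 : M * k - δ * (k * (k * m - 1) * (k * m - 2)) / (6 * d) -
      (M * k - δ * (k * (k - 1) * (k - 2)) / (6 * N) -
        δ * (k * (12 * k - 4)) / (9 * (3 * k ^ 2 + 3 * k + 2))) =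
      -(δ * (k * (k * m - 1) * (k * m - 2) / (6 * d) - (k : ℝ) / 9)) := by
    rw [hN2]; field_simp; ring
  have e6 : -(δ * (k * (k * m - 1) * (k * m - 2) / (6 * d) - (k : ℝ) / 9)) ≤
      |δ| * k * 10 / m := by
    refine (neg_le_abs _).trans ?_
    rw [abs_mul]
    calc |δ| * |k * (k * m - 1) * (k * m - 2) / (6 * d) - (k : ℝ) / 9|
        ≤ |δ| * (k * 10 / m) := by gcongr
      _ = |δ| * k * 10 / m := by ring
  linarith

end Pool.Agent.Helper223
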