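import Pool.Agent.Helper223_Chow.Defs

/-! Dimension of the graded pieces of the coordinate ring. -/

open MvPolynomial

namespace Pool.Agent.Helper223

variable {K : Type*} [Field K]

/-- exponents of degree `n` in four variables -/
noncomputable def expo (n : ℕ) : Finset (Fin 4 →₀ ℕ) :=
  Finset.finsuppAntidiag Finset.univ n

lemma mem_expo {n : ℕ} {d : Fin 4 →₀ ℕ} : d ∈ expo n ↔ ∑ i, d i = n := by
  simp [expo, Finset.mem_finsuppAntidiag]

lemma card_expo (n : ℕ) : (expo n).card = (n + 3).choose 3 := by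
  have := Finset.card_finsuppAntidiag_nat_eq_choose (s := (Finset.univ : Finset (Fin 4))) n
  rw [expo, this]
  have h : (Finset.univ : Finset (Fin 4)).card + n - 1 = n + 3 := by simp; omega
  rw [h, ← Nat.choose_symm_of_eq_add (n := n + 3) (a := n) (b := 3) rfl]

lemma homogeneousSubmodule_eq_restrictSupport (n : ℕ) :
    homogeneousSubmodule (Fin 4) K n = restrictSupport K (expo n : Set (Fin 4 →₀ ℕ)) := by
  ext p
  rw [mem_homogeneousSubmodule, mem_restrictSupport_iff]
  constructor
  · intro h d hd
    have := h.degree_eq_sum_deg_support (s := d) (by simpa using hd)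
    rw [Finset.mem_coe, mem_expo]
    rw [this]
    exact (Finsupp.sum_fintype d (fun _ x => x) (by simp)).symm
  · intro h d hd
    have := h (by simpa using mem_support_iff.mpr hd)
    rw [Finset.mem_coe, mem_expo] at this
    rw [← this, Finsupp.weight_apply, Finsupp.sum_fintype _ _ (by simp)]
    simp

lemma finrank_restrictSupport (E : Finset (Fin 4 →₀ ℕ)) :
    Module.finrank K (restrictSupport K (E : Set (Fin 4 →₀ ℕ))) = E.card := by
  rw [Module.finrank_eq_card_basis (basisRestrictSupport K (E : Set (Fin 4 →₀ ℕ)))]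
  simp

instance finite_restrictSupport (E : Finset (Fin 4 →₀ ℕ)) :
    Module.Finite K (restrictSupport K (E : Set (Fin 4 →₀ ℕ))) :=
  Module.Finite.of_basis (basisRestrictSupport K (E : Set (Fin 4 →₀ ℕ)))

instance finite_homogeneousSubmodule (n : ℕ) :
    Module.Finite K (homogeneousSubmodule (Fin 4) K n) := by
  rw [homogeneousSubmodule_eq_restrictSupport]; infer_instance

lemma finrank_homogeneousSubmodule (n : ℕ) :
    Module.finrank K (homogeneousSubmodule (Fin 4) K n) = (n + 3).choose 3 := by
  rw [homogeneousSubmodule_eq_restrictSupport, finrank_restrictSupport, card_expo]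

instance finite_sec (f : MvPolynomial (Fin 4) K) (n : ℕ) : Module.Finite K (sec f n) := by
  unfold sec; infer_instance

lemma homog_factor {f h : MvPolynomial (Fin 4) K} {n : ℕ} (hf : f.IsHomogeneous 3)
    (hfh : (f * h).IsHomogeneous (n + 3)) :
    f * h = f * homogeneousComponent n h := by
  have h1 : homogeneousComponent (n + 3) (f * h) = f * h :=
    homogeneousComponent_eq_self hfh
  rw [← h1]
  conv_lhs => rw [← sum_homogeneousComponent h, Finset.mul_sum, map_sum]
  have h2 : ∀ i, homogeneousComponent (n + 3) (f * homogeneousComponent i h) =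
      if i = n then f * homogeneousComponent i h else 0 := by
    intro i
    have : (f * homogeneousComponent i h) ∈ homogeneousSubmodule (Fin 4) K (3 + i) :=
      hf.mul (homogeneousComponent_isHomogeneous i h)
    rw [homogeneousComponent_of_mem this]
    by_cases hi : i = n
    · subst hi; simp [add_comm]
    · rw [if_neg hi, if_neg (by omega)]
  rw [Finset.sum_congr rfl (fun i _ => h2 i), Finset.sum_ite_eq']
  split_ifs with h3
  · rfl
  · rw [homogeneousComponent_eq_zero n h (by simpa using h3), mul_zero]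

lemma homog_factor_lt {f h : MvPolynomial (Fin 4) K} {n : ℕ} (hf : f.IsHomogeneous 3)
    (hn : n < 3) (hfh : (f * h).IsHomogeneous n) : f * h = 0 := by
  have h1 : homogeneousComponent n (f * h) = f * h := homogeneousComponent_eq_self hfh
  rw [← h1]
  conv_lhs => rw [← sum_homogeneousComponent h, Finset.mul_sum, map_sum]
  apply Finset.sum_eq_zero
  intro i _
  have : (f * homogeneousComponent i h) ∈ homogeneousSubmodule (Fin 4) K (3 + i) :=
    hf.mul (homogeneousComponent_isHomogeneous i h)
  rw [homogeneousComponent_of_mem this, if_neg (by omega)]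

/-- multiplication by `f` as a linear map -/
noncomputable def mulL (f : MvPolynomial (Fin 4) K) :
    MvPolynomial (Fin 4) K →ₗ[K] MvPolynomial (Fin 4) K := LinearMap.mulLeft K f

lemma mulL_injective {f : MvPolynomial (Fin 4) K} (hf : f ≠ 0) :
    Function.Injective (mulL f) := by
  intro a b h
  simpa [mulL, hf] using h

/-- the quotient map -/
noncomputable abbrev qm (f : MvPolynomial (Fin 4) K) :
    MvPolynomial (Fin 4) K →ₐ[K] CRing f := Ideal.Quotient.mkₐ K (Ideal.span {f})

lemma qm_eq_zero_iff {f F : MvPolynomial (Fin 4) K} : qm f F = 0 ↔ ∃ h, F = f * h := by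
  simp only [qm, Ideal.Quotient.mkₐ_eq_mk]
  rw [Ideal.Quotient.eq_zero_iff_mem, Ideal.mem_span_singleton]
  rfl

lemma mem_sec {f : MvPolynomial (Fin 4) K} {n : ℕ} {x : CRing f} :
    x ∈ sec f n ↔ ∃ F : MvPolynomial (Fin 4) K, F.IsHomogeneous n ∧ qm f F = x := by
  simp [sec, Submodule.mem_map]

lemma sec_mul {f : MvPolynomial (Fin 4) K} {m n : ℕ} {x y : CRing f} (hx : x ∈ sec f m)
    (hy : y ∈ sec f n) : x * y ∈ sec f (m + n) := by
  obtain ⟨F, hF, rfl⟩ := mem_sec.mp hx
  obtain ⟨G, hG, rfl⟩ := mem_sec.mp hy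
  exact mem_sec.mpr ⟨F * G, hF.mul hG, map_mul _ _ _⟩

/-- the kernel of `S_{n+3} → A_{n+3}` is `f S_n` -/
lemma ker_qm {f : MvPolynomial (Fin 4) K} (hf : f.IsHomogeneous 3) (n : ℕ) :
    homogeneousSubmodule (Fin 4) K (n + 3) ⊓ LinearMap.ker (qm f).toLinearMap =
      (homogeneousSubmodule (Fin 4) K n).map (mulL f) := by
  ext F
  simp only [Submodule.mem_inf, mem_homogeneousSubmodule, LinearMap.mem_ker,
    AlgHom.toLinearMap_apply, Submodule.mem_map, mulL, LinearMap.mulLeft_apply]
  constructor
  · rintro ⟨h1, h2⟩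
    obtain ⟨h, rfl⟩ := qm_eq_zero_iff.mp h2
    exact ⟨homogeneousComponent n h, homogeneousComponent_isHomogeneous n h,
      (homog_factor hf h1).symm⟩
  · rintro ⟨h, h1, rfl⟩
    refine ⟨?_, qm_eq_zero_iff.mpr ⟨h, rfl⟩⟩
    rw [add_comm]; exact hf.mul h1

lemma finrank_map_add {V W : Type*} [AddCommGroup V] [Module K V] [AddCommGroup W]
    [Module K W] (φ : V →ₗ[K] W) (U : Submodule K V) [Module.Finite K U] :
    Module.finrank K (U.map φ) + Module.finrank K (U ⊓ LinearMap.ker φ : Submodule K V) =
      Module.finrank K U := by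
  have h := LinearMap.finrank_range_add_finrank_ker (φ.domRestrict U)
  rw [LinearMap.range_domRestrict] at h
  rw [← h]
  congr 1
  have e : (LinearMap.ker (φ.domRestrict U)).map U.subtype = U ⊓ LinearMap.ker φ := by
    ext x
    simp only [Submodule.mem_map, LinearMap.mem_ker, Submodule.mem_inf]
    constructor
    · rintro ⟨y, hy, rfl⟩; exact ⟨y.2, hy⟩
    · rintro ⟨h1, h2⟩; exact ⟨⟨x, h1⟩, h2, rfl⟩
  rw [← e]
  exact Submodule.finrank_map_subtype_eq _ _

lemma finrank_map_of_inj {V W : Type*} [AddCommGroup V] [Module K V] [AddCommGroup W]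
    [Module K W] (φ : V →ₗ[K] W) (hφ : Function.Injective φ) (U : Submodule K V) :
    Module.finrank K (U.map φ) = Module.finrank K U :=
  (LinearEquiv.finrank_eq (Submodule.equivMapOfInjective φ hφ U)).symm

lemma finrank_sec_add {f : MvPolynomial (Fin 4) K} (hf : f.IsHomogeneous 3) (hf0 : f ≠ 0)
    (n : ℕ) :
    Module.finrank K (sec f (n + 3)) + (n + 3).choose 3 = (n + 6).choose 3 := by
  have h := finrank_map_add (qm f).toLinearMap (homogeneousSubmodule (Fin 4) K (n + 3))
  rw [ker_qm hf, finrank_map_of_inj _ (mulL_injective hf0), finrank_homogeneousSubmodule,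
    finrank_homogeneousSubmodule] at h
  exact h

lemma finrank_sec_lt {f : MvPolynomial (Fin 4) K} (hf : f.IsHomogeneous 3)
    {n : ℕ} (hn : n < 3) : Module.finrank K (sec f n) = (n + 3).choose 3 := by
  have h := finrank_map_add (qm f).toLinearMap (homogeneousSubmodule (Fin 4) K n)
  have h2 : homogeneousSubmodule (Fin 4) K n ⊓ LinearMap.ker (qm f).toLinearMap = ⊥ := by
    rw [eq_bot_iff]
    rintro F ⟨h1, h2⟩
    obtain ⟨h, rfl⟩ := qm_eq_zero_iff.mp (by simpa using h2)
    exact (homog_factor_lt hf hn h1)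
  rw [h2, finrank_homogeneousSubmodule, finrank_bot, add_zero] at h
  exact h

lemma choose_three (n : ℕ) : 6 * (n + 3).choose 3 = (n + 1) * (n + 2) * (n + 3) := by
  induction n with
  | zero => simp [Nat.choose]
  | succ n ih =>
    have h1 : (n + 1 + 3).choose 3 = (n + 3).choose 2 + (n + 3).choose 3 :=
      Nat.choose_succ_succ _ _
    have h2 : 2 * (n + 3).choose 2 = (n + 3) * (n + 2) := by
      rw [Nat.choose_two_right]
      have : Even ((n + 3) * (n + 3 - 1)) := Nat.even_mul_pred_self _
      rw [Nat.mul_div_cancel' this.two_dvd]; rfl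
    rw [h1]; nlinarith

theorem two_mul_finrank_sec {f : MvPolynomial (Fin 4) K} (hf : f.IsHomogeneous 3)
    (hf0 : f ≠ 0) (n : ℕ) : 2 * Module.finrank K (sec f n) = 3 * n ^ 2 + 3 * n + 2 := by
  rcases lt_or_ge n 3 with hn | hn
  · rw [finrank_sec_lt hf hn]
    interval_cases n <;> simp [Nat.choose]
  · obtain ⟨n, rfl⟩ := Nat.exists_eq_add_of_le' hn
    have h := finrank_sec_add hf hf0 n
    have h1 := choose_three n
    have h2 := choose_three (n + 3)
    have h3 : (n + 3 + 3).choose 3 = (n + 6).choose 3 := rfl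
    rw [h3] at h2
    nlinarith

end Pool.Agent.Helper223
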