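import Pool.Agent.Helper223_Chow.Equal

/-! Weight functions attached to a toric structure; equality case. -/

open MvPolynomial Finset Filter

namespace Pool.Agent.Helper223

variable {K : Type*} [Field K] {f : MvPolynomial (Fin 4) K}

namespace TStr

variable (t : TStr f) {k N : ℕ} (s : Module.Basis (Fin N) K (sec f k)) (r : Fin N → ℕ)

/-- `b` is the leading exponent of an element of the `l`-th step of the filtration -/
def DD {ι : Type*} (s : ι → CRing f) (r : ι → ℕ) (m : ℕ) (b : Fin 3 → ℕ) (l : ℕ) : Prop :=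
  ∃ y ∈ chowFil f s r m l, t.LD y b

open Classical in
/-- the largest weight at a lattice point -/
noncomputable def gg {ι : Type*} [Fintype ι] (s : ι → CRing f) (r : ι → ℕ) (a : Fin 3 → ℕ) : ℕ :=
  Nat.findGreatest (fun l => t.DD s r 1 a l) (∑ i, r i)

lemma DD_zero (a : Fin 3 → ℕ) (ha : a ∈ Lk k) : t.DD (fun i => (s i : CRing f)) r 1 a 0 :=
  ⟨bm f a, by rw [chowFil_one_zero s r]; exact bm_mem_sec f ha, t.LD_bm ha⟩

lemma DD_gg {a : Fin 3 → ℕ} (ha : a ∈ Lk k) :
    t.DD (fun i => (s i : CRing f)) r 1 a (t.gg (fun i => (s i : CRing f)) r a) := by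
  classical
  exact Nat.findGreatest_spec (P := fun l => t.DD (fun i => (s i : CRing f)) r 1 a l)
    (Nat.zero_le _) (t.DD_zero s r a ha)

lemma DD_add {ι : Type*} {s : ι → CRing f} {r : ι → ℕ} {m b l m' b' l'}
    (h : t.DD s r m b l) (h' : t.DD s r m' b' l') : t.DD s r (m + m') (b + b') (l + l') := by
  obtain ⟨y, hy, h0⟩ := h
  obtain ⟨y', hy', h0'⟩ := h'
  exact ⟨y * y', mul_mem_chowFil _ _ hy hy', t.LD_mul h0 h0'⟩

lemma DD_anti {ι : Type*} {s : ι → CRing f} {r : ι → ℕ} {m b l l'}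
    (h : t.DD s r m b l) (hl : l' ≤ l) : t.DD s r m b l' := by
  obtain ⟨y, hy, h0⟩ := h
  exact ⟨y, chowFil_anti _ _ _ hl hy, h0⟩

lemma le_gg {ι : Type*} [Fintype ι] {s : ι → CRing f} {r : ι → ℕ} {a : Fin 3 → ℕ} {l : ℕ}
    (h : t.DD s r 1 a l) : l ≤ t.gg s r a := by
  classical
  obtain ⟨y, hy, h0⟩ := h
  have h1 := le_of_ne_zero_mem s r hy (t.LD_ne h0)
  rw [one_mul] at h1
  exact Nat.le_findGreatest (P := fun l => t.DD s r 1 a l) h1 ⟨y, hy, h0⟩

lemma dec_DD : Dec k (t.gg (fun i => (s i : CRing f)) r) (t.DD (fun i => (s i : CRing f)) r) where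
  zero := ⟨1, one_mem_chowFil _ _, t.LD_one⟩
  add := t.DD_add
  one e S T h := t.DD_gg s r (mem_Lk.mpr (by
    obtain ⟨u, hu, hu2⟩ := exists_mono k e S T h
    obtain ⟨e', S', T', h1, h2, h3⟩ := exists_Pt u hu
    exact ⟨e', S', T', h1, h2, by rw [← hu2, h3]⟩))
  mono := t.DD_anti

lemma cnt_DD : Cnt (t.DD (fun i => (s i : CRing f)) r)
    (chowWt f (fun i => (s i : CRing f)) r) := by
  classical
  intro m ι I β B hβ hD
  choose! y hy h0 using hD
  have hB : ∀ i ∈ I, B i ≤ m * ∑ i, r i := by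
    intro i hi
    exact le_of_ne_zero_mem _ _ (hy i hi) (t.LD_ne (h0 i hi))
  rw [sum_layer I B _ hB, chowWt]
  apply sum_le_sum
  intro l _
  have := finite_chowFil (fun i => (s i : CRing f)) r m l
  apply card_le_finrank_of_lexp t.ψ.toLinearMap _ (I.filter fun i => l ≤ B i) y
  · intro i hi
    rw [mem_filter] at hi
    exact chowFil_anti _ _ _ hi.2 (hy i hi.1)
  · intro i hi
    rw [mem_filter] at hi
    exact (h0 i hi.1).1
  · intro i hi j hj hij
    simp only [coe_filter, Set.mem_ofPred_eq] at hi hj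
    apply hβ hi.1 hj.1
    apply t.inj
    rw [← (h0 i hi.1).2, ← (h0 j hj.1).2]
    exact hij

lemma card_level_le (hf : f.IsHomogeneous 3) (hf0 : f ≠ 0) (l : ℕ) :
    (univ.filter fun i => l ≤ r i).card ≤
      ((Lk k).filter fun a => l ≤ t.gg (fun i => (s i : CRing f)) r a).card := by
  classical
  rw [← finrank_chowFil_one s r l]
  have := finite_chowFil (fun i => (s i : CRing f)) r 1 l
  have hsec : chowFil f (fun i => (s i : CRing f)) r 1 l ≤ sec f k := by
    simpa using chowFil_le_sec (k := k) (fun i => (s i : CRing f)) r (fun i => (s i).2) 1 l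
  have h1 := finrank_le_card_of_lexp t.ψ.toLinearMap
    (chowFil f (fun i => (s i : CRing f)) r 1 l)
    (((Lk k).filter fun a => l ≤ t.gg (fun i => (s i : CRing f)) r a).image t.A)
    (fun y hy h0 => t.psi_eq_zero hf hf0 (hsec hy) h0) (by
      intro y hy h0
      obtain ⟨a, ha, hl⟩ := t.psi_ne hf hf0 (hsec hy) h0
      rw [mem_image]
      exact ⟨a, by rw [mem_filter]; exact ⟨ha, t.le_gg ⟨y, hy, hl⟩⟩, hl.2.symm⟩)
  exact h1.trans card_image_le

lemma gg_le_sum {ι : Type*} [Fintype ι] (s : ι → CRing f) (r : ι → ℕ) (a : Fin 3 → ℕ) :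
    t.gg s r a ≤ ∑ i, r i := by
  classical
  exact Nat.findGreatest_le _

lemma sum_r_le (hf : f.IsHomogeneous 3) (hf0 : f ≠ 0) :
    ∑ i, r i ≤ ∑ a ∈ Lk k, t.gg (fun i => (s i : CRing f)) r a := by
  classical
  rw [sum_layer univ r (∑ i, r i)
    (fun i hi => single_le_sum (fun _ _ => Nat.zero_le _) hi),
    sum_layer (Lk k) (t.gg (fun i => (s i : CRing f)) r) (∑ i, r i)
    (fun a _ => t.gg_le_sum _ _ _)]
  exact sum_le_sum fun l _ => t.card_level_le s r hf hf0 l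

end TStr

lemma Pt_corner (k : ℕ) (e : Fin 3) : Pt k e k 0 = vc k e := by
  funext i
  fin_cases e <;> fin_cases i <;> simp [Pt, vc]

lemma rot_Lk (k : ℕ) (F : (Fin 3 → ℕ) → ℕ) :
    ∑ a ∈ Lk k, F a = ∑ a ∈ Lk k, F (fun i => a (i + 1)) := by
  symm
  refine Finset.sum_bij' (fun a _ => fun i => a (i + 1)) (fun a _ => fun i => a (i - 1))
    ?_ ?_ ?_ ?_ ?_
  · intro a ha
    rw [mem_Lk_iff] at ha ⊢
    change a 1 + a 2 + a 0 = _ ∧ a 1 % 3 = a 2 % 3 ∧ a 2 % 3 = a 0 % 3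
    omega
  · intro a ha
    rw [mem_Lk_iff] at ha ⊢
    change a 2 + a 0 + a 1 = _ ∧ a 2 % 3 = a 0 % 3 ∧ a 0 % 3 = a 1 % 3
    omega
  · intro a _; funext i; simp
  · intro a _; funext i; simp
  · intro a _; rfl

lemma sum_coord_Lk (k : ℕ) (i : Fin 3) : 2 * ∑ a ∈ Lk k, a i = k * (3 * k ^ 2 + 3 * k + 2) := by
  have h1 : ∑ a ∈ Lk k, a 0 = ∑ a ∈ Lk k, a 1 := rot_Lk k (fun a => a 0)
  have h2 : ∑ a ∈ Lk k, a 1 = ∑ a ∈ Lk k, a 2 := rot_Lk k (fun a => a 1)
  have h3 : ∑ a ∈ Lk k, (a 0 + a 1 + a 2) = ∑ a ∈ Lk k, 3 * k :=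
    sum_congr rfl fun a ha => sum_of_mem_Lk ha
  simp only [sum_add_distrib, sum_const, smul_eq_mul] at h3
  have h4 := card_Lk k
  have h5 : 2 * ((Lk k).card * (3 * k)) = 3 * (k * (3 * k ^ 2 + 3 * k + 2)) := by
    rw [← h4]; ring
  fin_cases i <;> simp only [Fin.zero_eta, Fin.mk_one, Fin.reduceFinMk] <;> omega

namespace TStr

variable (t : TStr f) {k N : ℕ} (s : Module.Basis (Fin N) K (sec f k)) (r : Fin N → ℕ)

/-- the corner values -/
noncomputable def GG {ι : Type*} [Fintype ι] (k : ℕ) (s : ι → CRing f) (r : ι → ℕ) (i : Fin 3) :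
    ℕ := t.gg s r (vc k i)

lemma coSum_eq {ι : Type*} [Fintype ι] (k : ℕ) (s : ι → CRing f) (r : ι → ℕ) :
    coSum k (t.gg s r) = ∑ i, t.GG k s r i := by
  rw [coSum]
  apply sum_congr rfl
  intro e _
  rw [Pt_corner]; rfl

/-- the equality case of the main inequality -/
lemma equality (hf : f.IsHomogeneous 3) (hf0 : f ≠ 0) (hk : 1 ≤ k)
    (hb : Bad f k (fun i => (s i : CRing f)) r) :
    ∑ a ∈ Lk k, t.gg (fun i => (s i : CRing f)) r a = ∑ i, r i ∧
      coSum k (t.gg (fun i => (s i : CRing f)) r) =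
        3 * t.gg (fun i => (s i : CRing f)) r (Pt k 0 0 0) ∧
      N * t.gg (fun i => (s i : CRing f)) r (Pt k 0 0 0) = ∑ i, r i ∧
      ∀ q a, 1 ≤ q → t.DD (fun i => (s i : CRing f)) r q (fun _ => q * k) a →
        a ≤ q * t.gg (fun i => (s i : CRing f)) r (Pt k 0 0 0) := by
  classical
  set g := t.gg (fun i => (s i : CRing f)) r with hg
  have hD := t.dec_DD s r
  have hC := t.cnt_DD s r
  rw [← hg] at hD
  have p1 := hb.le_mean hf hf0 hk (hD.pb1 hC hk)
  have p2 := fun q a (hq1 : 1 ≤ q) (hq) => hb.le_mean hf hf0 hk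
    (hD.pb2 hC hk (q := q) (a := a) hq1 hq)
  have p3 := hb.le_mean hf hf0 hk (hD.pb3 hC hk)
  have hF := fine_identity k hk g
  have hz1 := hD.zeroA 1
  have hz2 := hD.zeroB k le_rfl
  have q1 := p2 1 _ le_rfl hz1
  have q2 := p2 (3 * k) _ (by omega) hz2
  have hR := t.sum_r_le s r hf hf0
  rw [← hg] at hR
  rw [sum_Lk] at hR ⊢
  have hN : 2 * N = 3 * k ^ 2 + 3 * k + 2 := by
    have h1 := two_mul_finrank_sec hf hf0 k
    have h2 := Module.finrank_eq_card_basis s
    simp only [Fintype.card_fin] at h2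
    rw [← h2]; exact h1
  set L : ℝ := (∑ i, (r i : ℝ)) / N with hL
  have hN' : 2 * (N : ℝ) = 3 * (k : ℝ) ^ 2 + 3 * k + 2 := by exact_mod_cast hN
  have hk' : (1 : ℝ) ≤ k := by exact_mod_cast hk
  have hNpos : (0 : ℝ) < N := by nlinarith
  have hRL : (∑ i, (r i : ℝ)) = N * L := by rw [hL]; field_simp
  have hR' : (∑ i, (r i : ℝ)) ≤ totSum k g := by exact_mod_cast hR
  have hF' : (fineSum k g : ℝ) + 3 * bdSum k g + coSum k g + 3 * g (Pt k 0 0 0) =
      6 * totSum k g := by exact_mod_cast hF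
  have hkpos : (0 : ℝ) < k := by linarith
  -- the four bounds
  have b1 : (fineSum k g : ℝ) ≤ 9 * k ^ 2 * L := by
    rwa [div_le_iff₀ (by positivity), mul_comm] at p1
  have b2 : 2 * (bdSum k g : ℝ) + 3 * k * g (Pt k 0 0 0) ≤ 9 * k * L := by
    rw [div_le_iff₀ (by positivity)] at q1
    push_cast at q1
    linarith
  have b3 : (bdSum k g : ℝ) ≤ 3 * k * L := by
    rw [div_le_iff₀ (by positivity)] at q2
    change 2 * (bdSum k g : ℝ) + 3 * k * ((bdSum k g : ℝ) / ((3 * k : ℕ) : ℝ)) ≤ _ at q2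
    push_cast at q2
    have e : 3 * (k : ℝ) * ((bdSum k g : ℝ) / (3 * k)) = bdSum k g := by field_simp
    rw [e] at q2
    linarith
  have b4 : (coSum k g : ℝ) ≤ 3 * L := by linarith
  have p2' : ∀ q a, 1 ≤ q → t.DD (fun i => (s i : CRing f)) r q (fun _ => q * k) a →
      2 * (bdSum k g : ℝ) + 3 * k * (a / q) ≤ 9 * k * L := by
    intro q a hq1 hq
    have := p2 q a hq1 hq
    rwa [div_le_iff₀ (by positivity), mul_comm L] at this
  clear p1 p2 p3 q1 q2
  generalize (fineSum k g : ℝ) = F at *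
  generalize hBr : (bdSum k g : ℝ) = B at *
  generalize hCr : (coSum k g : ℝ) = C at *
  generalize hgr : (g (Pt k 0 0 0) : ℝ) = g0 at *
  generalize hSr : (totSum k g : ℝ) = S at *
  have key : 6 * N * L ≤ F + 3 * B + C + 3 * g0 := by
    have : (N : ℝ) * L ≤ S := by rw [← hRL]; exact hR'
    rw [hF']
    linarith
  have e0 : 3 * (k : ℝ) * g0 ≤ 9 * k * L - 2 * B := by linarith
  -- B = 3 k L
  have hB : B = 3 * k * L := by
    apply le_antisymm b3
    have h1 : k * (6 * N * L) ≤ k * (F + 3 * B + C + 3 * g0) :=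
      mul_le_mul_of_nonneg_left key hkpos.le
    have h2 : 6 * (N : ℝ) = 9 * k ^ 2 + 9 * k + 6 := by linarith
    rw [h2] at h1
    have h3 : k * F ≤ k * (9 * k ^ 2 * L) := mul_le_mul_of_nonneg_left b1 hkpos.le
    have h4 : k * C ≤ k * (3 * L) := mul_le_mul_of_nonneg_left b4 hkpos.le
    have h5 : (3 * k - 2) * (3 * k * L) ≤ (3 * k - 2) * B := by nlinarith
    exact le_of_mul_le_mul_left h5 (by linarith)
  have hg0 : g0 = L := by
    apply le_antisymm
    · have : k * (3 * g0) ≤ k * (3 * L) := by rw [hB] at e0; nlinarith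
      have := le_of_mul_le_mul_left this hkpos
      linarith
    · have h2 : 6 * (N : ℝ) = 9 * k ^ 2 + 9 * k + 6 := by linarith
      rw [h2, hB] at key
      nlinarith
  have hC3 : C = 3 * g0 := by
    apply le_antisymm
    · rw [hg0]; exact b4
    · have h2 : 6 * (N : ℝ) = 9 * k ^ 2 + 9 * k + 6 := by linarith
      rw [h2, hB, hg0] at key
      rw [hg0]
      nlinarith
  have hS : S = N * L := by
    apply le_antisymm
    · have h2 : 6 * (N : ℝ) = 9 * k ^ 2 + 9 * k + 6 := by linarith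
      have h3 : 6 * (N * L) = (9 * k ^ 2 + 9 * k + 6) * L := by rw [← h2]; ring
      have : 6 * S ≤ 6 * (N * L) := by
        rw [← hF', hB, hC3, hg0, h3]
        linarith
      linarith
    · rw [← hRL]; exact hR'
  refine ⟨?_, ?_, ?_, ?_⟩
  · have : (totSum k g : ℝ) = ∑ i, (r i : ℝ) := by rw [hSr, hS, hRL]
    exact_mod_cast this
  · have : (coSum k g : ℝ) = 3 * (g (Pt k 0 0 0) : ℝ) := by rw [hCr, hC3, hgr]
    exact_mod_cast this
  · have : (N : ℝ) * g (Pt k 0 0 0) = ∑ i, (r i : ℝ) := by rw [hgr, hg0, hRL]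
    exact_mod_cast this
  · intro q a hq1 hq
    have h1 := p2' q a hq1 hq
    have hq' : (0 : ℝ) < q := by exact_mod_cast hq1
    have h2 : (a : ℝ) / q ≤ g0 := by
      rw [hB, hg0.symm] at h1
      have : 3 * (k : ℝ) * (a / q) ≤ 3 * k * g0 := by nlinarith
      exact le_of_mul_le_mul_left this (by positivity)
    rw [div_le_iff₀ hq'] at h2
    have : (a : ℝ) ≤ q * g (Pt k 0 0 0) := by rw [hgr]; linarith
    exact_mod_cast this

end TStr

end Pool.Agent.Helper223
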