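import Pool.Agent.Helper223_Chow.Lead

/-! Consequences of equality in the Chow inequality. -/

open MvPolynomial Finset Filter

namespace Pool.Agent.Helper223

/-- lower bounds with leading coefficient `X` -/
def Pb (k : ℕ) (w : ℕ → ℕ) (X : ℝ) : Prop :=
  ∃ C : ℝ, ∀ m : ℕ, 2 ≤ m → 3 * (k : ℝ) ^ 2 * X * m ^ 3 - C * m ^ 2 ≤ 2 * w m

section dec

variable {k : ℕ} {g : (Fin 3 → ℕ) → ℕ} {D : ℕ → (Fin 3 → ℕ) → ℕ → Prop} {w : ℕ → ℕ}

lemma Dec.pb1 (h : Dec k g D) (hw : Cnt D w) (hk : 1 ≤ k) :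
    Pb k w (fineSum k g / (9 * k ^ 2)) := by
  refine ⟨fineSum k g, fun m hm => ?_⟩
  obtain ⟨n, rfl⟩ := Nat.exists_eq_add_of_le' hm
  have B1 := h.bound1 hw n
  have cB1 : (n : ℝ) * (n + 1) * (n + 2) * fineSum k g ≤ 6 * w (n + 2) := by exact_mod_cast B1
  have hk' : (1 : ℝ) ≤ k := by exact_mod_cast hk
  have e : 3 * (k : ℝ) ^ 2 * (fineSum k g / (9 * k ^ 2)) = fineSum k g / 3 := by
    field_simp; ring
  have hF : (0 : ℝ) ≤ fineSum k g := Nat.cast_nonneg _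
  have hn : (0 : ℝ) ≤ n := Nat.cast_nonneg _
  rw [e]; push_cast
  have : (0 : ℝ) ≤ fineSum k g * (n + 2) := by positivity
  nlinarith

lemma Dec.pb2 (h : Dec k g D) (hw : Cnt D w) (hk : 1 ≤ k) {q a : ℕ} (hq1 : 1 ≤ q)
    (hq : D q (fun _ => q * k) a) :
    Pb k w ((2 * bdSum k g + 3 * k * (a / q)) / (9 * k)) := by
  refine ⟨k * bdSum k g + 6 * k ^ 2 * a, fun m hm => ?_⟩
  obtain ⟨n, rfl⟩ := Nat.exists_eq_add_of_le' hm
  have B3 := h.bound2 hw (Z := fun x => x / q * a) (fun x => h.zeroDiv hq x) (n + 1)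
  set b := bdSum k g with hb
  have T1 := sum_Tri_fst (n + 1)
  have T2 := sum_Tri_snd (n + 1)
  have T3 := sum_Tri_rest (n + 1)
  have T4 := card_Tri (n + 1)
  have T1' : 6 * ∑ p ∈ Tri (n + 1), p.1 = (n + 1) * (n + 2) * n := by
    rw [sum_add_distrib] at T1
    simp only [sum_const, smul_eq_mul, mul_one] at T1
    nlinarith
  have T3' : 6 * ∑ p ∈ Tri (n + 1), (n + 1 - 1 - p.1 - p.2) = (n + 1) * (n + 2) * n := by
    have : ∑ p ∈ Tri (n + 1), (n + 1 - p.1 - p.2) =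
        ∑ p ∈ Tri (n + 1), ((n + 1 - 1 - p.1 - p.2) + 1) := by
      apply sum_congr rfl
      intro p hp
      rw [mem_Tri] at hp
      omega
    rw [this, sum_add_distrib] at T3
    simp only [sum_const, smul_eq_mul, mul_one] at T3
    nlinarith
  have hZ3 : ∑ p ∈ Tri (n + 1), (n + 1 - 1 - p.1 - p.2) * a ≤
      q * ∑ p ∈ Tri (n + 1), (n + 1 - 1 - p.1 - p.2) / q * a +
        q * ((Tri (n + 1)).card * a) := by
    rw [mul_sum, ← smul_eq_mul (a := (Tri (n + 1)).card), ← sum_const, mul_sum,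
      ← sum_add_distrib]
    apply sum_le_sum
    intro p _
    have h1 : n + 1 - 1 - p.1 - p.2 ≤ q * ((n + 1 - 1 - p.1 - p.2) / q) + q := by
      have := Nat.lt_mul_div_succ (n + 1 - 1 - p.1 - p.2) (show 0 < q by omega)
      rw [mul_add, mul_one] at this
      exact this.le
    calc _ ≤ (q * ((n + 1 - 1 - p.1 - p.2) / q) + q) * a :=
          Nat.mul_le_mul_right _ h1
      _ = _ := by ring
  rw [← sum_mul] at hZ3
  have hk' : (1 : ℝ) ≤ k := by exact_mod_cast hk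
  have hq' : (1 : ℝ) ≤ q := by exact_mod_cast hq1
  have cT2 : 6 * ((∑ p ∈ Tri (n + 1), (p.2 + 1) : ℕ) : ℝ) =
      ((n : ℝ) + 1) * (n + 1 + 1) * (n + 1 + 2) := by exact_mod_cast T2
  have cT1 : 6 * ((∑ p ∈ Tri (n + 1), p.1 : ℕ) : ℝ) = ((n : ℝ) + 1) * (n + 2) * n := by
    exact_mod_cast T1'
  have cT3 : 6 * ((∑ p ∈ Tri (n + 1), (n + 1 - 1 - p.1 - p.2) : ℕ) : ℝ) =
      ((n : ℝ) + 1) * (n + 2) * n := by exact_mod_cast T3'
  have cT4 : 2 * (((Tri (n + 1)).card : ℕ) : ℝ) = ((n : ℝ) + 1) * (n + 1 + 1) := by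
    exact_mod_cast T4
  have cB3 : (k : ℝ) * (((∑ p ∈ Tri (n + 1), (p.2 + 1) : ℕ) : ℝ) * b +
      ((∑ p ∈ Tri (n + 1), p.1 : ℕ) : ℝ) * b + 3 * k *
      ((∑ p ∈ Tri (n + 1), (n + 1 - 1 - p.1 - p.2) / q * a : ℕ) : ℝ)) ≤ w (n + 2) := by
    exact_mod_cast B3
  have cZ3 : ((∑ p ∈ Tri (n + 1), (n + 1 - 1 - p.1 - p.2) : ℕ) : ℝ) * a ≤
      q * ((∑ p ∈ Tri (n + 1), (n + 1 - 1 - p.1 - p.2) / q * a : ℕ) : ℝ) +
        q * ((((Tri (n + 1)).card : ℕ) : ℝ) * a) := by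
    exact_mod_cast hZ3
  generalize ((∑ p ∈ Tri (n + 1), (p.2 + 1) : ℕ) : ℝ) = t2 at *
  generalize ((∑ p ∈ Tri (n + 1), p.1 : ℕ) : ℝ) = t1 at *
  generalize ((∑ p ∈ Tri (n + 1), (n + 1 - 1 - p.1 - p.2) : ℕ) : ℝ) = t3 at *
  generalize ((∑ p ∈ Tri (n + 1), (n + 1 - 1 - p.1 - p.2) / q * a : ℕ) : ℝ) = z3 at *
  generalize (((Tri (n + 1)).card : ℕ) : ℝ) = t4 at *
  generalize (w (n + 2) : ℝ) = W at *
  have hbr : (0 : ℝ) ≤ b := Nat.cast_nonneg _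
  have har : (0 : ℝ) ≤ a := Nat.cast_nonneg _
  have hnr : (0 : ℝ) ≤ n := Nat.cast_nonneg _
  have et2 : t2 = ((n : ℝ) + 1) * (n + 2) * (n + 3) / 6 := by linarith
  have et1 : t1 = ((n : ℝ) + 1) * (n + 2) * n / 6 := by linarith
  have et3 : t3 = ((n : ℝ) + 1) * (n + 2) * n / 6 := by linarith
  have et4 : t4 = ((n : ℝ) + 1) * (n + 2) / 2 := by linarith
  obtain ⟨α, hα⟩ : ∃ α : ℝ, α = a / q := ⟨_, rfl⟩
  have hα0 : 0 ≤ α := by rw [hα]; positivity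
  have hαa : α ≤ a := by rw [hα]; exact div_le_self har hq'
  have hz : α * t3 - a * t4 ≤ z3 := by
    have h1 : q * (α * t3 - a * t4) ≤ q * z3 := by
      have : (q : ℝ) * α = a := by rw [hα]; field_simp
      calc (q : ℝ) * (α * t3 - a * t4) = (q * α) * t3 - q * (t4 * a) := by ring
        _ = t3 * a - q * (t4 * a) := by rw [this]; ring
        _ ≤ q * z3 := by linarith
    exact le_of_mul_le_mul_left h1 (by linarith)
  rw [← hα]
  have e : 3 * (k : ℝ) ^ 2 * ((2 * b + 3 * k * α) / (9 * k)) = k * (2 * b + 3 * k * α) / 3 := by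
    field_simp; ring
  rw [e]; push_cast
  rw [et3, et4] at hz
  rw [et2, et1] at cB3
  have hk0 : (0 : ℝ) ≤ k := by linarith
  have hz' : (k : ℝ) * (3 * k * (α * ((n + 1) * (n + 2) * n / 6) - a * ((n + 1) * (n + 2) / 2))) ≤
      k * (3 * k * z3) := by gcongr
  have N1 : (0 : ℝ) ≤ k * b * (n + 2) := by positivity
  have N2 : (0 : ℝ) ≤ k ^ 2 * (a - α) * (n + 2) ^ 2 :=
    mul_nonneg (mul_nonneg (by positivity) (by linarith)) (by positivity)
  have N3 : (0 : ℝ) ≤ k ^ 2 * α * (n + 2) := by positivity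
  have N4 : (0 : ℝ) ≤ k ^ 2 * a * (n + 2) := by positivity
  nlinarith

lemma Dec.pb3 (h : Dec k g D) (hw : Cnt D w) (hk : 1 ≤ k) :
    Pb k w (coSum k g / 3) := by
  refine ⟨(8 * k ^ 2 + k) * coSum k g, fun m hm => ?_⟩
  obtain ⟨n, rfl⟩ := Nat.exists_eq_add_of_le' hm
  have B4 := h.bound3 hw (Z := fun x => x / 3 * coSum k g) hk
    (fun x => h.zeroDiv h.zeroC x) (by
    intro x
    have : x ≤ 3 * (x / 3) + 2 := by omega
    calc x * coSum k g ≤ (3 * (x / 3) + 2) * coSum k g := Nat.mul_le_mul_right _ this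
      _ = _ := by ring) n
  have T5 := card_Tri (k * n)
  have cT5 : 2 * (((Tri (k * n)).card : ℕ) : ℝ) = (k * n : ℝ) * (k * n + 1) := by
    exact_mod_cast T5
  have cB4 : (((Tri (k * n)).card : ℕ) : ℝ) * n * coSum k g ≤
      w (n + 2) + (((Tri (k * n)).card : ℕ) : ℝ) * 2 * coSum k g := by exact_mod_cast B4
  generalize (((Tri (k * n)).card : ℕ) : ℝ) = t5 at *
  have hk' : (1 : ℝ) ≤ k := by exact_mod_cast hk
  have hn : (0 : ℝ) ≤ n := Nat.cast_nonneg _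
  have hc : (0 : ℝ) ≤ coSum k g := Nat.cast_nonneg _
  have et5 : t5 = (k : ℝ) * n * (k * n + 1) / 2 := by linarith
  rw [et5] at cB4
  push_cast
  generalize (coSum k g : ℝ) = c at *
  generalize (w (n + 2) : ℝ) = W at *
  have e : 3 * (k : ℝ) ^ 2 * (c / 3) = k ^ 2 * c := by ring
  rw [e]
  have h1 : (k : ℝ) * n * (k * n + 1) * (n - 2) * c ≤ 2 * W := by nlinarith
  refine le_trans ?_ h1
  have N0 : (0 : ℝ) ≤ c * k * ((n - 1) ^ 2 + (n ^ 2 + 4 * n + 3) - n ^ 2) := by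
    have : (0 : ℝ) ≤ (n - 1) ^ 2 := sq_nonneg _
    have h2 : (0 : ℝ) ≤ (n - 1) ^ 2 + (n ^ 2 + 4 * n + 3) - n ^ 2 := by nlinarith
    positivity
  have N1 : (0 : ℝ) ≤ c * k ^ 2 * (20 * n + 24) := by positivity
  have N2 : (0 : ℝ) ≤ c * k * n := by positivity
  nlinarith

end dec

variable {K : Type*} [Field K] {f : MvPolynomial (Fin 4) K}

/-- the limit of the average weights does not exceed the mean of the weights -/
def Bad (f : MvPolynomial (Fin 4) K) (k : ℕ) {N : ℕ} (s : Fin N → CRing f) (r : Fin N → ℕ) :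
    Prop :=
  ∀ ε : ℝ, 0 < ε → ¬ ∀ᶠ m : ℕ in atTop, (∑ i, (r i : ℝ)) / N + ε ≤
    (chowWt f s r m : ℝ) / (m * Module.finrank K (sec f (k * m)))

lemma exists_bad {k : ℕ} (h : ¬ ChowStableAt f k) :
    ∃ (N : ℕ) (s : Module.Basis (Fin N) K (sec f k)) (r : Fin N → ℕ), (∃ i j, r i ≠ r j) ∧
      Bad f k (fun i => (s i : CRing f)) r := by
  unfold ChowStableAt at h
  push Not at h
  obtain ⟨N, s, r, hr, h2⟩ := h
  refine ⟨N, s, r, hr, fun ε hε hcon => ?_⟩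
  exact h2 ε hε (hcon.mono fun m hm => not_lt.mpr hm)

lemma stable_of_not_bad {k : ℕ} (h : ∀ (N : ℕ) (s : Module.Basis (Fin N) K (sec f k))
    (r : Fin N → ℕ), (∃ i j, r i ≠ r j) → ¬ Bad f k (fun i => (s i : CRing f)) r) :
    ChowStableAt f k := by
  by_contra hcon
  obtain ⟨N, s, r, hr, hb⟩ := exists_bad hcon
  exact h N s r hr hb

lemma Bad.le_mean (hf : f.IsHomogeneous 3) (hf0 : f ≠ 0) {k : ℕ} (hk : 1 ≤ k) {N : ℕ}
    {s : Fin N → CRing f} {r : Fin N → ℕ} (hb : Bad f k s r) {X : ℝ}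
    (hX : Pb k (chowWt f s r) X) : X ≤ (∑ i, (r i : ℝ)) / N := by
  by_contra hcon
  push Not at hcon
  set μ := (∑ i, (r i : ℝ)) / N with hμ
  have hμ0 : 0 ≤ μ := by positivity
  obtain ⟨ε, hε⟩ : ∃ ε : ℝ, ε = (X - μ) / 2 := ⟨_, rfl⟩
  have hεpos : 0 < ε := by rw [hε]; linarith
  apply hb ε hεpos
  obtain ⟨C, hC⟩ := hX
  have hk' : (1 : ℝ) ≤ k := by exact_mod_cast hk
  obtain ⟨M, hM⟩ := exists_nat_gt ((X * (3 * k + 2) + 2 * |C|) / (3 * ε * k ^ 2))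
  filter_upwards [eventually_ge_atTop (max M 2)] with m hm2
  have h2 : 2 ≤ m := le_trans (le_max_right _ _) hm2
  have hMm : M ≤ m := le_trans (le_max_left _ _) hm2
  have h1 := hC m h2
  have hmr : (2 : ℝ) ≤ m := by exact_mod_cast h2
  have hd := two_mul_finrank_sec hf hf0 (k * m)
  have hd' : 2 * (Module.finrank K (sec f (k * m)) : ℝ) =
      3 * ((k : ℝ) * m) ^ 2 + 3 * (k * m) + 2 := by exact_mod_cast hd
  generalize (Module.finrank K (sec f (k * m)) : ℝ) = d at *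
  generalize (chowWt f s r m : ℝ) = W at *
  have hXpos : 0 < X := by linarith
  have hkm : (0 : ℝ) < k * m := by positivity
  have hdpos : (0 : ℝ) < d := by nlinarith
  rw [le_div_iff₀ (by positivity)]
  have e1 : μ + ε = X - ε := by rw [hε]; ring
  rw [e1]
  have hc : (X * (3 * k + 2) + 2 * |C|) < m * (3 * ε * k ^ 2) := by
    have : (X * (3 * k + 2) + 2 * |C|) / (3 * ε * k ^ 2) < m :=
      lt_of_lt_of_le hM (by exact_mod_cast hMm)
    rwa [div_lt_iff₀ (by positivity)] at this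
  have hCle : C ≤ |C| := le_abs_self C
  have a1 : (X * (3 * k + 2) + 2 * |C|) * (m : ℝ) ^ 2 ≤ m * (3 * ε * k ^ 2) * m ^ 2 :=
    mul_le_mul_of_nonneg_right hc.le (by positivity)
  have a2 : C * (m : ℝ) ^ 2 ≤ |C| * m ^ 2 := mul_le_mul_of_nonneg_right hCle (by positivity)
  have a3 : 0 ≤ ε * m * (3 * (k * m) + 2) := by positivity
  have a4 : 2 * X * (m : ℝ) ≤ 2 * X * m ^ 2 :=
    mul_le_mul_of_nonneg_left (by nlinarith) (by linarith)
  have a5 : 0 ≤ |C| * (m : ℝ) ^ 2 := by positivity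
  have e3 : 2 * ((X - ε) * (m * d)) ≤ 2 * W := by
    calc 2 * ((X - ε) * (m * d)) = (X - ε) * m * (2 * d) := by ring
      _ = (X - ε) * m * (3 * ((k : ℝ) * m) ^ 2 + 3 * (k * m) + 2) := by rw [hd']
      _ ≤ 3 * (k : ℝ) ^ 2 * X * m ^ 3 - C * m ^ 2 := by nlinarith
      _ ≤ 2 * W := h1
  linarith

end Pool.Agent.Helper223
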