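import Pool.Agent.Helper223_Chow.Cubic20

/-! Every cubic form is of the explicit shape `P20`. -/

open MvPolynomial Finset

namespace Pool.Agent.Helper223

variable {K : Type*} [Field K]

/-- finitely supported function from a vector -/
noncomputable def fs (v : Fin 4 → ℕ) : Fin 4 →₀ ℕ := Finsupp.equivFunOnFinite.symm v

lemma fs_apply (v : Fin 4 → ℕ) (i : Fin 4) : fs v i = v i := rfl

lemma fs_injective : Function.Injective fs := Finsupp.equivFunOnFinite.symm.injective

lemma fs_coe (m : Fin 4 →₀ ℕ) : fs m = m := by ext i; rfl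

lemma monomial_fs (v : Fin 4 → ℕ) (x : K) :
    monomial (fs v) x = C x * (X 0 ^ v 0 * X 1 ^ v 1 * X 2 ^ v 2 * X 3 ^ v 3) := by
  rw [monomial_eq, Finsupp.prod_fintype _ _ (by simp), Fin.prod_univ_four]
  rfl

lemma P20_eq (c : Fin 20 → K) : P20 c = ∑ i, monomial (fs (tab i)) (c i) := by
  simp only [monomial_fs]
  rw [P20]
  simp only [Fin.sum_univ_succ, Fin.sum_univ_zero]
  simp only [tab, Matrix.cons_val_zero, Matrix.cons_val_succ, Matrix.cons_val]
  simp only [add_assoc, add_zero]
  rfl

lemma tab_injective : Function.Injective tab := by decide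

lemma tab_sum : ∀ i, ∑ x, tab i x = 3 := by decide

lemma tab_surjective : ∀ a b c d : Fin 4, (a : ℕ) + b + c + d = 3 →
    ∃ i, tab i = ![(a : ℕ), b, c, d] := by decide

lemma exists_tab {m : Fin 4 →₀ ℕ} (h : ∑ i, m i = 3) : ∃ i, fs (tab i) = m := by
  rw [Fin.sum_univ_four] at h
  obtain ⟨i, hi⟩ := tab_surjective ⟨m 0, by omega⟩ ⟨m 1, by omega⟩ ⟨m 2, by omega⟩ ⟨m 3, by omega⟩ h
  refine ⟨i, ?_⟩
  rw [hi]
  ext j
  fin_cases j <;> rfl

lemma coeff_P20 (c : Fin 20 → K) (i : Fin 20) : coeff (fs (tab i)) (P20 c) = c i := by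
  classical
  rw [P20_eq, coeff_sum, Finset.sum_eq_single i]
  · rw [coeff_monomial, if_pos rfl]
  · intro j _ hj
    rw [coeff_monomial, if_neg]
    intro h
    exact hj (tab_injective (fs_injective h))
  · intro h; exact absurd (mem_univ i) h

lemma expand {F : MvPolynomial (Fin 4) K} (hF : F.IsHomogeneous 3) :
    F = P20 (fun i => coeff (fs (tab i)) F) := by
  classical
  ext m
  by_cases hm : ∑ i, m i = 3
  · obtain ⟨i, rfl⟩ := exists_tab hm
    rw [coeff_P20]
  · have h1 : coeff m F = 0 := by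
      by_contra h
      apply hm
      have := hF h
      rw [← this, Finsupp.weight_apply, Finsupp.sum_fintype _ _ (by simp)]
      simp
    rw [h1, P20_eq, coeff_sum]
    symm
    apply Finset.sum_eq_zero
    intro i _
    rw [coeff_monomial, if_neg]
    intro h
    apply hm
    rw [← h]
    exact tab_sum i

lemma mem_support_P20 {c : Fin 20 → K} {m : Fin 4 →₀ ℕ} (hm : m ∈ (P20 c).support) :
    ∃ i, c i ≠ 0 ∧ m = fs (tab i) := by
  classical
  rw [P20_eq] at hm
  have h := support_sum hm
  rw [mem_biUnion] at h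
  obtain ⟨i, _, hi⟩ := h
  have h2 := support_monomial_subset hi
  rw [mem_singleton] at h2
  refine ⟨i, ?_, h2⟩
  intro hc
  rw [hc, monomial_zero] at hi
  simp at hi

end Pool.Agent.Helper223
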