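import Pool.Agent.Helper223_Chow.Dim

/-! Basic properties of the generated filtration. -/

open MvPolynomial Finset

namespace Pool.Agent.Helper223

variable {K : Type*} [Field K] {f : MvPolynomial (Fin 4) K} {ι : Type*}

lemma prod_mem_chowFil (s : ι → CRing f) (r : ι → ℕ) {m l : ℕ} (j : Fin m → ι)
    (h : l ≤ ∑ i, r (j i)) : ∏ i, s (j i) ∈ chowFil f s r m l :=
  Submodule.subset_span ⟨j, h, rfl⟩

lemma chowFil_anti (s : ι → CRing f) (r : ι → ℕ) (m : ℕ) {l l' : ℕ} (h : l' ≤ l) :
    chowFil f s r m l ≤ chowFil f s r m l' := by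
  apply Submodule.span_mono
  rintro x ⟨j, hj, rfl⟩
  exact ⟨j, h.trans hj, rfl⟩

lemma one_mem_chowFil (s : ι → CRing f) (r : ι → ℕ) : (1 : CRing f) ∈ chowFil f s r 0 0 := by
  have := prod_mem_chowFil s r (m := 0) (l := 0) Fin.elim0 (by simp)
  simpa using this

lemma mul_mem_chowFil (s : ι → CRing f) (r : ι → ℕ) {m l m' l' : ℕ} {x y : CRing f}
    (hx : x ∈ chowFil f s r m l) (hy : y ∈ chowFil f s r m' l') :
    x * y ∈ chowFil f s r (m + m') (l + l') := by
  have h : chowFil f s r m l * chowFil f s r m' l' ≤ chowFil f s r (m + m') (l + l') := by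
    rw [chowFil, chowFil, Submodule.span_mul_span, Submodule.span_le]
    rintro z ⟨x, ⟨j, hj, rfl⟩, y, ⟨j', hj', rfl⟩, rfl⟩
    have h1 := prod_mem_chowFil s r (l := l + l') (Fin.append j j')
      (by rw [Fin.sum_univ_add]; simpa using Nat.add_le_add hj hj')
    rw [Fin.prod_univ_add] at h1
    simpa using h1
  exact h (Submodule.mul_mem_mul hx hy)

lemma mem_chowFil_one (s : ι → CRing f) (r : ι → ℕ) {i : ι} {l : ℕ} (h : l ≤ r i) :
    s i ∈ chowFil f s r 1 l := by
  have := prod_mem_chowFil s r (m := 1) (l := l) (fun _ => i) (by simpa using h)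
  simpa using this

lemma chowFil_one (s : ι → CRing f) (r : ι → ℕ) (l : ℕ) :
    chowFil f s r 1 l = Submodule.span K (s '' {i | l ≤ r i}) := by
  apply le_antisymm
  · rw [chowFil, Submodule.span_le]
    rintro x ⟨j, hj, rfl⟩
    apply Submodule.subset_span
    exact ⟨j 0, by simpa using hj, by simp⟩
  · rw [Submodule.span_le]
    rintro x ⟨i, hi, rfl⟩
    exact mem_chowFil_one s r hi

lemma prod_mem_sec {k m : ℕ} (x : Fin m → CRing f) (h : ∀ i, x i ∈ sec f k) :
    ∏ i, x i ∈ sec f (k * m) := by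
  induction m with
  | zero =>
    simp only [univ_eq_empty, prod_empty, mul_zero]
    exact mem_sec.mpr ⟨1, isHomogeneous_one _ _, map_one _⟩
  | succ m ih =>
    rw [Fin.prod_univ_castSucc, Nat.mul_succ]
    exact sec_mul (ih _ (fun i => h _)) (h _)

lemma chowFil_le_sec {k : ℕ} (s : ι → CRing f) (r : ι → ℕ) (h : ∀ i, s i ∈ sec f k) (m l : ℕ) :
    chowFil f s r m l ≤ sec f (k * m) := by
  rw [chowFil, Submodule.span_le]
  rintro x ⟨j, _, rfl⟩
  exact prod_mem_sec _ (fun i => h _)

lemma finite_chowFil [Finite ι] (s : ι → CRing f) (r : ι → ℕ) (m l : ℕ) :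
    Module.Finite K (chowFil f s r m l) := by
  apply Module.Finite.span_of_finite
  apply Set.Finite.subset (Set.finite_range fun j : Fin m → ι => ∏ i, s (j i))
  rintro x ⟨j, _, rfl⟩
  exact ⟨j, rfl⟩

lemma le_of_ne_zero_mem [Fintype ι] (s : ι → CRing f) (r : ι → ℕ) {m l : ℕ} {x : CRing f}
    (hx : x ∈ chowFil f s r m l) (h0 : x ≠ 0) : l ≤ m * ∑ i, r i := by
  by_contra hlt
  apply h0
  have : {x | ∃ j : Fin m → ι, l ≤ ∑ i, r (j i) ∧ x = ∏ i, s (j i)} = (∅ : Set (CRing f)) := by
    ext x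
    simp only [Set.mem_ofPred_eq, Set.mem_empty_iff_false, iff_false]
    rintro ⟨j, hj, _⟩
    apply hlt
    refine hj.trans ?_
    calc ∑ i, r (j i) ≤ ∑ _i : Fin m, ∑ a, r a :=
          sum_le_sum fun i _ => single_le_sum (fun _ _ => Nat.zero_le _) (mem_univ _)
      _ = m * ∑ i, r i := by simp
  rw [chowFil, this, Submodule.span_empty] at hx
  simpa using hx

/-- layer-cake formula -/
lemma sum_layer {α : Type*} (I : Finset α) (B : α → ℕ) (L : ℕ) (h : ∀ i ∈ I, B i ≤ L) :
    ∑ i ∈ I, B i = ∑ l ∈ Icc 1 L, (I.filter fun i => l ≤ B i).card := by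
  classical
  have h1 : ∀ i ∈ I, B i = ∑ l ∈ Icc 1 L, if l ≤ B i then 1 else 0 := by
    intro i hi
    rw [← card_filter]
    have : (Icc 1 L).filter (fun l => l ≤ B i) = Icc 1 (B i) := by
      ext l
      simp only [mem_filter, mem_Icc]
      have := h i hi
      omega
    rw [this]; simp
  rw [sum_congr rfl h1, sum_comm]
  apply sum_congr rfl
  intro l _
  rw [card_filter]

lemma chowFil_one_zero {k N : ℕ} (s : Module.Basis (Fin N) K (sec f k)) (r : Fin N → ℕ) :
    chowFil f (fun i => (s i : CRing f)) r 1 0 = sec f k := by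
  rw [chowFil_one]
  have h := s.span_eq
  have h2 := congrArg (Submodule.map (sec f k).subtype) h
  rw [Submodule.map_span, Submodule.map_top, Submodule.range_subtype, ← Set.range_comp] at h2
  refine Eq.trans ?_ h2
  congr 1
  ext x
  simp only [Set.mem_image, Set.mem_range, Function.comp]
  constructor
  · rintro ⟨i, _, rfl⟩; exact ⟨i, rfl⟩
  · rintro ⟨i, rfl⟩; exact ⟨i, Nat.zero_le _, rfl⟩

lemma linearIndependent_coe {k N : ℕ} (s : Module.Basis (Fin N) K (sec f k)) :
    LinearIndependent K (fun i => (s i : CRing f)) :=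
  s.linearIndependent.map' (sec f k).subtype (Submodule.ker_subtype _)

lemma finrank_chowFil_one {k N : ℕ} (s : Module.Basis (Fin N) K (sec f k))
    (r : Fin N → ℕ) (l : ℕ) :
    Module.finrank K (chowFil f (fun i => (s i : CRing f)) r 1 l) =
      (univ.filter fun i => l ≤ r i).card := by
  rw [chowFil_one]
  have h2 := (linearIndependent_coe s).comp (fun i : {i // l ≤ r i} => (i : Fin N))
    Subtype.val_injective
  have h3 := finrank_span_eq_card h2
  rw [Fintype.card_subtype] at h3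
  have h4 : (fun i => (s i : CRing f)) '' {i | l ≤ r i} =
      Set.range ((fun i => (s i : CRing f)) ∘ fun i : {i // l ≤ r i} => (i : Fin N)) := by
    ext x
    constructor
    · rintro ⟨i, hi, rfl⟩; exact ⟨⟨i, hi⟩, rfl⟩
    · rintro ⟨⟨i, hi⟩, rfl⟩; exact ⟨i, hi, rfl⟩
  rw [h4, h3]

end Pool.Agent.Helper223
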