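import Pool.Agent.Helper223_Chow.Star

/-! Comparison of the weight functions of two toric structures. -/

open MvPolynomial Finset Filter

namespace Pool.Agent.Helper223

variable {K : Type*} [Field K] {f : MvPolynomial (Fin 4) K}

lemma sum_ijl {i j l : Fin 3} (hij : i ≠ j) (hil : i ≠ l) (hjl : j ≠ l) (F : Fin 3 → ℕ) :
    ∑ m, F m = F i + F j + F l := by
  rw [Fin.sum_univ_three]
  fin_cases i <;> fin_cases j <;> fin_cases l <;>
    first | exact absurd rfl hij | exact absurd rfl hil | exact absurd rfl hjl | (simp <;> omega)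

lemma mem_Lk_ijl {i j l : Fin 3} (hij : i ≠ j) (hil : i ≠ l) (hjl : j ≠ l) {n : ℕ}
    {a : Fin 3 → ℕ} : a ∈ Lk n ↔ a i + a j + a l = 3 * n ∧ a i % 3 = a j % 3 ∧
      a j % 3 = a l % 3 := by
  rw [mem_Lk_iff]
  fin_cases i <;> fin_cases j <;> fin_cases l <;>
    first | exact absurd rfl hij | exact absurd rfl hil | exact absurd rfl hjl | (simp <;> omega)

lemma ext_ijl {i j l : Fin 3} (hij : i ≠ j) (hil : i ≠ l) (hjl : j ≠ l) {a b : Fin 3 → ℕ}
    (h1 : a i = b i) (h2 : a j = b j) (h3 : a l = b l) : a = b := by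
  funext m
  fin_cases i <;> fin_cases j <;> fin_cases l <;>
    first | exact absurd rfl hij | exact absurd rfl hil | exact absurd rfl hjl |
      (fin_cases m <;> assumption)

/-- total degree of a lattice point -/
def tot (a : Fin 3 → ℕ) : ℕ := a 0 + a 1 + a 2

lemma tot_ijl {i j l : Fin 3} (hij : i ≠ j) (hil : i ≠ l) (hjl : j ≠ l) (a : Fin 3 → ℕ) :
    tot a = a i + a j + a l := by
  rw [← sum_ijl hij hil hjl a, Fin.sum_univ_three, tot]

lemma tot_of_mem {n : ℕ} {a : Fin 3 → ℕ} (ha : a ∈ Lk n) : tot a = 3 * n := sum_of_mem_Lk ha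

lemma chowFil_one_le_sec {k N : ℕ} (s : Module.Basis (Fin N) K (sec f k)) (r : Fin N → ℕ)
    (l : ℕ) : chowFil f (fun i => (s i : CRing f)) r 1 l ≤ sec f k := by
  simpa using chowFil_le_sec (k := k) (fun i => (s i : CRing f)) r (fun i => (s i).2) 1 l

namespace TStr

variable (t t' : TStr f) {k N : ℕ} (s : Module.Basis (Fin N) K (sec f k)) (r : Fin N → ℕ)

lemma gg_eq_of_DD {a : Fin 3 → ℕ} (ha : a ∈ Lk k)
    (h : ∀ l, t.DD (fun i => (s i : CRing f)) r 1 a l →
      t'.DD (fun i => (s i : CRing f)) r 1 a l) :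
    t.gg (fun i => (s i : CRing f)) r a ≤ t'.gg (fun i => (s i : CRing f)) r a :=
  t'.le_gg (h _ (t.DD_gg s r ha))

lemma gg_le_of_max (hf : f.IsHomogeneous 3) (hf0 : f ≠ 0) {a : Fin 3 → ℕ} (ha : a ∈ Lk k)
    (h' : ∀ b ∈ Lk k, b ≠ a → lexLT (t'.A b) (t'.A a)) :
    t.gg (fun i => (s i : CRing f)) r a ≤ t'.gg (fun i => (s i : CRing f)) r a := by
  apply gg_eq_of_DD t t' s r ha
  rintro l ⟨y, hy, hl⟩
  refine ⟨y, hy, ?_⟩
  obtain ⟨c, hc⟩ := t.exists_coord hf hf0 (chowFil_one_le_sec s r l hy)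
  rw [hc] at hl ⊢
  obtain ⟨h1, h2, h3⟩ := t.of_LD c hl
  exact t'.LD_sum c h1 h2 fun b hb _ hba => h' b hb hba

lemma gg_le_of_min (hf : f.IsHomogeneous 3) (hf0 : f ≠ 0) {a : Fin 3 → ℕ} (ha : a ∈ Lk k)
    (h : ∀ b ∈ Lk k, b ≠ a → lexLT (t.A a) (t.A b)) :
    t.gg (fun i => (s i : CRing f)) r a ≤ t'.gg (fun i => (s i : CRing f)) r a := by
  apply gg_eq_of_DD t t' s r ha
  rintro l ⟨y, hy, hl⟩
  refine ⟨y, hy, ?_⟩
  obtain ⟨c, hc⟩ := t.exists_coord hf hf0 (chowFil_one_le_sec s r l hy)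
  rw [hc] at hl ⊢
  obtain ⟨h1, h2, h3⟩ := t.of_LD c hl
  exact t'.LD_sum c h1 h2 fun b hb hcb hba =>
    absurd (h3 b hb hcb hba) (lexLT_asymm (h b hb hba))

/-- two toric structures with the same highest and the same lowest corner have the same
corner values -/
lemma GG_eq_of_type (hf : f.IsHomogeneous 3) (hf0 : f ≠ 0) (hk : 1 ≤ k)
    (hb : Bad f k (fun i => (s i : CRing f)) r) {i j l : Fin 3} (hij : i ≠ j) (hil : i ≠ l)
    (hjl : j ≠ l)
    (h1 : ∀ b ∈ Lk k, b ≠ vc k i → lexLT (t.A b) (t.A (vc k i)))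
    (h1' : ∀ b ∈ Lk k, b ≠ vc k i → lexLT (t'.A b) (t'.A (vc k i)))
    (h2 : ∀ b ∈ Lk k, b ≠ vc k l → lexLT (t.A (vc k l)) (t.A b))
    (h2' : ∀ b ∈ Lk k, b ≠ vc k l → lexLT (t'.A (vc k l)) (t'.A b)) (m : Fin 3) :
    t.GG k (fun i => (s i : CRing f)) r m = t'.GG k (fun i => (s i : CRing f)) r m := by
  have e1 : t.GG k (fun i => (s i : CRing f)) r i = t'.GG k (fun i => (s i : CRing f)) r i :=
    le_antisymm (gg_le_of_max t t' s r hf hf0 (vc_mem k i) h1')
      (gg_le_of_max t' t s r hf hf0 (vc_mem k i) h1)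
  have e2 : t.GG k (fun i => (s i : CRing f)) r l = t'.GG k (fun i => (s i : CRing f)) r l :=
    le_antisymm (gg_le_of_min t t' s r hf hf0 (vc_mem k l) h2)
      (gg_le_of_min t' t s r hf hf0 (vc_mem k l) h2')
  have e3 := t.sum_GG s r hf hf0 hk hb
  have e4 := t'.sum_GG s r hf hf0 hk hb
  have hN := two_N hf hf0 s
  have hNpos : 0 < N := by
    rcases Nat.eq_zero_or_pos N with h | h
    · rw [h] at hN; omega
    · exact h
  have e5 := Nat.eq_of_mul_eq_mul_left hNpos (e3.trans e4.symm)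
  rw [sum_ijl hij hil hjl, sum_ijl hij hil hjl] at e5
  have e6 : t.GG k (fun i => (s i : CRing f)) r j =
    t'.GG k (fun i => (s i : CRing f)) r j := by omega
  have := ext_ijl hij hil hjl e1 e6 e2
  exact congrFun this m

/-- leading exponents for two toric structures with the same first row -/
lemma zeta_eq (hf : f.IsHomogeneous 3) (hf0 : f ≠ 0) (hz : ∀ a, (t.A a) 0 = (t'.A a) 0)
    {n : ℕ} {y : CRing f} (hy : y ∈ sec f n) {a a' : Fin 3 → ℕ} (h : t.LD y a)
    (h' : t'.LD y a') :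
    (t.A a) 0 = (t.A a') 0 ∧ (a' = a ∨ lexLT (t.A a') (t.A a)) ∧
      (a = a' ∨ lexLT (t'.A a) (t'.A a')) := by
  obtain ⟨c, rfl⟩ := t.exists_coord hf hf0 hy
  obtain ⟨h1, h2, h3⟩ := t.of_LD c h
  obtain ⟨h1', h2', h3'⟩ := t'.of_LD c h'
  have e1 : a' = a ∨ lexLT (t.A a') (t.A a) := by
    by_cases hE : a' = a
    · exact Or.inl hE
    · exact Or.inr (h3 a' h1' h2' hE)
  have e2 : a = a' ∨ lexLT (t'.A a) (t'.A a') := by
    by_cases hE : a = a'
    · exact Or.inl hE
    · exact Or.inr (h3' a h1 h2 hE)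
  refine ⟨?_, e1, e2⟩
  apply le_antisymm
  · rcases e2 with e2 | e2
    · rw [e2]
    · rw [hz a, hz a']
      rcases e2 with e2 | e2
      · exact e2.le
      · exact e2.1.le
  · rcases e1 with e1 | e1
    · rw [e1]
    · rcases e1 with e1 | e1
      · exact e1.le
      · exact e1.1.le

end TStr

/-- two toric structures whose orders differ only on the lines parallel to the edge `ij` -/
structure FlipData (t t' : TStr f) (i j l : Fin 3) : Prop where
  hij : i ≠ j
  hil : i ≠ l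
  hjl : j ≠ l
  hz : ∀ a, (t.A a) 0 = (t'.A a) 0
  hdir : (∀ a a', tot a = tot a' → ((t.A a) 0 < (t.A a') 0 ↔ a l < a' l)) ∨
    (∀ a a', tot a = tot a' → ((t.A a) 0 < (t.A a') 0 ↔ a' l < a l))
  h1 : ∀ a a', tot a = tot a' → a l = a' l → (lexLT (t.A a) (t.A a') ↔ a i < a' i)
  h2 : ∀ a a', tot a = tot a' → a l = a' l → (lexLT (t'.A a) (t'.A a') ↔ a j < a' j)

namespace FlipData

variable {t t' : TStr f} {i j l : Fin 3} {k N : ℕ} (s : Module.Basis (Fin N) K (sec f k))
  (r : Fin N → ℕ)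

lemma symm (D : FlipData t t' i j l) : FlipData t' t j i l where
  hij := D.hij.symm
  hil := D.hjl
  hjl := D.hil
  hz a := (D.hz a).symm
  hdir := by simp only [← D.hz]; exact D.hdir
  h1 := D.h2
  h2 := D.h1

lemma hzl (D : FlipData t t' i j l) {a a' : Fin 3 → ℕ} (h : tot a = tot a')
    (h0 : (t.A a) 0 = (t.A a') 0) : a l = a' l := by
  rcases D.hdir with h1 | h1
  · have e1 := h1 a a' h
    have e2 := h1 a' a h.symm
    omega
  · have e1 := h1 a a' h
    have e2 := h1 a' a h.symm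
    omega

lemma eq_l (D : FlipData t t' i j l) (hf : f.IsHomogeneous 3) (hf0 : f ≠ 0) :
    t.GG k (fun i => (s i : CRing f)) r l = t'.GG k (fun i => (s i : CRing f)) r l := by
  have key : ∀ b ∈ Lk k, b ≠ vc k l → b l < (vc k l) l := by
    intro b hb hne
    have h1 := (mem_Lk_ijl D.hij D.hil D.hjl).mp hb
    have e1 : (vc k l) l = 3 * k := by simp [vc]
    have e2 : (vc k l) i = 0 := by simp [vc, D.hil]
    have e3 : (vc k l) j = 0 := by simp [vc, D.hjl]
    by_contra hcon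
    apply hne
    apply ext_ijl D.hij D.hil D.hjl <;> omega
  have ht : ∀ b ∈ Lk k, tot b = tot (vc k l) := by
    intro b hb; rw [tot_of_mem hb, tot_of_mem (vc_mem k l)]
  rcases D.hdir with h | h
  · apply le_antisymm
    · exact TStr.gg_le_of_max t t' s r hf hf0 (vc_mem k l) fun b hb hne =>
        Or.inl (by rw [← D.hz, ← D.hz]; exact (h _ _ (ht b hb)).mpr (key b hb hne))
    · exact TStr.gg_le_of_max t' t s r hf hf0 (vc_mem k l) fun b hb hne =>
        Or.inl ((h _ _ (ht b hb)).mpr (key b hb hne))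
  · apply le_antisymm
    · exact TStr.gg_le_of_min t t' s r hf hf0 (vc_mem k l) fun b hb hne =>
        Or.inl ((h _ _ (ht b hb).symm).mpr (key b hb hne))
    · exact TStr.gg_le_of_min t' t s r hf hf0 (vc_mem k l) fun b hb hne =>
        Or.inl (by rw [← D.hz, ← D.hz]; exact (h _ _ (ht b hb).symm).mpr (key b hb hne))

lemma le_max (D : FlipData t t' i j l) (hf : f.IsHomogeneous 3) (hf0 : f ≠ 0) (hk : 1 ≤ k)
    (hb : Bad f k (fun i => (s i : CRing f)) r) {p : Fin 3} (hp : p ≠ l) :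
    t'.GG k (fun i => (s i : CRing f)) r p ≤
      max (t.GG k (fun i => (s i : CRing f)) r i) (t.GG k (fun i => (s i : CRing f)) r j) := by
  obtain ⟨y, hy, hl⟩ := t'.exists_elt s r (vc k p) (vc_mem k p)
  have hysec := chowFil_one_le_sec s r _ hy
  obtain ⟨a, ha, hla⟩ := t.psi_ne hf hf0 hysec (t'.LD_ne hl)
  have hz := (TStr.zeta_eq t t' hf hf0 D.hz hysec hla hl).1
  have h0 := D.hzl (by rw [tot_of_mem ha, tot_of_mem (vc_mem k p)]) hz
  have h1 : (vc k p) l = 0 := by simp [vc, hp.symm]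
  rw [h1] at h0
  have h2 := t.star s r hf hf0 hk hb le_rfl ⟨y, hy, hla⟩
  rw [sum_ijl D.hij D.hil D.hjl, h0, zero_mul, add_zero] at h2
  have h3 := (mem_Lk_ijl D.hij D.hil D.hjl).mp ha
  have h4 : a i + a j = 3 * k := by omega
  have h5 : 3 * k * t'.gg (fun i => (s i : CRing f)) r (vc k p) ≤
      3 * k * max (t.GG k (fun i => (s i : CRing f)) r i)
        (t.GG k (fun i => (s i : CRing f)) r j) := by
    refine h2.trans ?_
    rw [← h4, add_mul]
    exact Nat.add_le_add (Nat.mul_le_mul_left _ (le_max_left _ _))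
      (Nat.mul_le_mul_left _ (le_max_right _ _))
  exact Nat.le_of_mul_le_mul_left h5 (by omega)

/-- elements whose leading exponent has coordinate `i` zero -/
lemma LD_of_zero (D : FlipData t t' i j l) (hf : f.IsHomogeneous 3) (hf0 : f ≠ 0) {n : ℕ}
    {y : CRing f} (hy : y ∈ sec f n) {a : Fin 3 → ℕ} (ha : a ∈ Lk n) (h : t.LD y a)
    (h0 : a i < 3) : t'.LD y a := by
  obtain ⟨a', ha', hl'⟩ := t'.psi_ne hf hf0 hy (t.LD_ne h)
  obtain ⟨z1, z2, z3⟩ := TStr.zeta_eq t t' hf hf0 D.hz hy h hl'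
  have e1 := D.hzl (by rw [tot_of_mem ha, tot_of_mem ha']) z1
  rcases z2 with z2 | z2
  · rwa [z2] at hl'
  · exfalso
    have e2 := (D.h1 a' a (by rw [tot_of_mem ha, tot_of_mem ha']) e1.symm).mp z2
    have e3 := (mem_Lk_ijl D.hij D.hil D.hjl).mp ha
    have e4 := (mem_Lk_ijl D.hij D.hil D.hjl).mp ha'
    omega

/-- the flip lemma -/
theorem flip (D : FlipData t t' i j l) (hf : f.IsHomogeneous 3) (hf0 : f ≠ 0) (hk : 1 ≤ k)
    (hb : Bad f k (fun i => (s i : CRing f)) r) (m : Fin 3) :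
    t.GG k (fun i => (s i : CRing f)) r m = t'.GG k (fun i => (s i : CRing f)) r m := by
  have hij := D.hij
  have hil := D.hil
  have hjl := D.hjl
  have el := D.eq_l s r hf hf0
  have e3 := t.sum_GG s r hf hf0 hk hb
  have e4 := t'.sum_GG s r hf hf0 hk hb
  have hN := TStr.two_N hf hf0 s
  have hNpos : 0 < N := by
    rcases Nat.eq_zero_or_pos N with h | h
    · rw [h] at hN; omega
    · exact h
  have e5 := Nat.eq_of_mul_eq_mul_left hNpos (e3.trans e4.symm)
  rw [sum_ijl hij hil hjl, sum_ijl hij hil hjl] at e5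
  have m1 := D.le_max s r hf hf0 hk hb hil
  have m2 := D.le_max s r hf hf0 hk hb hjl
  have m3 := D.symm.le_max s r hf hf0 hk hb hjl
  have m4 := D.symm.le_max s r hf hf0 hk hb hil
  set S := fun i => (s i : CRing f) with hS
  set G := t.GG k S r with hG
  set G' := t'.GG k S r with hG'
  -- either equal or swapped
  by_contra hne
  have hswap : G' i = G j ∧ G' j = G i ∧ G i ≠ G j := by
    by_cases h : G i = G' i
    · exfalso
      apply hne
      have : G j = G' j := by omega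
      exact congrFun (ext_ijl hij hil hjl h this el) m
    · omega
  obtain ⟨s1, s2, s3⟩ := hswap
  have hvl : vc k l ∈ Lk k := vc_mem k l
  rcases lt_or_gt_of_ne s3 with hlt | hgt
  · -- the easy case
    obtain ⟨y, hy, hl⟩ := t.exists_elt s r (vc k j) (vc_mem k j)
    have h1 := D.LD_of_zero hf hf0 (chowFil_one_le_sec s r _ hy) (vc_mem k j) hl
      (by simp [vc, hij])
    have h2 : G j ≤ G' j := t'.le_gg ⟨y, hy, h1⟩
    omega
  · -- lattice points near the corner `l`
    obtain ⟨aB, B1, B2, B3⟩ : ∃ a : Fin 3 → ℕ, a i = 3 ∧ a j = 0 ∧ a l = 3 * (k - 1) :=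
      ⟨fun m => if m = i then 3 else if m = j then 0 else 3 * (k - 1), by simp,
        by simp [hij.symm], by simp [hil.symm, hjl.symm]⟩
    obtain ⟨aC, C1, C2, C3⟩ : ∃ a : Fin 3 → ℕ, a i = 0 ∧ a j = 3 ∧ a l = 3 * (k - 1) :=
      ⟨fun m => if m = i then 0 else if m = j then 3 else 3 * (k - 1), by simp,
        by simp [hij.symm], by simp [hil.symm, hjl.symm]⟩
    obtain ⟨aW, W1, W2, W3⟩ : ∃ a : Fin 3 → ℕ, a i = 1 ∧ a j = 1 ∧ a l = 3 * k - 2 :=
      ⟨fun m => if m = i then 1 else if m = j then 1 else 3 * k - 2, by simp,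
        by simp [hij.symm], by simp [hil.symm, hjl.symm]⟩
    have V1 : (vc k l) i = 0 := by simp [vc, hil]
    have V2 : (vc k l) j = 0 := by simp [vc, hjl]
    have V3 : (vc k l) l = 3 * k := by simp [vc]
    have hB : aB ∈ Lk k := (mem_Lk_ijl hij hil hjl).mpr (by omega)
    have hC : aC ∈ Lk k := (mem_Lk_ijl hij hil hjl).mpr (by omega)
    have hW : aW ∈ Lk k := (mem_Lk_ijl hij hil hjl).mpr (by omega)
    have fB := t.affine s r hf hf0 hk hb hB
    have fC := t.affine s r hf hf0 hk hb hC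
    have fW := t.affine s r hf hf0 hk hb hW
    rw [sum_ijl hij hil hjl] at fB fC fW
    obtain ⟨yB, hyB, lB⟩ := t.exists_elt s r aB hB
    obtain ⟨yC, hyC, lC⟩ := t.exists_elt s r aC hC
    obtain ⟨yW, hyW, lW⟩ := t.exists_elt s r aW hW
    obtain ⟨yZ, hyZ, lZ⟩ := t.exists_elt s r (vc k l) hvl
    have lC' := D.LD_of_zero hf hf0 (chowFil_one_le_sec s r _ hyC) hC lC (by omega)
    have lW' := D.LD_of_zero hf hf0 (chowFil_one_le_sec s r _ hyW) hW lW (by omega)
    have lZ' := D.LD_of_zero hf hf0 (chowFil_one_le_sec s r _ hyZ) hvl lZ (by omega)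
    change 3 * k * t.gg S r aB = aB i * G i + aB j * G j + aB l * G l at fB
    change 3 * k * t.gg S r aC = aC i * G i + aC j * G j + aC l * G l at fC
    change 3 * k * t.gg S r aW = aW i * G i + aW j * G j + aW l * G l at fW
    have hGl : t.gg S r (vc k l) = G l := rfl
    -- the other leading exponent of yB
    have lB' : t'.LD yB aC := by
      have hsec := chowFil_one_le_sec s r _ hyB
      obtain ⟨a', ha', hl'⟩ := t'.psi_ne hf hf0 hsec (t.LD_ne lB)
      obtain ⟨z1, z2, z3⟩ := TStr.zeta_eq t t' hf hf0 D.hz hsec lB hl'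
      have q1 := D.hzl (by rw [tot_of_mem hB, tot_of_mem ha']) z1
      have q2 := (mem_Lk_ijl hij hil hjl).mp ha'
      have q3 := t'.star s r hf hf0 hk hb le_rfl ⟨yB, hyB, hl'⟩
      rw [sum_ijl hij hil hjl] at q3
      change 3 * k * t.gg S r aB ≤ a' i * G' i + a' j * G' j + a' l * G' l at q3
      have q4 : a' i = 0 ∨ a' i = 3 := by omega
      rcases q4 with q4 | q4
      · have : a' = aC := ext_ijl hij hil hjl (by omega) (by omega) (by omega)
        rwa [this] at hl'
      · exfalso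
        have q5 : a' j = 0 := by omega
        rw [q4, q5, ← q1, s1, s2, ← el, fB, B1, B2] at q3
        omega
    -- products
    have lP1 := t.LD_mul (t.LD_mul lB lC) lZ
    have lP1' := t'.LD_mul (t'.LD_mul lB' lC') lZ'
    have lP2 := t.LD_mul (t.LD_mul lW lW) lW
    have lP2' := t'.LD_mul (t'.LD_mul lW' lW') lW'
    have hP1 := mul_mem_chowFil _ _ (mul_mem_chowFil _ _ hyB hyC) hyZ
    have hP2 := mul_mem_chowFil _ _ (mul_mem_chowFil _ _ hyW hyW) hyW
    have eE : aW + aW + aW = aB + aC + vc k l :=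
      ext_ijl hij hil hjl (by simp only [Pi.add_apply]; omega)
        (by simp only [Pi.add_apply]; omega) (by simp only [Pi.add_apply]; omega)
    rw [eE] at lP2
    obtain ⟨c, hc, hcan⟩ := t.cancel lP1 lP2
    have lcP2' := t'.LD_smul lP2' hc
    have totE : tot (aW + aW + aW) = tot (aC + aC + vc k l) := by
      rw [tot_ijl hij hil hjl, tot_ijl hij hil hjl]
      simp only [Pi.add_apply]; omega
    have lD' := t'.LD_sub_of_lt lP1' lcP2'
      ((D.h2 _ _ totE (by simp only [Pi.add_apply]; omega)).mpr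
        (by simp only [Pi.add_apply]; omega))
    set Q := yB * yC * yZ - c • (yW * yW * yW) with hQ
    -- weights agree
    have hwt : t.gg S r aW + t.gg S r aW + t.gg S r aW =
        t.gg S r aB + t.gg S r aC + t.gg S r (vc k l) := by
      have h3k : 0 < 3 * k := by omega
      apply Nat.eq_of_mul_eq_mul_left h3k
      rw [mul_add, mul_add, mul_add (3 * k) (t.gg S r aB + t.gg S r aC),
        mul_add (3 * k) (t.gg S r aB), fB, fC, fW, hGl, B1, B2, B3, C1, C2, C3, W1, W2, W3]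
      obtain ⟨k', rfl⟩ := Nat.exists_eq_add_of_le' hk
      have x1 : k' + 1 - 1 = k' := rfl
      have x2 : 3 * (k' + 1) - 2 = 3 * k' + 1 := by omega
      rw [x1, x2]; ring
    rw [hwt] at hP2
    have hQm : Q ∈ chowFil f S r 3 (t.gg S r aB + t.gg S r aC + t.gg S r (vc k l)) :=
      Submodule.sub_mem _ hP1 (Submodule.smul_mem _ c hP2)
    have hQsec := chowFil_le_sec (k := k) S r (fun i => (s i).2) 3 _ hQm
    obtain ⟨b, hbL, hlb⟩ := t.psi_ne hf hf0 hQsec (t'.LD_ne lD')
    have hlt : lexLT (t.A b) (t.A (aB + aC + vc k l)) := by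
      rcases hcan with h | h
      · exact absurd h hlb.1
      · rwa [hlb.2] at h
    obtain ⟨z1, _, _⟩ := TStr.zeta_eq t t' hf hf0 D.hz hQsec hlb lD'
    have tb : tot b = 3 * (k * 3) := tot_of_mem hbL
    have tE' : tot (aC + aC + vc k l) = 3 * (k * 3) := by
      rw [tot_ijl hij hil hjl]; simp only [Pi.add_apply]; omega
    have tE : tot (aB + aC + vc k l) = 3 * (k * 3) := by
      rw [tot_ijl hij hil hjl]; simp only [Pi.add_apply]; omega
    have z2 := D.hzl (tb.trans tE'.symm) z1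
    have z3 : b l = (aB + aC + vc k l) l := by
      rw [z2]; simp only [Pi.add_apply]; omega
    have z4 := (D.h1 _ _ (tb.trans tE.symm) z3).mp hlt
    simp only [Pi.add_apply] at z3 z4
    have z5 := (mem_Lk_ijl hij hil hjl).mp hbL
    have z6 : b i = 0 := by omega
    have z7 : b j = 6 := by omega
    have z8 : b l = 3 * (k - 1) + 3 * (k - 1) + 3 * k := by omega
    have z9 := t.star s r hf hf0 hk hb (by norm_num) ⟨Q, hQm, hlb⟩
    rw [sum_ijl hij hil hjl] at z9
    change _ ≤ b i * G i + b j * G j + b l * G l at z9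
    rw [mul_add, mul_add, fB, fC, hGl, B1, B2, B3, C1, C2, C3, z6, z7, z8] at z9
    nlinarith

end FlipData

end Pool.Agent.Helper223
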