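import Mathlib

/-! Hensel's lemma in several variables over a henselian local ring, and henselianity of
valuation rings of algebraically closed fields. -/

open MvPolynomial

namespace Pool.Agent.Helper223

/-- a valuation ring with algebraically closed fraction field is henselian -/
theorem henselian_of_algClosed (O : Type*) [CommRing O] [IsDomain O] [ValuationRing O]
    (K : Type*) [Field K] [Algebra O K] [IsFractionRing O K] [IsAlgClosed K] :
    HenselianLocalRing O := by
  constructor
  intro f hf a₀ h1 h2
  have hinj := IsFractionRing.injective O K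
  have hic : IsIntegrallyClosed O := inferInstance
  have hsplit := IsAlgClosed.splits (f.map (algebraMap O K))
  have hmon : (f.map (algebraMap O K)).Monic := hf.map _
  have heq := hsplit.eq_prod_roots_of_monic hmon
  -- each root lies in `O`
  have hroot : ∀ r ∈ (f.map (algebraMap O K)).roots, ∃ y : O, algebraMap O K y = r := by
    intro r hr
    have h3 : (f.map (algebraMap O K)).IsRoot r := (Polynomial.mem_roots'.mp hr).2
    have h4 : IsIntegral O r := ⟨f, hf, by
      rw [← Polynomial.eval_map]; exact h3⟩
    exact (IsIntegrallyClosed.isIntegral_iff).mp h4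
  by_contra hcon
  push Not at hcon
  have h5 : IsUnit (f.eval a₀) := by
    -- the evaluation is a product of units
    choose! y hy using hroot
    have h6 : f.eval a₀ = ((f.map (algebraMap O K)).roots.map fun r => a₀ - y r).prod := by
      apply hinj
      rw [← Polynomial.eval_map_apply, heq, Polynomial.eval_multiset_prod, map_multiset_prod,
        Multiset.map_map, Multiset.map_map]
      congr 1
      rw [← heq]
      apply Multiset.map_congr rfl
      intro r hr
      simp only [Function.comp]
      rw [map_sub, hy r hr]
      simp
    rw [h6]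
    apply Multiset.prod_induction (fun x => IsUnit x)
    · intro x y hx hy; exact hx.mul hy
    · exact isUnit_one
    · intro x hx
      obtain ⟨r, hr, rfl⟩ := Multiset.mem_map.mp hx
      by_contra hnu
      apply hcon (y r)
      · apply hinj
        rw [map_zero, ← Polynomial.eval_map_apply, hy r hr]
        exact (Polynomial.mem_roots'.mp hr).2
      · have : a₀ - y r ∈ IsLocalRing.maximalIdeal O := hnu
        rw [← neg_sub]
        exact Submodule.neg_mem _ this
  exact h1 h5

open IsLocalRing in
/-- an étale algebra with a residue point has a section through this point -/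
theorem exists_section {O : Type*} [CommRing O] [HenselianLocalRing O] {S : Type*} [CommRing S]
    [Algebra O S] [Algebra.Etale O S] (φ : S →ₐ[O] ResidueField O) :
    ∃ σ : S →ₐ[O] O, ∀ x, residue O (σ x) = φ x := by
  set Q : Ideal S := RingHom.ker φ with hQ
  have hprime : Q.IsPrime := RingHom.ker_isPrime _
  have : Algebra.IsEtaleAt O Q := by
    have := Algebra.FormallyEtale.of_isLocalization (Rₘ := Localization.AtPrime Q)
      Q.primeCompl
    exact Algebra.FormallyEtale.comp O S _
  obtain ⟨f, hf, hS⟩ := Algebra.IsEtaleAt.exists_isStandardEtale (R := O) Q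
  obtain ⟨⟨P⟩⟩ := hS
  have hfu : IsUnit (φ f) := by
    rw [isUnit_iff_ne_zero]; intro h; exact hf h
  -- extend `φ`
  let φf : Localization.Away f →ₐ[O] ResidueField O :=
    { IsLocalization.Away.lift f (g := (φ : S →+* ResidueField O)) hfu with
      commutes' := fun r => by
        change IsLocalization.Away.lift f (g := (φ : S →+* ResidueField O)) hfu _ = _
        rw [IsScalarTower.algebraMap_apply O S (Localization.Away f),
          IsLocalization.Away.lift_eq]
        exact φ.commutes r }
  have hφf : ∀ x, φf (algebraMap S _ x) = φ x := fun x => by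
    change IsLocalization.Away.lift f (g := (φ : S →+* ResidueField O)) hfu _ = _
    rw [IsLocalization.Away.lift_eq]; rfl
  set y0 := φf P.x with hy0
  have hm : P.P.HasMap y0 := P.hasMap.map φf
  obtain ⟨a0, ha0⟩ := residue_surjective y0
  have e1 : P.f.eval a0 ∈ maximalIdeal O := by
    rw [← residue_eq_zero_iff]
    have := hm.1
    rw [← ha0, ← ResidueField.algebraMap_eq, Polynomial.aeval_algebraMap_apply] at this
    simpa using this
  have e2 : IsUnit (P.f.derivative.eval a0) := by
    have h3 := hm.isUnit_derivative_f
    rw [← ha0, ← ResidueField.algebraMap_eq, Polynomial.aeval_algebraMap_apply] at h3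
    have h4 : residue O (P.f.derivative.eval a0) ≠ 0 := by
      simpa using h3.ne_zero
    by_contra hc
    exact h4 ((residue_eq_zero_iff _).mpr hc)
  obtain ⟨a, ha, haa⟩ := HenselianLocalRing.is_henselian P.f P.monic_f a0 e1 e2
  have hra : residue O a = y0 := by
    rw [← ha0, ← sub_eq_zero, ← map_sub, residue_eq_zero_iff]; exact haa
  have hma : P.P.HasMap a := by
    refine ⟨by simpa using ha, ?_⟩
    have h3 := hm.2
    rw [← hra, ← ResidueField.algebraMap_eq, Polynomial.aeval_algebraMap_apply] at h3
    by_contra hc
    have h5 : Polynomial.aeval a P.g ∈ maximalIdeal O := hc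
    rw [← residue_eq_zero_iff] at h5
    rw [ResidueField.algebraMap_eq, h5] at h3
    exact not_isUnit_zero h3
  let σf : Localization.Away f →ₐ[O] O := (P.P.lift a hma).comp P.equivRing.toAlgHom
  have hσx : σf P.x = a := by
    change P.P.lift a hma (P.equivRing P.x) = a
    rw [P.equivRing_x, StandardEtalePair.lift_X]
  have heq : (Algebra.ofId O (ResidueField O)).comp σf = φf := by
    apply P.hom_ext
    change algebraMap O (ResidueField O) (σf P.x) = φf P.x
    rw [hσx]; exact hra
  refine ⟨σf.comp (IsScalarTower.toAlgHom O S (Localization.Away f)), fun x => ?_⟩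
  rw [← hφf x, ← heq]
  rfl

open IsLocalRing in
/-- **Hensel's lemma in several variables.** -/
theorem mv_hensel {O : Type*} [CommRing O] [HenselianLocalRing O] {ι : Type} [Fintype ι]
    [DecidableEq ι] (F : ι → MvPolynomial ι O) (x0 : ι → O)
    (h0 : ∀ i, residue O (eval x0 (F i)) = 0)
    (hJ : residue O (Matrix.of fun i j => eval x0 (pderiv i (F j))).det ≠ 0) :
    ∃ x : ι → O, (∀ i, residue O (x i) = residue O (x0 i)) ∧ ∀ i, eval x (F i) = 0 := by
  classical
  let P := Algebra.PreSubmersivePresentation.naive (R := O) (v := F) (id : ι → ι)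
    Function.injective_id
  let S := MvPolynomial ι O ⧸ (Ideal.span <| Set.range F)
  let S' := Localization.Away (P.jacobian : S)
  let Q := Algebra.PreSubmersivePresentation.localizationAway S' (P.jacobian : S)
  let PP : Algebra.SubmersivePresentation O S' (Unit ⊕ ι) (Unit ⊕ ι) :=
    { Q.comp P with
      jacobian_isUnit := by
        change IsUnit (Q.comp P).jacobian
        rw [Algebra.PreSubmersivePresentation.comp_jacobian_eq_jacobian_smul_jacobian,
          Algebra.smul_def, IsUnit.mul_iff,
          Algebra.PreSubmersivePresentation.localizationAway_jacobian]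
        exact ⟨IsLocalization.map_units _ (⟨P.jacobian, 1, by simp⟩ : Submonoid.powers P.jacobian),
          IsLocalization.map_units _ (⟨P.jacobian, 1, by simp⟩ : Submonoid.powers P.jacobian)⟩ }
  have hsm : Algebra.IsStandardSmoothOfRelativeDimension 0 O S' :=
    PP.isStandardSmoothOfRelativeDimension (by simp [Algebra.Presentation.dimension])
  have het : Algebra.Etale O S' := inferInstance
  -- the residue point
  let ψ : MvPolynomial ι O →ₐ[O] ResidueField O := aeval fun i => residue O (x0 i)
  have hψ : ∀ p, ψ p = residue O (eval x0 p) := by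
    intro p
    change aeval (fun i => algebraMap O (ResidueField O) (x0 i)) p = _
    have h := MvPolynomial.aeval_algebraMap_apply (A := O) (ResidueField O) x0 p
    rw [show (fun i => algebraMap O (ResidueField O) (x0 i)) =
      algebraMap O (ResidueField O) ∘ x0 from rfl, h, aeval_eq_eval]
    rfl
  let φ0 : S →ₐ[O] ResidueField O := Ideal.Quotient.liftₐ _ ψ (by
    intro a ha
    have : Ideal.span (Set.range F) ≤ RingHom.ker ψ := by
      rw [Ideal.span_le]
      rintro _ ⟨i, rfl⟩
      change ψ (F i) = 0
      rw [hψ]; exact h0 i
    exact this ha)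
  have hφ0 : ∀ p, φ0 (Ideal.Quotient.mk _ p) = ψ p := fun p => rfl
  have hju : IsUnit (φ0 P.jacobian) := by
    rw [isUnit_iff_ne_zero]
    rw [Algebra.PreSubmersivePresentation.jacobian_eq_jacobiMatrix_det]
    change φ0 (Ideal.Quotient.mk _ P.jacobiMatrix.det) ≠ 0
    rw [hφ0, hψ]
    convert hJ using 2
    rw [RingHom.map_det]
    congr 1
    ext i j
    simp [P]
  let φf : S' →ₐ[O] ResidueField O :=
    { IsLocalization.Away.lift (P.jacobian : S) (g := (φ0 : S →+* ResidueField O)) hju with
      commutes' := fun r => by
        change IsLocalization.Away.lift (P.jacobian : S) (g := (φ0 : S →+* ResidueField O))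
          hju _ = _
        rw [IsScalarTower.algebraMap_apply O S S', IsLocalization.Away.lift_eq]
        exact φ0.commutes r }
  have hφf : ∀ x, φf (algebraMap S _ x) = φ0 x := fun x => by
    change IsLocalization.Away.lift (P.jacobian : S) (g := (φ0 : S →+* ResidueField O)) hju _ = _
    rw [IsLocalization.Away.lift_eq]; rfl
  obtain ⟨σ, hσ⟩ := exists_section φf
  let τ : MvPolynomial ι O →ₐ[O] O :=
    (σ.comp (IsScalarTower.toAlgHom O S S')).comp (Ideal.Quotient.mkₐ O _)
  have hτ : ∀ p, residue O (τ p) = ψ p := by
    intro p
    change residue O (σ (algebraMap S S' (Ideal.Quotient.mk _ p))) = _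
    rw [hσ, hφf, hφ0]
  refine ⟨fun i => τ (X i), fun i => ?_, fun i => ?_⟩
  · rw [hτ, hψ]; simp
  · have h1 : τ = aeval fun i => τ (X i) := by
      apply MvPolynomial.algHom_ext; intro j; simp
    have h2 : τ (F i) = 0 := by
      change σ (algebraMap S S' (Ideal.Quotient.mk _ (F i))) = 0
      have h3 : (Ideal.Quotient.mk (Ideal.span <| Set.range F)) (F i) = 0 :=
        Ideal.Quotient.eq_zero_iff_mem.mpr (Ideal.subset_span ⟨i, rfl⟩)
      rw [h3, map_zero, map_zero]
    rw [h1] at h2
    simpa [aeval_eq_eval] using h2

end Pool.Agent.Helper223
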