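import Pool.Agent.Helper223_Chow.LinAlg

/-! Leading exponents with respect to the lexicographic order, in explicit form. -/

open MvPolynomial Finset

namespace Pool.Agent.Helper223

/-- explicit lexicographic order on triples -/
def lexLT (p q : Fin 3 → ℕ) : Prop :=
  p 0 < q 0 ∨ (p 0 = q 0 ∧ (p 1 < q 1 ∨ (p 1 = q 1 ∧ p 2 < q 2)))

lemma lexLT_iff (d d' : Fin 3 →₀ ℕ) :
    (MonomialOrder.lex (σ := Fin 3)).toSyn d < (MonomialOrder.lex (σ := Fin 3)).toSyn d' ↔
      lexLT d d' := by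
  rw [MonomialOrder.lex_lt_iff, Finsupp.Lex.lt_iff]
  simp only [ofLex_toLex, lexLT]
  constructor
  · rintro ⟨i, h1, h2⟩
    fin_cases i
    · left; exact h2
    · right; exact ⟨h1 0 (by decide), Or.inl h2⟩
    · right; exact ⟨h1 0 (by decide), Or.inr ⟨h1 1 (by decide), h2⟩⟩
  · rintro (h | ⟨h0, h | ⟨h1, h⟩⟩)
    · exact ⟨0, fun j hj => absurd hj (by simp), h⟩
    · refine ⟨1, fun j hj => ?_, h⟩
      fin_cases j
      · exact h0
      · simp at hj
      · simp at hj
    · refine ⟨2, fun j hj => ?_, h⟩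
      fin_cases j
      · exact h0
      · exact h1
      · simp at hj

lemma lexLT_trichotomy (p q : Fin 3 → ℕ) : lexLT p q ∨ p = q ∨ lexLT q p := by
  unfold lexLT
  by_cases h0 : p 0 = q 0
  · by_cases h1 : p 1 = q 1
    · by_cases h2 : p 2 = q 2
      · right; left; funext i; fin_cases i
        · exact h0
        · exact h1
        · exact h2
      · omega
    · omega
  · omega

lemma lexLT_trans {p q r : Fin 3 → ℕ} (h : lexLT p q) (h' : lexLT q r) : lexLT p r := by
  unfold lexLT at *; omega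

lemma lexLT_irrefl (p : Fin 3 → ℕ) : ¬ lexLT p p := by
  unfold lexLT; omega

lemma lexLT_asymm {p q : Fin 3 → ℕ} (h : lexLT p q) : ¬ lexLT q p := by
  unfold lexLT at *; omega

lemma lexLT_add {p q r s : Fin 3 → ℕ} (h : lexLT p q) (h' : lexLT r s) :
    lexLT (p + r) (q + s) := by
  unfold lexLT at *; simp only [Pi.add_apply]; omega

lemma lexLT_add_right {p q : Fin 3 → ℕ} (r : Fin 3 → ℕ) (h : lexLT p q) :
    lexLT (p + r) (q + r) := by
  unfold lexLT at *; simp only [Pi.add_apply]; omega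

lemma lexLT_smul {p q : Fin 3 → ℕ} (h : lexLT p q) {n : ℕ} (hn : 0 < n) :
    lexLT (n • p) (n • q) := by
  unfold lexLT at *
  simp only [Pi.smul_apply, smul_eq_mul]
  rcases h with h | ⟨h0, h | ⟨h1, h⟩⟩
  · left; exact Nat.mul_lt_mul_of_pos_left h hn
  · right; exact ⟨by rw [h0], Or.inl (Nat.mul_lt_mul_of_pos_left h hn)⟩
  · right; exact ⟨by rw [h0], Or.inr ⟨by rw [h1], Nat.mul_lt_mul_of_pos_left h hn⟩⟩

variable {K : Type*} [Field K]

lemma coeff_eq_zero_of_lexLT {p : MvPolynomial (Fin 3) K} {e : Fin 3 →₀ ℕ}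
    (h : lexLT (lexp p) e) : coeff e p = 0 := by
  apply (MonomialOrder.lex (σ := Fin 3)).coeff_eq_zero_of_lt
  rw [lexLT_iff]; exact h

lemma lexp_spec {p : MvPolynomial (Fin 3) K} {e : Fin 3 →₀ ℕ} (h0 : coeff e p ≠ 0)
    (h : ∀ e' : Fin 3 →₀ ℕ, lexLT e e' → coeff e' p = 0) : p ≠ 0 ∧ lexp p = e := by
  have hp : p ≠ 0 := by rintro rfl; simp at h0
  refine ⟨hp, ?_⟩
  rcases lexLT_trichotomy (lexp p) e with h1 | h1 | h1
  · exact absurd (coeff_eq_zero_of_lexLT h1) h0
  · exact h1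
  · exfalso
    have h2 := h _ h1
    exact MonomialOrder.coeff_degree_ne_zero_iff.mpr hp h2

lemma coeff_lexp_ne {p : MvPolynomial (Fin 3) K} (hp : p ≠ 0) :
    coeff ((MonomialOrder.lex (σ := Fin 3)).degree p) p ≠ 0 :=
  MonomialOrder.coeff_degree_ne_zero_iff.mpr hp

/-- cancelling leading terms -/
lemma exists_cancel {p q : MvPolynomial (Fin 3) K} (hp : p ≠ 0) (hq : q ≠ 0)
    (h : lexp p = lexp q) : ∃ c : K, c ≠ 0 ∧
      (p - c • q = 0 ∨ lexLT (lexp (p - c • q)) (lexp p)) := by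
  have hd := lexp_injective h
  have hp' := coeff_lexp_ne hp
  have hq' := coeff_lexp_ne hq
  refine ⟨coeff ((MonomialOrder.lex (σ := Fin 3)).degree p) p *
    (coeff ((MonomialOrder.lex (σ := Fin 3)).degree q) q)⁻¹,
    mul_ne_zero hp' (inv_ne_zero hq'), ?_⟩
  by_cases h0 : p - (coeff ((MonomialOrder.lex (σ := Fin 3)).degree p) p *
    (coeff ((MonomialOrder.lex (σ := Fin 3)).degree q) q)⁻¹) • q = 0
  · left; exact h0
  · right
    set c := coeff ((MonomialOrder.lex (σ := Fin 3)).degree p) p *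
      (coeff ((MonomialOrder.lex (σ := Fin 3)).degree q) q)⁻¹ with hc
    have h1 := coeff_lexp_ne h0
    set D := (MonomialOrder.lex (σ := Fin 3)).degree (p - c • q) with hD
    rcases lexLT_trichotomy (lexp (p - c • q)) (lexp p) with h2 | h2 | h2
    · exact h2
    · exfalso
      have h3 : D = (MonomialOrder.lex (σ := Fin 3)).degree p := lexp_injective h2
      apply h1
      rw [h3, coeff_sub, coeff_smul, hc, hd, smul_eq_mul]
      rw [hd] at hp'
      field_simp
      ring
    · exfalso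
      apply h1
      rw [coeff_sub, coeff_smul]
      have e1 : coeff D p = 0 := coeff_eq_zero_of_lexLT h2
      have e2 : coeff D q = 0 := coeff_eq_zero_of_lexLT (by rw [← h]; exact h2)
      rw [e1, e2]; simp

lemma lexp_smul {p : MvPolynomial (Fin 3) K} {c : K} (hc : c ≠ 0) : lexp (c • p) = lexp p := by
  by_cases hp : p = 0
  · rw [hp, smul_zero]
  · rw [smul_eq_C_mul, lexp_mul (by simpa using hc) hp]
    have : lexp (C c : MvPolynomial (Fin 3) K) = 0 := by
      have := lexp_monomial (K := K) (0 : Fin 3 →₀ ℕ) hc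
      exact this
    rw [this, zero_add]

lemma lexp_sub_of_lt {p q : MvPolynomial (Fin 3) K} (hp : p ≠ 0)
    (h : lexLT (lexp q) (lexp p)) : p - q ≠ 0 ∧ lexp (p - q) = lexp p := by
  apply lexp_spec (e := (MonomialOrder.lex (σ := Fin 3)).degree p)
  · rw [coeff_sub, coeff_eq_zero_of_lexLT (p := q) h, sub_zero]
    exact coeff_lexp_ne hp
  · intro e' he'
    rw [coeff_sub, coeff_eq_zero_of_lexLT (p := p) he',
      coeff_eq_zero_of_lexLT (p := q) (lexLT_trans h he'), sub_zero]

end Pool.Agent.Helper223
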