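import Pool.Agent.Helper223_Chow.Toric
import Pool.Agent.Helper223_Chow.LexLT

/-! Toric structures on the coordinate ring of a cubic surface: leading exponents. -/

open MvPolynomial Finset

namespace Pool.Agent.Helper223

variable {K : Type*} [Field K] {f : MvPolynomial (Fin 4) K}

/-- exponent vector of a monomial in the polygon -/
def ev (u : Fin 4 →₀ ℕ) : Fin 3 → ℕ := ![3 * u 0 + u 3, 3 * u 1 + u 3, 3 * u 2 + u 3]

lemma ev_add (u v : Fin 4 →₀ ℕ) : ev (u + v) = ev u + ev v := by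
  funext i; fin_cases i <;> simp [ev] <;> ring

/-- the standard monomial of a lattice point -/
noncomputable def mo (a : Fin 3 → ℕ) : Fin 4 →₀ ℕ :=
  Finsupp.equivFunOnFinite.symm ![(a 0 - min (a 0) (min (a 1) (a 2))) / 3,
    (a 1 - min (a 0) (min (a 1) (a 2))) / 3, (a 2 - min (a 0) (min (a 1) (a 2))) / 3,
    min (a 0) (min (a 1) (a 2))]

lemma mo_Pt (n : ℕ) (e : Fin 3) (S T : ℕ) (_h : S + T ≤ n) :
    ev (mo (Pt n e S T)) = Pt n e S T ∧ ∑ i, mo (Pt n e S T) i = n := by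
  constructor
  · fin_cases e <;> funext i <;> fin_cases i <;> simp [ev, mo, Pt]
  · rw [Fin.sum_univ_four]
    fin_cases e <;> simp [mo, Pt] <;> omega

lemma ev_mo {n : ℕ} {a : Fin 3 → ℕ} (ha : a ∈ Lk n) : ev (mo a) = a := by
  obtain ⟨e, S, T, h1, _, rfl⟩ := mem_Lk.mp ha
  exact (mo_Pt n e S T h1).1

lemma sum_mo {n : ℕ} {a : Fin 3 → ℕ} (ha : a ∈ Lk n) : ∑ i, mo a i = n := by
  obtain ⟨e, S, T, h1, _, rfl⟩ := mem_Lk.mp ha
  exact (mo_Pt n e S T h1).2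

lemma sum_of_mem_Lk {n : ℕ} {a : Fin 3 → ℕ} (ha : a ∈ Lk n) : a 0 + a 1 + a 2 = 3 * n := by
  obtain ⟨e, S, T, h1, _, rfl⟩ := mem_Lk.mp ha
  fin_cases e <;> simp [Pt] <;> omega

/-- membership in the polygon by congruences -/
lemma mem_Lk_iff {n : ℕ} {a : Fin 3 → ℕ} :
    a ∈ Lk n ↔ a 0 + a 1 + a 2 = 3 * n ∧ a 0 % 3 = a 1 % 3 ∧ a 1 % 3 = a 2 % 3 := by
  constructor
  · intro ha
    refine ⟨sum_of_mem_Lk ha, ?_⟩
    obtain ⟨e, S, T, h1, _, rfl⟩ := mem_Lk.mp ha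
    fin_cases e <;> simp [Pt]
  · rintro ⟨h1, h2, h3⟩
    rw [mem_Lk]
    obtain ⟨u, hu, hu2⟩ : ∃ u : Fin 4 →₀ ℕ, ∑ i, u i = n ∧
        (![3 * u 0 + u 3, 3 * u 1 + u 3, 3 * u 2 + u 3] : Fin 3 → ℕ) = a := by
      refine ⟨mo a, ?_, ?_⟩
      · rw [Fin.sum_univ_four]; simp [mo]; omega
      · funext i; fin_cases i <;> simp [mo] <;> omega
    obtain ⟨e, S, T, h4, h5, h6⟩ := exists_Pt u hu
    exact ⟨e, S, T, h4, h5, by rw [← hu2, h6]⟩

lemma ev_mem_Lk {n : ℕ} {u : Fin 4 →₀ ℕ} (hu : ∑ i, u i = n) : ev u ∈ Lk n := by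
  rw [mem_Lk_iff]
  rw [Fin.sum_univ_four] at hu
  simp [ev]; omega

/-- the corners of the polygon -/
def vc (k : ℕ) (i : Fin 3) : Fin 3 → ℕ := Pi.single i (3 * k)

lemma vc_mem (k : ℕ) (i : Fin 3) : vc k i ∈ Lk k := by
  rw [mem_Lk_iff]; fin_cases i <;> simp [vc]

/-- A toric structure: a multiplicative leading exponent map. -/
structure TStr (f : MvPolynomial (Fin 4) K) where
  ψ : CRing f →ₐ[K] MvPolynomial (Fin 3) K
  A : (Fin 3 → ℕ) →+ (Fin 3 → ℕ)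
  inj : Function.Injective A
  hx : ∀ i : Fin 3, ψ (qm f (X i.castSucc)) ≠ 0 ∧
    lexp (ψ (qm f (X i.castSucc))) = A (Pi.single i 3)
  hw : ψ (qm f (X 3)) ≠ 0 ∧ lexp (ψ (qm f (X 3))) = A (fun _ => 1)

/-- `a` is the leading exponent of `y` -/
def TStr.LD (t : TStr f) (y : CRing f) (a : Fin 3 → ℕ) : Prop :=
  t.ψ y ≠ 0 ∧ lexp (t.ψ y) = t.A a

namespace TStr

variable (t : TStr f)

lemma LD_unique {y : CRing f} {a b : Fin 3 → ℕ} (ha : t.LD y a) (hb : t.LD y b) : a = b :=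
  t.inj (ha.2.symm.trans hb.2)

lemma LD_mul {x y : CRing f} {a b : Fin 3 → ℕ} (hx : t.LD x a) (hy : t.LD y b) :
    t.LD (x * y) (a + b) := by
  refine ⟨by rw [map_mul]; exact mul_ne_zero hx.1 hy.1, ?_⟩
  rw [map_mul, lexp_mul hx.1 hy.1, hx.2, hy.2, map_add]

lemma LD_one : t.LD 1 0 := by
  refine ⟨by rw [map_one]; exact one_ne_zero, ?_⟩
  rw [map_one, lexp_one, map_zero]

lemma LD_pow {x : CRing f} {a : Fin 3 → ℕ} (hx : t.LD x a) (n : ℕ) :
    t.LD (x ^ n) (n • a) := by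
  induction n with
  | zero => simpa using t.LD_one
  | succ n ih => rw [pow_succ, succ_nsmul]; exact t.LD_mul ih hx

lemma LD_smul {x : CRing f} {a : Fin 3 → ℕ} (hx : t.LD x a) {c : K} (hc : c ≠ 0) :
    t.LD (c • x) a := by
  refine ⟨by rw [map_smul]; exact smul_ne_zero hc hx.1, ?_⟩
  rw [map_smul, lexp_smul hc, hx.2]

lemma LD_ne {x : CRing f} {a : Fin 3 → ℕ} (hx : t.LD x a) : x ≠ 0 := by
  rintro rfl; exact hx.1 (map_zero _)

lemma LD_mono (u : Fin 4 →₀ ℕ) : t.LD (qm f (monomial u 1)) (ev u) := by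
  have h0 := t.LD_pow (t.hx 0 : t.LD _ _) (u 0)
  have h1 := t.LD_pow (t.hx 1 : t.LD _ _) (u 1)
  have h2 := t.LD_pow (t.hx 2 : t.LD _ _) (u 2)
  have h3 := t.LD_pow (t.hw : t.LD _ _) (u 3)
  have h := t.LD_mul (t.LD_mul (t.LD_mul h0 h1) h2) h3
  have e1 : qm f (monomial u 1) = qm f (X (Fin.castSucc (0 : Fin 3))) ^ u 0 *
      qm f (X (Fin.castSucc (1 : Fin 3))) ^ u 1 *
      qm f (X (Fin.castSucc (2 : Fin 3))) ^ u 2 * qm f (X 3) ^ u 3 := by
    rw [monomial_eq, map_one, one_mul, Finsupp.prod_fintype _ _ (by simp), Fin.prod_univ_four]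
    simp only [map_mul, map_pow]
    rfl
  have e2 : ev u = u 0 • (Pi.single 0 3 : Fin 3 → ℕ) + u 1 • (Pi.single 1 3 : Fin 3 → ℕ) +
      u 2 • (Pi.single 2 3 : Fin 3 → ℕ) + u 3 • (fun _ => 1 : Fin 3 → ℕ) := by
    funext i; fin_cases i <;> simp [ev] <;> ring
  rw [e1, e2]; exact h

/-- cancelling leading terms -/
lemma cancel {x y : CRing f} {a : Fin 3 → ℕ} (hx : t.LD x a) (hy : t.LD y a) :
    ∃ c : K, c ≠ 0 ∧ (t.ψ (x - c • y) = 0 ∨
      lexLT (lexp (t.ψ (x - c • y))) (t.A a)) := by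
  obtain ⟨c, hc, h⟩ := exists_cancel hx.1 hy.1 (hx.2.trans hy.2.symm)
  refine ⟨c, hc, ?_⟩
  rw [map_sub, map_smul, ← hx.2]
  exact h

lemma LD_sub_of_lt {x y : CRing f} {a b : Fin 3 → ℕ} (hx : t.LD x a) (hy : t.LD y b)
    (h : lexLT (t.A b) (t.A a)) : t.LD (x - y) a := by
  have := lexp_sub_of_lt hx.1 (q := t.ψ y) (by rw [hx.2, hy.2]; exact h)
  refine ⟨by rw [map_sub]; exact this.1, by rw [map_sub, this.2, hx.2]⟩

end TStr

/-- the standard basis elements -/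
noncomputable def bm (f : MvPolynomial (Fin 4) K) (a : Fin 3 → ℕ) : CRing f :=
  qm f (monomial (mo a) 1)

lemma bm_mem_sec (f : MvPolynomial (Fin 4) K) {n : ℕ} {a : Fin 3 → ℕ} (ha : a ∈ Lk n) :
    bm f a ∈ sec f n := monomial_mem_sec f _ (sum_mo ha)

namespace TStr

variable (t : TStr f)

lemma LD_bm {n : ℕ} {a : Fin 3 → ℕ} (ha : a ∈ Lk n) : t.LD (bm f a) a := by
  have := t.LD_mono (mo a)
  rwa [ev_mo ha] at this

include t in
lemma linearIndependent_bm (n : ℕ) :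
    LinearIndependent K (fun a : Lk n => bm f (a : Fin 3 → ℕ)) := by
  apply LinearIndependent.of_comp t.ψ.toLinearMap
  apply linearIndependent_of_lexp
  · intro a; exact (t.LD_bm a.2).1
  · intro a b hab
    apply Subtype.ext
    have h1 := (t.LD_bm a.2).2
    have h2 := (t.LD_bm b.2).2
    apply t.inj
    rw [← h1, ← h2]
    exact hab

include t in
lemma span_bm (hf : f.IsHomogeneous 3) (hf0 : f ≠ 0) (n : ℕ) :
    Submodule.span K (Set.range fun a : Lk n => bm f (a : Fin 3 → ℕ)) = sec f n := by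
  apply Submodule.eq_of_le_of_finrank_eq
  · rw [Submodule.span_le]
    rintro _ ⟨a, rfl⟩
    exact bm_mem_sec f a.2
  · have h1 := finrank_span_eq_card (t.linearIndependent_bm n)
    have h2 := two_mul_finrank_sec hf hf0 n
    have h3 := card_Lk n
    rw [h1, Fintype.card_coe]
    omega

include t in
/-- coordinates in the standard basis -/
lemma exists_coord (hf : f.IsHomogeneous 3) (hf0 : f ≠ 0) {n : ℕ} {y : CRing f}
    (hy : y ∈ sec f n) : ∃ c : (Fin 3 → ℕ) → K, y = ∑ a ∈ Lk n, c a • bm f a := by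
  rw [← t.span_bm hf hf0 n] at hy
  obtain ⟨c, hc⟩ := (Submodule.mem_span_range_iff_exists_fun K).mp hy
  classical
  refine ⟨fun a => if h : a ∈ Lk n then c ⟨a, h⟩ else 0, ?_⟩
  have h1 := Finset.sum_coe_sort (Lk n)
    (fun a => (if h : a ∈ Lk n then c ⟨a, h⟩ else 0 : K) • bm f a)
  refine hc.symm.trans (Eq.trans ?_ h1)
  apply sum_congr rfl
  intro a _
  simp

/-- the leading exponent of a combination of standard monomials -/
lemma LD_sum {n : ℕ} (c : (Fin 3 → ℕ) → K) {a : Fin 3 → ℕ} (ha : a ∈ Lk n) (hc : c a ≠ 0)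
    (h : ∀ b ∈ Lk n, c b ≠ 0 → b ≠ a → lexLT (t.A b) (t.A a)) :
    t.LD (∑ b ∈ Lk n, c b • bm f b) a := by
  classical
  have hl := t.LD_bm ha
  have h1 : t.ψ (∑ b ∈ Lk n, c b • bm f b) = ∑ b ∈ Lk n, c b • t.ψ (bm f b) := by
    rw [map_sum]; simp only [map_smul]
  have key := lexp_spec (p := t.ψ (∑ b ∈ Lk n, c b • bm f b))
    (e := (MonomialOrder.lex (σ := Fin 3)).degree (t.ψ (bm f a))) ?_ ?_
  · exact ⟨key.1, key.2.trans hl.2⟩
  · rw [h1, coeff_sum, Finset.sum_eq_single a]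
    · rw [coeff_smul, smul_eq_mul]
      exact mul_ne_zero hc (coeff_lexp_ne hl.1)
    · intro b hb hba
      by_cases hcb : c b = 0
      · rw [hcb, zero_smul, coeff_zero]
      · rw [coeff_smul]
        have : lexLT (lexp (t.ψ (bm f b))) (lexp (t.ψ (bm f a))) := by
          rw [(t.LD_bm hb).2, hl.2]; exact h b hb hcb hba
        rw [coeff_eq_zero_of_lexLT this, smul_zero]
    · intro h; exact absurd ha h
  · intro e' he'
    have he'' : lexLT (t.A a) e' := by rw [← hl.2]; exact he'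
    rw [h1, coeff_sum]
    apply sum_eq_zero
    intro b hb
    by_cases hcb : c b = 0
    · rw [hcb, zero_smul, coeff_zero]
    · rw [coeff_smul, coeff_eq_zero_of_lexLT (p := t.ψ (bm f b)) (e := e'), smul_zero]
      rw [(t.LD_bm hb).2]
      by_cases hba : b = a
      · rw [hba]; exact he''
      · exact lexLT_trans (h b hb hcb hba) he''

lemma exists_LD {n : ℕ} (c : (Fin 3 → ℕ) → K) (h : ∃ a ∈ Lk n, c a ≠ 0) :
    ∃ a ∈ Lk n, c a ≠ 0 ∧ t.LD (∑ b ∈ Lk n, c b • bm f b) a ∧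
      ∀ b ∈ Lk n, c b ≠ 0 → b ≠ a → lexLT (t.A b) (t.A a) := by
  classical
  obtain ⟨a0, ha0, hca0⟩ := h
  obtain ⟨a, ha, hmax⟩ := Finset.exists_max_image ((Lk n).filter fun a => c a ≠ 0)
    (fun a => (MonomialOrder.lex (σ := Fin 3)).toSyn
      (Finsupp.equivFunOnFinite.symm (t.A a))) ⟨a0, by simp [ha0, hca0]⟩
  rw [mem_filter] at ha
  have key : ∀ b ∈ Lk n, c b ≠ 0 → b ≠ a → lexLT (t.A b) (t.A a) := by
    intro b hb hcb hba
    have h1 := hmax b (by rw [mem_filter]; exact ⟨hb, hcb⟩)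
    rcases lexLT_trichotomy (t.A b) (t.A a) with h2 | h2 | h2
    · exact h2
    · exact absurd (t.inj h2) hba
    · exfalso
      have h3 := (lexLT_iff (Finsupp.equivFunOnFinite.symm (t.A a))
        (Finsupp.equivFunOnFinite.symm (t.A b))).mpr h2
      exact absurd h1 (not_le_of_gt h3)
  exact ⟨a, ha.1, ha.2, t.LD_sum c ha.1 ha.2 key, key⟩

/-- leading exponents of combinations determine the support relation -/
lemma of_LD {n : ℕ} (c : (Fin 3 → ℕ) → K) {a : Fin 3 → ℕ}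
    (h : t.LD (∑ b ∈ Lk n, c b • bm f b) a) :
    a ∈ Lk n ∧ c a ≠ 0 ∧ ∀ b ∈ Lk n, c b ≠ 0 → b ≠ a → lexLT (t.A b) (t.A a) := by
  classical
  have hne : ∃ a ∈ Lk n, c a ≠ 0 := by
    by_contra hcon
    push Not at hcon
    apply t.LD_ne h
    apply sum_eq_zero
    intro b hb
    rw [hcon b hb, zero_smul]
  obtain ⟨a', ha', hca', hl, hk⟩ := t.exists_LD c hne
  have : a = a' := t.LD_unique h hl
  subst this
  exact ⟨ha', hca', hk⟩

lemma psi_ne (hf : f.IsHomogeneous 3) (hf0 : f ≠ 0) {n : ℕ} {y : CRing f}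
    (hy : y ∈ sec f n) (h0 : y ≠ 0) : ∃ a ∈ Lk n, t.LD y a := by
  obtain ⟨c, rfl⟩ := t.exists_coord hf hf0 hy
  have hne : ∃ a ∈ Lk n, c a ≠ 0 := by
    by_contra hcon
    push Not at hcon
    apply h0
    apply sum_eq_zero
    intro b hb
    rw [hcon b hb, zero_smul]
  obtain ⟨a, ha, _, hl, _⟩ := t.exists_LD c hne
  exact ⟨a, ha, hl⟩

lemma psi_eq_zero (hf : f.IsHomogeneous 3) (hf0 : f ≠ 0) {n : ℕ} {y : CRing f}
    (hy : y ∈ sec f n) (h0 : t.ψ y = 0) : y = 0 := by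
  by_contra hy0
  obtain ⟨a, _, h⟩ := t.psi_ne hf hf0 hy hy0
  exact h.1 h0

lemma LD_mem (hf : f.IsHomogeneous 3) (hf0 : f ≠ 0) {n : ℕ} {y : CRing f}
    (hy : y ∈ sec f n) {a : Fin 3 → ℕ} (h : t.LD y a) : a ∈ Lk n := by
  obtain ⟨b, hb, hl⟩ := t.psi_ne hf hf0 hy (t.LD_ne h)
  rw [t.LD_unique h hl]; exact hb

end TStr

end Pool.Agent.Helper223
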