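import Pool.Agent.Helper223_Chow.Slice

/-! Models of slice surfaces over a valuation ring, and their reductions. -/

open MvPolynomial Finset Filter

namespace Pool.Agent.Helper223

variable {O : Type*} [CommRing O] {K : Type*} [Field K] [Algebra O K]

/-- the scaling of coordinates -/
noncomputable def dsc (t : K) (e : Fin 3) : Fin 4 → K := fun i =>
  if i = 3 then 1 else if i = e.castSucc then (t⁻¹) ^ 2 else t

lemma dsc_three (t : K) (e : Fin 3) : dsc t e 3 = 1 := by simp [dsc]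

lemma dsc_castSucc (t : K) (e i : Fin 3) :
    dsc t e i.castSucc = if i = e then (t⁻¹) ^ 2 else t := by
  have h : i.castSucc ≠ 3 := by fin_cases i <;> decide
  simp only [dsc, h, if_false, Fin.castSucc_inj]

lemma dsc_prod {t : K} (ht : t ≠ 0) (e : Fin 3) : dsc t e 0 * dsc t e 1 * dsc t e 2 = 1 := by
  have h0 : dsc t e 0 = _ := dsc_castSucc t e 0
  have h1 : dsc t e 1 = _ := dsc_castSucc t e 1
  have h2 : dsc t e 2 = _ := dsc_castSucc t e 2
  rw [h0, h1, h2]
  fin_cases e <;> simp <;> field_simp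

lemma dsc_det {t : K} (ht : t ≠ 0) (e : Fin 3) :
    IsUnit (Matrix.diagonal (dsc t e)).det := by
  rw [Matrix.det_diagonal, Fin.prod_univ_four, dsc_prod ht, dsc_three, one_mul]
  exact isUnit_one

lemma dsc_mono {t : K} (ht : t ≠ 0) (e : Fin 3) {k : ℕ} {a : Fin 3 → ℕ} (ha : a ∈ Lk k) :
    t ^ a e * ∏ i, dsc t e i ^ mo a i = t ^ k := by
  have h0 : dsc t e 0 = _ := dsc_castSucc t e 0
  have h1 : dsc t e 1 = _ := dsc_castSucc t e 1
  have h2 : dsc t e 2 = _ := dsc_castSucc t e 2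
  rw [Fin.prod_univ_four, h0, h1, h2, dsc_three, one_pow, mul_one]
  have hs := sum_mo ha
  rw [Fin.sum_univ_four] at hs
  have hev := ev_mo ha
  have e0 := congrFun hev 0
  have e1 := congrFun hev 1
  have e2 := congrFun hev 2
  simp only [ev, Matrix.cons_val] at e0 e1 e2
  have key : ∀ m : ℕ, t ^ (2 * m) * ((t⁻¹) ^ 2) ^ m = 1 := by
    intro m
    rw [pow_mul, ← mul_pow, ← mul_pow, mul_inv_cancel₀ ht, one_pow, one_pow]
  fin_cases e
  · simp only [Fin.zero_eta, Fin.mk_one, Fin.reduceFinMk, if_true,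
      show (1 : Fin 3) ≠ 0 by decide, show (2 : Fin 3) ≠ 0 by decide, if_false]
    rw [← e0, ← hs]
    calc t ^ (3 * mo a 0 + mo a 3) * (((t⁻¹) ^ 2) ^ mo a 0 * t ^ mo a 1 * t ^ mo a 2) =
        (t ^ (2 * mo a 0) * ((t⁻¹) ^ 2) ^ mo a 0) *
          t ^ (mo a 0 + mo a 1 + mo a 2 + mo a 3) := by ring
      _ = _ := by rw [key, one_mul]
  · simp only [Fin.zero_eta, Fin.mk_one, Fin.reduceFinMk, if_true,
      show (0 : Fin 3) ≠ 1 by decide, show (2 : Fin 3) ≠ 1 by decide, if_false]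
    rw [← e1, ← hs]
    calc t ^ (3 * mo a 1 + mo a 3) * (t ^ mo a 0 * ((t⁻¹) ^ 2) ^ mo a 1 * t ^ mo a 2) =
        (t ^ (2 * mo a 1) * ((t⁻¹) ^ 2) ^ mo a 1) *
          t ^ (mo a 0 + mo a 1 + mo a 2 + mo a 3) := by ring
      _ = _ := by rw [key, one_mul]
  · simp only [Fin.zero_eta, Fin.mk_one, Fin.reduceFinMk, if_true,
      show (0 : Fin 3) ≠ 2 by decide, show (1 : Fin 3) ≠ 2 by decide, if_false]
    rw [← e2, ← hs]
    calc t ^ (3 * mo a 2 + mo a 3) * (t ^ mo a 0 * t ^ mo a 1 * ((t⁻¹) ^ 2) ^ mo a 2) =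
        (t ^ (2 * mo a 2) * ((t⁻¹) ^ 2) ^ mo a 2) *
          t ^ (mo a 0 + mo a 1 + mo a 2 + mo a 3) := by ring
      _ = _ := by rw [key, one_mul]

/-- coefficients of a model -/
def mc (x : O) (t : O) (e : Fin 3) (a : Fin 3 → O) (n : ℕ) : Fin 3 → O := fun i =>
  if i = e then x else a i * t ^ n

variable [IsDomain O] [ValuationRing O] [IsFractionRing O K]

omit [IsDomain O] [ValuationRing O] [IsFractionRing O K] in
lemma model_eq {a b c : Fin 3 → O} {e : Fin 3} {t A B C : O}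
    (ht : algebraMap O K t ≠ 0) (hA : A * t ^ 2 = a e) (hB : B * t ^ 4 = b e)
    (hC : C * t ^ 6 = c e) :
    lsubst (Matrix.diagonal (dsc (algebraMap O K t) e)) (map (algebraMap O K) (FS a b c)) =
      map (algebraMap O K) (FS (mc A t e a 1) (mc B t e b 2) (mc C t e c 3)) := by
  rw [map_FS, map_FS, lsubst_diag_FS _ (dsc_three _ _) (dsc_prod ht e)]
  congr 1
  · funext i
    simp only [dsc_castSucc, mc]
    split_ifs with h
    · subst h
      rw [← hA, map_mul, map_pow]; field_simp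
    · rw [map_mul, map_pow]; ring
  · funext i
    simp only [dsc_castSucc, mc]
    split_ifs with h
    · subst h
      rw [← hB, map_mul, map_pow]; field_simp
    · rw [map_mul, map_pow]
  · funext i
    simp only [dsc_castSucc, mc]
    split_ifs with h
    · subst h
      rw [← hC, map_mul, map_pow]; field_simp
    · rw [map_mul, map_pow]

variable {κ : Type*} [Field κ] (π : O →+* κ)

/-- the reduction attached to a model -/
noncomputable def Dmod {a b c : Fin 3 → O} {e : Fin 3} {t A B C : O}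
    (ht : algebraMap O K t ≠ 0) (hA : A * t ^ 2 = a e) (hB : B * t ^ 4 = b e)
    (hC : C * t ^ 6 = c e) :
    SDegen (map (algebraMap O K) (FS a b c))
      (map π (FS (mc A t e a 1) (mc B t e b 2) (mc C t e c 3))) :=
  (linSDegen (dsc_det ht e) _).comp (valSDegen π _) (model_eq ht hA hB hC)

/-- combination of standard monomials, as a form -/
noncomputable def stdF {R : Type*} [CommRing R] (k : ℕ) (c : (Fin 3 → ℕ) → R) :
    MvPolynomial (Fin 4) R := ∑ x ∈ Lk k, C (c x) * monomial (mo x) 1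

lemma map_stdF {R S : Type*} [CommRing R] [CommRing S] (φ : R →+* S) (k : ℕ)
    (c : (Fin 3 → ℕ) → R) : map φ (stdF k c) = stdF k (fun x => φ (c x)) := by
  simp [stdF]

lemma stdF_homog {R : Type*} [CommRing R] (k : ℕ) (c : (Fin 3 → ℕ) → R) :
    (stdF k c).IsHomogeneous k := by
  apply IsHomogeneous.sum
  intro x hx
  apply IsHomogeneous.C_mul
  exact isHomogeneous_monomial _ (by
    rw [← sum_mo hx]; exact Finsupp.sum_fintype _ (fun _ x => x) (by simp))

lemma qm_stdF {K : Type*} [Field K] (f : MvPolynomial (Fin 4) K) (k : ℕ)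
    (c : (Fin 3 → ℕ) → K) : qm f (stdF k c) = ∑ x ∈ Lk k, c x • bm f x := by
  rw [stdF, map_sum]
  apply sum_congr rfl
  intro x _
  rw [← smul_eq_C_mul, map_smul]; rfl

lemma stdF_mem_pre {f : MvPolynomial (Fin 4) K} {k : ℕ} {V : Submodule K (CRing f)}
    {c : (Fin 3 → ℕ) → K} (h : ∑ x ∈ Lk k, c x • bm f x ∈ V) : stdF k c ∈ pre f k V := by
  refine ⟨stdF_homog k c, ?_⟩
  change qm f (stdF k c) ∈ V
  rw [qm_stdF]; exact h

lemma model_mem {a b c : Fin 3 → O} {e : Fin 3} {t A B C : O}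
    (ht : algebraMap O K t ≠ 0) (hA : A * t ^ 2 = a e) (hB : B * t ^ 4 = b e)
    (hC : C * t ^ 6 = c e) {k : ℕ}
    (V : Submodule K (CRing (map (algebraMap O K) (FS a b c)))) (w : (Fin 3 → ℕ) → O)
    (hw : ∑ x ∈ Lk k, algebraMap O K (w x) • bm _ x ∈ V) (d : (Fin 3 → ℕ) → O) (u : ℕ)
    (hd : ∀ x ∈ Lk k, d x * t ^ x e = w x * t ^ u) :
    stdF k (fun x => π (d x)) ∈ (Dmod (K := K) π ht hA hB hC).red
      (pre (map (algebraMap O K) (FS a b c)) k V) := by
  rw [← map_stdF]
  apply Submodule.subset_span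
  refine ⟨stdF k d, ?_, rfl⟩
  rw [map_stdF]
  have h1 : stdF k (fun x => algebraMap O K (w x)) ∈ pre _ k V := stdF_mem_pre hw
  have h2 : lsubst (Matrix.diagonal (dsc (algebraMap O K t) e))
      (stdF k (fun x => algebraMap O K (w x))) ∈ (pre _ k V).map
        (lsubst (Matrix.diagonal (dsc (algebraMap O K t) e))).toLinearMap :=
    Submodule.mem_map_of_mem h1
  have h3 := Submodule.smul_mem _
    ((algebraMap O K t) ^ u * ((algebraMap O K t) ^ k)⁻¹) h2
  have e1 : ((algebraMap O K t) ^ u * ((algebraMap O K t) ^ k)⁻¹) •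
      lsubst (Matrix.diagonal (dsc (algebraMap O K t) e))
        (stdF k (fun x => algebraMap O K (w x))) = stdF k (fun x => algebraMap O K (d x)) := by
    rw [stdF, stdF, map_sum, smul_sum]
    apply sum_congr rfl
    intro x hx
    rw [← smul_eq_C_mul, map_smul, lsubst_diag_monomial, ← smul_eq_C_mul, smul_smul, smul_smul]
    congr 1
    have h4 := dsc_mono ht e hx
    have h5 := congrArg (algebraMap O K) (hd x hx)
    simp only [map_mul, map_pow] at h5
    have h6 : (algebraMap O K t) ^ k ≠ 0 := pow_ne_zero _ ht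
    have h7 : (algebraMap O K t) ^ x e ≠ 0 := pow_ne_zero _ ht
    generalize (∏ i, dsc (algebraMap O K t) e i ^ mo x i) = P at *
    apply mul_right_cancel₀ h7
    rw [h5, ← h4]
    rw [← h4] at h6
    have h8 : P ≠ 0 := right_ne_zero_of_mul h6
    field_simp
  rw [e1] at h3
  exact h3

end Pool.Agent.Helper223
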