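import Pool.Agent.Helper223_Chow.Wall

/-! Chow stability of slice surfaces over a valuation ring. -/

open MvPolynomial Finset Filter

namespace Pool.Agent.Helper223

variable {O : Type*} [CommRing O] [IsDomain O] [ValuationRing O] {K : Type*} [Field K]
  [Algebra O K] [IsFractionRing O K]

/-- the wall condition for the index `e`: after scaling, the wall cubic is not a cube -/
def WallOK (a b c : Fin 3 → O) (e : Fin 3) : Prop :=
  ∃ ρ A B C : O, ρ ≠ 0 ∧ A * ρ ^ 2 = a e ∧ B * ρ ^ 4 = b e ∧ C * ρ ^ 6 = c e ∧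
    NonCube (IsLocalRing.residue O A) (IsLocalRing.residue O B) (IsLocalRing.residue O C)

lemma map_res_mc {a b c : Fin 3 → O} (hmax : InMax a b c) (e : Fin 3) (t A B C : O) :
    map (IsLocalRing.residue O) (FS (mc A t e a 1) (mc B t e b 2) (mc C t e c 3)) =
      FS (fun i => if i = e then IsLocalRing.residue O A else 0)
        (fun i => if i = e then IsLocalRing.residue O B else 0)
        (fun i => if i = e then IsLocalRing.residue O C else 0) := by
  rw [map_FS]
  congr 1
  · funext i; unfold mc; split_ifs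
    · rfl
    · rw [map_mul, res_zero (hmax.1 i), zero_mul]
  · funext i; unfold mc; split_ifs
    · rfl
    · rw [map_mul, res_zero (hmax.2.1 i), zero_mul]
  · funext i; unfold mc; split_ifs
    · rfl
    · rw [map_mul, res_zero (hmax.2.2 i), zero_mul]

theorem wall_slice [IsAlgClosed K] {a b c : Fin 3 → O} (hmax : InMax a b c) {k N : ℕ}
    (hk : 1 ≤ k)
    (s : Module.Basis (Fin N) K (sec (map (algebraMap O K) (FS a b c)) k)) (r : Fin N → ℕ)
    (hb : Bad _ k (fun i => (s i : CRing (map (algebraMap O K) (FS a b c)))) r)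
    (hr : ∃ i j, r i ≠ r j) (G : Fin 3 → ℕ) (η : (Fin 3 → ℕ) → ℕ)
    (g1 : ∀ x ∈ Lk k, 3 * k * η x = ∑ m, x m * G m)
    (g2 : ∑ x ∈ Lk k, η x = ∑ i, r i)
    (g3 : ∀ l, (univ.filter fun i => l ≤ r i).card = ((Lk k).filter fun x => l ≤ η x).card)
    (g4 : ∀ l, ∀ u ∈ (Lk k).filter (fun x => l ≤ η x), ∃ w : (Fin 3 → ℕ) → O,
        (∑ x ∈ Lk k, algebraMap O K (w x) • bm _ x ∈
          chowFil _ (fun i => (s i : CRing (map (algebraMap O K) (FS a b c)))) r 1 l) ∧
        (∀ x ∈ (Lk k).filter (fun x => l ≤ η x), w x = if x = u then 1 else 0) ∧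
        ∀ x ∈ Lk k, x ∉ (Lk k).filter (fun x => l ≤ η x) →
          IsLocalRing.residue O (w x) = 0)
    (e : Fin 3) (he : WallOK a b c e) : ∑ m, G m ≤ 3 * G e := by
  classical
  obtain ⟨ρ, A, B, C, hρ, hA, hB, hC, hq⟩ := he
  have hinj := IsFractionRing.injective O K
  have hρK : algebraMap O K ρ ≠ 0 := fun h => hρ (hinj (by rw [h, map_zero]))
  set κ := IsLocalRing.ResidueField O with hκ
  have hres := map_res_mc hmax e ρ A B C
  have hfin : lsubst (pm κ e) (map (IsLocalRing.residue O)
      (FS (mc A ρ e a 1) (mc B ρ e b 2) (mc C ρ e c 3))) =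
      FW (IsLocalRing.residue O A) (IsLocalRing.residue O B) (IsLocalRing.residue O C) := by
    rw [hres]; exact lsubst_pm_FS e _ _ _
  have hf : (map (algebraMap O K) (FS a b c)).IsHomogeneous 3 := (FS_homog _ _ _).map _
  have hf0 := map_alg_FS_ne (K := K) a b c
  have hf' : (lsubst (pm κ e) (map (IsLocalRing.residue O)
      (FS (mc A ρ e a 1) (mc B ρ e b 2) (mc C ρ e c 3)))).IsHomogeneous 3 := by
    rw [hfin]; exact FW_homog _ _ _
  have hf0' : lsubst (pm κ e) (map (IsLocalRing.residue O)
      (FS (mc A ρ e a 1) (mc B ρ e b 2) (mc C ρ e c 3))) ≠ 0 := by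
    rw [hfin]; exact FW_ne_zero _ _ _
  set D := (Dmod (K := K) (IsLocalRing.residue O) hρK hA hB hC).comp
    (linSDegen (pm_det e) _) rfl with hD
  obtain ⟨s', r', e1, e2, e3, e4, e5⟩ :=
    (D.toDegen hf hf0 hf' hf0').exists_bad hf hf0 hf' hf0' s r hb hr
  have key := wall_core hfin hk s' r' e4 hq (fun m => G (Equiv.swap 0 e m))
    (fun x => η (pt e x)) ?_ ?_ ?_
  · -- conclusion
    rw [Fin.sum_univ_three]
    fin_cases e
    · simp at key ⊢; omega
    · have f0 : (Equiv.swap 0 (1 : Fin 3)) (0 : Fin 3) = 1 := by decide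
      have f1 : (Equiv.swap 0 (1 : Fin 3)) (1 : Fin 3) = 0 := by decide
      have f2 : (Equiv.swap 0 (1 : Fin 3)) (2 : Fin 3) = 2 := by decide
      simp only [Fin.mk_one, f0, f1, f2] at key ⊢
      omega
    · have f0 : (Equiv.swap 0 (2 : Fin 3)) (0 : Fin 3) = 2 := by decide
      have f1 : (Equiv.swap 0 (2 : Fin 3)) (1 : Fin 3) = 1 := by decide
      have f2 : (Equiv.swap 0 (2 : Fin 3)) (2 : Fin 3) = 0 := by decide
      simp only [Fin.reduceFinMk, f0, f1, f2] at key ⊢
      omega
  · intro x hx
    rw [g1 _ (pt_mem hx), ← Equiv.sum_comp (Equiv.swap 0 e) (fun m => pt e x m * G m)]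
    apply sum_congr rfl
    intro m _
    simp [pt]
  · rw [e1, ← g2]; exact sum_pt e k η
  · -- the elements
    intro u hu
    have hu' : pt e u ∈ Lk k := pt_mem hu
    set l := η (pt e u) with hl
    set E := (Lk k).filter (fun x => l ≤ η x) with hE
    have huE : pt e u ∈ E := by rw [hE, mem_filter]; exact ⟨hu', le_rfl⟩
    choose! w hw1 hw2 hw3 using g4 l
    have hpath := path_step hmax hk s r hb hr l E (filter_subset _ _) (g3 l) w hw1 hw2 hρ hA hB
      hC
    have hd : ∀ x, ∃ d : O, x ∈ Lk k → d * ρ ^ x e = w (pt e u) x * ρ ^ (pt e u) e := by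
      intro x
      by_cases hx : x ∈ Lk k
      · rcases Nat.le_or_ge (x e) ((pt e u) e) with hle | hge
        · refine ⟨w (pt e u) x * ρ ^ ((pt e u) e - x e), fun _ => ?_⟩
          rw [mul_assoc, ← pow_add]; congr 2; omega
        · rcases Nat.eq_or_lt_of_le hge with heq | hlt
          · exact ⟨w (pt e u) x, fun _ => by rw [heq]⟩
          · by_cases hxE : x ∈ E
            · refine ⟨0, fun _ => ?_⟩
              rw [hw2 _ huE x hxE, if_neg (by rintro rfl; omega)]; ring
            · obtain ⟨q, hq⟩ := hpath _ huE x hx hxE hlt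
              refine ⟨q, fun _ => ?_⟩
              rw [hq, mul_assoc, ← pow_add]; congr 2; omega
      · exact ⟨0, fun h => absurd h hx⟩
    choose d hd using hd
    have hcancel : ∀ x ∈ Lk k, ∀ y : O, d x * ρ ^ x e = y * ρ ^ x e → d x = y := by
      intro x _ y h
      have h3 : (d x - y) * ρ ^ x e = 0 := by rw [sub_mul, h, sub_self]
      rcases mul_eq_zero.mp h3 with h | h
      · exact sub_eq_zero.mp h
      · exact absurd h (pow_ne_zero _ hρ)
    have hdu : d (pt e u) = 1 := by
      apply hcancel _ hu'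
      rw [hd _ hu', hw2 _ huE _ huE, if_pos rfl]
    have hdx : ∀ x ∈ Lk k, IsLocalRing.residue O (d x) ≠ 0 → x ≠ pt e u →
        (pt e u) e < x e := by
      intro x hx hne hxu
      by_contra hcon
      push Not at hcon
      apply hne
      by_cases hxE : x ∈ E
      · have : d x = 0 := by
          apply hcancel x hx
          rw [hd x hx, hw2 _ huE x hxE, if_neg hxu]; ring
        rw [this, map_zero]
      · have : d x = w (pt e u) x * ρ ^ ((pt e u) e - x e) := by
          apply hcancel x hx
          rw [hd x hx, mul_assoc, ← pow_add]; congr 2; omega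
        rw [this, map_mul, hw3 _ huE x hx hxE, zero_mul]
    have hmem := model_mem (K := K) (IsLocalRing.residue O) hρK hA hB hC
      (chowFil _ (fun i => (s i : CRing (map (algebraMap O K) (FS a b c)))) r 1 l)
      (w (pt e u)) (hw1 _ huE) d ((pt e u) e) hd
    have hmem2 : stdF k (fun x => IsLocalRing.residue O (d (pt e x))) ∈ D.red
        (pre _ k (chowFil _ (fun i => (s i : CRing (map (algebraMap O K) (FS a b c))))
          r 1 l)) := by
      rw [← lsubst_pm_stdF e k (fun x => IsLocalRing.residue O (d x))]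
      exact ⟨_, hmem, rfl⟩
    refine ⟨fun x => IsLocalRing.residue O (d (pt e x)), ?_, ?_, ?_⟩
    · rw [e3]
      refine ⟨_, hmem2, ?_⟩
      exact qm_stdF _ _ _
    · simp only [hdu, map_one]
      exact one_ne_zero
    · intro x hx hne hxu
      have h1 := hdx (pt e x) (pt_mem hx) hne (fun h => hxu (by
        rw [← pt_pt e x, h, pt_pt]))
      have h2 : ∀ y : Fin 3 → ℕ, (pt e y) e = y 0 := by
        intro y; simp [pt]
      rwa [h2, h2] at h1

/-- **Chow stability of slice surfaces.** -/
theorem stable_slice [IsAlgClosed K] {a b c : Fin 3 → O} (hmax : InMax a b c)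
    (hw : ∀ e, WallOK a b c e) {k : ℕ} (hk : 1 ≤ k) :
    ChowStableAt (map (algebraMap O K) (FS a b c)) k := by
  classical
  apply stable_of_not_bad
  intro N s r hr hb
  obtain ⟨G, η, g1, g2, g3, g4⟩ := base_data hmax hk s r hb hr
  have h0 := wall_slice hmax hk s r hb hr G η g1 g2 g3 g4 0 (hw 0)
  have h1 := wall_slice hmax hk s r hb hr G η g1 g2 g3 g4 1 (hw 1)
  have h2 := wall_slice hmax hk s r hb hr G η g1 g2 g3 g4 2 (hw 2)
  rw [Fin.sum_univ_three] at h0 h1 h2
  have e1 : G 1 = G 0 := by omega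
  have e2 : G 2 = G 0 := by omega
  have hη : ∀ x ∈ Lk k, η x = G 0 := by
    intro x hx
    have h3 := g1 x hx
    rw [Fin.sum_univ_three, e1, e2, ← add_mul, ← add_mul, sum_of_mem_Lk hx] at h3
    exact Nat.eq_of_mul_eq_mul_left (by omega) h3
  obtain ⟨i, j, hij⟩ := hr
  wlog hlt : r i < r j generalizing i j
  · exact this j i hij.symm (by omega)
  have h2 := g3 (r j)
  have h3 : ((Lk k).filter fun a => r j ≤ η a) = ∅ ∨
      ((Lk k).filter fun a => r j ≤ η a) = Lk k := by
    by_cases h : r j ≤ G 0
    · right; rw [filter_eq_self]; intro a ha; rw [hη a ha]; exact h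
    · left; rw [filter_eq_empty_iff]; intro a ha; rw [hη a ha]; exact h
  have h4 : j ∈ univ.filter fun a => r j ≤ r a := by simp
  have h5 : i ∉ univ.filter fun a => r j ≤ r a := by simp; omega
  rcases h3 with h3 | h3
  · rw [h3, card_empty] at h2
    exact absurd (card_eq_zero.mp h2) (ne_empty_of_mem h4)
  · rw [h3] at h2
    have h6 := card_Lk k
    have h7 := TStr.two_N ((FS_homog a b c).map (algebraMap O K)) (map_alg_FS_ne a b c) s
    have h8 : (univ.filter fun a => r j ≤ r a).card = (univ : Finset (Fin N)).card := by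
      rw [h2, card_univ, Fintype.card_fin]; omega
    have := (card_eq_iff_eq_univ _).mp (h8.trans card_univ)
    rw [this] at h5
    exact h5 (mem_univ i)

/-- the wall condition in residue characteristic different from three -/
theorem wallOK_of_unit [IsAlgClosed K] (h3 : IsUnit (3 : O)) {a b c : Fin 3 → O} {e : Fin 3}
    (ha : a e = 0) (hbc : b e ≠ 0 ∨ c e ≠ 0) : WallOK a b c e := by
  have hinj := IsFractionRing.injective O K
  have h3' : (3 : IsLocalRing.ResidueField O) ≠ 0 := by
    intro h
    have h4 : IsLocalRing.residue O 3 = 0 := by rw [map_ofNat]; exact h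
    rw [IsLocalRing.residue_eq_zero_iff] at h4
    exact h4 h3
  obtain ⟨x, hx⟩ := IsAlgClosed.exists_pow_nat_eq (algebraMap O K (b e)) (show 0 < 4 by norm_num)
  obtain ⟨y, hy⟩ := IsAlgClosed.exists_pow_nat_eq (algebraMap O K (c e)) (show 0 < 6 by norm_num)
  set v := ValuationRing.valuation O K with hv
  have hOle : ∀ (z : K) (n : ℕ) (o : O), n ≠ 0 → z ^ n = algebraMap O K o → v z ≤ 1 := by
    intro z n o hn hz
    by_contra h
    push Not at h
    have h1 := one_lt_pow₀ h hn
    rw [← map_pow, hz] at h1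
    exact absurd (val_le_one (K := K) o) (not_le_of_gt h1)
  have hx1 := hOle x 4 _ (by norm_num) hx
  have hy1 := hOle y 6 _ (by norm_num) hy
  rcases le_total (v y) (v x) with hle | hle
  · obtain ⟨ρ, hρ⟩ := (ValuationRing.mem_integer_iff O K _).mp hx1
    have hx0 : x ≠ 0 := by
      rintro rfl
      rw [map_zero] at hle
      have hy0 : y = 0 := by
        rw [← Valuation.zero_iff v]
        exact le_zero_iff.mp hle
      rcases hbc with h | h
      · apply h; apply hinj; rw [← hx]; simp
      · apply h; apply hinj; rw [← hy, hy0]; simp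
    obtain ⟨C, hC⟩ := exists_of_val_le (O := O) (pow_ne_zero 6 hx0)
      (x := algebraMap O K (c e)) (by rw [← hy, map_pow, map_pow]; gcongr)
    refine ⟨ρ, 0, 1, C, ?_, by rw [ha]; ring, ?_, ?_, ?_⟩
    · rintro rfl; apply hx0; rw [← hρ, map_zero]
    · apply hinj; rw [map_mul, map_pow, hρ, map_one, one_mul, hx]
    · apply hinj; rw [map_mul, map_pow, hρ, hC]
    · intro d hd
      obtain ⟨d1, d2, _⟩ := hd
      rw [map_zero] at d1
      rw [map_one] at d2
      have hd0 : d = 0 := by
        rcases mul_eq_zero.mp d1.symm with h | h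
        · exact absurd h h3'
        · exact h
      rw [hd0] at d2
      simp at d2
  · obtain ⟨ρ, hρ⟩ := (ValuationRing.mem_integer_iff O K _).mp hy1
    have hy0 : y ≠ 0 := by
      rintro rfl
      rw [map_zero] at hle
      have hx0 : x = 0 := by
        rw [← Valuation.zero_iff v]
        exact le_zero_iff.mp hle
      rcases hbc with h | h
      · apply h; apply hinj; rw [← hx, hx0]; simp
      · apply h; apply hinj; rw [← hy]; simp
    obtain ⟨B, hB⟩ := exists_of_val_le (O := O) (pow_ne_zero 4 hy0)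
      (x := algebraMap O K (b e)) (by rw [← hx, map_pow, map_pow]; gcongr)
    refine ⟨ρ, 0, B, 1, ?_, by rw [ha]; ring, ?_, ?_, ?_⟩
    · rintro rfl; apply hy0; rw [← hρ, map_zero]
    · apply hinj; rw [map_mul, map_pow, hρ, hB]
    · apply hinj; rw [map_mul, map_pow, hρ, map_one, one_mul, hy]
    · intro d hd
      obtain ⟨d1, _, d2⟩ := hd
      rw [map_zero] at d1
      rw [map_one] at d2
      have hd0 : d = 0 := by
        rcases mul_eq_zero.mp d1.symm with h | h
        · exact absurd h h3'
        · exact h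
      rw [hd0] at d2
      simp at d2

end Pool.Agent.Helper223
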