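import Pool.Agent.Helper223_Chow.Lin

/-! Cubic surfaces congruent to the toric one modulo a proper ideal. -/

open MvPolynomial Finset

namespace Pool.Agent.Helper223

variable {K : Type*} [Field K]

lemma map_f0_expr {R S : Type*} [CommRing R] [CommRing S] (φ : R →+* S) :
    map φ (X 3 ^ 3 - X 0 * X 1 * X 2 : MvPolynomial (Fin 4) R) =
      X 3 ^ 3 - X 0 * X 1 * X 2 := by simp

theorem semistable_of_valuation {O : Type*} [CommRing O] [IsDomain O] [ValuationRing O]
    [Algebra O K] [IsFractionRing O K] {κ : Type*} [Field κ] (π : O →+* κ)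
    (F : MvPolynomial (Fin 4) O) (hF : F.IsHomogeneous 3) (h0 : map π F = f0 κ) {k : ℕ}
    (hk : 1 ≤ k) : ChowSemistableAt (map (algebraMap O K) F) k :=
  specialisation_semistable π F hF (by rw [h0]; exact f0_ne_zero)
    (by rw [h0]; exact toric_semistable hk)

theorem semistable_of_ideal (f : MvPolynomial (Fin 4) K) (hf : f.IsHomogeneous 3)
    (A : Subring K) (I : Ideal A) (hI : I ≠ ⊤)
    (h : ∀ m, ∃ a ∈ I, (a : K) = coeff m (f - f0 K)) {k : ℕ} (hk : 1 ≤ k) :
    ChowSemistableAt f k := by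
  classical
  obtain ⟨B, hAB, hIB⟩ := I.image_subset_nonunits_valuationSubring hI
  let π : B →+* IsLocalRing.ResidueField B := IsLocalRing.residue B
  have hc : ∀ m, ∃ b : B, (b : K) = coeff m (f - f0 K) ∧ π b = 0 := by
    intro m
    obtain ⟨a, ha, ham⟩ := h m
    have h1 : (a : K) ∈ (B.nonunits : Set K) := hIB ⟨a, ha, rfl⟩
    have h2 : (a : K) ∈ B := hAB a.2
    refine ⟨⟨a, h2⟩, ham, ?_⟩
    rw [IsLocalRing.residue_eq_zero_iff]
    rw [← B.image_maximalIdeal] at h1
    obtain ⟨b, hb, hb2⟩ := h1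
    have : b = ⟨a, h2⟩ := Subtype.ext hb2
    rw [← this]; exact hb
  choose b hb1 hb2 using hc
  let G : MvPolynomial (Fin 4) B := ∑ m ∈ (f - f0 K).support, monomial m (b m)
  let F : MvPolynomial (Fin 4) B := X 3 ^ 3 - X 0 * X 1 * X 2 + G
  have hG1 : map (algebraMap B K) G = f - f0 K := by
    conv_rhs => rw [(f - f0 K).as_sum]
    rw [map_sum]
    apply sum_congr rfl
    intro m _
    rw [map_monomial]
    congr 1
    exact hb1 m
  have hG2 : map π G = 0 := by
    rw [map_sum]
    apply sum_eq_zero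
    intro m _
    rw [map_monomial, hb2, monomial_zero]
  have hF1 : map (algebraMap B K) F = f := by
    rw [map_add, hG1, map_f0_expr, f0]; ring
  have hF2 : map π F = f0 _ := by
    rw [map_add, hG2, map_f0_expr, f0, add_zero]
  have hFh : F.IsHomogeneous 3 :=
    IsHomogeneous.of_map (IsFractionRing.injective B K) (by rw [hF1]; exact hf)
  rw [← hF1]
  exact semistable_of_valuation π F hFh hF2 hk

end Pool.Agent.Helper223
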