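import Pool.Agent.Helper223_Chow.NormalForm
import Pool.Agent.Helper223_Chow.Special

/-! Chow stability equals GIT stability for cubic forms reducing to `w³ - xyz`. -/

open MvPolynomial Finset

namespace Pool.Agent.Helper223

lemma subR_one {A : Type*} [CommRing A] (F : MvPolynomial (Fin 4) A) :
    subR (Matrix.of fun i j => dl A (i, j)) F = F := by
  have : subR (Matrix.of fun i j => dl A (i, j)) = AlgHom.id A _ := by
    apply algHom_ext
    intro i
    rw [subR, aeval_X, AlgHom.id_apply, Finset.sum_eq_single i]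
    · simp [dl]
    · intro j _ hj
      rw [Matrix.of_apply, dl, if_neg hj.symm, C_0, zero_mul]
    · intro h; exact absurd (mem_univ i) h
  rw [this]; rfl

lemma hom_eval {A B σ : Type*} [CommRing A] [CommRing B] (φ : A →+* B) (x : σ → A)
    (P : MvPolynomial σ A) : φ (eval x P) = eval (fun s => φ (x s)) (map φ P) := by
  induction P using MvPolynomial.induction_on with
  | C a => simp
  | add p q hp hq => rw [map_add, map_add, hp, hq, map_add, map_add]
  | mul_X p i hp => rw [map_mul, map_mul, hp, map_mul, map_mul, eval_X, map_X, eval_X]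

/-- coefficients of `w³ - xyz` -/
def e20 (A : Type*) [CommRing A] : Fin 20 → A :=
  ![0, 0, 0, 0, 0, -1, 0, 0, 0, 0, 0, 0, 0, 0, 0, 0, 0, 0, 0, 1]

lemma fR_P20 (K : Type*) [Field K] : fR K = P20 (e20 K) := by
  simp [fR, P20, e20]
  ring

lemma jd_ne_zero {κ : Type*} [Field κ] (h3 : (3 : κ) ≠ 0) (t : Fin 4 × Fin 4) :
    jd κ t ≠ 0 := by
  unfold jd cf
  split_ifs
  · exact one_ne_zero
  · obtain ⟨a, b⟩ := t
    fin_cases a <;> simp [h3]

section

variable {O : Type*} [CommRing O] [IsDomain O] [ValuationRing O] {K : Type*} [Field K]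
  [Algebra O K] [IsFractionRing O K]

theorem exists_normal [IsAlgClosed K] (h3 : IsUnit (3 : O)) (F : MvPolynomial (Fin 4) O)
    (hF : F.IsHomogeneous 3) (h0 : map (IsLocalRing.residue O) F = fR _) :
    ∃ (g : Matrix (Fin 4) (Fin 4) K) (b c : Fin 3 → O), IsUnit g.det ∧
      (∀ i, b i ∈ IsLocalRing.maximalIdeal O) ∧ (∀ i, c i ∈ IsLocalRing.maximalIdeal O) ∧
      lsubst g (map (algebraMap O K) F) = map (algebraMap O K) (FS 0 b c) := by
  classical
  have hH : HenselianLocalRing O := henselian_of_algClosed O K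
  have hinj := IsFractionRing.injective O K
  have h3' : (3 : IsLocalRing.ResidueField O) ≠ 0 := by
    intro h
    have h4 : IsLocalRing.residue O 3 = 0 := by rw [map_ofNat]; exact h
    rw [IsLocalRing.residue_eq_zero_iff] at h4
    exact h4 h3
  have hdl : ∀ s, IsLocalRing.residue O (dl O s) = dl _ s := by
    intro s; unfold dl; split_ifs <;> simp
  have hres : ∀ P : MvPolynomial (Fin 4 × Fin 4) O, IsLocalRing.residue O (eval (dl O) P) =
      eval (dl _) (map (IsLocalRing.residue O) P) := by
    intro P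
    rw [hom_eval]
    congr 1
    congr 1
    funext s
    exact hdl s
  obtain ⟨x, hx, hx0⟩ := mv_hensel (sysF F) (dl O) (by
    intro t
    rw [hres, map_sysF, h0]
    unfold sysF
    by_cases h1 : t = (1, 1) ∨ t = (2, 2)
    · rw [if_pos h1]
      rcases h1 with rfl | rfl <;> simp [dl]
    · rw [if_neg h1, map_add, map_sub, eval_gco, eval_C, subR_one, sub_self, zero_add]
      split_ifs <;> simp [dl]) (by
    rw [RingHom.map_det]
    have hM : (IsLocalRing.residue O).mapMatrix (Matrix.of fun i j =>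
        eval (dl O) (pderiv i (sysF F j))) = Matrix.diagonal (jd _) := by
      ext i j
      rw [RingHom.mapMatrix_apply, Matrix.map_apply, Matrix.of_apply, hres, ← pderiv_map,
        map_sysF, h0, pd_sysF, Matrix.diagonal_apply]
      split_ifs with h
      · rw [h]
      · rfl
    rw [hM, Matrix.det_diagonal]
    exact prod_ne_zero_iff.mpr fun t _ => jd_ne_zero h3' t)
  set gO : Matrix (Fin 4) (Fin 4) O := Matrix.of fun i j => x (i, j) with hgO
  set G := subR gO F with hG
  -- the equations
  have e11 : x (1, 1) = 1 := by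
    have := hx0 (1, 1)
    rw [sysF, if_pos (Or.inl rfl), map_sub, eval_X, map_one] at this
    exact sub_eq_zero.mp this
  have e22 : x (2, 2) = 1 := by
    have := hx0 (2, 2)
    rw [sysF, if_pos (Or.inr rfl), map_sub, eval_X, map_one] at this
    exact sub_eq_zero.mp this
  have heq' : ∀ t, ¬ (t = (1, 1) ∨ t = (2, 2)) → coeff (mond t) G = coeff (mond t) (fR O) := by
    intro t ht
    have := hx0 t
    rw [sysF, if_neg ht, map_add, map_sub, eval_gco, eval_C] at this
    have hz : eval x (if t = (0, 0) then (X (1, 1) - 1) + (X (2, 2) - 1) else 0 :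
        MvPolynomial (Fin 4 × Fin 4) O) = 0 := by
      split_ifs
      · simp [e11, e22]
      · simp
    rw [hz, add_zero] at this
    exact sub_eq_zero.mp this
  have heq : ∀ t, coeff (mond t) G = coeff (mond t) (fR O) := by
    intro t
    by_cases ht : t = (1, 1) ∨ t = (2, 2)
    · have h00 := heq' (0, 0) (by decide)
      have : mond t = mond (0, 0) := by
        rcases ht with rfl | rfl <;> exact congrArg fs (by decide)
      rw [this]; exact h00
    · exact heq' t ht
  have hresG : map (IsLocalRing.residue O) G = fR _ := by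
    rw [hG, map_subR, h0]
    have : gO.map (IsLocalRing.residue O) = Matrix.of fun i j =>
        dl (IsLocalRing.ResidueField O) (i, j) := by
      ext i j
      rw [Matrix.map_apply, hgO, Matrix.of_apply, hx, hdl]
      rfl
    rw [this, subR_one]
  have hdet : IsUnit (gO.map (algebraMap O K)).det := by
    have h1 : (gO.map (algebraMap O K)).det = algebraMap O K gO.det := by
      rw [RingHom.map_det]; rfl
    rw [h1, isUnit_iff_ne_zero]
    intro hz
    have h2 : gO.det = 0 := hinj (by rw [hz, map_zero])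
    have h4 : IsLocalRing.residue O gO.det = 1 := by
      rw [RingHom.map_det]
      have : (IsLocalRing.residue O).mapMatrix gO = 1 := by
        ext i j
        rw [RingHom.mapMatrix_apply, Matrix.map_apply, hgO, Matrix.of_apply, hx, hdl]
        simp [dl, Matrix.one_apply]
      rw [this, Matrix.det_one]
    rw [h2, map_zero] at h4
    exact zero_ne_one h4
  have hGh : G.IsHomogeneous 3 := subR_homog gO hF
  have hGK : map (algebraMap O K) G = lsubst (gO.map (algebraMap O K))
      (map (algebraMap O K) F) := by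
    rw [hG, map_subR]; rfl
  set q : Fin 20 → O := fun i => coeff (fs (tab i)) G with hq
  have hexp : map (algebraMap O K) G = P20 (fun i => algebraMap O K (q i)) := by
    have := expand (hGh.map (algebraMap O K))
    rw [this]
    congr 1
  have hval : ∀ i, (∃ t, mv t = tab i) → algebraMap O K (q i) = e20 K i := by
    rintro i ⟨t, ht⟩
    have h1 := heq t
    rw [mond, ht] at h1
    rw [hq]
    simp only
    rw [h1, ← coeff_map, map_fR, fR_P20, coeff_P20]
  have hq0 : ∀ i, e20 (IsLocalRing.ResidueField O) i = 0 → q i ∈ IsLocalRing.maximalIdeal O := by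
    intro i hi
    rw [← IsLocalRing.residue_eq_zero_iff, hq]
    simp only
    rw [← coeff_map, hresG, fR_P20, coeff_P20, hi]
  refine ⟨gO.map (algebraMap O K), ![q 3, q 12, q 17], ![q 0, q 10, q 16], hdet, ?_, ?_, ?_⟩
  · intro i
    fin_cases i
    · exact hq0 3 rfl
    · exact hq0 12 rfl
    · exact hq0 17 rfl
  · intro i
    fin_cases i
    · exact hq0 0 rfl
    · exact hq0 10 rfl
    · exact hq0 16 rfl
  · rw [← hGK, hexp, map_FS]
    have v1 := hval 1 ⟨(2, 0), by decide⟩
    have v2 := hval 2 ⟨(1, 0), by decide⟩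
    have v4 := hval 4 ⟨(2, 1), by decide⟩
    have v5 := hval 5 ⟨(0, 0), by decide⟩
    have v6 := hval 6 ⟨(2, 3), by decide⟩
    have v7 := hval 7 ⟨(1, 2), by decide⟩
    have v8 := hval 8 ⟨(1, 3), by decide⟩
    have v9 := hval 9 ⟨(3, 0), by decide⟩
    have v11 := hval 11 ⟨(0, 1), by decide⟩
    have v13 := hval 13 ⟨(0, 2), by decide⟩
    have v14 := hval 14 ⟨(0, 3), by decide⟩
    have v15 := hval 15 ⟨(3, 1), by decide⟩
    have v18 := hval 18 ⟨(3, 2), by decide⟩
    have v19 := hval 19 ⟨(3, 3), by decide⟩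
    simp only [P20, v1, v2, v4, v5, v6, v7, v8, v9, v11, v13, v14, v15, v18, v19]
    simp [e20, FS, Fin.sum_univ_three]
    ring

omit [IsDomain O] [ValuationRing O] in
/-- slice forms with a missing direction are not GIT stable -/
lemma not_stable_slice {b c : Fin 3 → O} {e : Fin 3} (hb : b e = 0) (hc : c e = 0) :
    ¬ GITStable (map (algebraMap O K) (FS 0 b c)) := by
  intro h
  obtain ⟨m, hm, hlt⟩ := h 1 (by simp) (fun i => if i = 3 then 0 else if i = e.castSucc then -2
    else 1) (by fin_cases e <;> simp [Fin.sum_univ_four]) (by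
      intro h
      have := congrFun h e.castSucc
      fin_cases e <;> simp at this)
  rw [lsubst_one, map_FS] at hm
  have hP : FS (fun i => algebraMap O K ((0 : Fin 3 → O) i)) (fun i => algebraMap O K (b i))
      (fun i => algebraMap O K (c i)) = P20 ![algebraMap O K (c 0), 0, 0, algebraMap O K (b 0),
        0, -1, 0, 0, 0, 0, algebraMap O K (c 1), 0, algebraMap O K (b 1), 0, 0, 0,
        algebraMap O K (c 2), algebraMap O K (b 2), 0, 1] := by
    simp [P20, FS, Fin.sum_univ_three]
    ring
  rw [hP] at hm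
  obtain ⟨i, hi, rfl⟩ := mem_support_P20 hm
  simp only [fs_apply, Fin.sum_univ_four] at hlt
  fin_cases e <;> fin_cases i <;> simp [tab] at hi hlt <;> simp_all

lemma git_stable_lsubst {f : MvPolynomial (Fin 4) K} {g : Matrix (Fin 4) (Fin 4) K}
    (hg : IsUnit g.det) (h : GITStable f) : GITStable (lsubst g f) := by
  intro g' hg' a ha ha0
  rw [lsubst_comp]
  exact h (g * g') (by rw [Matrix.det_mul]; exact hg.mul hg') a ha ha0

theorem stable_iff_of_valuation [IsAlgClosed K] (h3 : IsUnit (3 : O))
    (F : MvPolynomial (Fin 4) O) (hF : F.IsHomogeneous 3)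
    (h0 : map (IsLocalRing.residue O) F = fR _) {k : ℕ} (hk : 1 ≤ k) :
    ChowStableAt (map (algebraMap O K) F) k ↔ GITStable (map (algebraMap O K) F) := by
  have hF0 : map (algebraMap O K) F ≠ 0 := by
    intro hz
    have h1 : F = 0 := map_injective _ (IsFractionRing.injective O K) (by rw [hz, map_zero])
    rw [h1, map_zero] at h0
    have h2 := congrArg (aeval (![0, 0, 0, 1] : Fin 4 → IsLocalRing.ResidueField O)) h0
    simp [fR] at h2
  refine ⟨git_stable_of_chow (hF.map _) hF0 hk, fun h => ?_⟩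
  obtain ⟨g, b, c, hg, hb, hc, hgF⟩ := exists_normal (K := K) h3 F hF h0
  have h1 := git_stable_lsubst hg h
  rw [hgF] at h1
  have h2 : ChowStableAt (map (algebraMap O K) (FS 0 b c)) k := by
    refine stable_slice ⟨fun i => Ideal.zero_mem _, hb, hc⟩ (fun e => ?_) hk
    apply wallOK_of_unit (K := K) h3 rfl
    by_contra hcon
    push Not at hcon
    exact not_stable_slice hcon.1 hcon.2 h1
  rw [← hgF] at h2
  exact stable_of_lsubst hg (hF.map _) hF0 h2

end

section ideal

variable {K : Type*} [Field K]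

lemma exists_center (A : Subring K) (P : Ideal A) [P.IsPrime] :
    ∃ B : ValuationSubring K, A ≤ B.toSubring ∧ A.subtype '' P ⊆ B.nonunits ∧
      ∀ a : A, a ∉ P → (a : K)⁻¹ ∈ B := by
  have ⟨V, hV⟩ := (LocalSubring.ofPrime A P).exists_le_valuationSubring
  refine ⟨V, (LocalSubring.le_ofPrime ..).trans hV.1, ?_, ?_⟩
  · rw [← V.image_maximalIdeal]
    refine .trans ?_ (Set.image_mono <| ((IsLocalRing.local_hom_TFAE _).out 0 2).mp hV.2)
    rw [← IsLocalization.AtPrime.map_eq_maximalIdeal P, Ideal.map_map]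
    rintro _ ⟨a, ha, rfl⟩
    exact ⟨_, Ideal.mem_map_of_mem _ ha, rfl⟩
  · intro a ha
    have hu : IsUnit (algebraMap A (LocalSubring.ofPrime A P).toSubring a) :=
      IsLocalization.map_units (M := P.primeCompl) _ ⟨a, ha⟩
    obtain ⟨u, hu⟩ := hu
    have h1 : ((u⁻¹ : (LocalSubring.ofPrime A P).toSubringˣ) :
        (LocalSubring.ofPrime A P).toSubring).1 = (a : K)⁻¹ := by
      have h2 : (u : (LocalSubring.ofPrime A P).toSubring).1 = (a : K) := by rw [hu]; rfl
      rw [← h2]
      apply eq_inv_of_mul_eq_one_left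
      have := u.inv_mul
      exact congrArg Subtype.val this
    rw [← h1]
    exact hV.1 (Subtype.property _)

theorem stable_iff_of_ideal [IsAlgClosed K] (f : MvPolynomial (Fin 4) K)
    (hf : f.IsHomogeneous 3) (A : Subring K) (I : Ideal A) (h3 : ∀ n : ℕ, (3 : A) ^ n ∉ I)
    (h : ∀ m, ∃ a ∈ I, (a : K) = coeff m (f - (X 3 ^ 3 - X 0 * X 1 * X 2))) {k : ℕ}
    (hk : 1 ≤ k) : ChowStableAt f k ↔ GITStable f := by
  classical
  obtain ⟨P, hP, hIP, hPd⟩ := Ideal.exists_le_prime_disjoint I (Submonoid.powers (3 : A))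
    (by
      rw [Set.disjoint_left]
      rintro _ ha ⟨n, rfl⟩
      exact h3 n ha)
  have h3P : (3 : A) ∉ P := fun hm =>
    Set.disjoint_left.mp hPd hm (Submonoid.mem_powers 3)
  obtain ⟨B, hAB, hPB, hinv⟩ := exists_center A P
  have h3c : ((3 : A) : K) = 3 := map_ofNat A.subtype 3
  have h3K : (3 : K) ≠ 0 := by
    intro h0
    apply h3P
    have : (3 : A) = 0 := Subtype.ext (by rw [h3c, h0]; rfl)
    rw [this]; exact P.zero_mem
  have h3B : IsUnit (3 : B) := by
    have h4 := hinv 3 h3P
    rw [isUnit_iff_exists_inv]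
    refine ⟨⟨_, h4⟩, Subtype.ext ?_⟩
    change (3 : K) * (((3 : A) : K))⁻¹ = 1
    rw [h3c]
    exact mul_inv_cancel₀ h3K
  have hc : ∀ m, ∃ b : B, (b : K) = coeff m (f - (X 3 ^ 3 - X 0 * X 1 * X 2)) ∧
      IsLocalRing.residue B b = 0 := by
    intro m
    obtain ⟨a, ha, ham⟩ := h m
    have h1 : (a : K) ∈ (B.nonunits : Set K) := hPB ⟨a, hIP ha, rfl⟩
    have h2 : (a : K) ∈ B := hAB a.2
    refine ⟨⟨a, h2⟩, ham, ?_⟩
    rw [IsLocalRing.residue_eq_zero_iff]
    rw [← B.image_maximalIdeal] at h1
    obtain ⟨b, hb, hb2⟩ := h1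
    have : b = ⟨a, h2⟩ := Subtype.ext hb2
    rw [← this]; exact hb
  choose b hb1 hb2 using hc
  let G : MvPolynomial (Fin 4) B := ∑ m ∈ (f - (X 3 ^ 3 - X 0 * X 1 * X 2)).support,
    monomial m (b m)
  let F : MvPolynomial (Fin 4) B := X 3 ^ 3 - X 0 * X 1 * X 2 + G
  have hG1 : map (algebraMap B K) G = f - (X 3 ^ 3 - X 0 * X 1 * X 2) := by
    conv_rhs => rw [MvPolynomial.as_sum (f - (X 3 ^ 3 - X 0 * X 1 * X 2))]
    rw [map_sum]
    apply sum_congr rfl
    intro m _
    rw [map_monomial]
    congr 1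
    exact hb1 m
  have hG2 : map (IsLocalRing.residue B) G = 0 := by
    rw [map_sum]
    apply sum_eq_zero
    intro m _
    rw [map_monomial, hb2, monomial_zero]
  have hF1 : map (algebraMap B K) F = f := by
    rw [map_add, hG1, map_f0_expr]; ring
  have hF2 : map (IsLocalRing.residue B) F = fR _ := by
    rw [map_add, hG2, map_f0_expr, fR, add_zero]
  have hFh : F.IsHomogeneous 3 :=
    IsHomogeneous.of_map (IsFractionRing.injective B K) (by rw [hF1]; exact hf)
  have := stable_iff_of_valuation (K := K) h3B F hFh hF2 hk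
  rwa [hF1] at this

end ideal

end Pool.Agent.Helper223
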