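import Pool.Agent.Helper223_Chow.Near
import Pool.Agent.Helper223_Chow.Hensel
import Pool.Agent.Helper223_Chow.Expand
import Pool.Agent.Helper223_Chow.ChowGIT

/-! Normal form of cubic forms near `w³ - xyz` over a valuation ring. -/

open MvPolynomial Finset

namespace Pool.Agent.Helper223

/-- linear substitution over a commutative ring -/
noncomputable def subR {A : Type*} [CommRing A] (g : Matrix (Fin 4) (Fin 4) A) :
    MvPolynomial (Fin 4) A →ₐ[A] MvPolynomial (Fin 4) A :=
  aeval fun i => ∑ j, C (g i j) * X j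

lemma subR_eq_lsubst {K : Type*} [Field K] (g : Matrix (Fin 4) (Fin 4) K)
    (F : MvPolynomial (Fin 4) K) : subR g F = lsubst g F := rfl

lemma map_subR {A B : Type*} [CommRing A] [CommRing B] (φ : A →+* B)
    (g : Matrix (Fin 4) (Fin 4) A) (F : MvPolynomial (Fin 4) A) :
    map φ (subR g F) = subR (g.map φ) (map φ F) := by
  unfold subR
  induction F using MvPolynomial.induction_on with
  | C a => simp [← algebraMap_eq]
  | add p q hp hq => rw [map_add, map_add, hp, hq, map_add, map_add]
  | mul_X p i hp =>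
    rw [map_mul, map_mul, hp, map_mul, map_mul, map_X, aeval_X, aeval_X, map_sum]
    congr 1
    apply sum_congr rfl
    intro j _
    simp

lemma subR_homog {A : Type*} [CommRing A] (g : Matrix (Fin 4) (Fin 4) A)
    {F : MvPolynomial (Fin 4) A} {n : ℕ} (hF : F.IsHomogeneous n) :
    (subR g F).IsHomogeneous n := by
  have := hF.aeval (fun i => ∑ j, C (g i j) * X j) (n := 1) (fun i =>
    IsHomogeneous.sum _ _ _ (fun j _ => isHomogeneous_C_mul_X _ _))
  simpa [subR] using this

/-- the generic matrix -/
noncomputable def gen (A : Type*) [CommRing A] :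
    Matrix (Fin 4) (Fin 4) (MvPolynomial (Fin 4 × Fin 4) A) := Matrix.of fun i j => X (i, j)

/-- the coefficient of `m` in the generic linear substitution of `F` -/
noncomputable def gco {A : Type*} [CommRing A] (F : MvPolynomial (Fin 4) A)
    (m : Fin 4 →₀ ℕ) : MvPolynomial (Fin 4 × Fin 4) A :=
  coeff m (subR (gen A) (map C F))

lemma hom_gco {A B : Type*} [CommRing A] [CommRing B] (φ : A →+* B)
    (ψ : MvPolynomial (Fin 4 × Fin 4) A →+* B) (h : ψ.comp C = φ)
    (F : MvPolynomial (Fin 4) A) (m : Fin 4 →₀ ℕ) :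
    ψ (gco F m) = coeff m (subR (Matrix.of fun i j => ψ (X (i, j))) (map φ F)) := by
  rw [gco, ← coeff_map, map_subR, MvPolynomial.map_map, h]
  rfl

lemma eval_gco {A : Type*} [CommRing A] (x : Fin 4 × Fin 4 → A)
    (F : MvPolynomial (Fin 4) A) (m : Fin 4 →₀ ℕ) :
    eval x (gco F m) = coeff m (subR (Matrix.of fun i j => x (i, j)) F) := by
  rw [hom_gco (RingHom.id A) (eval x) (by ext; simp), map_id]
  simp

lemma map_gco {A B : Type*} [CommRing A] [CommRing B] (φ : A →+* B)
    (F : MvPolynomial (Fin 4) A) (m : Fin 4 →₀ ℕ) :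
    map φ (gco F m) = gco (map φ F) m := by
  rw [hom_gco ((C : B →+* _).comp φ) (map φ)
    (RingHom.ext fun x => by rw [RingHom.comp_apply, RingHom.comp_apply, map_C]), gco,
    MvPolynomial.map_map]
  have hm : (Matrix.of fun i j => map φ (X (i, j) : MvPolynomial (Fin 4 × Fin 4) A)) =
      gen B := Matrix.ext fun i j => by rw [Matrix.of_apply, map_X]; rfl
  rw [hm]

/-- the dual number evaluation at `x` in the direction `e` -/
noncomputable def dualEval {A : Type*} [CommRing A] {σ : Type*} [DecidableEq σ] (x : σ → A)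
    (e : σ) : MvPolynomial σ A →ₐ[A] DualNumber A :=
  aeval fun s => algebraMap A (DualNumber A) (x s) + if s = e then DualNumber.eps else 0

lemma dualEval_fst {A : Type*} [CommRing A] {σ : Type*} [DecidableEq σ] (x : σ → A)
    (e : σ) (P : MvPolynomial σ A) : TrivSqZeroExt.fst (dualEval x e P) = eval x P := by
  unfold dualEval
  induction P using MvPolynomial.induction_on with
  | C a =>
    rw [aeval_C, eval_C, TrivSqZeroExt.algebraMap_eq_inl, TrivSqZeroExt.fst_inl]
  | add p q hp hq => rw [map_add, TrivSqZeroExt.fst_add, hp, hq, map_add]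
  | mul_X p i hp =>
    rw [map_mul, TrivSqZeroExt.fst_mul, hp, map_mul, aeval_X, eval_X,
      TrivSqZeroExt.algebraMap_eq_inl]
    congr 1
    split_ifs <;> simp

lemma dualEval_snd {A : Type*} [CommRing A] {σ : Type*} [DecidableEq σ] (x : σ → A)
    (e : σ) (P : MvPolynomial σ A) :
    TrivSqZeroExt.snd (dualEval x e P) = eval x (pderiv e P) := by
  induction P using MvPolynomial.induction_on with
  | C a =>
    rw [dualEval, aeval_C, pderiv_C, map_zero, TrivSqZeroExt.algebraMap_eq_inl,
      TrivSqZeroExt.snd_inl]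
  | add p q hp hq => rw [map_add, TrivSqZeroExt.snd_add, hp, hq, map_add, map_add]
  | mul_X p i hp =>
    rw [map_mul, TrivSqZeroExt.snd_mul, hp, dualEval_fst, dualEval_fst, pderiv_mul, map_add,
      map_mul, map_mul, eval_X]
    have h1 : TrivSqZeroExt.snd (dualEval x e (X i)) = eval x (pderiv e (X i)) := by
      unfold dualEval
      rw [aeval_X, pderiv_X, TrivSqZeroExt.algebraMap_eq_inl]
      by_cases h : i = e
      · subst h; simp
      · simp [h, Pi.single_apply]
    rw [h1]
    simp [mul_comm, add_comm]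

/-- base exponents of the partial derivatives of `w³ - xyz` -/
def bs : Fin 4 → Fin 4 → ℕ := ![![0, 1, 1, 0], ![1, 0, 1, 0], ![1, 1, 0, 0], ![0, 0, 0, 2]]

/-- exponent vector of the monomial of `∂ᵢ f₀ · x_j` -/
def mv (s : Fin 4 × Fin 4) : Fin 4 → ℕ := fun t => bs s.1 t + if t = s.2 then 1 else 0

/-- exponent of the monomial of `∂ᵢ f₀ · x_j` -/
noncomputable def mond (s : Fin 4 × Fin 4) : Fin 4 →₀ ℕ := fs (mv s)

/-- coefficients of the partial derivatives of `w³ - xyz` -/
def cf (A : Type*) [CommRing A] : Fin 4 → A := ![-1, -1, -1, 3]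

lemma eps_sq (A : Type*) [CommRing A] :
    (C DualNumber.eps * C DualNumber.eps : MvPolynomial (Fin 4) (DualNumber A)) = 0 := by
  rw [← C_mul, DualNumber.eps_mul_eps, C_0]

lemma monomial_mond {A : Type*} [CommRing A] (s : Fin 4 × Fin 4) (x : A) :
    monomial (mond s) x = C x * ((X 0 ^ bs s.1 0 * X 1 ^ bs s.1 1 * X 2 ^ bs s.1 2 *
      X 3 ^ bs s.1 3) * X s.2) := by
  obtain ⟨i, j⟩ := s
  rw [monomial_eq, Finsupp.prod_fintype _ _ (by simp), Fin.prod_univ_four]
  simp only [mond, fs_apply, mv]
  fin_cases j <;> simp [pow_add] <;> ring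

/-- the diagonal point of the parameter space -/
def dl (A : Type*) [CommRing A] (t : Fin 4 × Fin 4) : A := if t.1 = t.2 then 1 else 0

lemma subR_dual {A : Type*} [CommRing A] (s : Fin 4 × Fin 4) :
    subR (Matrix.of fun i j => dualEval (dl A) s (X (i, j))) (X 3 ^ 3 - X 0 * X 1 * X 2) =
      X 3 ^ 3 - X 0 * X 1 * X 2 + C DualNumber.eps *
        monomial (mond s) (algebraMap A (DualNumber A) (cf A s.1)) := by
  obtain ⟨i0, j0⟩ := s
  have h : ∀ i : Fin 4, (∑ j : Fin 4, C ((Matrix.of fun i j => dualEval (dl A) (i0, j0) (X (i, j))) i j) *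
      X j : MvPolynomial (Fin 4) (DualNumber A)) =
      X i + if i = i0 then C DualNumber.eps * X j0 else 0 := by
    intro i
    have h1 : ∀ j : Fin 4, (C ((Matrix.of fun i j => dualEval (dl A) (i0, j0) (X (i, j))) i j) *
      X j : MvPolynomial (Fin 4) (DualNumber A)) = (if i = j then X j else 0) +
        (if j = j0 then (if i = i0 then C DualNumber.eps * X j else 0) else 0) := by
      intro j
      simp only [Matrix.of_apply, dualEval, dl, aeval_X, Prod.mk.injEq]
      rcases (Decidable.em (i = j)).imp eq_true eq_false with h1 | h1 <;> rcases (Decidable.em (j = j0)).imp eq_true eq_false with h2 | h2 <;>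
        rcases (Decidable.em (i = i0)).imp eq_true eq_false with h3 | h3 <;>
        simp only [h1, h2, h3, if_true, if_false, and_true, and_false, and_self, map_one,
          map_zero, C_1, C_0, zero_mul, one_mul, add_zero, zero_add, C_add, add_mul]
    rw [sum_congr rfl fun j _ => h1 j, sum_add_distrib, sum_ite_eq, sum_ite_eq']
    simp
  have he := eps_sq A
  rw [monomial_mond]
  simp only [subR, map_sub, map_mul, map_pow, aeval_X, h]
  set ε : MvPolynomial (Fin 4) (DualNumber A) := C DualNumber.eps with hε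
  have hc3 : (C (algebraMap A (DualNumber A) 3) : MvPolynomial (Fin 4) (DualNumber A)) = 3 := by
    rw [map_ofNat, map_ofNat]
  have hcm : (C (algebraMap A (DualNumber A) (-1)) : MvPolynomial (Fin 4) (DualNumber A)) =
      -1 := by
    rw [map_neg, map_one, map_neg, map_one]
  fin_cases i0
  · simp [bs, cf]
    ring
  · simp [bs, cf]
    ring
  · simp [bs, cf]
    ring
  · simp [bs, cf]
    rw [hc3]
    linear_combination (3 * X 3 * X j0 ^ 2 + ε * X j0 ^ 3) * he

/-- the reference form over a ring -/
noncomputable def fR (A : Type*) [CommRing A] : MvPolynomial (Fin 4) A :=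
  X 3 ^ 3 - X 0 * X 1 * X 2

lemma map_fR {A B : Type*} [CommRing A] [CommRing B] (φ : A →+* B) : map φ (fR A) = fR B := by
  simp [fR]

lemma pd_gco {A : Type*} [CommRing A] (s t : Fin 4 × Fin 4) :
    eval (dl A) (pderiv s (gco (fR A) (mond t))) = if mond s = mond t then cf A s.1 else 0 := by
  classical
  rw [← dualEval_snd]
  have h := hom_gco (algebraMap A (DualNumber A)) (dualEval (dl A) s).toRingHom
    (by
      ext x : 1
      change dualEval (dl A) s (C x) = _
      rw [← algebraMap_eq, AlgHom.commutes]) (fR A) (mond t)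
  change dualEval (dl A) s (gco (fR A) (mond t)) = _ at h
  rw [h]
  have h2 := subR_dual (A := A) s
  have h5 : (Matrix.of fun i j => (dualEval (dl A) s).toRingHom (X (i, j))) =
    Matrix.of fun i j => dualEval (dl A) s (X (i, j)) := rfl
  rw [h5, map_fR, fR, h2, coeff_add, coeff_C_mul, coeff_monomial]
  have h3 : coeff (mond t) (X 3 ^ 3 - X 0 * X 1 * X 2 : MvPolynomial (Fin 4) (DualNumber A)) =
      algebraMap A (DualNumber A) (coeff (mond t) (fR A)) := by
    rw [← coeff_map, map_fR, fR]
  rw [h3, TrivSqZeroExt.algebraMap_eq_inl, TrivSqZeroExt.snd_add, TrivSqZeroExt.snd_inl,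
    zero_add]
  split_ifs with h4
  · rw [TrivSqZeroExt.snd_mul, TrivSqZeroExt.snd_inl, DualNumber.snd_eps]
    simp
  · simp

/-- the polynomial system for the normal form -/
noncomputable def sysF {A : Type*} [CommRing A] (F : MvPolynomial (Fin 4) A)
    (t : Fin 4 × Fin 4) : MvPolynomial (Fin 4 × Fin 4) A :=
  if t = (1, 1) ∨ t = (2, 2) then X t - 1
  else gco F (mond t) - C (coeff (mond t) (fR A)) +
    if t = (0, 0) then (X (1, 1) - 1) + (X (2, 2) - 1) else 0

lemma map_sysF {A B : Type*} [CommRing A] [CommRing B] (φ : A →+* B)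
    (F : MvPolynomial (Fin 4) A) (t : Fin 4 × Fin 4) :
    map φ (sysF F t) = sysF (map φ F) t := by
  unfold sysF
  split_ifs
  · rw [map_sub, map_X, map_one]
  · rw [map_add, map_sub, map_gco, map_C, ← coeff_map, map_fR, map_add, map_sub, map_sub,
      map_X, map_X, map_one]
  · rw [map_add, map_sub, map_gco, map_C, ← coeff_map, map_fR, map_zero]

lemma mv_inj : ∀ i j : Fin 4 × Fin 4, mv i = mv j → i = j ∨
    (i.1 = i.2 ∧ i.1 ≠ 3 ∧ j.1 = j.2 ∧ j.1 ≠ 3) := by decide

lemma mond_inj {i j : Fin 4 × Fin 4} (h : mond i = mond j) : i = j ∨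
    (i.1 = i.2 ∧ i.1 ≠ 3 ∧ j.1 = j.2 ∧ j.1 ≠ 3) := mv_inj i j (fs_injective h)

lemma diag_cases {i : Fin 4 × Fin 4} (h : i.1 = i.2) (h3 : i.1 ≠ 3) :
    i = (0, 0) ∨ i = (1, 1) ∨ i = (2, 2) := by
  obtain ⟨a, b⟩ := i
  simp only at h h3
  subst h
  fin_cases a <;> simp at h3 ⊢

/-- the diagonal of the Jacobian matrix -/
def jd (A : Type*) [CommRing A] (t : Fin 4 × Fin 4) : A :=
  if t = (1, 1) ∨ t = (2, 2) then 1 else cf A t.1

lemma pd_sysF {A : Type*} [CommRing A] (s t : Fin 4 × Fin 4) :
    eval (dl A) (pderiv s (sysF (fR A) t)) = if s = t then jd A t else 0 := by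
  classical
  unfold sysF jd
  by_cases h1 : t = (1, 1) ∨ t = (2, 2)
  · rw [if_pos h1, if_pos h1, map_sub, pderiv_X, map_sub, pderiv_one, map_zero, sub_zero]
    by_cases h : s = t
    · subst h; simp
    · rw [if_neg h, Pi.single_eq_of_ne (fun h' => h h'.symm), map_zero]
  · rw [if_neg h1, if_neg h1, map_add, map_sub, pderiv_C, sub_zero, map_add, pd_gco]
    by_cases h0 : t = (0, 0)
    · rw [if_pos h0, map_add, map_sub, map_sub, pderiv_one, sub_zero, sub_zero, pderiv_X,
        pderiv_X, map_add]
      subst h0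
      by_cases ha : s = (0, 0)
      · subst ha
        simp
      · rw [if_neg ha]
        by_cases hb : s = (1, 1)
        · subst hb
          have : mond (1, 1) = mond (0, 0) := congrArg fs (by decide)
          rw [if_pos this]
          simp [cf]
        · by_cases hc : s = (2, 2)
          · subst hc
            have : mond (2, 2) = mond (0, 0) := congrArg fs (by decide)
            rw [if_pos this]
            simp [cf]
          · have : mond s ≠ mond (0, 0) := by
              intro h
              rcases mond_inj h with h | ⟨h2, h3, _, _⟩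
              · exact ha h
              · rcases diag_cases h2 h3 with h | h | h
                · exact ha h
                · exact hb h
                · exact hc h
            rw [if_neg this, Pi.single_eq_of_ne (fun h' => hb h'.symm),
              Pi.single_eq_of_ne (fun h' => hc h'.symm)]
            simp
    · rw [if_neg h0, map_zero, map_zero, add_zero]
      by_cases h : s = t
      · subst h; simp
      · rw [if_neg h, if_neg]
        intro h'
        rcases mond_inj h' with h'' | ⟨_, _, h2, h3⟩
        · exact h h''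
        · rcases diag_cases h2 h3 with h | h | h
          · exact h0 h
          · exact h1 (Or.inl h)
          · exact h1 (Or.inr h)

end Pool.Agent.Helper223
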