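import Pool.Agent.Helper223_Chow.Model

/-! Filtrations of weight zero on slice surfaces over a valuation ring. -/

open MvPolynomial Finset Filter

namespace Pool.Agent.Helper223

/-- from approximate basis vectors to graph form -/
lemma graph_form {O : Type*} [CommRing O] [IsLocalRing O] {K : Type*} [Field K] [Algebra O K]
    {M : Type*} [AddCommGroup M] [Module K M] {ι : Type*} [DecidableEq ι] (V : Submodule K M)
    (y : ι → M) (L E : Finset ι) (hE : E ⊆ L)
    (h : ∀ u ∈ E, ∃ c : ι → O, (∑ a ∈ L, algebraMap O K (c a) • y a ∈ V) ∧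
      ∀ a ∈ L, IsLocalRing.residue O (c a) = if a = u then 1 else 0) :
    ∀ u ∈ E, ∃ c : ι → O, (∑ a ∈ L, algebraMap O K (c a) • y a ∈ V) ∧
      (∀ a ∈ E, c a = if a = u then 1 else 0) ∧
      ∀ a ∈ L, a ∉ E → IsLocalRing.residue O (c a) = 0 := by
  classical
  choose! c0 h1 h2 using h
  let M0 : Matrix E E O := fun u a => c0 u a
  have hM : M0.map (IsLocalRing.residue O) = 1 := by
    ext u a
    rw [Matrix.map_apply, Matrix.one_apply]
    rw [show M0 u a = c0 u a from rfl, h2 u u.2 a (hE a.2)]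
    by_cases hua : u = a
    · rw [if_pos hua, if_pos (by rw [hua])]
    · rw [if_neg hua, if_neg (fun h => hua (Subtype.ext h.symm))]
  have hdet : IsUnit M0.det := by
    have h3 : IsLocalRing.residue O M0.det = 1 := by
      rw [RingHom.map_det, RingHom.mapMatrix_apply, hM, Matrix.det_one]
    by_contra hcon
    have h4 : M0.det ∈ IsLocalRing.maximalIdeal O := hcon
    rw [← IsLocalRing.residue_eq_zero_iff, h3] at h4
    exact one_ne_zero h4
  intro u hu
  refine ⟨fun a => ∑ v : E, M0⁻¹ ⟨u, hu⟩ v * c0 v a, ?_, ?_, ?_⟩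
  · have e : ∑ a ∈ L, algebraMap O K (∑ v : E, M0⁻¹ ⟨u, hu⟩ v * c0 v a) • y a =
        ∑ v : E, algebraMap O K (M0⁻¹ ⟨u, hu⟩ v) • ∑ a ∈ L, algebraMap O K (c0 v a) • y a := by
      simp only [map_sum, map_mul, sum_smul, smul_sum, mul_smul]
      rw [sum_comm]
    rw [e]
    apply Submodule.sum_mem
    intro v _
    exact Submodule.smul_mem _ _ (h1 v v.2)
  · intro a ha
    have h3 := Matrix.nonsing_inv_mul M0 hdet
    have h4 := congrFun (congrFun h3 ⟨u, hu⟩) ⟨a, ha⟩
    rw [Matrix.mul_apply, Matrix.one_apply] at h4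
    refine Eq.trans h4 ?_
    by_cases hua : a = u
    · subst hua; simp
    · rw [if_neg hua, if_neg (fun h => hua (congrArg Subtype.val h).symm)]
  · intro a ha haE
    rw [map_sum]
    apply sum_eq_zero
    intro v _
    rw [map_mul, h2 v v.2 a ha, if_neg, mul_zero]
    rintro rfl
    exact haE v.2

section

variable {κ : Type*} [Field κ]

lemma claimB' {f' : MvPolynomial (Fin 4) κ} (hf' : f' = f0 κ) {k N : ℕ}
    (s : Module.Basis (Fin N) κ (sec f' k)) (r : Fin N → ℕ)
    (hk : 1 ≤ k) (hb : Bad f' k (fun i => (s i : CRing f')) r)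
    (hr : ∃ i j, r i ≠ r j) :
    ∃ (G : Fin 3 → ℕ) (η : (Fin 3 → ℕ) → ℕ),
      (∀ a ∈ Lk k, 3 * k * η a = ∑ m, a m * G m) ∧
      (∑ a ∈ Lk k, η a = ∑ i, r i) ∧
      (∀ l, (univ.filter fun i => l ≤ r i).card = ((Lk k).filter fun a => l ≤ η a).card) ∧
      ∀ l, chowFil f' (fun i => (s i : CRing f')) r 1 l =
        Submodule.span κ (bm f' '' {a | a ∈ Lk k ∧ l ≤ η a}) := by
  subst hf'
  exact claimB s r hk hb hr

/-- linear independence of the standard monomials on the toric surface -/
lemma coeff_unique {f' : MvPolynomial (Fin 4) κ} (hf' : f' = f0 κ) {k : ℕ}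
    {c d : (Fin 3 → ℕ) → κ} (h : ∑ x ∈ Lk k, c x • bm f' x = ∑ x ∈ Lk k, d x • bm f' x) :
    ∀ x ∈ Lk k, c x = d x := by
  subst hf'
  have h1 := (tT κ 0 1 (by decide)).linearIndependent_bm k
  rw [Fintype.linearIndependent_iff] at h1
  intro x hx
  have h2 := h1 (fun x => c x - d x) (by
    have := Finset.sum_coe_sort (Lk k) (fun x => (c x - d x) • bm (f0 κ) x)
    rw [this]
    simp only [sub_smul, sum_sub_distrib, h, sub_self]) ⟨x, hx⟩
  exact sub_eq_zero.mp h2

lemma coeff_of_mem_span {f' : MvPolynomial (Fin 4) κ} (hf' : f' = f0 κ) {k : ℕ}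
    {c : (Fin 3 → ℕ) → κ} {P : (Fin 3 → ℕ) → Prop}
    (h : ∑ x ∈ Lk k, c x • bm f' x ∈ Submodule.span κ (bm f' '' {a | a ∈ Lk k ∧ P a})) :
    ∀ x ∈ Lk k, c x ≠ 0 → P x := by
  classical
  have h1 : ∀ y ∈ Submodule.span κ (bm f' '' {a | a ∈ Lk k ∧ P a}),
      ∃ d : (Fin 3 → ℕ) → κ, y = ∑ x ∈ Lk k, d x • bm f' x ∧ ∀ x, d x ≠ 0 → P x := by
    intro y hy
    induction hy using Submodule.span_induction with
    | mem y hy =>
      obtain ⟨a, ⟨ha, hPa⟩, rfl⟩ := hy
      refine ⟨fun x => if x = a then 1 else 0, ?_, ?_⟩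
      · rw [Finset.sum_eq_single a]
        · simp
        · intro b _ hba; simp [hba]
        · intro h; exact absurd ha h
      · intro x hx
        by_cases hxa : x = a
        · rw [hxa]; exact hPa
        · simp [hxa] at hx
    | zero => exact ⟨0, by simp, by simp⟩
    | add x y _ _ hx hy =>
      obtain ⟨d, rfl, hd⟩ := hx
      obtain ⟨d', rfl, hd'⟩ := hy
      refine ⟨d + d', by simp [add_smul, sum_add_distrib], ?_⟩
      intro x hx
      by_cases h0 : d x = 0
      · apply hd'; intro h1; apply hx; simp [h0, h1]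
      · exact hd x h0
    | smul r x _ hx =>
      obtain ⟨d, rfl, hd⟩ := hx
      refine ⟨fun x => r * d x, by simp [smul_sum, mul_smul], ?_⟩
      intro x hx
      exact hd x (right_ne_zero_of_mul hx)
  obtain ⟨d, hd1, hd2⟩ := h1 _ h
  intro x hx hcx
  apply hd2
  rw [← coeff_unique hf' hd1 x hx]
  exact hcx

end

section main

variable {O : Type*} [CommRing O] [IsDomain O] [ValuationRing O] {K : Type*} [Field K]
  [Algebra O K] [IsFractionRing O K]

/-- the condition that all slice coefficients lie in the maximal ideal -/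
def InMax (a b c : Fin 3 → O) : Prop :=
  (∀ i, a i ∈ IsLocalRing.maximalIdeal O) ∧ (∀ i, b i ∈ IsLocalRing.maximalIdeal O) ∧
    ∀ i, c i ∈ IsLocalRing.maximalIdeal O

lemma res_zero {x : O} (h : x ∈ IsLocalRing.maximalIdeal O) : IsLocalRing.residue O x = 0 :=
  (IsLocalRing.residue_eq_zero_iff x).mpr h

lemma map_res_FS {a b c : Fin 3 → O} (h : InMax a b c) :
    map (IsLocalRing.residue O) (FS a b c) = f0 (IsLocalRing.ResidueField O) := by
  rw [map_FS, ← FS_zero]
  congr 1
  · funext i; exact res_zero (h.1 i)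
  · funext i; exact res_zero (h.2.1 i)
  · funext i; exact res_zero (h.2.2 i)

omit [IsDomain O] [ValuationRing O] [IsFractionRing O K] in
lemma map_alg_FS_ne (a b c : Fin 3 → O) : map (algebraMap O K) (FS a b c) ≠ 0 := by
  rw [map_FS]; exact FS_ne_zero _ _ _

/-- data of a filtration of weight zero in graph form -/
theorem base_data {a b c : Fin 3 → O} (hmax : InMax a b c) {k N : ℕ} (hk : 1 ≤ k)
    (s : Module.Basis (Fin N) K (sec (map (algebraMap O K) (FS a b c)) k)) (r : Fin N → ℕ)
    (hb : Bad _ k (fun i => (s i : CRing (map (algebraMap O K) (FS a b c)))) r)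
    (hr : ∃ i j, r i ≠ r j) :
    ∃ (G : Fin 3 → ℕ) (η : (Fin 3 → ℕ) → ℕ),
      (∀ x ∈ Lk k, 3 * k * η x = ∑ m, x m * G m) ∧
      (∑ x ∈ Lk k, η x = ∑ i, r i) ∧
      (∀ l, (univ.filter fun i => l ≤ r i).card = ((Lk k).filter fun x => l ≤ η x).card) ∧
      ∀ l, ∀ u ∈ (Lk k).filter (fun x => l ≤ η x), ∃ w : (Fin 3 → ℕ) → O,
        (∑ x ∈ Lk k, algebraMap O K (w x) • bm _ x ∈
          chowFil _ (fun i => (s i : CRing (map (algebraMap O K) (FS a b c)))) r 1 l) ∧
        (∀ x ∈ (Lk k).filter (fun x => l ≤ η x), w x = if x = u then 1 else 0) ∧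
        ∀ x ∈ Lk k, x ∉ (Lk k).filter (fun x => l ≤ η x) →
          IsLocalRing.residue O (w x) = 0 := by
  classical
  have hres := map_res_FS hmax
  have hf : (map (algebraMap O K) (FS a b c)).IsHomogeneous 3 := (FS_homog _ _ _).map _
  have hf0 := map_alg_FS_ne (K := K) a b c
  have hf' : (map (IsLocalRing.residue O) (FS a b c)).IsHomogeneous 3 := (FS_homog _ _ _).map _
  have hf0' : map (IsLocalRing.residue O) (FS a b c) ≠ 0 := by rw [hres]; exact f0_ne_zero
  obtain ⟨s', r', e1, e2, e3, e4, e5⟩ :=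
    ((valSDegen (K := K) (IsLocalRing.residue O) (FS a b c)).toDegen hf hf0 hf' hf0').exists_bad
      hf hf0 hf' hf0' s r hb hr
  obtain ⟨G, η, g1, g2, g3, g4⟩ := claimB' hres s' r' hk e4 e5
  refine ⟨G, η, g1, g2.trans e1, fun l => (e2 l).symm.trans (g3 l), ?_⟩
  intro l
  apply graph_form
  · exact filter_subset _ _
  · intro u hu
    rw [mem_filter] at hu
    have h1 : bm (map (IsLocalRing.residue O) (FS a b c)) u ∈
        (redV O (IsLocalRing.residue O) (pre _ k (chowFil _ (fun i => (s i : CRing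
          (map (algebraMap O K) (FS a b c)))) r 1 l))).map
          (qm (map (IsLocalRing.residue O) (FS a b c))).toLinearMap := by
      have h2 := e3 l
      rw [g4 l] at h2
      have h3 : bm (map (IsLocalRing.residue O) (FS a b c)) u ∈
          Submodule.span (IsLocalRing.ResidueField O)
          (bm (map (IsLocalRing.residue O) (FS a b c)) '' {a | a ∈ Lk k ∧ l ≤ η a}) :=
        Submodule.subset_span ⟨u, hu, rfl⟩
      rw [h2] at h3
      exact h3
    obtain ⟨X, hX, hXu⟩ := h1
    obtain ⟨H, hH1, rfl⟩ := exists_lift_redV (IsLocalRing.residue O)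
      IsLocalRing.residue_surjective _ hX
    have hHh : H.IsHomogeneous k := IsHomogeneous.of_map (IsFractionRing.injective O K) hH1.1
    obtain ⟨h, H', rfl⟩ := exists_standard hmax.1 hmax.2.1 hmax.2.2 hHh
    refine ⟨h, ?_, ?_⟩
    · have h4 : qm (map (algebraMap O K) (FS a b c)) (map (algebraMap O K)
          (∑ x ∈ Lk k, C (h x) * monomial (mo x) 1 + FS a b c * H')) ∈
          chowFil _ (fun i => (s i : CRing (map (algebraMap O K) (FS a b c)))) r 1 l := hH1.2
      have h5 : map (algebraMap O K) (∑ x ∈ Lk k, C (h x) * monomial (mo x) 1) =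
          stdF k (fun x => algebraMap O K (h x)) := map_stdF _ _ _
      rw [map_add, h5, map_add, qm_stdF, map_mul] at h4
      have h6 : qm (map (algebraMap O K) (FS a b c)) (map (algebraMap O K) (FS a b c) *
          map (algebraMap O K) H') = 0 := qm_eq_zero_iff.mpr ⟨_, rfl⟩
      rwa [h6, add_zero] at h4
    · have h5 : map (IsLocalRing.residue O) (∑ x ∈ Lk k, C (h x) * monomial (mo x) 1) =
          stdF k (fun x => IsLocalRing.residue O (h x)) := map_stdF _ _ _
      have h6 : qm (map (IsLocalRing.residue O) (FS a b c))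
          (map (IsLocalRing.residue O) (FS a b c) * map (IsLocalRing.residue O) H') = 0 :=
        qm_eq_zero_iff.mpr ⟨_, rfl⟩
      have h7 : (qm (map (IsLocalRing.residue O) (FS a b c))).toLinearMap
          (map (IsLocalRing.residue O) (∑ x ∈ Lk k, C (h x) * monomial (mo x) 1 +
            FS a b c * H')) = ∑ x ∈ Lk k, IsLocalRing.residue O (h x) • bm _ x := by
        rw [AlgHom.toLinearMap_apply, map_add, h5, map_add, qm_stdF, map_mul, h6, add_zero]
      rw [h7] at hXu
      have h8 : ∑ x ∈ Lk k, (if x = u then (1 : IsLocalRing.ResidueField O) else 0) •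
          bm (map (IsLocalRing.residue O) (FS a b c)) x = bm _ u := by
        rw [Finset.sum_eq_single u]
        · simp
        · intro b _ hb; simp [hb]
        · intro h; exact absurd hu.1 h
      exact coeff_unique hres (hXu.trans h8.symm)

end main

end Pool.Agent.Helper223
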