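import Pool.Agent.Helper223_Chow.Path

/-! The leading sets do not change along the path to a wall. -/

open MvPolynomial Finset Filter

namespace Pool.Agent.Helper223

variable {O : Type*} [CommRing O] [IsDomain O] [ValuationRing O] {K : Type*} [Field K]
  [Algebra O K] [IsFractionRing O K]

lemma exists_of_val_le {x y : K} (hy : y ≠ 0)
    (h : ValuationRing.valuation O K x ≤ ValuationRing.valuation O K y) :
    ∃ q : O, x = algebraMap O K q * y := by
  have h1 : ValuationRing.valuation O K (x * y⁻¹) ≤ 1 := by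
    rw [map_mul, map_inv₀]
    have h3 : ValuationRing.valuation O K y ≠ 0 := (Valuation.ne_zero_iff _).mpr hy
    calc _ ≤ ValuationRing.valuation O K y * (ValuationRing.valuation O K y)⁻¹ := by gcongr
      _ = 1 := mul_inv_cancel₀ h3
  obtain ⟨q, hq⟩ := (ValuationRing.mem_integer_iff O K _).mp h1
  exact ⟨q, by rw [hq]; field_simp⟩

lemma val_le_one (x : O) : ValuationRing.valuation O K (algebraMap O K x) ≤ 1 :=
  (ValuationRing.mem_integer_iff O K _).mpr ⟨x, rfl⟩

lemma mem_max_of_val_lt {x : O} (h : ValuationRing.valuation O K (algebraMap O K x) < 1) :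
    x ∈ IsLocalRing.maximalIdeal O := by
  rw [IsLocalRing.mem_maximalIdeal, mem_nonunits_iff]
  intro hu
  obtain ⟨y, hy⟩ := hu.exists_right_inv
  have h1 := congrArg (fun z => ValuationRing.valuation O K (algebraMap O K z)) hy
  simp only [map_mul, map_one] at h1
  have h2 := val_le_one (K := K) y
  have h3 : ValuationRing.valuation O K (algebraMap O K x) *
      ValuationRing.valuation O K (algebraMap O K y) < 1 := by
    calc _ ≤ ValuationRing.valuation O K (algebraMap O K x) * 1 := by gcongr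
      _ < 1 := by rwa [mul_one]
  exact absurd h1 h3.ne

theorem path_step [IsAlgClosed K] {a b c : Fin 3 → O} (hmax : InMax a b c) {k N : ℕ}
    (hk : 1 ≤ k)
    (s : Module.Basis (Fin N) K (sec (map (algebraMap O K) (FS a b c)) k)) (r : Fin N → ℕ)
    (hb : Bad _ k (fun i => (s i : CRing (map (algebraMap O K) (FS a b c)))) r)
    (hr : ∃ i j, r i ≠ r j) (l : ℕ) (E : Finset (Fin 3 → ℕ)) (hE : E ⊆ Lk k)
    (hcard : (univ.filter fun i => l ≤ r i).card = E.card)
    (w : (Fin 3 → ℕ) → (Fin 3 → ℕ) → O)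
    (hw1 : ∀ u ∈ E, ∑ x ∈ Lk k, algebraMap O K (w u x) • bm _ x ∈
      chowFil _ (fun i => (s i : CRing (map (algebraMap O K) (FS a b c)))) r 1 l)
    (hw2 : ∀ u ∈ E, ∀ x ∈ E, w u x = if x = u then 1 else 0)
    {e : Fin 3} {ρ A B C : O} (hρ : ρ ≠ 0) (hA : A * ρ ^ 2 = a e) (hB : B * ρ ^ 4 = b e)
    (hC : C * ρ ^ 6 = c e) :
    ∀ u ∈ E, ∀ x ∈ Lk k, x ∉ E → u e < x e → ∃ d, w u x = d * ρ ^ (x e - u e) := by
  classical
  by_contra hcon
  push Not at hcon
  obtain ⟨u1, hu1, x1, hx1, hx1E, hlt1, hbad⟩ := hcon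
  set v := ValuationRing.valuation O K with hv
  have hinj := IsFractionRing.injective O K
  have hρK : algebraMap O K ρ ≠ 0 := fun h => hρ (hinj (by rw [h, map_zero]))
  -- the pairs
  set T := (E ×ˢ (Lk k \ E)).filter (fun p => p.1 e < p.2 e) with hT
  have hp1 : (u1, x1) ∈ T := by
    rw [hT, mem_filter, mem_product, Finset.mem_sdiff]; exact ⟨⟨hu1, hx1, hx1E⟩, hlt1⟩
  have hroot : ∀ p : (Fin 3 → ℕ) × (Fin 3 → ℕ), ∃ z : K, p ∈ T →
      z ^ (p.2 e - p.1 e) = algebraMap O K (w p.1 p.2) := by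
    intro p
    by_cases hp : p ∈ T
    · have h1 : 0 < p.2 e - p.1 e := by
        rw [hT, mem_filter] at hp; omega
      obtain ⟨z, hz⟩ := IsAlgClosed.exists_pow_nat_eq (algebraMap O K (w p.1 p.2)) h1
      exact ⟨z, fun _ => hz⟩
    · exact ⟨0, fun h => absurd h hp⟩
  choose σ hσ using hroot
  obtain ⟨p0, hp0, hp0max⟩ := exists_max_image T (fun p => v (σ p)) ⟨_, hp1⟩
  have hlt0 : v (algebraMap O K ρ) < v (σ p0) := by
    refine lt_of_lt_of_le ?_ (hp0max _ hp1)
    by_contra hle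
    push Not at hle
    have h1 : v (algebraMap O K (w u1 x1)) ≤ v ((algebraMap O K ρ) ^ (x1 e - u1 e)) := by
      rw [← hσ _ hp1, map_pow, map_pow]
      gcongr
    obtain ⟨q, hq⟩ := exists_of_val_le (O := O) (pow_ne_zero _ hρK) h1
    apply hbad q
    apply hinj
    rw [hq, map_mul, map_pow]
  have hp0' := hp0
  rw [hT, mem_filter, mem_product, Finset.mem_sdiff] at hp0'
  obtain ⟨⟨hu0, hx0, hx0E⟩, hlt⟩ := hp0'
  have hσ0 := hσ p0 hp0
  have hσ1 : v (σ p0) ≤ 1 := by
    by_contra h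
    push Not at h
    have h1 := one_lt_pow₀ h (show p0.2 e - p0.1 e ≠ 0 by omega)
    rw [← map_pow, hσ0] at h1
    exact absurd (val_le_one (K := K) (w p0.1 p0.2)) (not_le_of_gt h1)
  obtain ⟨τ, hτ⟩ := (ValuationRing.mem_integer_iff O K _).mp hσ1
  have hσne : σ p0 ≠ 0 := by
    intro h
    rw [h, map_zero] at hlt0
    exact absurd hlt0 not_lt_zero
  have hτK : algebraMap O K τ ≠ 0 := by rw [hτ]; exact hσne
  have hτ0 : τ ≠ 0 := by rintro rfl; exact hτK (map_zero _)
  obtain ⟨μ, hμ⟩ := exists_of_val_le (O := O) hτK (x := algebraMap O K ρ) (by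
    rw [hτ]; exact hlt0.le)
  have hρμ : ρ = μ * τ := hinj (by rw [hμ, map_mul])
  have hμm : μ ∈ IsLocalRing.maximalIdeal O := by
    apply mem_max_of_val_lt (K := K)
    have h1 : v (algebraMap O K ρ) = v (algebraMap O K μ) * v (σ p0) := by
      rw [hμ, map_mul, hτ]
    rw [h1] at hlt0
    by_contra hcon
    push Not at hcon
    have : v (σ p0) ≤ v (algebraMap O K μ) * v (σ p0) := by
      calc v (σ p0) = 1 * v (σ p0) := (one_mul _).symm
        _ ≤ _ := by gcongr
    exact absurd hlt0 (not_lt_of_ge this)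
  -- the model at `τ`
  have hA' : (A * μ ^ 2) * τ ^ 2 = a e := by rw [← hA, hρμ]; ring
  have hB' : (B * μ ^ 4) * τ ^ 4 = b e := by rw [← hB, hρμ]; ring
  have hC' : (C * μ ^ 6) * τ ^ 6 = c e := by rw [← hC, hρμ]; ring
  have hmem : ∀ (x : O) (n : ℕ), 0 < n → x * μ ^ n ∈ IsLocalRing.maximalIdeal O :=
    fun x n hn => Ideal.mul_mem_left _ _ (Ideal.pow_mem_of_mem _ hμm n hn)
  have hmax' : InMax (mc (A * μ ^ 2) τ e a 1) (mc (B * μ ^ 4) τ e b 2)
      (mc (C * μ ^ 6) τ e c 3) := by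
    refine ⟨fun i => ?_, fun i => ?_, fun i => ?_⟩
    · unfold mc; split_ifs
      · exact hmem _ _ (by norm_num)
      · exact Ideal.mul_mem_right _ _ (hmax.1 i)
    · unfold mc; split_ifs
      · exact hmem _ _ (by norm_num)
      · exact Ideal.mul_mem_right _ _ (hmax.2.1 i)
    · unfold mc; split_ifs
      · exact hmem _ _ (by norm_num)
      · exact Ideal.mul_mem_right _ _ (hmax.2.2 i)
  have hres := map_res_FS hmax'
  have hf : (map (algebraMap O K) (FS a b c)).IsHomogeneous 3 := (FS_homog _ _ _).map _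
  have hf0 := map_alg_FS_ne (K := K) a b c
  have hf' : (map (IsLocalRing.residue O) (FS (mc (A * μ ^ 2) τ e a 1)
    (mc (B * μ ^ 4) τ e b 2) (mc (C * μ ^ 6) τ e c 3))).IsHomogeneous 3 :=
    (FS_homog _ _ _).map _
  have hf0' : map (IsLocalRing.residue O) (FS (mc (A * μ ^ 2) τ e a 1)
    (mc (B * μ ^ 4) τ e b 2) (mc (C * μ ^ 6) τ e c 3)) ≠ 0 := by
    rw [hres]; exact f0_ne_zero
  set D := Dmod (K := K) (IsLocalRing.residue O) hτK hA' hB' hC' with hD
  obtain ⟨s', r', e1, e2, e3, e4, e5⟩ :=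
    (D.toDegen hf hf0 hf' hf0').exists_bad hf hf0 hf' hf0' s r hb hr
  obtain ⟨G', η', g1, g2, g3, g4⟩ := claimB' hres s' r' hk e4 e5
  -- coordinates in the model
  have hd : ∀ u x, ∃ d : O, u ∈ E → x ∈ Lk k → d * τ ^ x e = w u x * τ ^ u e := by
    intro u x
    by_cases hux : u ∈ E ∧ x ∈ Lk k
    · obtain ⟨hu, hx⟩ := hux
      rcases Nat.le_or_ge (x e) (u e) with hle | hge
      · refine ⟨w u x * τ ^ (u e - x e), fun _ _ => ?_⟩
        rw [mul_assoc, ← pow_add]; congr 2; omega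
      · rcases Nat.eq_or_lt_of_le hge with heq | hlt
        · exact ⟨w u x, fun _ _ => by rw [heq]⟩
        · by_cases hxE : x ∈ E
          · refine ⟨0, fun _ _ => ?_⟩
            rw [hw2 u hu x hxE, if_neg (by rintro rfl; omega)]; ring
          · have hpT : (u, x) ∈ T := by
              rw [hT, mem_filter, mem_product, Finset.mem_sdiff]; exact ⟨⟨hu, hx, hxE⟩, hlt⟩
            have h1 : v (algebraMap O K (w u x)) ≤ v ((algebraMap O K τ) ^ (x e - u e)) := by
              rw [← hσ _ hpT, map_pow, map_pow, hτ]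
              have := hp0max _ hpT
              gcongr
            obtain ⟨q, hq⟩ := exists_of_val_le (O := O) (pow_ne_zero _ hτK) h1
            have h2 : w u x = q * τ ^ (x e - u e) := hinj (by rw [hq, map_mul, map_pow])
            refine ⟨q, fun _ _ => ?_⟩
            rw [h2, mul_assoc, ← pow_add]; congr 2; omega
    · refine ⟨0, fun h1 h2 => absurd ⟨h1, h2⟩ hux⟩
  choose d hd using hd
  have hcoef : ∀ u ∈ E, ∀ x ∈ Lk k, IsLocalRing.residue O (d u x) ≠ 0 → l ≤ η' x := by
    intro u hu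
    have h1 := model_mem (K := K) (IsLocalRing.residue O) hτK hA' hB' hC'
      (chowFil _ (fun i => (s i : CRing (map (algebraMap O K) (FS a b c)))) r 1 l)
      (w u) (hw1 u hu) (d u) (u e) (fun x hx => hd u x hu hx)
    have h2 : ∑ x ∈ Lk k, IsLocalRing.residue O (d u x) • bm _ x ∈
        (D.toDegen hf hf0 hf' hf0').red k
          (chowFil _ (fun i => (s i : CRing (map (algebraMap O K) (FS a b c)))) r 1 l) := by
      refine ⟨_, h1, ?_⟩
      exact qm_stdF _ _ _
    rw [← e3 l, g4 l] at h2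
    exact coeff_of_mem_span hres h2
  have hsub : E ⊆ (Lk k).filter fun x => l ≤ η' x := by
    intro u hu
    rw [mem_filter]
    refine ⟨hE hu, hcoef u hu u (hE hu) ?_⟩
    have h1 := hd u u hu (hE hu)
    rw [hw2 u hu u hu, if_pos rfl, one_mul] at h1
    have h2 : d u u = 1 := by
      have h3 : (d u u - 1) * τ ^ u e = 0 := by rw [sub_mul, h1, one_mul, sub_self]
      rcases mul_eq_zero.mp h3 with h | h
      · exact sub_eq_zero.mp h
      · exact absurd h (pow_ne_zero _ hτ0)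
    rw [h2, map_one]
    exact one_ne_zero
  have hEE : E = (Lk k).filter fun x => l ≤ η' x := by
    apply eq_of_subset_of_card_le hsub
    rw [← g3 l, e2 l, hcard]
  apply hx0E
  rw [hEE, mem_filter]
  refine ⟨hx0, hcoef p0.1 hu0 p0.2 hx0 ?_⟩
  have h1 := hd p0.1 p0.2 hu0 hx0
  have h2 : w p0.1 p0.2 = τ ^ (p0.2 e - p0.1 e) := hinj (by rw [map_pow, hτ, hσ0])
  rw [h2, ← pow_add] at h1
  have h3 : p0.2 e - p0.1 e + p0.1 e = p0.2 e := by omega
  rw [h3] at h1
  have h4 : d p0.1 p0.2 = 1 := by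
    have h5 : (d p0.1 p0.2 - 1) * τ ^ p0.2 e = 0 := by rw [sub_mul, h1, one_mul, sub_self]
    rcases mul_eq_zero.mp h5 with h | h
    · exact sub_eq_zero.mp h
    · exact absurd h (pow_ne_zero _ hτ0)
  rw [h4, map_one]
  exact one_ne_zero

end Pool.Agent.Helper223
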