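import Pool.Agent.Helper223_Chow.Transfer

/-! Reductions of subspaces of the polynomial ring induce reductions for coordinate rings. -/

open MvPolynomial Finset Filter

namespace Pool.Agent.Helper223

/-- abbreviation for forms of degree `n` -/
noncomputable abbrev Sn (K : Type*) [Field K] (n : ℕ) : Submodule K (MvPolynomial (Fin 4) K) :=
  homogeneousSubmodule (Fin 4) K n

structure SDegen {K : Type*} [Field K] {κ : Type*} [Field κ] (f : MvPolynomial (Fin 4) K)
    (f' : MvPolynomial (Fin 4) κ) where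
  red : Submodule K (MvPolynomial (Fin 4) K) → Submodule κ (MvPolynomial (Fin 4) κ)
  le_Sn : ∀ n W, W ≤ Sn K n → red W ≤ Sn κ n
  mono : ∀ W W', W ≤ W' → red W ≤ red W'
  finrank_eq : ∀ n W, W ≤ Sn K n → Module.finrank κ (red W) = Module.finrank K W
  mul_mem : ∀ W W' x y, x ∈ red W → y ∈ red W' → x * y ∈ red (W * W')
  one_mem : ∀ W, (1 : MvPolynomial (Fin 4) K) ∈ W → (1 : MvPolynomial (Fin 4) κ) ∈ red W
  f_mem : f' ∈ red (Submodule.span K {f})

variable {K : Type*} [Field K] {κ : Type*} [Field κ] {f : MvPolynomial (Fin 4) K}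
    {f' : MvPolynomial (Fin 4) κ}

lemma SDegen.red_Sn (D : SDegen f f') (n : ℕ) : D.red (Sn K n) = Sn κ n := by
  apply Submodule.eq_of_le_of_finrank_eq (D.le_Sn n _ le_rfl)
  rw [D.finrank_eq n _ le_rfl, finrank_homogeneousSubmodule, finrank_homogeneousSubmodule]

/-- the preimage of a subspace -/
noncomputable def pre (f : MvPolynomial (Fin 4) K) (n : ℕ) (W : Submodule K (CRing f)) :
    Submodule K (MvPolynomial (Fin 4) K) := Sn K n ⊓ W.comap (qm f).toLinearMap

lemma map_pre {n : ℕ} {W : Submodule K (CRing f)} (hW : W ≤ sec f n) :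
    (pre f n W).map (qm f).toLinearMap = W := by
  ext x
  simp only [pre, Submodule.mem_map, Submodule.mem_inf, Submodule.mem_comap]
  constructor
  · rintro ⟨y, ⟨_, hy⟩, rfl⟩; exact hy
  · intro hx
    obtain ⟨F, hF, rfl⟩ := mem_sec.mp (hW hx)
    exact ⟨F, ⟨hF, hx⟩, rfl⟩

lemma pre_inf_ker (n : ℕ) (W : Submodule K (CRing f)) :
    pre f n W ⊓ LinearMap.ker (qm f).toLinearMap = Sn K n ⊓ LinearMap.ker (qm f).toLinearMap := by
  ext x
  simp only [pre, Submodule.mem_inf, Submodule.mem_comap, LinearMap.mem_ker]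
  constructor
  · rintro ⟨⟨h1, _⟩, h2⟩; exact ⟨h1, h2⟩
  · rintro ⟨h1, h2⟩; exact ⟨⟨h1, by rw [h2]; exact W.zero_mem⟩, h2⟩

lemma SDegen.ker_le (D : SDegen f f') (hf : f.IsHomogeneous 3)
    (hf' : f'.IsHomogeneous 3) (n : ℕ) (W : Submodule K (CRing f)) :
    Sn κ n ⊓ LinearMap.ker (qm f').toLinearMap ≤ D.red (pre f n W) := by
  rcases lt_or_ge n 3 with hn | hn
  · rintro F ⟨h1, h2⟩
    obtain ⟨h, rfl⟩ := qm_eq_zero_iff.mp (by simpa using h2)
    rw [homog_factor_lt hf' hn h1]
    exact Submodule.zero_mem _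
  · obtain ⟨n, rfl⟩ := Nat.exists_eq_add_of_le' hn
    rw [Sn, ker_qm hf']
    rintro F ⟨h, h1, rfl⟩
    have h2 : h ∈ D.red (Sn K n) := by rw [D.red_Sn]; exact h1
    have h3 := D.mul_mem _ _ _ _ D.f_mem h2
    refine D.mono _ _ ?_ h3
    rw [Submodule.mul_le]
    intro a ha b hb
    obtain ⟨c, rfl⟩ := Submodule.mem_span_singleton.mp ha
    refine ⟨?_, ?_⟩
    · have h4 : (f * b).IsHomogeneous (3 + n) := hf.mul hb
      rw [add_comm] at h4
      rw [smul_mul_assoc]
      exact Submodule.smul_mem _ c h4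
    · have : qm f (c • f * b) = 0 := qm_eq_zero_iff.mpr ⟨c • b, by
        rw [smul_mul_assoc, mul_smul_comm]⟩
      change qm f (c • f * b) ∈ W
      rw [this]
      exact W.zero_mem

instance finite_pre (n : ℕ) (W : Submodule K (CRing f)) : Module.Finite K (pre f n W) :=
  Submodule.finiteDimensional_of_le (inf_le_left : pre f n W ≤ Sn K n)

lemma SDegen.finrank_map (D : SDegen f f') (hf : f.IsHomogeneous 3) (hf0 : f ≠ 0)
    (hf' : f'.IsHomogeneous 3) (hf0' : f' ≠ 0) {n : ℕ} {W : Submodule K (CRing f)}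
    (hW : W ≤ sec f n) :
    Module.finrank κ ((D.red (pre f n W)).map (qm f').toLinearMap) = Module.finrank K W := by
  have h1 := finrank_map_add (qm f).toLinearMap (pre f n W)
  rw [map_pre hW, pre_inf_ker] at h1
  have hfin : Module.Finite κ (D.red (pre f n W)) :=
    Submodule.finiteDimensional_of_le (D.le_Sn n _ inf_le_left)
  have h2 := finrank_map_add (qm f').toLinearMap (D.red (pre f n W))
  have h3 : D.red (pre f n W) ⊓ LinearMap.ker (qm f').toLinearMap =
      Sn κ n ⊓ LinearMap.ker (qm f').toLinearMap := by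
    apply le_antisymm
    · exact inf_le_inf_right _ (D.le_Sn n _ inf_le_left)
    · exact le_inf (D.ker_le hf hf' n W) inf_le_right
  rw [h3, D.finrank_eq n (pre f n W) inf_le_left] at h2
  have h4 := finrank_map_add (qm f).toLinearMap (Sn K n)
  have h5 := finrank_map_add (qm f').toLinearMap (Sn κ n)
  rw [finrank_homogeneousSubmodule] at h4 h5
  have h6 := two_mul_finrank_sec hf hf0 n
  have h7 := two_mul_finrank_sec hf' hf0' n
  change Module.finrank K (sec f n) + _ = _ at h4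
  change Module.finrank κ (sec f' n) + _ = _ at h5
  omega

noncomputable def SDegen.toDegen (D : SDegen f f') (hf : f.IsHomogeneous 3) (hf0 : f ≠ 0)
    (hf' : f'.IsHomogeneous 3) (hf0' : f' ≠ 0) : Degen f f' where
  red n W := (D.red (pre f n W)).map (qm f').toLinearMap
  le_sec n W := Submodule.map_mono (D.le_Sn n _ inf_le_left)
  mono n W W' h := Submodule.map_mono (D.mono _ _ (inf_le_inf_left _ (Submodule.comap_mono h)))
  finrank_le n W hW := (D.finrank_map hf hf0 hf' hf0' hW).le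
  le_finrank n W hW := (D.finrank_map hf hf0 hf' hf0' hW).ge
  mul_mem := by
    rintro n n' W W' _ _ ⟨a, ha, rfl⟩ ⟨b, hb, rfl⟩
    refine ⟨a * b, ?_, map_mul (qm f') _ _⟩
    refine D.mono _ _ ?_ (D.mul_mem _ _ _ _ ha hb)
    rw [Submodule.mul_le]
    rintro x ⟨hx1, hx2⟩ y ⟨hy1, hy2⟩
    refine ⟨IsHomogeneous.mul hx1 hy1, ?_⟩
    change qm f (x * y) ∈ W * W'
    rw [map_mul]
    exact Submodule.mul_mem_mul hx2 hy2
  one_mem := by
    intro W hW
    refine ⟨1, D.one_mem _ ⟨isHomogeneous_one _ _, ?_⟩, map_one (qm f')⟩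
    change qm f 1 ∈ W
    rw [map_one]
    exact hW

theorem SDegen.semistable (D : SDegen f f') {k : ℕ} (hf : f.IsHomogeneous 3) (hf0 : f ≠ 0)
    (hf' : f'.IsHomogeneous 3) (hf0' : f' ≠ 0) (h : ChowSemistableAt f' k) :
    ChowSemistableAt f k :=
  (D.toDegen hf hf0 hf' hf0').semistable hf hf0 hf' hf0' h

theorem SDegen.stable (D : SDegen f f') {k : ℕ} (hf : f.IsHomogeneous 3) (hf0 : f ≠ 0)
    (hf' : f'.IsHomogeneous 3) (hf0' : f' ≠ 0) (h : ChowStableAt f' k) :
    ChowStableAt f k :=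
  (D.toDegen hf hf0 hf' hf0').stable hf hf0 hf' hf0' h

end Pool.Agent.Helper223
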