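import Pool.Agent.Helper223_Chow.SDegen

/-! Reduction modulo the maximal ideal of a valuation ring. -/

open MvPolynomial Finset

namespace Pool.Agent.Helper223

variable {O : Type*} [CommRing O] [IsDomain O] [ValuationRing O] {K : Type*} [Field K]
  [Algebra O K] [IsFractionRing O K] {κ : Type*} [Field κ] (π : O →+* κ)

/-- scaling a nonzero family to a primitive one -/
lemma exists_scale {ι : Type*} (s : Finset ι) (c : ι → K) (h : ∃ i ∈ s, c i ≠ 0) :
    ∃ a : K, a ≠ 0 ∧ ∃ b : ι → O, (∀ i ∈ s, algebraMap O K (b i) = a * c i) ∧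
      ∃ i ∈ s, π (b i) ≠ 0 := by
  classical
  let v := ValuationRing.valuation O K
  obtain ⟨i0, hi0, hci0⟩ := h
  obtain ⟨j, hj, hmax⟩ := Finset.exists_max_image s (fun i => v (c i)) ⟨i0, hi0⟩
  have hcj : c j ≠ 0 := by
    intro h0
    have h1 := hmax i0 hi0
    simp only [h0, map_zero, le_zero_iff, map_eq_zero] at h1
    exact hci0 h1
  have hex : ∀ i, ∃ b : O, i ∈ s → algebraMap O K b = (c j)⁻¹ * c i := by
    intro i
    by_cases hi : i ∈ s
    · have h1 : v ((c j)⁻¹ * c i) ≤ 1 := by
        rw [map_mul, map_inv₀]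
        have h2 := hmax i hi
        have h3 : v (c j) ≠ 0 := (Valuation.ne_zero_iff _).mpr hcj
        calc (v (c j))⁻¹ * v (c i) ≤ (v (c j))⁻¹ * v (c j) := by gcongr
          _ = 1 := inv_mul_cancel₀ h3
      obtain ⟨b, hb⟩ := (ValuationRing.mem_integer_iff O K _).mp h1
      exact ⟨b, fun _ => hb⟩
    · exact ⟨0, fun h => absurd h hi⟩
  choose b hb using hex
  refine ⟨(c j)⁻¹, inv_ne_zero hcj, b, hb, j, hj, ?_⟩
  have h1 : algebraMap O K (b j) = 1 := by rw [hb j hj, inv_mul_cancel₀ hcj]
  have h2 : b j = 1 := IsFractionRing.injective O K (by rw [h1, map_one])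
  rw [h2, map_one]
  exact one_ne_zero

lemma exists_prim {G : MvPolynomial (Fin 4) K} (hG : G ≠ 0) :
    ∃ a : K, a ≠ 0 ∧ ∃ F : MvPolynomial (Fin 4) O, map (algebraMap O K) F = a • G ∧
      ∃ i, coeff i (map π F) ≠ 0 := by
  classical
  have h : ∃ i ∈ G.support, coeff i G ≠ 0 := by
    obtain ⟨i, hi⟩ := (support_nonempty (p := G)).mpr hG
    exact ⟨i, hi, mem_support_iff.mp hi⟩
  obtain ⟨a, ha, b, hb, i, hi, hbi⟩ := exists_scale (O := O) π G.support (fun i => coeff i G) h
  refine ⟨a, ha, ∑ i ∈ G.support, monomial i (b i), ?_, i, ?_⟩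
  · rw [map_sum]
    conv_rhs => rw [G.as_sum, Finset.smul_sum]
    apply sum_congr rfl
    intro i hi
    rw [map_monomial, hb i hi, smul_monomial, smul_eq_mul]
  · rw [map_sum, coeff_sum, Finset.sum_eq_single i]
    · rw [map_monomial, coeff_monomial, if_pos rfl]; exact hbi
    · intro j _ hji
      rw [map_monomial, coeff_monomial, if_neg hji]
    · intro h; exact absurd hi h

lemma indep_lift {ι : Type*} (G : ι → MvPolynomial (Fin 4) O)
    (h : LinearIndependent κ (fun i => map π (G i))) :
    LinearIndependent K (fun i => map (algebraMap O K) (G i)) := by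
  classical
  rw [linearIndependent_iff'] at h ⊢
  intro s c hc
  by_contra hcon
  push Not at hcon
  obtain ⟨a, ha, b, hb, i, hi, hbi⟩ := exists_scale (O := O) π s c hcon
  have h1 : map (algebraMap O K) (∑ i ∈ s, C (b i) * G i) = 0 := by
    rw [map_sum]
    have : ∀ i ∈ s, map (algebraMap O K) (C (b i) * G i) =
        a • (c i • map (algebraMap O K) (G i)) := by
      intro i hi
      rw [map_mul, map_C, hb i hi, ← smul_eq_C_mul, mul_smul]
    rw [sum_congr rfl this, ← Finset.smul_sum, hc, smul_zero]
  have h2 : ∑ i ∈ s, C (b i) * G i = 0 :=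
    map_injective _ (IsFractionRing.injective O K) (by rw [h1, map_zero])
  have h3 := congrArg (map π) h2
  rw [map_sum, map_zero] at h3
  have h4 := h s (fun i => π (b i)) (by
    rw [← h3]
    apply sum_congr rfl
    intro i _
    rw [map_mul, map_C, smul_eq_C_mul])
  exact hbi (h4 i hi)

/-- reduction of a subspace -/
noncomputable def redV (O : Type*) [CommRing O] [Algebra O K] (π : O →+* κ)
    (W : Submodule K (MvPolynomial (Fin 4) K)) : Submodule κ (MvPolynomial (Fin 4) κ) :=
  Submodule.span κ {x | ∃ G : MvPolynomial (Fin 4) O, map (algebraMap O K) G ∈ W ∧ map π G = x}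

omit [IsDomain O] [ValuationRing O] in
lemma redV_le_Sn (n : ℕ) (W : Submodule K (MvPolynomial (Fin 4) K)) (hW : W ≤ Sn K n) :
    redV O π W ≤ Sn κ n := by
  rw [redV, Submodule.span_le]
  rintro x ⟨G, hG, rfl⟩
  have h1 : G.IsHomogeneous n := IsHomogeneous.of_map (IsFractionRing.injective O K) (hW hG)
  exact h1.map π

omit [IsDomain O] [ValuationRing O] [IsFractionRing O K] in
lemma redV_mono (W W' : Submodule K (MvPolynomial (Fin 4) K)) (h : W ≤ W') :
    redV O π W ≤ redV O π W' := by
  apply Submodule.span_mono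
  rintro x ⟨G, hG, rfl⟩
  exact ⟨G, h hG, rfl⟩

lemma finrank_redV_le (n : ℕ) (W : Submodule K (MvPolynomial (Fin 4) K)) (hW : W ≤ Sn K n) :
    Module.finrank κ (redV O π W) ≤ Module.finrank K W := by
  classical
  have hfin : Module.Finite κ (redV O π W) :=
    Submodule.finiteDimensional_of_le (redV_le_Sn π n W hW)
  have hfinW : Module.Finite K W := Submodule.finiteDimensional_of_le hW
  obtain ⟨b, hb, hspan, hli⟩ := exists_linearIndependent κ
    {x | ∃ G : MvPolynomial (Fin 4) O, map (algebraMap O K) G ∈ W ∧ map π G = x}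
  have hspan' : Submodule.span κ b = redV O π W := hspan
  have hbfin : Module.Finite κ (Submodule.span κ b) := by rw [hspan']; exact hfin
  have hli2 : LinearIndependent κ (fun x : b =>
      (⟨x, Submodule.subset_span x.2⟩ : Submodule.span κ b)) := by
    apply LinearIndependent.of_comp (Submodule.span κ b).subtype
    exact hli
  have hfb : Finite b := hli2.finite
  have := Fintype.ofFinite b
  have h1 : Module.finrank κ (Submodule.span κ b) = Fintype.card b := by
    rw [finrank_span_set_eq_card hli, Set.toFinset_card]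
  rw [← hspan', h1]
  have hex : ∀ x : b, ∃ G : MvPolynomial (Fin 4) O, map (algebraMap O K) G ∈ W ∧
      map π G = x := fun x => hb x.2
  choose G hG1 hG2 using hex
  have h2 : LinearIndependent κ (fun i => map π (G i)) := by
    have : (fun i => map π (G i)) = fun x : b => (x : MvPolynomial (Fin 4) κ) := by
      funext i; exact hG2 i
    rw [this]; exact hli
  have h3 := indep_lift (K := K) π G h2
  have h4 : LinearIndependent K (fun i => (⟨map (algebraMap O K) (G i), hG1 i⟩ : W)) := by
    apply LinearIndependent.of_comp W.subtype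
    exact h3
  exact h4.fintype_card_le_finrank

lemma le_finrank_redV (n : ℕ) : ∀ (d : ℕ) (W : Submodule K (MvPolynomial (Fin 4) K)),
    W ≤ Sn K n → d ≤ Module.finrank K W → d ≤ Module.finrank κ (redV O π W) := by
  classical
  intro d
  induction d with
  | zero => intro W _ _; exact Nat.zero_le _
  | succ d ih =>
    intro W hW hd
    have hfinW : Module.Finite K W := Submodule.finiteDimensional_of_le hW
    have hfin : Module.Finite κ (redV O π W) :=
      Submodule.finiteDimensional_of_le (redV_le_Sn π n W hW)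
    have hne : W ≠ ⊥ := by
      intro h; rw [h, finrank_bot] at hd; omega
    obtain ⟨G, hG, hG0⟩ := Submodule.exists_mem_ne_zero_of_ne_bot hne
    obtain ⟨a, ha, F, hF, i, hi⟩ := exists_prim (O := O) π hG0
    have h1 := finrank_map_add (lcoeff K i) W
    have h2 := finrank_map_add (lcoeff κ i) (redV O π W)
    have h3 : Module.finrank K (W.map (lcoeff K i)) ≤ 1 := by
      have := Submodule.finrank_le (W.map (lcoeff K i))
      simpa using this
    have h4 : d ≤ Module.finrank K (W ⊓ LinearMap.ker (lcoeff K i) :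
        Submodule K (MvPolynomial (Fin 4) K)) := by omega
    have h5 := ih _ (inf_le_left.trans hW) h4
    have h6 : redV O π (W ⊓ LinearMap.ker (lcoeff K i)) ≤
        redV O π W ⊓ LinearMap.ker (lcoeff κ i) := by
      rw [redV, Submodule.span_le]
      rintro x ⟨H, ⟨hH1, hH2⟩, rfl⟩
      refine ⟨Submodule.subset_span ⟨H, hH1, rfl⟩, ?_⟩
      have h7 : algebraMap O K (coeff i H) = 0 := by
        have : coeff i (map (algebraMap O K) H) = 0 := hH2
        rwa [coeff_map] at this
      have h8 : coeff i H = 0 := IsFractionRing.injective O K (by rw [h7, map_zero])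
      change coeff i (map π H) = 0
      rw [coeff_map, h8, map_zero]
    have hfin2 : Module.Finite κ (redV O π W ⊓ LinearMap.ker (lcoeff κ i) :
        Submodule κ (MvPolynomial (Fin 4) κ)) :=
      Submodule.finiteDimensional_of_le inf_le_left
    have h9 := Submodule.finrank_mono h6
    have h10 : 1 ≤ Module.finrank κ ((redV O π W).map (lcoeff κ i)) := by
      rw [Nat.one_le_iff_ne_zero, Ne, Submodule.finrank_eq_zero]
      intro hbot
      have hm : map π F ∈ redV O π W := Submodule.subset_span ⟨F, by
        rw [hF]; exact W.smul_mem a hG, rfl⟩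
      have := Submodule.mem_map_of_mem (f := lcoeff κ i) hm
      rw [hbot, Submodule.mem_bot] at this
      exact hi this
    omega

/-- specialisation modulo the maximal ideal -/
noncomputable def valSDegen (F : MvPolynomial (Fin 4) O) :
    SDegen (map (algebraMap O K) F) (map π F) where
  red := redV O π
  le_Sn := redV_le_Sn π
  mono := redV_mono π
  finrank_eq n W hW := le_antisymm (finrank_redV_le π n W hW)
    (le_finrank_redV π n _ W hW le_rfl)
  mul_mem := by
    intro W W' x y hx hy
    have h : redV O π W * redV O π W' ≤ redV O π (W * W') := by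
      rw [redV, redV, Submodule.span_mul_span, Submodule.span_le]
      rintro _ ⟨_, ⟨G, hG, rfl⟩, _, ⟨G', hG', rfl⟩, rfl⟩
      apply Submodule.subset_span
      exact ⟨G * G', by rw [map_mul]; exact Submodule.mul_mem_mul hG hG', map_mul _ _ _⟩
    exact h (Submodule.mul_mem_mul hx hy)
  one_mem W hW := Submodule.subset_span ⟨1, by rwa [map_one], map_one _⟩
  f_mem := Submodule.subset_span ⟨F, Submodule.mem_span_singleton_self _, rfl⟩

end Pool.Agent.Helper223
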