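import Pool.Agent.Helper223_Chow.Equal
import Pool.Agent.Helper223_Chow.Val
import Pool.Agent.Helper223_Chow.Lin

/-! More on the transfer of filtrations along reductions. -/

open MvPolynomial Finset Filter

namespace Pool.Agent.Helper223

variable {K : Type*} [Field K] {κ : Type*} [Field κ] {f : MvPolynomial (Fin 4) K}
    {f' : MvPolynomial (Fin 4) κ}

/-- the reduced basis and weights -/
lemma Degen.exists_basis' (D : Degen f f') {k N : ℕ} (hf : f.IsHomogeneous 3) (hf0 : f ≠ 0)
    (hf' : f'.IsHomogeneous 3) (hf0' : f' ≠ 0)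
    (s : Module.Basis (Fin N) K (sec f k)) (r : Fin N → ℕ) :
    ∃ (s' : Module.Basis (Fin N) κ (sec f' k)) (r' : Fin N → ℕ), ∑ i, r' i = ∑ i, r i ∧
      (∀ l, (univ.filter fun i => l ≤ r' i).card = (univ.filter fun i => l ≤ r i).card) ∧
      (∀ m l, Module.finrank κ (chowFil f' (fun i => (s' i : CRing f')) r' m l) ≤
        Module.finrank K (chowFil f (fun i => (s i : CRing f)) r m l)) ∧
      ∀ l, chowFil f' (fun i => (s' i : CRing f')) r' 1 l =
        D.red k (chowFil f (fun i => (s i : CRing f)) r 1 l) := by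
  classical
  have hN : Module.finrank K (sec f k) = N := by
    have := Module.finrank_eq_card_basis s
    simpa using this
  have hN' : Module.finrank κ (sec f' k) = N := by
    have h1 := two_mul_finrank_sec hf hf0 k
    have h2 := two_mul_finrank_sec hf' hf0' k
    omega
  let S : Fin N → CRing f := fun i => (s i : CRing f)
  have hS : ∀ i, S i ∈ sec f k := fun i => (s i).2
  let F : ℕ → Submodule K (CRing f) := fun l => chowFil f S r 1 l
  have hFsec : ∀ l, F l ≤ sec f k := fun l => by
    simpa using chowFil_le_sec (k := k) S r hS 1 l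
  have hrank : ∀ l, Module.finrank κ (D.red k (F l)) = (univ.filter fun i => l ≤ r i).card := by
    intro l
    rw [← finrank_chowFil_one s r l]
    exact le_antisymm (D.finrank_le k _ (hFsec l)) (D.le_finrank k _ (hFsec l))
  let E : ℕ → Submodule κ (sec f' k) := fun l => (D.red k (F l)).comap (sec f' k).subtype
  have hEmap : ∀ l, (E l).map (sec f' k).subtype = D.red k (F l) := by
    intro l
    rw [Submodule.map_comap_subtype]
    exact inf_eq_right.mpr (D.le_sec k _)
  have hErank : ∀ l, Module.finrank κ (E l) = (univ.filter fun i => l ≤ r i).card := by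
    intro l
    rw [← hrank l, ← hEmap l]
    exact (Submodule.finrank_map_subtype_eq _ _).symm
  have hEanti : Antitone E := fun a b hab =>
    Submodule.comap_mono (D.mono k _ _ (chowFil_anti S r 1 hab))
  have hE0 : E 0 = ⊤ := by
    apply Submodule.eq_top_of_finrank_eq
    rw [hErank, hN']
    simp
  have hEL : ∀ l, (∑ i, r i) + 1 ≤ l → E l = ⊥ := by
    intro l hl
    apply Submodule.finrank_eq_zero.mp
    rw [hErank, card_eq_zero, filter_eq_empty_iff]
    intro i _ h
    have : r i ≤ ∑ i, r i := single_le_sum (fun _ _ => Nat.zero_le _) (mem_univ i)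
    omega
  obtain ⟨b, rr, hb⟩ := exists_adapted_basis E hEanti hE0 _ hEL
  let e : Fin (Module.finrank κ (sec f' k)) ≃ Fin N := finCongr hN'
  refine ⟨b.reindex e, fun i => rr (e.symm i), ?_⟩
  have hE' : ∀ l, E l = Submodule.span κ ((b.reindex e) '' {i | l ≤ rr (e.symm i)}) := by
    intro l
    rw [hb l]
    congr 1
    ext x
    constructor
    · rintro ⟨i, hi, rfl⟩
      exact ⟨e i, by simpa using hi, by simp⟩
    · rintro ⟨i, hi, rfl⟩
      exact ⟨e.symm i, by simpa using hi, by simp⟩
  have hF' : ∀ l, chowFil f' (fun i => ((b.reindex e) i : CRing f')) (fun i => rr (e.symm i)) 1 l =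
      D.red k (F l) := by
    intro l
    rw [chowFil_one, ← hEmap l, hE' l, Submodule.map_span, ← Set.image_comp]
    rfl
  have hcard : ∀ l, (univ.filter fun i => l ≤ rr (e.symm i)).card =
      (univ.filter fun i => l ≤ r i).card := by
    intro l
    rw [← hrank l, ← hF' l, finrank_chowFil_one (b.reindex e) (fun i => rr (e.symm i)) l]
  refine ⟨?_, hcard, ?_, hF'⟩
  · have hle : ∀ i, rr (e.symm i) ≤ ∑ i, r i := by
      intro i
      by_contra hcon
      have h1 := hcard ((∑ i, r i) + 1)
      have h2 : (univ.filter fun i => (∑ i, r i) + 1 ≤ r i) = ∅ := by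
        rw [filter_eq_empty_iff]
        intro i _ h
        have : r i ≤ ∑ i, r i := single_le_sum (fun _ _ => Nat.zero_le _) (mem_univ i)
        omega
      rw [h2, card_empty, card_eq_zero, filter_eq_empty_iff] at h1
      exact h1 (mem_univ i) (by omega)
    exact (sum_layer univ _ (∑ i, r i) (fun i _ => hle i)).trans
      ((sum_congr rfl fun l _ => hcard l).trans
        (sum_layer univ r (∑ i, r i)
          (fun i hi => single_le_sum (fun _ _ => Nat.zero_le _) hi)).symm)
  · intro m l
    have hprod : ∀ m (j : Fin m → Fin N), ∏ i, ((b.reindex e) (j i) : CRing f') ∈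
        D.red (k * m) (chowFil f S r m (∑ i, rr (e.symm (j i)))) := by
      intro m
      induction m with
      | zero =>
        intro j
        simp only [univ_eq_empty, prod_empty, mul_zero, sum_empty]
        exact D.one_mem _ (one_mem_chowFil S r)
      | succ m ih =>
        intro j
        rw [Fin.prod_univ_castSucc, Fin.sum_univ_castSucc, Nat.mul_succ]
        have h1 := ih (fun i => j i.castSucc)
        have h2 : ((b.reindex e) (j (Fin.last m)) : CRing f') ∈
            D.red k (F (rr (e.symm (j (Fin.last m))))) := by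
          rw [← hF']
          exact mem_chowFil_one _ (fun i => rr (e.symm i)) le_rfl
        have h3 := D.mul_mem _ _ _ _ _ _ h1 h2
        exact D.mono _ _ _ (chowFil_mul_le S r _ _ _ _) h3
    have h1 : chowFil f' (fun i => ((b.reindex e) i : CRing f')) (fun i => rr (e.symm i)) m l ≤
        D.red (k * m) (chowFil f S r m l) := by
      rw [chowFil, Submodule.span_le]
      rintro x ⟨j, hj, rfl⟩
      exact D.mono _ _ _ (chowFil_anti S r m hj) (hprod m j)
    have : Module.Finite κ (D.red (k * m) (chowFil f S r m l)) :=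
      Submodule.finiteDimensional_of_le (D.le_sec _ _)
    exact (Submodule.finrank_mono h1).trans (D.finrank_le _ _ (chowFil_le_sec S r hS m l))


/-- filtrations of weight zero reduce to filtrations of weight zero -/
theorem Degen.exists_bad (D : Degen f f') {k N : ℕ} (hf : f.IsHomogeneous 3) (hf0 : f ≠ 0)
    (hf' : f'.IsHomogeneous 3) (hf0' : f' ≠ 0)
    (s : Module.Basis (Fin N) K (sec f k)) (r : Fin N → ℕ)
    (hb : Bad f k (fun i => (s i : CRing f)) r) (hr : ∃ i j, r i ≠ r j) :
    ∃ (s' : Module.Basis (Fin N) κ (sec f' k)) (r' : Fin N → ℕ), ∑ i, r' i = ∑ i, r i ∧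
      (∀ l, (univ.filter fun i => l ≤ r' i).card = (univ.filter fun i => l ≤ r i).card) ∧
      (∀ l, chowFil f' (fun i => (s' i : CRing f')) r' 1 l =
        D.red k (chowFil f (fun i => (s i : CRing f)) r 1 l)) ∧
      Bad f' k (fun i => (s' i : CRing f')) r' ∧ ∃ i j, r' i ≠ r' j := by
  classical
  obtain ⟨s', r', h1, h2, h3, h4⟩ := D.exists_basis' hf hf0 hf' hf0' s r
  refine ⟨s', r', h1, h2, h4, ?_, ?_⟩
  · intro ε hε hcon
    apply hb ε hε
    filter_upwards [hcon] with m hm
    have e1 : (∑ i, (r' i : ℝ)) = ∑ i, (r i : ℝ) := by exact_mod_cast h1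
    have e2 : Module.finrank κ (sec f' (k * m)) = Module.finrank K (sec f (k * m)) := by
      have h1 := two_mul_finrank_sec hf hf0 (k * m)
      have h2 := two_mul_finrank_sec hf' hf0' (k * m)
      omega
    rw [e1, e2] at hm
    refine hm.trans ?_
    have e3 : chowWt f' (fun i => (s' i : CRing f')) r' m ≤
        chowWt f (fun i => (s i : CRing f)) r m := by
      rw [chowWt, chowWt, h1]
      exact sum_le_sum fun l _ => h3 m l
    gcongr
  · obtain ⟨i, j, hij⟩ := hr
    by_contra hcon
    push Not at hcon
    wlog hlt : r i < r j generalizing i j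
    · exact this j i hij.symm (by omega)
    have e1 := h2 (r j)
    have e2 : (univ.filter fun a => r j ≤ r' a) = ∅ ∨
        (univ.filter fun a => r j ≤ r' a) = univ := by
      by_cases h : r j ≤ r' i
      · right; rw [filter_eq_self]; intro a _; rw [hcon a i]; exact h
      · left; rw [filter_eq_empty_iff]; intro a _; rw [hcon a i]; exact h
    have h4 : j ∈ univ.filter fun a => r j ≤ r a := by simp
    have h5 : i ∉ univ.filter fun a => r j ≤ r a := by simp; omega
    rcases e2 with e2 | e2
    · rw [e2, card_empty] at e1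
      exact absurd (card_eq_zero.mp e1.symm) (ne_empty_of_mem h4)
    · rw [e2] at e1
      have := (card_eq_iff_eq_univ _).mp (e1.symm)
      rw [this] at h5
      exact h5 (mem_univ i)

/-- composition of reductions -/
noncomputable def SDegen.comp {κ' : Type*} [Field κ'] {g : MvPolynomial (Fin 4) κ}
    {f'' : MvPolynomial (Fin 4) κ'} (D : SDegen f f') (D' : SDegen g f'') (h : f' = g) :
    SDegen f f'' where
  red W := D'.red (D.red W)
  le_Sn n W hW := D'.le_Sn n _ (D.le_Sn n W hW)
  mono W W' hW := D'.mono _ _ (D.mono _ _ hW)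
  finrank_eq n W hW := by rw [D'.finrank_eq n _ (D.le_Sn n W hW), D.finrank_eq n W hW]
  mul_mem W W' x y hx hy := by
    have h1 := D'.mul_mem _ _ x y hx hy
    refine D'.mono _ _ ?_ h1
    rw [Submodule.mul_le]
    intro a ha b hb
    exact D.mul_mem _ _ _ _ ha hb
  one_mem W hW := D'.one_mem _ (D.one_mem _ hW)
  f_mem := by
    subst h
    refine D'.mono _ _ ?_ D'.f_mem
    rw [Submodule.span_singleton_le_iff_mem]
    exact D.f_mem

lemma SDegen.comp_red {κ' : Type*} [Field κ'] {g : MvPolynomial (Fin 4) κ}
    {f'' : MvPolynomial (Fin 4) κ'} (D : SDegen f f') (D' : SDegen g f'') (h : f' = g)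
    (W : Submodule K (MvPolynomial (Fin 4) K)) : (D.comp D' h).red W = D'.red (D.red W) := rfl

lemma SDegen.toDegen_red (D : SDegen f f') (hf : f.IsHomogeneous 3) (hf0 : f ≠ 0)
    (hf' : f'.IsHomogeneous 3) (hf0' : f' ≠ 0) (n : ℕ) (W : Submodule K (CRing f)) :
    (D.toDegen hf hf0 hf' hf0').red n W = (D.red (pre f n W)).map (qm f').toLinearMap := rfl

/-- elements of a reduction lift, for surjective `π` -/
lemma exists_lift_redV {O : Type*} [CommRing O] [Algebra O K] (π : O →+* κ)
    (hπ : Function.Surjective π) (W : Submodule K (MvPolynomial (Fin 4) K))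
    {x : MvPolynomial (Fin 4) κ} (hx : x ∈ redV O π W) :
    ∃ G : MvPolynomial (Fin 4) O, map (algebraMap O K) G ∈ W ∧ map π G = x := by
  rw [redV] at hx
  induction hx using Submodule.span_induction with
  | mem x h => exact h
  | zero => exact ⟨0, by rw [map_zero]; exact W.zero_mem, map_zero _⟩
  | add x y _ _ hx hy =>
    obtain ⟨G, hG, rfl⟩ := hx
    obtain ⟨G', hG', rfl⟩ := hy
    exact ⟨G + G', by rw [map_add]; exact W.add_mem hG hG', map_add _ _ _⟩
  | smul c x _ hx =>
    obtain ⟨G, hG, rfl⟩ := hx
    obtain ⟨a, rfl⟩ := hπ c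
    refine ⟨C a * G, ?_, ?_⟩
    · rw [map_mul, map_C, ← smul_eq_C_mul]; exact W.smul_mem _ hG
    · rw [map_mul, map_C, smul_eq_C_mul]

end Pool.Agent.Helper223
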