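import Pool.Agent.Helper223_Chow.WallA
import Pool.Agent.Helper223_Chow.Transfer2

/-! The slice forms `w³ - xyz + ∑ (α w² x_i + β w x_i² + γ x_i³)`. -/

open MvPolynomial Finset Filter

namespace Pool.Agent.Helper223

/-- the slice form -/
noncomputable def FS {R : Type*} [CommRing R] (a b c : Fin 3 → R) : MvPolynomial (Fin 4) R :=
  X 3 ^ 3 - X 0 * X 1 * X 2 + ∑ i : Fin 3, (C (a i) * (X 3 ^ 2 * X i.castSucc) +
    C (b i) * (X 3 * X i.castSucc ^ 2) + C (c i) * X i.castSucc ^ 3)

lemma FS_homog {R : Type*} [CommRing R] (a b c : Fin 3 → R) : (FS a b c).IsHomogeneous 3 := by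
  unfold FS
  have h := fun i : Fin 4 => isHomogeneous_X R i
  refine IsHomogeneous.add (IsHomogeneous.sub ?_ ?_) (IsHomogeneous.sum _ _ _ fun i _ =>
    IsHomogeneous.add (IsHomogeneous.add ?_ ?_) ?_)
  · simpa using (h 3).pow 3
  · exact ((h 0).mul (h 1)).mul (h 2)
  · exact (((h 3).pow 2).mul (h _)).C_mul _
  · exact ((h 3).mul ((h _).pow 2)).C_mul _
  · simpa using ((h _).pow 3).C_mul _

lemma FS_ne_zero {R : Type*} [CommRing R] [Nontrivial R] (a b c : Fin 3 → R) :
    FS a b c ≠ 0 := by
  intro h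
  have h1 := congrArg (aeval (![0, 0, 0, 1] : Fin 4 → R)) h
  simp [FS, Fin.sum_univ_three] at h1

lemma map_FS {R S : Type*} [CommRing R] [CommRing S] (φ : R →+* S) (a b c : Fin 3 → R) :
    map φ (FS a b c) = FS (fun i => φ (a i)) (fun i => φ (b i)) (fun i => φ (c i)) := by
  simp [FS]

lemma FS_zero (K : Type*) [Field K] : FS (0 : Fin 3 → K) 0 0 = f0 K := by
  simp [FS, f0]

lemma mo_ev {u : Fin 4 →₀ ℕ} (h : min (u 0) (min (u 1) (u 2)) = 0) : mo (ev u) = u := by
  ext i
  fin_cases i <;> simp [mo, ev] <;> omega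

section nak

variable {O : Type*} [CommRing O] [IsLocalRing O]

omit [IsLocalRing O] in
lemma homog_span (n : ℕ) : homogeneousSubmodule (Fin 4) O n =
    Submodule.span O ((fun u => (monomial u 1 : MvPolynomial (Fin 4) O)) '' (expo n : Set _)) := by
  apply le_antisymm
  · intro H hH
    rw [H.as_sum]
    apply Submodule.sum_mem
    intro u hu
    have e : (monomial u (coeff u H) : MvPolynomial (Fin 4) O) = coeff u H • monomial u 1 := by
      rw [smul_monomial, smul_eq_mul, mul_one]
    rw [e]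
    apply Submodule.smul_mem
    apply Submodule.subset_span
    refine ⟨u, ?_, rfl⟩
    rw [mem_coe, mem_expo]
    have := hH (mem_support_iff.mp hu)
    rw [← this, Finsupp.weight_apply, Finsupp.sum_fintype _ _ (by simp)]
    simp
  · rw [Submodule.span_le]
    rintro _ ⟨u, hu, rfl⟩
    rw [mem_coe, mem_expo] at hu
    exact isHomogeneous_monomial _ (by
      rw [← hu]; exact Finsupp.sum_fintype u (fun _ x => x) (by simp))

/-- the submodule spanned by standard monomials and multiples of `F` -/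
noncomputable def stdSub (F : MvPolynomial (Fin 4) O) (n : ℕ) :
    Submodule O (MvPolynomial (Fin 4) O) :=
  Submodule.span O ((fun a => (monomial (mo a) 1 : MvPolynomial (Fin 4) O)) '' (Lk n : Set _)) ⊔
    (Ideal.span {F}).restrictScalars O

lemma mono_mem_std {a b c : Fin 3 → O} (ha : ∀ i, a i ∈ IsLocalRing.maximalIdeal O)
    (hb : ∀ i, b i ∈ IsLocalRing.maximalIdeal O) (hc : ∀ i, c i ∈ IsLocalRing.maximalIdeal O)
    (n : ℕ) : ∀ (t : ℕ) (u : Fin 4 →₀ ℕ), ∑ i, u i = n → min (u 0) (min (u 1) (u 2)) = t →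
      (monomial u 1 : MvPolynomial (Fin 4) O) ∈ stdSub (FS a b c) n ⊔
        IsLocalRing.maximalIdeal O • homogeneousSubmodule (Fin 4) O n := by
  intro t
  induction t with
  | zero =>
    intro u hu h0
    apply Submodule.mem_sup_left
    apply Submodule.mem_sup_left
    apply Submodule.subset_span
    refine ⟨ev u, ev_mem_Lk hu, ?_⟩
    simp only
    rw [mo_ev h0]
  | succ t ih =>
    intro u hu h0
    rw [Fin.sum_univ_four] at hu
    obtain ⟨v, hv⟩ : ∃ v : Fin 4 →₀ ℕ, v = Finsupp.equivFunOnFinite.symm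
      ![u 0 - 1, u 1 - 1, u 2 - 1, u 3] := ⟨_, rfl⟩
    have v0 : v 0 = u 0 - 1 := by rw [hv]; rfl
    have v1 : v 1 = u 1 - 1 := by rw [hv]; rfl
    have v2 : v 2 = u 2 - 1 := by rw [hv]; rfl
    have v3 : v 3 = u 3 := by rw [hv]; rfl
    have hv' : u = Finsupp.single 0 1 + Finsupp.single 1 1 + Finsupp.single 2 1 + v := by
      ext i; fin_cases i <;> simp [v0, v1, v2, v3] <;> omega
    have h1 := ih (Finsupp.single 3 3 + v) (by
      rw [Fin.sum_univ_four]; simp [v0, v1, v2, v3]; omega) (by
      simp [v0, v1, v2]; omega)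
    have e1 : (monomial u 1 : MvPolynomial (Fin 4) O) = X 0 * X 1 * X 2 * monomial v 1 := by
      conv_lhs => rw [hv']
      rw [X, X, X, monomial_mul, monomial_mul, monomial_mul]; simp
    have e2 : (monomial (Finsupp.single 3 3 + v) 1 : MvPolynomial (Fin 4) O) =
        X 3 ^ 3 * monomial v 1 := by
      rw [X, monomial_pow, monomial_mul]; simp
    have e3 : (monomial u 1 : MvPolynomial (Fin 4) O) = monomial (Finsupp.single 3 3 + v) 1 -
        FS a b c * monomial v 1 + ∑ i : Fin 3, (C (a i) * (X 3 ^ 2 * X i.castSucc *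
          monomial v 1) + C (b i) * (X 3 * X i.castSucc ^ 2 * monomial v 1) +
          C (c i) * (X i.castSucc ^ 3 * monomial v 1)) := by
      rw [e1, e2, FS, Fin.sum_univ_three, Fin.sum_univ_three]; ring
    rw [e3]
    have hvd : (monomial v 1 : MvPolynomial (Fin 4) O).IsHomogeneous (n - 3) := by
      apply isHomogeneous_monomial
      rw [Finsupp.degree_eq_sum, Fin.sum_univ_four]; omega
    have hn : 3 ≤ n := by omega
    have hX := fun i : Fin 4 => isHomogeneous_X O i
    apply Submodule.add_mem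
    · apply Submodule.sub_mem _ h1
      apply Submodule.mem_sup_left
      apply Submodule.mem_sup_right
      exact Ideal.mul_mem_right _ _ (Ideal.mem_span_singleton_self _)
    · apply Submodule.sum_mem
      intro i _
      apply Submodule.mem_sup_right
      have key : ∀ (x : O) (P : MvPolynomial (Fin 4) O), x ∈ IsLocalRing.maximalIdeal O →
          P.IsHomogeneous 3 → C x * (P * monomial v 1) ∈ IsLocalRing.maximalIdeal O •
            homogeneousSubmodule (Fin 4) O n := by
        intro x P hx hP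
        rw [← smul_eq_C_mul]
        apply Submodule.smul_mem_smul hx
        have := hP.mul hvd
        rw [show 3 + (n - 3) = n by omega] at this
        exact this
      refine Submodule.add_mem _ (Submodule.add_mem _ ?_ ?_) ?_
      · exact key _ _ (ha i) (((hX 3).pow 2).mul (hX _))
      · exact key _ _ (hb i) ((hX 3).mul ((hX _).pow 2))
      · exact key _ _ (hc i) (by simpa using (hX i.castSucc).pow 3)

theorem exists_standard {a b c : Fin 3 → O} (ha : ∀ i, a i ∈ IsLocalRing.maximalIdeal O)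
    (hb : ∀ i, b i ∈ IsLocalRing.maximalIdeal O) (hc : ∀ i, c i ∈ IsLocalRing.maximalIdeal O)
    {n : ℕ} {H : MvPolynomial (Fin 4) O} (hH : H.IsHomogeneous n) :
    ∃ (h : (Fin 3 → ℕ) → O) (H' : MvPolynomial (Fin 4) O),
      H = ∑ x ∈ Lk n, C (h x) * monomial (mo x) 1 + FS a b c * H' := by
  classical
  have h1 : homogeneousSubmodule (Fin 4) O n ≤ stdSub (FS a b c) n := by
    apply Submodule.le_of_le_smul_of_le_jacobson_bot (I := IsLocalRing.maximalIdeal O)
    · rw [homog_span]
      exact ⟨(expo n).image (fun u => (monomial u 1 : MvPolynomial (Fin 4) O)), by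
        rw [coe_image]⟩
    · exact IsLocalRing.maximalIdeal_le_jacobson _
    · conv_lhs => rw [homog_span]
      rw [Submodule.span_le]
      rintro _ ⟨u, hu, rfl⟩
      rw [mem_coe, mem_expo] at hu
      exact mono_mem_std ha hb hc n _ u hu rfl
  have h2 := h1 hH
  rw [stdSub, Submodule.mem_sup] at h2
  obtain ⟨P, hP, Q, hQ, rfl⟩ := h2
  have h3 : ∀ P ∈ Submodule.span O ((fun a => (monomial (mo a) 1 :
      MvPolynomial (Fin 4) O)) '' (Lk n : Set _)),
      ∃ h : (Fin 3 → ℕ) → O, P = ∑ x ∈ Lk n, C (h x) * monomial (mo x) 1 := by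
    intro P hP
    induction hP using Submodule.span_induction with
    | mem x hx =>
      obtain ⟨a, ha, rfl⟩ := hx
      refine ⟨fun b => if b = a then 1 else 0, ?_⟩
      rw [Finset.sum_eq_single a]
      · simp
      · intro b _ hba; simp [hba]
      · intro h; exact absurd ha h
    | zero => exact ⟨0, by simp⟩
    | add x y _ _ hx hy =>
      obtain ⟨h, rfl⟩ := hx
      obtain ⟨h', rfl⟩ := hy
      refine ⟨h + h', ?_⟩
      rw [← sum_add_distrib]
      apply sum_congr rfl
      intro x _
      rw [Pi.add_apply, C_add, add_mul]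
    | smul r x _ hx =>
      obtain ⟨h, rfl⟩ := hx
      refine ⟨fun x => r * h x, ?_⟩
      rw [smul_sum]
      apply sum_congr rfl
      intro x _
      rw [C_mul, smul_eq_C_mul, mul_assoc]
  obtain ⟨h, rfl⟩ := h3 P hP
  obtain ⟨H', rfl⟩ := Ideal.mem_span_singleton.mp hQ
  exact ⟨h, H', rfl⟩

end nak

section diag

variable {K : Type*} [Field K]

lemma lsubst_diag_X (d : Fin 4 → K) (i : Fin 4) :
    lsubst (Matrix.diagonal d) (X i) = C (d i) * X i := by
  rw [lsubst_X, Finset.sum_eq_single i]
  · rw [Matrix.diagonal_apply_eq]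
  · intro j _ hj; rw [Matrix.diagonal_apply_ne _ hj.symm, C_0, zero_mul]
  · intro h; exact absurd (mem_univ i) h

lemma lsubst_diag_monomial (d : Fin 4 → K) (u : Fin 4 →₀ ℕ) :
    lsubst (Matrix.diagonal d) (monomial u 1) = (∏ i, d i ^ u i) • monomial u 1 := by
  rw [monomial_eq, C_1, one_mul, Finsupp.prod_fintype _ _ (by simp), map_prod]
  simp only [map_pow, lsubst_diag_X, mul_pow, prod_mul_distrib, smul_eq_C_mul, map_prod]

lemma lsubst_diag_FS (d : Fin 4 → K) (h3 : d 3 = 1) (hp : d 0 * d 1 * d 2 = 1)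
    (a b c : Fin 3 → K) : lsubst (Matrix.diagonal d) (FS a b c) =
      FS (fun i => a i * d i.castSucc) (fun i => b i * d i.castSucc ^ 2)
        (fun i => c i * d i.castSucc ^ 3) := by
  have hC : ∀ x : K, lsubst (Matrix.diagonal d) (C x) = C x := fun x => by
    rw [← algebraMap_eq, AlgHom.commutes]
  have hX := lsubst_diag_X d
  generalize lsubst (Matrix.diagonal d) = φ at *
  have e : (C (d 0) * X 0 * (C (d 1) * X 1) * (C (d 2) * X 2) : MvPolynomial (Fin 4) K) =
      X 0 * X 1 * X 2 := by
    have : (C (d 0) * C (d 1) * C (d 2) : MvPolynomial (Fin 4) K) = 1 := by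
      rw [← C_mul, ← C_mul, hp, C_1]
    linear_combination (X 0 * X 1 * X 2 : MvPolynomial (Fin 4) K) * this
  have e3 : (C (d 3) * X 3 : MvPolynomial (Fin 4) K) = X 3 := by rw [h3, C_1, one_mul]
  rw [FS, FS, map_add, map_sub, map_mul, map_mul, map_pow, hX 0, hX 1, hX 2, hX 3, e, e3,
    map_sum]
  congr 1
  apply sum_congr rfl
  intro i _
  rw [map_add, map_add, map_mul, map_mul, map_mul, map_mul, map_mul, map_pow, map_pow, map_pow,
    hX 3, hX, hC, hC, hC, e3]
  simp only [C_mul, C_pow]
  ring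

end diag

end Pool.Agent.Helper223
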