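import Pool.Agent.Helper223_Chow.EqT

/-! Affinity of the weight function and the bound on generated elements, in the equality case. -/

open MvPolynomial Finset Filter

namespace Pool.Agent.Helper223

variable {K : Type*} [Field K] {f : MvPolynomial (Fin 4) K}

lemma Dec.corner {k : ℕ} {g : (Fin 3 → ℕ) → ℕ} {D : ℕ → (Fin 3 → ℕ) → ℕ → Prop}
    (h : Dec k g D) (i : Fin 3) (n : ℕ) : D n (n • vc k i) (n * g (vc k i)) := by
  have h1 := h.smul (h.one i k 0 (by omega)) n
  rwa [Pt_corner, mul_one] at h1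

namespace TStr

variable (t : TStr f) {k N : ℕ} (s : Module.Basis (Fin N) K (sec f k)) (r : Fin N → ℕ)

/-- the inequality for generated elements -/
lemma star (hf : f.IsHomogeneous 3) (hf0 : f ≠ 0) (hk : 1 ≤ k)
    (hb : Bad f k (fun i => (s i : CRing f)) r) {m : ℕ} {b : Fin 3 → ℕ} {l : ℕ} (hm : 1 ≤ m)
    (h : t.DD (fun i => (s i : CRing f)) r m b l) :
    3 * k * l ≤ ∑ i, b i * t.GG k (fun i => (s i : CRing f)) r i := by
  obtain ⟨e1, e2, e3, e4⟩ := t.equality s r hf hf0 hk hb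
  have hD := t.dec_DD s r
  have hbL : b ∈ Lk (k * m) := by
    obtain ⟨y, hy, hl⟩ := h
    exact t.LD_mem hf hf0 (chowFil_le_sec (k := k) (fun i => (s i : CRing f)) r
      (fun i => (s i).2) m l hy) hl
  have hM := sum_of_mem_Lk hbL
  rw [t.coSum_eq] at e2
  set g := t.gg (fun i => (s i : CRing f)) r with hg
  set G := t.GG k (fun i => (s i : CRing f)) r with hG
  obtain ⟨M, hMdef⟩ : ∃ M, M = 3 * (k * m) := ⟨_, rfl⟩
  rw [← hMdef] at hM
  obtain ⟨c, hc⟩ : ∃ c : Fin 3 → ℕ, ∀ i, c i + b i = M := ⟨fun i => M - b i, fun i => by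
    fin_cases i <;> simp <;> omega⟩
  have h1 := hD.smul h (3 * k)
  have h2 := hD.add (hD.add (hD.add h1 (hD.corner 0 (c 0))) (hD.corner 1 (c 1)))
    (hD.corner 2 (c 2))
  have c0 := hc 0
  have c1 := hc 1
  have c2 := hc 2
  have hq : 3 * k * m + c 0 + c 1 + c 2 = 3 * M := by
    have : 3 * k * m = M := by rw [hMdef]; ring
    omega
  have hv : 3 * k • b + c 0 • vc k 0 + c 1 • vc k 1 + c 2 • vc k 2 = fun _ => 3 * M * k := by
    funext i
    simp only [Pi.add_apply, Pi.smul_apply, smul_eq_mul, vc]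
    fin_cases i
    · simp; rw [← c0]; ring
    · simp; rw [← c1]; ring
    · simp; rw [← c2]; ring
  have hv' : (3 * k) • b + c 0 • vc k 0 + c 1 • vc k 1 + c 2 • vc k 2 =
      fun _ => 3 * M * k := by
    rw [← hv]; congr 3
    funext i; simp [mul_assoc]
  rw [hq, hv'] at h2
  have hMpos : 1 ≤ 3 * M := by
    rw [hMdef]
    have : 1 ≤ k * m := Nat.mul_pos (by omega) (by omega)
    omega
  have h3 := e4 (3 * M) _ hMpos h2
  have g0 : g (vc k 0) = G 0 := rfl
  have g1 : g (vc k 1) = G 1 := rfl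
  have g2 : g (vc k 2) = G 2 := rfl
  rw [g0, g1, g2] at h3
  rw [Fin.sum_univ_three] at e2 ⊢
  have h4 : 3 * M * g (Pt k 0 0 0) = c 0 * G 0 + b 0 * G 0 + (c 1 * G 1 + b 1 * G 1) +
      (c 2 * G 2 + b 2 * G 2) := by
    rw [← add_mul, ← add_mul, ← add_mul, c0, c1, c2]
    calc 3 * M * g (Pt k 0 0 0) = M * (3 * g (Pt k 0 0 0)) := by ring
      _ = M * (G 0 + G 1 + G 2) := by rw [← e2]
      _ = _ := by ring
  omega

lemma sum_GG (hf : f.IsHomogeneous 3) (hf0 : f ≠ 0) (hk : 1 ≤ k)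
    (hb : Bad f k (fun i => (s i : CRing f)) r) :
    N * ∑ i, t.GG k (fun i => (s i : CRing f)) r i = 3 * ∑ i, r i := by
  obtain ⟨e1, e2, e3, e4⟩ := t.equality s r hf hf0 hk hb
  rw [t.coSum_eq] at e2
  rw [e2, ← e3]; ring

lemma two_N (hf : f.IsHomogeneous 3) (hf0 : f ≠ 0) (s : Module.Basis (Fin N) K (sec f k)) :
    2 * N = 3 * k ^ 2 + 3 * k + 2 := by
  have h1 := two_mul_finrank_sec hf hf0 k
  have h2 := Module.finrank_eq_card_basis s
  simp only [Fintype.card_fin] at h2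
  rw [← h2]; exact h1

/-- the weight function is affine -/
lemma affine (hf : f.IsHomogeneous 3) (hf0 : f ≠ 0) (hk : 1 ≤ k)
    (hb : Bad f k (fun i => (s i : CRing f)) r) {a : Fin 3 → ℕ} (ha : a ∈ Lk k) :
    3 * k * t.gg (fun i => (s i : CRing f)) r a =
      ∑ i, a i * t.GG k (fun i => (s i : CRing f)) r i := by
  obtain ⟨e1, e2, e3, e4⟩ := t.equality s r hf hf0 hk hb
  have hle : ∀ a ∈ Lk k, 3 * k * t.gg (fun i => (s i : CRing f)) r a ≤
      ∑ i, a i * t.GG k (fun i => (s i : CRing f)) r i :=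
    fun a ha => t.star s r hf hf0 hk hb le_rfl (t.DD_gg s r ha)
  refine (Finset.sum_eq_sum_iff_of_le hle).mp ?_ a ha
  rw [← mul_sum, e1, sum_comm]
  have hN := two_N hf hf0 s
  have h3 := t.sum_GG s r hf hf0 hk hb
  have h4 : ∀ i : Fin 3, 2 * ∑ a ∈ Lk k, a i * t.GG k (fun i => (s i : CRing f)) r i =
      2 * (N * k * t.GG k (fun i => (s i : CRing f)) r i) := by
    intro i
    rw [← sum_mul, ← mul_assoc, sum_coord_Lk, ← hN]; ring
  have h5 : ∀ i : Fin 3, ∑ a ∈ Lk k, a i * t.GG k (fun i => (s i : CRing f)) r i =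
      N * k * t.GG k (fun i => (s i : CRing f)) r i := fun i => by have := h4 i; omega
  rw [sum_congr rfl fun i _ => h5 i, ← mul_sum]
  calc 3 * k * ∑ i, r i = k * (3 * ∑ i, r i) := by ring
    _ = _ := by rw [← h3]; ring

/-- level sets have the right size -/
lemma card_level (hf : f.IsHomogeneous 3) (hf0 : f ≠ 0) (hk : 1 ≤ k)
    (hb : Bad f k (fun i => (s i : CRing f)) r) (l : ℕ) :
    (univ.filter fun i => l ≤ r i).card =
      ((Lk k).filter fun a => l ≤ t.gg (fun i => (s i : CRing f)) r a).card := by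
  classical
  obtain ⟨e1, e2, e3, e4⟩ := t.equality s r hf hf0 hk hb
  rcases Nat.eq_zero_or_pos l with rfl | hl
  · have h1 := card_Lk k
    have h2 := two_N hf hf0 s
    simp only [Nat.zero_le, filter_true, card_univ, Fintype.card_fin]
    omega
  by_cases hl2 : l ≤ ∑ i, r i
  · have hs1 := sum_layer univ r (∑ i, r i)
      (fun i hi => single_le_sum (fun _ _ => Nat.zero_le _) hi)
    have hs2 := sum_layer (Lk k) (t.gg (fun i => (s i : CRing f)) r) (∑ i, r i)
      (fun a _ => t.gg_le_sum _ _ _)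
    rw [e1] at hs2
    have hs3 := hs1.symm.trans hs2
    exact (Finset.sum_eq_sum_iff_of_le fun l _ => t.card_level_le s r hf hf0 l).mp hs3 l
      (mem_Icc.mpr ⟨hl, hl2⟩)
  · have h1 : (univ.filter fun i => l ≤ r i) = ∅ := by
      rw [filter_eq_empty_iff]
      intro i _ h
      have : r i ≤ ∑ i, r i := single_le_sum (fun _ _ => Nat.zero_le _) (mem_univ i)
      omega
    have h2 : ((Lk k).filter fun a => l ≤ t.gg (fun i => (s i : CRing f)) r a) = ∅ := by
      rw [filter_eq_empty_iff]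
      intro a _ h
      have := t.gg_le_sum (fun i => (s i : CRing f)) r a
      omega
    rw [h1, h2, card_empty, card_empty]

/-- a positive lower bound: an element with leading exponent `a` lies in the step `l` iff
`l ≤ gg a` -/
lemma exists_elt (a : Fin 3 → ℕ) (ha : a ∈ Lk k) :
    ∃ y ∈ chowFil f (fun i => (s i : CRing f)) r 1 (t.gg (fun i => (s i : CRing f)) r a),
      t.LD y a := t.DD_gg s r ha

end TStr

end Pool.Agent.Helper223
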