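import Pool.Agent.Helper223_Chow.Classify
import Pool.Agent.Helper223_Chow.Special

/-! GIT semistable, non-stable cubic surfaces are Chow semistable at every level. -/

open MvPolynomial Finset

namespace Pool.Agent.Helper223

variable {K : Type*} [Field K]

lemma P20_homog {R : Type*} [CommRing R] (c : Fin 20 → R) : (P20 c).IsHomogeneous 3 := by
  have key : ∀ (x : R) (a b d e : ℕ), a + b + d + e = 3 →
      (C x * (X 0 ^ a * X 1 ^ b * X 2 ^ d * X 3 ^ e) : MvPolynomial (Fin 4) R).IsHomogeneous 3 := by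
    intro x a b d e h
    have h1 := ((((isHomogeneous_X_pow (R := R) (0 : Fin 4) a).mul
      (isHomogeneous_X_pow 1 b)).mul (isHomogeneous_X_pow 2 d)).mul
      (isHomogeneous_X_pow 3 e)).C_mul x
    rwa [h] at h1
  unfold P20
  repeat' apply IsHomogeneous.add
  all_goals exact key _ _ _ _ _ (by norm_num)

lemma P20_ne_zero {c : Fin 20 → K} {i : Fin 20} (h : c i ≠ 0) : P20 c ≠ 0 := by
  intro h0
  apply h
  rw [← coeff_P20 c i, h0, coeff_zero]

lemma degenerate_eq {K' : Type*} [Field K'] {T : K'} (hT : T ≠ 0) (d : Fin 20 → K')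
    (h8 : d 8 = 0) (e9 : d 9 = 0) (e12 : d 12 = 0) (e14 : d 14 = 0) (e15 : d 15 = 0)
    (e17 : d 17 = 0) (e18 : d 18 = 0) (e19 : d 19 = 0) :
    P20 ![d 0 * T ^ 6, d 1 * T ^ 5, d 3 * T, d 2 * T ^ 4, d 4 * T ^ 4, d 6, d 5 * T ^ 3, 0, 0,
      d 7 * T ^ 2, d 10 * T ^ 3, 0, d 11 * T ^ 2, 0, 0, d 13 * T, 0, 0, 0, d 16] =
      lsubst (sw (T ^ 2) T 1 (T ^ 3)⁻¹) (P20 d) := by
  rw [sw_P20]
  congr 1
  funext i
  fin_cases i <;> simp only [Fin.zero_eta, Fin.mk_one, Fin.reduceFinMk, Matrix.cons_val,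
      e9, e12, e14, e15, e17, e18, e19, h8, zero_mul, one_pow, mul_one] <;>
      field_simp

/-- forms with an `A₂` singularity in normal form degenerate to the toric cubic -/
theorem semistable_normal {c : Fin 20 → K} (hA : CondA c) (h8 : c 8 = 0) (h6 : c 6 = -1)
    (h16 : c 16 = 1) {k : ℕ} (hk : 1 ≤ k) : ChowSemistableAt (P20 c) k := by
  obtain ⟨e9, e12, e14, e15, e17, e18, e19⟩ := hA
  let O := PowerSeries K
  let K' := FractionRing O
  let π : O →+* K := PowerSeries.constantCoeff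
  let t : O := PowerSeries.X
  let κ : K →+* O := PowerSeries.C
  let G : MvPolynomial (Fin 4) O := P20 ![κ (c 0) * t ^ 6, κ (c 1) * t ^ 5, κ (c 3) * t,
    κ (c 2) * t ^ 4, κ (c 4) * t ^ 4, κ (c 6), κ (c 5) * t ^ 3, 0, 0, κ (c 7) * t ^ 2,
    κ (c 10) * t ^ 3, 0, κ (c 11) * t ^ 2, 0, 0, κ (c 13) * t, 0, 0, 0, κ (c 16)]
  have hG : G.IsHomogeneous 3 := P20_homog _
  have hπt : π t = 0 := PowerSeries.constantCoeff_X
  have hπκ : ∀ x, π (κ x) = x := fun x => PowerSeries.constantCoeff_C x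
  have hπG : map π G = f0 K := by
    rw [map_P20, P20, f0]
    simp only [Matrix.cons_val, map_mul, map_pow, hπt, hπκ, h6, h16, map_zero]
    simp
    ring
  have h1 := semistable_of_valuation (K := K') π G hG hπG hk
  let φ : K →+* K' := (algebraMap O K').comp κ
  let T : K' := algebraMap O K' t
  have hT : T ≠ 0 := by
    intro h0
    have : t = 0 := IsFractionRing.injective O K' (by rw [map_zero]; exact h0)
    exact PowerSeries.X_ne_zero this
  have h2 : map (algebraMap O K') G = lsubst (sw (T ^ 2) T 1 (T ^ 3)⁻¹) (map φ (P20 c)) := by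
    have hφ : ∀ x, algebraMap O K' (κ x) = φ x := fun _ => rfl
    have hTt : algebraMap O K' t = T := rfl
    rw [map_P20 φ c, ← degenerate_eq hT (fun i => φ (c i)) (by rw [h8, map_zero])
      (by rw [e9, map_zero]) (by rw [e12, map_zero]) (by rw [e14, map_zero])
      (by rw [e15, map_zero]) (by rw [e17, map_zero]) (by rw [e18, map_zero])
      (by rw [e19, map_zero]), map_P20]
    congr 1
    funext i
    fin_cases i <;> simp only [Fin.zero_eta, Fin.mk_one, Fin.reduceFinMk, Matrix.cons_val,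
      map_mul, map_pow, hφ, hTt, map_zero]
  rw [h2] at h1
  have hne : P20 c ≠ 0 := P20_ne_zero (i := 16) (by rw [h16]; exact one_ne_zero)
  have hne' : map φ (P20 c) ≠ 0 := by
    intro h0
    exact hne (map_injective _ φ.injective (by rw [h0, map_zero]))
  have h3 := semistable_of_lsubst (by
    rw [sw_det]
    apply isUnit_iff_ne_zero.mpr
    simp [hT]) ((P20_homog c).map φ) hne' h1
  exact semistable_of_extension φ _ (P20_homog c) hne h3

theorem semistable_condN [IsAlgClosed K] {c : Fin 20 → K} (hc : CondN c) {k : ℕ} (hk : 1 ≤ k) :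
    ChowSemistableAt (P20 c) k := by
  obtain ⟨⟨e9, e12, e14, e15, e17, e18, e19⟩, h8, h6, h16⟩ := hc
  obtain ⟨z, hz⟩ := IsAlgClosed.exists_pow_nat_eq ((c 16)⁻¹) (show 0 < 3 by norm_num)
  have hz0 : z ≠ 0 := by
    intro h0; rw [h0] at hz; simp at hz; exact h16 hz.symm
  have hdet : IsUnit (dg (-(c 6)⁻¹) 1 z 1).det := by
    rw [dg_det]; apply isUnit_iff_ne_zero.mpr; simp [h6, hz0]
  apply semistable_of_lsubst hdet (P20_homog c) (P20_ne_zero h16)
  rw [dg_P20]
  apply semistable_normal _ _ _ _ hk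
  · refine ⟨?_, ?_, ?_, ?_, ?_, ?_, ?_⟩ <;>
      simp only [Matrix.cons_val, e9, e12, e14, e15, e17, e18, e19, zero_mul]
  · simp only [Matrix.cons_val, h8, zero_mul]
  · simp only [Matrix.cons_val]
    field_simp
  · simp only [Matrix.cons_val]
    rw [hz, mul_inv_cancel₀ h16]

/-- Over an algebraically closed field, a cubic form that is GIT semistable but not GIT stable
is Chow semistable at every level. -/
theorem semistable_of_strictly [IsAlgClosed K] {f : MvPolynomial (Fin 4) K}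
    (hf : f.IsHomogeneous 3) (hf0 : f ≠ 0) (hs : GITSemistable f) (hns : ¬ GITStable f) {k : ℕ}
    (hk : 1 ≤ k) : ChowSemistableAt f k := by
  obtain ⟨c, ⟨g, hg, hF⟩, hc⟩ := normal_form hf hs hns
  apply semistable_of_lsubst hg hf hf0
  rw [← hF]
  exact semistable_condN hc hk

end Pool.Agent.Helper223
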