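import Pool.Agent.Helper223_Chow.Flip

/-! Toric structures on the surfaces `w³ + α w² x + β w x² + γ x³ = x y z`. -/

open MvPolynomial Finset Filter

namespace Pool.Agent.Helper223

variable {K : Type*} [Field K] {f : MvPolynomial (Fin 4) K}

/-- the form `w³ + α w² x + β w x² + γ x³ - x y z` with `(x, y, z, w) = (X 0, X 1, X 2, X 3)` -/
noncomputable def FW {R : Type*} [CommRing R] (α β γ : R) : MvPolynomial (Fin 4) R :=
  X 3 ^ 3 + C α * (X 3 ^ 2 * X 0) + C β * (X 3 * X 0 ^ 2) + C γ * X 0 ^ 3 - X 0 * X 1 * X 2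

lemma f0_eq_FW : f0 K = FW 0 0 0 := by simp [f0, FW]

lemma FW_homog {R : Type*} [CommRing R] (α β γ : R) : (FW α β γ).IsHomogeneous 3 := by
  unfold FW
  have h30 := isHomogeneous_X R (3 : Fin 4)
  have h00 := isHomogeneous_X R (0 : Fin 4)
  have h10 := isHomogeneous_X R (1 : Fin 4)
  have h20 := isHomogeneous_X R (2 : Fin 4)
  refine IsHomogeneous.sub (IsHomogeneous.add (IsHomogeneous.add (IsHomogeneous.add ?_ ?_) ?_)
    ?_) ?_
  · simpa using h30.pow 3
  · exact ((h30.pow 2).mul h00).C_mul α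
  · exact (h30.mul (h00.pow 2)).C_mul β
  · simpa using (h00.pow 3).C_mul γ
  · exact (h00.mul h10).mul h20

lemma FW_ne_zero (α β γ : K) : FW α β γ ≠ 0 := by
  intro h
  have h1 := congrArg (aeval (![0, 0, 0, 1] : Fin 4 → K)) h
  simp [FW] at h1

lemma map_FW {R S : Type*} [CommRing R] [CommRing S] (φ : R →+* S) (α β γ : R) :
    map φ (FW α β γ) = FW (φ α) (φ β) (φ γ) := by simp [FW]

/-- a monomial with given exponent -/
noncomputable def mon (K : Type*) [Field K] (e : Fin 3 → ℕ) : MvPolynomial (Fin 3) K :=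
  monomial (Finsupp.equivFunOnFinite.symm e) 1

lemma mon_mul (e e' : Fin 3 → ℕ) : mon K e * mon K e' = mon K (e + e') := by
  have h : Finsupp.equivFunOnFinite.symm e + Finsupp.equivFunOnFinite.symm e' =
      Finsupp.equivFunOnFinite.symm (e + e') := by ext i; simp
  rw [mon, mon, monomial_mul, mul_one, mon, h]

lemma mon_pow (e : Fin 3 → ℕ) (n : ℕ) : mon K e ^ n = mon K (n • e) := by
  have h : n • Finsupp.equivFunOnFinite.symm e =
      Finsupp.equivFunOnFinite.symm (n • e) := by ext i; simp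
  rw [mon, monomial_pow, one_pow, mon, h]

lemma mon_ne (e : Fin 3 → ℕ) : mon K e ≠ 0 := by simp [mon]

lemma lexp_mon (e : Fin 3 → ℕ) : lexp (mon K e) = e := by
  rw [mon, lexp_monomial _ one_ne_zero]; rfl

lemma lexp_add_of_lt {p q : MvPolynomial (Fin 3) K} (hp : p ≠ 0)
    (h : q = 0 ∨ lexLT (lexp q) (lexp p)) : p + q ≠ 0 ∧ lexp (p + q) = lexp p := by
  rcases h with h | h
  · rw [h, add_zero]; exact ⟨hp, rfl⟩
  · have := lexp_sub_of_lt (q := -q) hp (by
      have e : lexp (-q) = lexp q := by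
        have := lexp_smul (p := q) (c := (-1 : K)) (by norm_num)
        rwa [neg_one_smul] at this
      rwa [e])
    rwa [sub_neg_eq_add] at this

/-- constructor -/
noncomputable def mkT (f : MvPolynomial (Fin 4) K) (A : (Fin 3 → ℕ) →+ (Fin 3 → ℕ))
    (inj : Function.Injective A) (p : Fin 4 → MvPolynomial (Fin 3) K)
    (h0 : aeval p f = 0) (hx : ∀ i : Fin 3, p i.castSucc ≠ 0 ∧
      lexp (p i.castSucc) = A (Pi.single i 3)) (hw : p 3 ≠ 0 ∧ lexp (p 3) = A (fun _ => 1)) :
    TStr f where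
  ψ := Ideal.Quotient.liftₐ _ (aeval p) (by
    intro a ha
    obtain ⟨b, rfl⟩ := Ideal.mem_span_singleton.mp ha
    rw [map_mul, h0, zero_mul])
  A := A
  inj := inj
  hx i := by
    have : (Ideal.Quotient.liftₐ (Ideal.span {f}) (aeval p) (by
      intro a ha
      obtain ⟨b, rfl⟩ := Ideal.mem_span_singleton.mp ha
      rw [map_mul, h0, zero_mul])) (qm f (X i.castSucc)) = p i.castSucc := aeval_X p _
    rw [this]; exact hx i
  hw := by
    have : (Ideal.Quotient.liftₐ (Ideal.span {f}) (aeval p) (by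
      intro a ha
      obtain ⟨b, rfl⟩ := Ideal.mem_span_singleton.mp ha
      rw [map_mul, h0, zero_mul])) (qm f (X 3)) = p 3 := aeval_X p _
    rw [this]; exact hw

lemma mkT_ψ (f : MvPolynomial (Fin 4) K) (A : (Fin 3 → ℕ) →+ (Fin 3 → ℕ)) (inj) (p) (h0)
    (hx) (hw) (F : MvPolynomial (Fin 4) K) : (mkT f A inj p h0 hx hw).ψ (qm f F) = aeval p F :=
  rfl

/-- toric structures on `w³ + α w² x + β w x² + γ x³ = x y z` -/
noncomputable def tW (α β γ : K) (A : (Fin 3 → ℕ) →+ (Fin 3 → ℕ))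
    (inj : Function.Injective A) (e1 e2 e3 : Fin 3 → ℕ)
    (h1 : α = 0 ∨ (A (Pi.single 1 3) + e1 = A (fun _ => 2) ∧ lexLT e1 (A (Pi.single 2 3))))
    (h2 : β = 0 ∨ (A (Pi.single 1 3) + e2 = A (Pi.single 0 3 + fun _ => 1) ∧
      lexLT e2 (A (Pi.single 2 3))))
    (h3 : γ = 0 ∨ (A (Pi.single 1 3) + e3 = A (Pi.single 0 6) ∧
      lexLT e3 (A (Pi.single 2 3)))) : TStr (FW α β γ) :=
  mkT (FW α β γ) A inj ![mon K (A (Pi.single 0 3)), mon K (A (Pi.single 1 3)),
    mon K (A (Pi.single 2 3)) + α • mon K e1 + β • mon K e2 + γ • mon K e3,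
    mon K (A (fun _ => 1))] (by
      have key : ∀ (c : K) (e : Fin 3 → ℕ) (q : MvPolynomial (Fin 3) K),
          (c = 0 ∨ mon K (A (Pi.single 0 3)) * mon K (A (Pi.single 1 3)) * mon K e = q) →
          mon K (A (Pi.single 0 3)) * mon K (A (Pi.single 1 3)) * (c • mon K e) = c • q := by
        rintro c e q (rfl | rfl)
        · simp
        · rw [mul_smul_comm]
      have k1 := key α e1 (mon K (A fun _ => 1) ^ 2 * mon K (A (Pi.single 0 3))) (by
        rcases h1 with h1 | h1
        · exact Or.inl h1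
        · right
          rw [mon_mul, mon_mul, mon_pow, mon_mul, add_assoc, h1.1, ← map_nsmul, add_comm]
          congr 3)
      have k2 := key β e2 (mon K (A fun _ => 1) * mon K (A (Pi.single 0 3)) ^ 2) (by
        rcases h2 with h2 | h2
        · exact Or.inl h2
        · right
          rw [mon_mul, mon_mul, mon_pow, mon_mul, add_assoc, h2.1, ← map_nsmul, ← map_add,
            ← map_add]
          congr 2
          funext i; fin_cases i <;> simp)
      have k3 := key γ e3 (mon K (A (Pi.single 0 3)) ^ 3) (by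
        rcases h3 with h3 | h3
        · exact Or.inl h3
        · right
          rw [mon_mul, mon_mul, mon_pow, add_assoc, h3.1, ← map_nsmul, ← map_add]
          congr 2
          funext i; fin_cases i <;> simp)
      have k0 : mon K (A (Pi.single 0 3)) * mon K (A (Pi.single 1 3)) *
          mon K (A (Pi.single 2 3)) = mon K (A fun _ => 1) ^ 3 := by
        rw [mon_mul, mon_mul, mon_pow, ← map_nsmul, ← map_add, ← map_add]
        congr 2
        funext i; fin_cases i <;> simp
      simp only [FW, map_sub, map_add, map_mul, map_pow, aeval_X, aeval_C, algebraMap_eq]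
      simp only [Matrix.cons_val]
      rw [mul_add, mul_add, mul_add, k0, k1, k2, k3]
      simp only [smul_eq_C_mul]
      ring) (by
      have key : ∀ (p : MvPolynomial (Fin 3) K), (p ≠ 0 ∧ lexp p = A (Pi.single 2 3)) →
          ∀ (c : K) (e : Fin 3 → ℕ), (c = 0 ∨ lexLT e (A (Pi.single 2 3))) →
          (p + c • mon K e ≠ 0 ∧ lexp (p + c • mon K e) = A (Pi.single 2 3)) := by
        rintro p ⟨hp, hpl⟩ c e hc
        have := lexp_add_of_lt (q := c • mon K e) hp (by
          by_cases hc0 : c = 0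
          · left; rw [hc0, zero_smul]
          · right
            rcases hc with h | h
            · exact absurd h hc0
            · rw [lexp_smul hc0, lexp_mon, hpl]; exact h)
        exact ⟨this.1, this.2.trans hpl⟩
      intro i
      fin_cases i
      · exact ⟨mon_ne _, lexp_mon _⟩
      · exact ⟨mon_ne _, lexp_mon _⟩
      · exact key _ (key _ (key _ ⟨mon_ne _, lexp_mon _⟩ α e1 (h1.imp_right And.right)) β e2
          (h2.imp_right And.right)) γ e3 (h3.imp_right And.right)) ⟨mon_ne _, lexp_mon _⟩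

lemma tW_A (α β γ : K) (A) (inj) (e1 e2 e3) (h1) (h2) (h3) :
    (tW α β γ A inj e1 e2 e3 h1 h2 h3).A = A := rfl

/-- order homomorphism with given first two rows, the third being the total degree -/
def rowHom (z1 z2 : (Fin 3 → ℕ) →+ ℕ) : (Fin 3 → ℕ) →+ (Fin 3 → ℕ) where
  toFun a := ![z1 a, z2 a, tot a]
  map_zero' := by funext i; fin_cases i <;> simp [tot]
  map_add' a b := by funext i; fin_cases i <;> simp [tot]; ring

/-- linear functional with coefficients `c` -/
def linHom (c : Fin 3 → ℕ) : (Fin 3 → ℕ) →+ ℕ where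
  toFun a := c 0 * a 0 + c 1 * a 1 + c 2 * a 2
  map_zero' := by simp
  map_add' a b := by simp; ring

lemma linHom_apply (c a : Fin 3 → ℕ) : linHom c a = c 0 * a 0 + c 1 * a 1 + c 2 * a 2 := rfl

lemma linHom_ijl {i j l : Fin 3} (hij : i ≠ j) (hil : i ≠ l) (hjl : j ≠ l) (c a : Fin 3 → ℕ) :
    linHom c a = c i * a i + c j * a j + c l * a l := by
  rw [← sum_ijl hij hil hjl (fun m => c m * a m), Fin.sum_univ_three, linHom_apply]

lemma rowHom_inj {z1 z2 : (Fin 3 → ℕ) →+ ℕ}
    (h : ∀ a b, z1 a = z1 b → z2 a = z2 b → tot a = tot b → a = b) :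
    Function.Injective (rowHom z1 z2) := by
  intro a b hab
  have h0 : z1 a = z1 b := congrFun hab 0
  have h1 : z2 a = z2 b := congrFun hab 1
  have h2 : tot a = tot b := congrFun hab 2
  exact h a b h0 h1 h2

lemma lexLT_rowHom {z1 z2 : (Fin 3 → ℕ) →+ ℕ} {a b : Fin 3 → ℕ} (h : tot a = tot b) :
    lexLT (rowHom z1 z2 a) (rowHom z1 z2 b) ↔ z1 a < z1 b ∨ (z1 a = z1 b ∧ z2 a < z2 b) := by
  have e0 : ∀ a, rowHom z1 z2 a 0 = z1 a := fun _ => rfl
  have e1 : ∀ a, rowHom z1 z2 a 1 = z2 a := fun _ => rfl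
  have e2 : ∀ a, rowHom z1 z2 a 2 = tot a := fun _ => rfl
  simp only [lexLT, e0, e1, e2]
  omega

/-- toric structures on `w³ = x y z` -/
noncomputable def t0 (K : Type*) [Field K] (z1 z2 : (Fin 3 → ℕ) →+ ℕ)
    (h : ∀ a b, z1 a = z1 b → z2 a = z2 b → tot a = tot b → a = b) : TStr (f0 K) :=
  mkT (f0 K) (rowHom z1 z2) (rowHom_inj h) ![mon K (rowHom z1 z2 (Pi.single 0 3)),
    mon K (rowHom z1 z2 (Pi.single 1 3)), mon K (rowHom z1 z2 (Pi.single 2 3)),
    mon K (rowHom z1 z2 (fun _ => 1))] (by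
      have k0 : mon K (rowHom z1 z2 (Pi.single 0 3)) * mon K (rowHom z1 z2 (Pi.single 1 3)) *
          mon K (rowHom z1 z2 (Pi.single 2 3)) = mon K (rowHom z1 z2 fun _ => 1) ^ 3 := by
        rw [mon_mul, mon_mul, mon_pow, ← map_nsmul, ← map_add, ← map_add]
        congr 2
        funext i; fin_cases i <;> simp
      simp only [f0, map_sub, map_mul, map_pow, aeval_X]
      simp only [Matrix.cons_val, k0, sub_self]) (by
      intro i
      fin_cases i
      · exact ⟨mon_ne _, lexp_mon _⟩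
      · exact ⟨mon_ne _, lexp_mon _⟩
      · exact ⟨mon_ne _, lexp_mon _⟩) ⟨mon_ne _, lexp_mon _⟩

lemma t0_A (z1 z2 : (Fin 3 → ℕ) →+ ℕ) (h) : (t0 K z1 z2 h).A = rowHom z1 z2 := rfl

end Pool.Agent.Helper223
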