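import Pool.Agent.Helper223_Chow.ClaimB

/-! The toric structures used on the surfaces `w³ + α w² x + β w x² + γ x³ = x y z`. -/

open MvPolynomial Finset Filter

namespace Pool.Agent.Helper223

variable {K : Type*} [Field K]

lemma rH_apply (c d a : Fin 3 → ℕ) : rowHom (linHom c) (linHom d) a =
    ![c 0 * a 0 + c 1 * a 1 + c 2 * a 2, d 0 * a 0 + d 1 * a 1 + d 2 * a 2,
      a 0 + a 1 + a 2] := rfl

/-- lowest `x`, then highest `y` -/
noncomputable def s0 (α β γ : K) : TStr (FW α β γ) :=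
  tW α β γ (rowHom (linHom ![1, 2, 2]) (linHom ![1, 2, 1])) (rowHom_inj (by
    intro a b h1 h2 h3
    simp only [linHom_apply, Matrix.cons_val, tot] at h1 h2 h3
    funext i; fin_cases i <;> simp <;> omega)) ![4, 2, 3] ![2, 1, 3] ![0, 0, 3]
    (Or.inr ⟨by funext i; fin_cases i <;> simp [rH_apply],
      by simp [rH_apply, lexLT]⟩)
    (Or.inr ⟨by funext i; fin_cases i <;> simp [rH_apply],
      by simp [rH_apply, lexLT]⟩)
    (Or.inr ⟨by funext i; fin_cases i <;> simp [rH_apply],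
      by simp [rH_apply, lexLT]⟩)

/-- highest `y`, then highest `z` -/
noncomputable def sa (α β γ : K) : TStr (FW α β γ) :=
  tW α β γ (rowHom (linHom ![1, 2, 1]) (linHom ![0, 0, 1])) (rowHom_inj (by
    intro a b h1 h2 h3
    simp only [linHom_apply, Matrix.cons_val, tot] at h1 h2 h3
    funext i; fin_cases i <;> simp <;> omega)) ![2, 2, 3] ![1, 1, 3] ![0, 0, 3]
    (Or.inr ⟨by funext i; fin_cases i <;> simp [rH_apply],
      by simp [rH_apply, lexLT]⟩)
    (Or.inr ⟨by funext i; fin_cases i <;> simp [rH_apply],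
      by simp [rH_apply, lexLT]⟩)
    (Or.inr ⟨by funext i; fin_cases i <;> simp [rH_apply],
      by simp [rH_apply, lexLT]⟩)

/-- highest `y`, then highest `x` -/
noncomputable def sb (α β γ : K) : TStr (FW α β γ) :=
  tW α β γ (rowHom (linHom ![1, 2, 1]) (linHom ![1, 0, 0])) (rowHom_inj (by
    intro a b h1 h2 h3
    simp only [linHom_apply, Matrix.cons_val, tot] at h1 h2 h3
    funext i; fin_cases i <;> simp <;> omega)) ![2, 2, 3] ![1, 4, 3] ![0, 6, 3]
    (Or.inr ⟨by funext i; fin_cases i <;> simp [rH_apply],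
      by simp [rH_apply, lexLT]⟩)
    (Or.inr ⟨by funext i; fin_cases i <;> simp [rH_apply],
      by simp [rH_apply, lexLT]⟩)
    (Or.inr ⟨by funext i; fin_cases i <;> simp [rH_apply],
      by simp [rH_apply, lexLT]⟩)

/-- highest weight `y - z`, then highest `z` -/
noncomputable def s1 (α β γ : K) : TStr (FW α β γ) :=
  tW α β γ (rowHom (linHom ![1, 2, 0]) (linHom ![0, 0, 1])) (rowHom_inj (by
    intro a b h1 h2 h3
    simp only [linHom_apply, Matrix.cons_val, tot] at h1 h2 h3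
    funext i; fin_cases i <;> simp <;> omega)) ![0, 2, 3] ![0, 1, 3] ![0, 0, 3]
    (Or.inr ⟨by funext i; fin_cases i <;> simp [rH_apply],
      by simp [rH_apply, lexLT]⟩)
    (Or.inr ⟨by funext i; fin_cases i <;> simp [rH_apply],
      by simp [rH_apply, lexLT]⟩)
    (Or.inr ⟨by funext i; fin_cases i <;> simp [rH_apply],
      by simp [rH_apply, lexLT]⟩)

variable {α β γ : K}

lemma s0_A : (s0 α β γ).A = rowHom (linHom ![1, 2, 2]) (linHom ![1, 2, 1]) := rfl
lemma sa_A : (sa α β γ).A = rowHom (linHom ![1, 2, 1]) (linHom ![0, 0, 1]) := rfl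
lemma sb_A : (sb α β γ).A = rowHom (linHom ![1, 2, 1]) (linHom ![1, 0, 0]) := rfl
lemma s1_A : (s1 α β γ).A = rowHom (linHom ![1, 2, 0]) (linHom ![0, 0, 1]) := rfl

lemma flip_ba : FlipData (sb α β γ) (sa α β γ) 0 2 1 where
  hij := by decide
  hil := by decide
  hjl := by decide
  hz a := rfl
  hdir := by
    left
    intro a a' h
    rw [sb_A, rH_apply, rH_apply]
    simp only [Matrix.cons_val, tot] at h ⊢
    omega
  h1 a a' h h' := by
    rw [sb_A, lexLT_rowHom h]
    simp only [linHom_apply, Matrix.cons_val, tot] at h ⊢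
    omega
  h2 a a' h h' := by
    rw [sa_A, lexLT_rowHom h]
    simp only [linHom_apply, Matrix.cons_val, tot] at h ⊢
    omega

lemma ne_vc {k : ℕ} {i : Fin 3} {b : Fin 3 → ℕ} (hb : b ∈ Lk k) (hne : b ≠ vc k i) :
    b 0 + b 1 + b 2 = 3 * k ∧ b i < 3 * k ∧ tot b = tot (vc k i) := by
  have h1 := sum_of_mem_Lk hb
  refine ⟨h1, ?_, by rw [tot_of_mem hb, tot_of_mem (vc_mem k i)]⟩
  by_contra hcon
  apply hne
  funext m
  fin_cases i <;> fin_cases m <;> simp [vc] at hcon ⊢ <;> omega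

section bad

variable {k N : ℕ} (s : Module.Basis (Fin N) K (sec (FW α β γ) k)) (r : Fin N → ℕ) (hk : 1 ≤ k)
  (hb : Bad (FW α β γ) k (fun i => (s i : CRing (FW α β γ))) r)

include hk hb

lemma GG_0a (m : Fin 3) : (s0 α β γ).GG k (fun i => (s i : CRing (FW α β γ))) r m =
    (sa α β γ).GG k (fun i => (s i : CRing (FW α β γ))) r m := by
  refine TStr.GG_eq_of_type _ _ s r (FW_homog _ _ _) (FW_ne_zero _ _ _) hk hb
    (i := 1) (j := 2) (l := 0) (by decide) (by decide) (by decide) ?_ ?_ ?_ ?_ m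
  · intro b hb hne
    obtain ⟨h1, h2, h3⟩ := ne_vc hb hne
    rw [s0_A, lexLT_rowHom h3]
    simp [linHom_apply, vc]; omega
  · intro b hb hne
    obtain ⟨h1, h2, h3⟩ := ne_vc hb hne
    rw [sa_A, lexLT_rowHom h3]
    simp [linHom_apply, vc]; omega
  · intro b hb hne
    obtain ⟨h1, h2, h3⟩ := ne_vc hb hne
    rw [s0_A, lexLT_rowHom h3.symm]
    simp [linHom_apply, vc]; omega
  · intro b hb hne
    obtain ⟨h1, h2, h3⟩ := ne_vc hb hne
    rw [sa_A, lexLT_rowHom h3.symm]
    simp [linHom_apply, vc]; omega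

lemma GG_b1 (m : Fin 3) : (sb α β γ).GG k (fun i => (s i : CRing (FW α β γ))) r m =
    (s1 α β γ).GG k (fun i => (s i : CRing (FW α β γ))) r m := by
  refine TStr.GG_eq_of_type _ _ s r (FW_homog _ _ _) (FW_ne_zero _ _ _) hk hb
    (i := 1) (j := 0) (l := 2) (by decide) (by decide) (by decide) ?_ ?_ ?_ ?_ m
  · intro b hb hne
    obtain ⟨h1, h2, h3⟩ := ne_vc hb hne
    rw [sb_A, lexLT_rowHom h3]
    simp [linHom_apply, vc]; omega
  · intro b hb hne
    obtain ⟨h1, h2, h3⟩ := ne_vc hb hne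
    rw [s1_A, lexLT_rowHom h3]
    simp [linHom_apply, vc]; omega
  · intro b hb hne
    obtain ⟨h1, h2, h3⟩ := ne_vc hb hne
    rw [sb_A, lexLT_rowHom h3.symm]
    simp [linHom_apply, vc]; omega
  · intro b hb hne
    obtain ⟨h1, h2, h3⟩ := ne_vc hb hne
    rw [s1_A, lexLT_rowHom h3.symm]
    simp [linHom_apply, vc]; omega

lemma GG_01 (m : Fin 3) : (s0 α β γ).GG k (fun i => (s i : CRing (FW α β γ))) r m =
    (s1 α β γ).GG k (fun i => (s i : CRing (FW α β γ))) r m := by
  rw [GG_0a s r hk hb, ← GG_b1 s r hk hb]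
  exact (flip_ba.flip s r (FW_homog _ _ _) (FW_ne_zero _ _ _) hk hb m).symm

end bad

end Pool.Agent.Helper223
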