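import Pool.Agent.Helper223_Chow.Fil
import Pool.Agent.Helper223_Chow.Adapted

/-! Transfer of Chow (semi)stability along a reduction of subspaces. -/

open MvPolynomial Finset Filter

namespace Pool.Agent.Helper223

/-- A way to reduce subspaces of the coordinate ring of `f` to subspaces of the coordinate
ring of `f'`, compatible with products and preserving dimensions. -/
structure Degen {K : Type*} [Field K] {κ : Type*} [Field κ] (f : MvPolynomial (Fin 4) K)
    (f' : MvPolynomial (Fin 4) κ) where
  red : ℕ → Submodule K (CRing f) → Submodule κ (CRing f')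
  le_sec : ∀ n W, red n W ≤ sec f' n
  mono : ∀ n W W', W ≤ W' → red n W ≤ red n W'
  finrank_le : ∀ n W, W ≤ sec f n → Module.finrank κ (red n W) ≤ Module.finrank K W
  le_finrank : ∀ n W, W ≤ sec f n → Module.finrank K W ≤ Module.finrank κ (red n W)
  mul_mem : ∀ n n' W W' x y, x ∈ red n W → y ∈ red n' W' → x * y ∈ red (n + n') (W * W')
  one_mem : ∀ W, (1 : CRing f) ∈ W → (1 : CRing f') ∈ red 0 W

variable {K : Type*} [Field K] {κ : Type*} [Field κ] {f : MvPolynomial (Fin 4) K}
    {f' : MvPolynomial (Fin 4) κ}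

lemma chowFil_mul_le {ι : Type*} (s : ι → CRing f) (r : ι → ℕ) (m l m' l' : ℕ) :
    chowFil f s r m l * chowFil f s r m' l' ≤ chowFil f s r (m + m') (l + l') := by
  rw [Submodule.mul_le]
  intro x hx y hy
  exact mul_mem_chowFil s r hx hy

/-- the reduced basis and weights -/
lemma Degen.exists_basis (D : Degen f f') {k N : ℕ} (hf : f.IsHomogeneous 3) (hf0 : f ≠ 0)
    (hf' : f'.IsHomogeneous 3) (hf0' : f' ≠ 0)
    (s : Module.Basis (Fin N) K (sec f k)) (r : Fin N → ℕ) :
    ∃ (s' : Module.Basis (Fin N) κ (sec f' k)) (r' : Fin N → ℕ), ∑ i, r' i = ∑ i, r i ∧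
      (∀ l, (univ.filter fun i => l ≤ r' i).card = (univ.filter fun i => l ≤ r i).card) ∧
      ∀ m l, Module.finrank κ (chowFil f' (fun i => (s' i : CRing f')) r' m l) ≤
        Module.finrank K (chowFil f (fun i => (s i : CRing f)) r m l) := by
  classical
  have hN : Module.finrank K (sec f k) = N := by
    have := Module.finrank_eq_card_basis s
    simpa using this
  have hN' : Module.finrank κ (sec f' k) = N := by
    have h1 := two_mul_finrank_sec hf hf0 k
    have h2 := two_mul_finrank_sec hf' hf0' k
    omega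
  let S : Fin N → CRing f := fun i => (s i : CRing f)
  have hS : ∀ i, S i ∈ sec f k := fun i => (s i).2
  let F : ℕ → Submodule K (CRing f) := fun l => chowFil f S r 1 l
  have hFsec : ∀ l, F l ≤ sec f k := fun l => by
    simpa using chowFil_le_sec (k := k) S r hS 1 l
  have hrank : ∀ l, Module.finrank κ (D.red k (F l)) = (univ.filter fun i => l ≤ r i).card := by
    intro l
    rw [← finrank_chowFil_one s r l]
    exact le_antisymm (D.finrank_le k _ (hFsec l)) (D.le_finrank k _ (hFsec l))
  let E : ℕ → Submodule κ (sec f' k) := fun l => (D.red k (F l)).comap (sec f' k).subtype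
  have hEmap : ∀ l, (E l).map (sec f' k).subtype = D.red k (F l) := by
    intro l
    rw [Submodule.map_comap_subtype]
    exact inf_eq_right.mpr (D.le_sec k _)
  have hErank : ∀ l, Module.finrank κ (E l) = (univ.filter fun i => l ≤ r i).card := by
    intro l
    rw [← hrank l, ← hEmap l]
    exact (Submodule.finrank_map_subtype_eq _ _).symm
  have hEanti : Antitone E := fun a b hab =>
    Submodule.comap_mono (D.mono k _ _ (chowFil_anti S r 1 hab))
  have hE0 : E 0 = ⊤ := by
    apply Submodule.eq_top_of_finrank_eq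
    rw [hErank, hN']
    simp
  have hEL : ∀ l, (∑ i, r i) + 1 ≤ l → E l = ⊥ := by
    intro l hl
    apply Submodule.finrank_eq_zero.mp
    rw [hErank, card_eq_zero, filter_eq_empty_iff]
    intro i _ h
    have : r i ≤ ∑ i, r i := single_le_sum (fun _ _ => Nat.zero_le _) (mem_univ i)
    omega
  obtain ⟨b, rr, hb⟩ := exists_adapted_basis E hEanti hE0 _ hEL
  let e : Fin (Module.finrank κ (sec f' k)) ≃ Fin N := finCongr hN'
  refine ⟨b.reindex e, fun i => rr (e.symm i), ?_⟩
  have hE' : ∀ l, E l = Submodule.span κ ((b.reindex e) '' {i | l ≤ rr (e.symm i)}) := by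
    intro l
    rw [hb l]
    congr 1
    ext x
    constructor
    · rintro ⟨i, hi, rfl⟩
      exact ⟨e i, by simpa using hi, by simp⟩
    · rintro ⟨i, hi, rfl⟩
      exact ⟨e.symm i, by simpa using hi, by simp⟩
  have hF' : ∀ l, chowFil f' (fun i => ((b.reindex e) i : CRing f')) (fun i => rr (e.symm i)) 1 l =
      D.red k (F l) := by
    intro l
    rw [chowFil_one, ← hEmap l, hE' l, Submodule.map_span, ← Set.image_comp]
    rfl
  have hcard : ∀ l, (univ.filter fun i => l ≤ rr (e.symm i)).card =
      (univ.filter fun i => l ≤ r i).card := by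
    intro l
    rw [← hrank l, ← hF' l, finrank_chowFil_one (b.reindex e) (fun i => rr (e.symm i)) l]
  refine ⟨?_, hcard, ?_⟩
  · have hle : ∀ i, rr (e.symm i) ≤ ∑ i, r i := by
      intro i
      by_contra hcon
      have h1 := hcard ((∑ i, r i) + 1)
      have h2 : (univ.filter fun i => (∑ i, r i) + 1 ≤ r i) = ∅ := by
        rw [filter_eq_empty_iff]
        intro i _ h
        have : r i ≤ ∑ i, r i := single_le_sum (fun _ _ => Nat.zero_le _) (mem_univ i)
        omega
      rw [h2, card_empty, card_eq_zero, filter_eq_empty_iff] at h1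
      exact h1 (mem_univ i) (by omega)
    exact (sum_layer univ _ (∑ i, r i) (fun i _ => hle i)).trans
      ((sum_congr rfl fun l _ => hcard l).trans
        (sum_layer univ r (∑ i, r i)
          (fun i hi => single_le_sum (fun _ _ => Nat.zero_le _) hi)).symm)
  · intro m l
    have hprod : ∀ m (j : Fin m → Fin N), ∏ i, ((b.reindex e) (j i) : CRing f') ∈
        D.red (k * m) (chowFil f S r m (∑ i, rr (e.symm (j i)))) := by
      intro m
      induction m with
      | zero =>
        intro j
        simp only [univ_eq_empty, prod_empty, mul_zero, sum_empty]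
        exact D.one_mem _ (one_mem_chowFil S r)
      | succ m ih =>
        intro j
        rw [Fin.prod_univ_castSucc, Fin.sum_univ_castSucc, Nat.mul_succ]
        have h1 := ih (fun i => j i.castSucc)
        have h2 : ((b.reindex e) (j (Fin.last m)) : CRing f') ∈
            D.red k (F (rr (e.symm (j (Fin.last m))))) := by
          rw [← hF']
          exact mem_chowFil_one _ (fun i => rr (e.symm i)) le_rfl
        have h3 := D.mul_mem _ _ _ _ _ _ h1 h2
        exact D.mono _ _ _ (chowFil_mul_le S r _ _ _ _) h3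
    have h1 : chowFil f' (fun i => ((b.reindex e) i : CRing f')) (fun i => rr (e.symm i)) m l ≤
        D.red (k * m) (chowFil f S r m l) := by
      rw [chowFil, Submodule.span_le]
      rintro x ⟨j, hj, rfl⟩
      exact D.mono _ _ _ (chowFil_anti S r m hj) (hprod m j)
    have : Module.Finite κ (D.red (k * m) (chowFil f S r m l)) :=
      Submodule.finiteDimensional_of_le (D.le_sec _ _)
    exact (Submodule.finrank_mono h1).trans (D.finrank_le _ _ (chowFil_le_sec S r hS m l))

lemma Degen.chowWt_le (D : Degen f f') {k N : ℕ} (hf : f.IsHomogeneous 3) (hf0 : f ≠ 0)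
    (hf' : f'.IsHomogeneous 3) (hf0' : f' ≠ 0)
    (s : Module.Basis (Fin N) K (sec f k)) (r : Fin N → ℕ) :
    ∃ (s' : Module.Basis (Fin N) κ (sec f' k)) (r' : Fin N → ℕ), ∑ i, r' i = ∑ i, r i ∧
      ((∃ i j, r i ≠ r j) → ∃ i j, r' i ≠ r' j) ∧
      ∀ m, chowWt f' (fun i => (s' i : CRing f')) r' m ≤
        chowWt f (fun i => (s i : CRing f)) r m := by
  classical
  obtain ⟨s', r', h1, h2, h3⟩ := D.exists_basis hf hf0 hf' hf0' s r
  refine ⟨s', r', h1, ?_, ?_⟩
  · rintro ⟨i, j, hij⟩
    by_contra hcon
    push Not at hcon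
    wlog hlt : r i < r j generalizing i j
    · exact this j i hij.symm (by omega)
    have e1 := h2 (r j)
    have e2 : (univ.filter fun a => r j ≤ r' a) = ∅ ∨
        (univ.filter fun a => r j ≤ r' a) = univ := by
      by_cases h : r j ≤ r' i
      · right; rw [filter_eq_self]; intro a _; rw [hcon a i]; exact h
      · left; rw [filter_eq_empty_iff]; intro a _; rw [hcon a i]; exact h
    have h4 : j ∈ univ.filter fun a => r j ≤ r a := by simp
    have h5 : i ∉ univ.filter fun a => r j ≤ r a := by simp; omega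
    rcases e2 with e2 | e2
    · rw [e2, card_empty] at e1
      exact absurd (card_eq_zero.mp e1.symm) (ne_empty_of_mem h4)
    · rw [e2] at e1
      have := (card_eq_iff_eq_univ _).mp (e1.symm)
      rw [this] at h5
      exact h5 (mem_univ i)
  · intro m
    rw [chowWt, chowWt, h1]
    exact sum_le_sum fun l _ => h3 m l

theorem Degen.semistable (D : Degen f f') {k : ℕ} (hf : f.IsHomogeneous 3) (hf0 : f ≠ 0)
    (hf' : f'.IsHomogeneous 3) (hf0' : f' ≠ 0) (h : ChowSemistableAt f' k) :
    ChowSemistableAt f k := by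
  intro N s r ε hε
  obtain ⟨s', r', h1, _, h3⟩ := D.chowWt_le hf hf0 hf' hf0' s r
  filter_upwards [h N s' r' ε hε] with m hm
  have e1 : (∑ i, (r' i : ℝ)) = ∑ i, (r i : ℝ) := by exact_mod_cast h1
  have e2 : Module.finrank κ (sec f' (k * m)) = Module.finrank K (sec f (k * m)) := by
    have h1 := two_mul_finrank_sec hf hf0 (k * m)
    have h2 := two_mul_finrank_sec hf' hf0' (k * m)
    omega
  rw [e1, e2] at hm
  refine hm.trans ?_
  gcongr
  exact_mod_cast h3 m

theorem Degen.stable (D : Degen f f') {k : ℕ} (hf : f.IsHomogeneous 3) (hf0 : f ≠ 0)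
    (hf' : f'.IsHomogeneous 3) (hf0' : f' ≠ 0) (h : ChowStableAt f' k) :
    ChowStableAt f k := by
  intro N s r hr
  obtain ⟨s', r', h1, h2, h3⟩ := D.chowWt_le hf hf0 hf' hf0' s r
  obtain ⟨ε, hε, h4⟩ := h N s' r' (h2 hr)
  refine ⟨ε, hε, ?_⟩
  filter_upwards [h4] with m hm
  have e1 : (∑ i, (r' i : ℝ)) = ∑ i, (r i : ℝ) := by exact_mod_cast h1
  have e2 : Module.finrank κ (sec f' (k * m)) = Module.finrank K (sec f (k * m)) := by
    have h1 := two_mul_finrank_sec hf hf0 (k * m)
    have h2 := two_mul_finrank_sec hf' hf0' (k * m)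
    omega
  rw [e1, e2] at hm
  refine hm.trans ?_
  gcongr
  exact_mod_cast h3 m

end Pool.Agent.Helper223
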