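import Pool.Agent.Helper223_Chow.PathB

/-! The wall inequality for slice surfaces. -/

open MvPolynomial Finset Filter

namespace Pool.Agent.Helper223

section core

variable {κ : Type*} [Field κ] {α β γ : κ}

lemma wall_core {g : MvPolynomial (Fin 4) κ} (hg : g = FW α β γ) {k N : ℕ} (hk : 1 ≤ k)
    (s : Module.Basis (Fin N) κ (sec g k)) (r : Fin N → ℕ)
    (hb : Bad g k (fun i => (s i : CRing g)) r) (hq : NonCube α β γ)
    (G : Fin 3 → ℕ) (η : (Fin 3 → ℕ) → ℕ)
    (h1 : ∀ x ∈ Lk k, 3 * k * η x = ∑ m, x m * G m) (h2 : ∑ x ∈ Lk k, η x = ∑ i, r i)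
    (h3 : ∀ u ∈ Lk k, ∃ c : (Fin 3 → ℕ) → κ, (∑ x ∈ Lk k, c x • bm g x ∈
      chowFil g (fun i => (s i : CRing g)) r 1 (η u)) ∧ c u ≠ 0 ∧
        ∀ x ∈ Lk k, c x ≠ 0 → x ≠ u → u 0 < x 0) :
    G 1 + G 2 ≤ 2 * G 0 := by
  subst hg
  have hf := FW_homog α β γ
  have hf0 := FW_ne_zero α β γ
  set S := fun i => (s i : CRing (FW α β γ)) with hS
  have hle : ∀ u ∈ Lk k, η u ≤ (s0 α β γ).gg S r u := by
    intro u hu
    obtain ⟨c, c1, c2, c3⟩ := h3 u hu
    apply (s0 α β γ).le_gg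
    refine ⟨_, c1, (s0 α β γ).LD_sum c hu c2 ?_⟩
    intro x hx hcx hxu
    have h4 := c3 x hx hcx hxu
    have t1 := tot_of_mem hx
    have t2 := tot_of_mem hu
    rw [s0_A, lexLT_rowHom (t1.trans t2.symm)]
    left
    simp only [linHom_apply, Matrix.cons_val, tot] at t1 t2 ⊢
    omega
  have hsum := ((s0 α β γ).equality s r hf hf0 hk hb).1
  have heq : ∀ u ∈ Lk k, η u = (s0 α β γ).gg S r u :=
    (Finset.sum_eq_sum_iff_of_le hle).mp (h2.trans hsum.symm)
  have hG : ∀ m, (s0 α β γ).GG k S r m = G m := by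
    intro m
    have h5 := heq _ (vc_mem k m)
    have h6 := h1 _ (vc_mem k m)
    change (s0 α β γ).gg S r (vc k m) = G m
    rw [← h5]
    have h7 : ∑ i, vc k m i * G i = 3 * k * G m := by
      rw [Finset.sum_eq_single m]
      · simp [vc]
      · intro i _ him; simp [vc, him]
      · intro h; exact absurd (mem_univ m) h
    rw [h7] at h6
    exact Nat.eq_of_mul_eq_mul_left (by omega) h6
  have hw := wall_ineq s r hk hb hq
  have e := GG_01 s r hk hb
  rw [← e, ← e, ← e] at hw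
  change (s0 α β γ).GG k S r 1 + (s0 α β γ).GG k S r 2 ≤ 2 * (s0 α β γ).GG k S r 0 at hw
  rw [hG, hG, hG] at hw
  exact hw

/-- permutation matrix exchanging the coordinates `0` and `e` -/
noncomputable def pm (κ : Type*) [Field κ] (e : Fin 3) : Matrix (Fin 4) (Fin 4) κ :=
  fun i j => if Equiv.swap 0 e.castSucc i = j then 1 else 0

lemma lsubst_pm_X (e : Fin 3) (i : Fin 4) :
    lsubst (pm κ e) (X i) = X (Equiv.swap 0 e.castSucc i) := by
  rw [lsubst_X, Finset.sum_eq_single (Equiv.swap 0 e.castSucc i)]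
  · simp [pm]
  · intro j _ hj; simp [pm, hj.symm]
  · intro h; exact absurd (mem_univ _) h

lemma pm_mul (e : Fin 3) : pm κ e * pm κ e = 1 := by
  ext i j
  rw [Matrix.mul_apply, Finset.sum_eq_single (Equiv.swap 0 e.castSucc i)]
  · simp [pm, Matrix.one_apply]
  · intro j _ hj; simp [pm, hj.symm]
  · intro h; exact absurd (mem_univ _) h

lemma pm_det (e : Fin 3) : IsUnit (pm κ e).det := by
  have h : (pm κ e).det * (pm κ e).det = 1 := by rw [← Matrix.det_mul, pm_mul, Matrix.det_one]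
  exact IsUnit.of_mul_eq_one _ h

lemma lsubst_pm_FS (e : Fin 3) (x y z : κ) :
    lsubst (pm κ e) (FS (fun i => if i = e then x else 0) (fun i => if i = e then y else 0)
      (fun i => if i = e then z else 0)) = FW x y z := by
  have hC : ∀ c : κ, lsubst (pm κ e) (C c) = C c := fun c => by
    rw [← algebraMap_eq, AlgHom.commutes]
  have hX := lsubst_pm_X (κ := κ) e
  generalize lsubst (pm κ e) = φ at *
  rw [FS, Fin.sum_univ_three, FW]
  fin_cases e
  · simp only [Fin.zero_eta, if_true, show (1 : Fin 3) ≠ 0 by decide,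
      show (2 : Fin 3) ≠ 0 by decide, if_false, C_0, zero_mul, add_zero, map_add, map_sub,
      map_mul, map_pow, hX, hC]
    simp
    ring
  · simp only [Fin.mk_one, if_true, show (0 : Fin 3) ≠ 1 by decide,
      show (2 : Fin 3) ≠ 1 by decide, if_false, C_0, zero_mul, add_zero, zero_add, map_add,
      map_sub, map_mul, map_pow, hX, hC]
    have e0 : (Equiv.swap 0 (Fin.castSucc (1 : Fin 3))) (0 : Fin 4) = 1 := by decide
    have e1 : (Equiv.swap 0 (Fin.castSucc (1 : Fin 3))) (1 : Fin 4) = 0 := by decide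
    have e1' : (Equiv.swap 0 (Fin.castSucc (1 : Fin 3))) (Fin.castSucc (1 : Fin 3)) = 0 := by
      decide
    have e2 : (Equiv.swap 0 (Fin.castSucc (1 : Fin 3))) (2 : Fin 4) = 2 := by decide
    have e3 : (Equiv.swap 0 (Fin.castSucc (1 : Fin 3))) (3 : Fin 4) = 3 := by decide
    rw [e0, e1, e1', e2, e3]
    ring
  · simp only [Fin.reduceFinMk, if_true, show (0 : Fin 3) ≠ 2 by decide,
      show (1 : Fin 3) ≠ 2 by decide, if_false, C_0, zero_mul, add_zero, zero_add, map_add,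
      map_sub, map_mul, map_pow, hX, hC]
    have e0 : (Equiv.swap 0 (Fin.castSucc (2 : Fin 3))) (0 : Fin 4) = 2 := by decide
    have e1 : (Equiv.swap 0 (Fin.castSucc (2 : Fin 3))) (1 : Fin 4) = 1 := by decide
    have e2 : (Equiv.swap 0 (Fin.castSucc (2 : Fin 3))) (2 : Fin 4) = 0 := by decide
    have e2' : (Equiv.swap 0 (Fin.castSucc (2 : Fin 3))) (Fin.castSucc (2 : Fin 3)) = 0 := by
      decide
    have e3 : (Equiv.swap 0 (Fin.castSucc (2 : Fin 3))) (3 : Fin 4) = 3 := by decide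
    rw [e0, e1, e2, e2', e3]
    ring

/-- permuted lattice point -/
def pt (e : Fin 3) (a : Fin 3 → ℕ) : Fin 3 → ℕ := fun i => a (Equiv.swap 0 e i)

lemma pt_pt (e : Fin 3) (a : Fin 3 → ℕ) : pt e (pt e a) = a := by
  funext i; simp [pt]

lemma pt_zero (e : Fin 3) (a : Fin 3 → ℕ) : pt e a 0 = a e := by simp [pt]

lemma pt_mem {e : Fin 3} {k : ℕ} {a : Fin 3 → ℕ} (ha : a ∈ Lk k) : pt e a ∈ Lk k := by
  rw [mem_Lk_iff] at ha ⊢
  fin_cases e
  · simp [pt]; omega
  · have e0 : (Equiv.swap 0 (1 : Fin 3)) (0 : Fin 3) = 1 := by decide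
    have e1 : (Equiv.swap 0 (1 : Fin 3)) (1 : Fin 3) = 0 := by decide
    have e2 : (Equiv.swap 0 (1 : Fin 3)) (2 : Fin 3) = 2 := by decide
    simp only [pt, Fin.mk_one, e0, e1, e2]; omega
  · have e0 : (Equiv.swap 0 (2 : Fin 3)) (0 : Fin 3) = 2 := by decide
    have e1 : (Equiv.swap 0 (2 : Fin 3)) (1 : Fin 3) = 1 := by decide
    have e2 : (Equiv.swap 0 (2 : Fin 3)) (2 : Fin 3) = 0 := by decide
    simp only [pt, Fin.reduceFinMk, e0, e1, e2]; omega

lemma mo_pt (e : Fin 3) (a : Fin 3 → ℕ) (i : Fin 4) :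
    mo (pt e a) (Equiv.swap 0 e.castSucc i) = mo a i := by
  fin_cases e
  · have h0 : pt 0 a = a := by funext i; simp [pt]
    simp only [Fin.zero_eta, h0]
    simp
  · have e0 : (Equiv.swap 0 (1 : Fin 3)) (0 : Fin 3) = 1 := by decide
    have e1 : (Equiv.swap 0 (1 : Fin 3)) (1 : Fin 3) = 0 := by decide
    have e2 : (Equiv.swap 0 (1 : Fin 3)) (2 : Fin 3) = 2 := by decide
    have f0 : (Equiv.swap 0 (Fin.castSucc (1 : Fin 3))) (0 : Fin 4) = 1 := by decide
    have f1 : (Equiv.swap 0 (Fin.castSucc (1 : Fin 3))) (1 : Fin 4) = 0 := by decide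
    have f2 : (Equiv.swap 0 (Fin.castSucc (1 : Fin 3))) (2 : Fin 4) = 2 := by decide
    have f3 : (Equiv.swap 0 (Fin.castSucc (1 : Fin 3))) (3 : Fin 4) = 3 := by decide
    fin_cases i
    · simp only [Fin.mk_one, Fin.zero_eta, f0]
      simp [mo, pt, e0, e1, e2]; omega
    · simp only [Fin.mk_one, f1]
      simp [mo, pt, e0, e1, e2]; omega
    · simp only [Fin.mk_one, Fin.reduceFinMk, f2]
      simp [mo, pt, e0, e1, e2]; omega
    · simp only [Fin.mk_one, Fin.reduceFinMk, f3]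
      simp [mo, pt, e0, e1, e2]; omega
  · have e0 : (Equiv.swap 0 (2 : Fin 3)) (0 : Fin 3) = 2 := by decide
    have e1 : (Equiv.swap 0 (2 : Fin 3)) (1 : Fin 3) = 1 := by decide
    have e2 : (Equiv.swap 0 (2 : Fin 3)) (2 : Fin 3) = 0 := by decide
    have f0 : (Equiv.swap 0 (Fin.castSucc (2 : Fin 3))) (0 : Fin 4) = 2 := by decide
    have f1 : (Equiv.swap 0 (Fin.castSucc (2 : Fin 3))) (1 : Fin 4) = 1 := by decide
    have f2 : (Equiv.swap 0 (Fin.castSucc (2 : Fin 3))) (2 : Fin 4) = 0 := by decide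
    have f3 : (Equiv.swap 0 (Fin.castSucc (2 : Fin 3))) (3 : Fin 4) = 3 := by decide
    fin_cases i
    · simp only [Fin.reduceFinMk, Fin.zero_eta, f0]
      simp [mo, pt, e0, e1, e2]; omega
    · simp only [Fin.reduceFinMk, Fin.mk_one, f1]
      simp [mo, pt, e0, e1, e2]; omega
    · simp only [Fin.reduceFinMk, f2]
      simp [mo, pt, e0, e1, e2]; omega
    · simp only [Fin.reduceFinMk, f3]
      simp [mo, pt, e0, e1, e2]; omega

lemma lsubst_pm_mono (e : Fin 3) (a : Fin 3 → ℕ) :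
    lsubst (pm κ e) (monomial (mo a) 1) = monomial (mo (pt e a)) 1 := by
  rw [monomial_eq, monomial_eq, C_1, one_mul, one_mul, Finsupp.prod_fintype _ _ (by simp),
    Finsupp.prod_fintype _ _ (by simp), map_prod]
  simp only [map_pow, lsubst_pm_X]
  rw [← Equiv.prod_comp (Equiv.swap 0 e.castSucc) (fun i => X i ^ mo (pt e a) i)]
  apply prod_congr rfl
  intro i _
  rw [mo_pt]

lemma sum_pt (e : Fin 3) (k : ℕ) {M : Type*} [AddCommMonoid M] (F : (Fin 3 → ℕ) → M) :
    ∑ x ∈ Lk k, F (pt e x) = ∑ x ∈ Lk k, F x := by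
  refine Finset.sum_bij' (fun a _ => pt e a) (fun a _ => pt e a) ?_ ?_ ?_ ?_ ?_
  · intro a ha; exact pt_mem ha
  · intro a ha; exact pt_mem ha
  · intro a _; exact pt_pt e a
  · intro a _; exact pt_pt e a
  · intro a _; rfl

lemma lsubst_pm_stdF (e : Fin 3) (k : ℕ) (c : (Fin 3 → ℕ) → κ) :
    lsubst (pm κ e) (stdF k c) = stdF k (fun x => c (pt e x)) := by
  rw [stdF, stdF, map_sum, ← sum_pt e k (fun x => C (c (pt e x)) * monomial (mo x) 1)]
  apply sum_congr rfl
  intro x _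
  rw [map_mul, lsubst_pm_mono, ← algebraMap_eq, AlgHom.commutes, pt_pt]

end core

end Pool.Agent.Helper223
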