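import Pool.Agent.Helper223_Chow.TWall

/-! The inequality for corner values on the wall surfaces. -/

open MvPolynomial Finset Filter

namespace Pool.Agent.Helper223

variable {K : Type*} [Field K] {α β γ : K}

/-- the cubic polynomial of the wall surface -/
noncomputable def qq (α β γ : K) : Polynomial K :=
  Polynomial.X ^ 3 + Polynomial.C α * Polynomial.X ^ 2 + Polynomial.C β * Polynomial.X +
    Polynomial.C γ

lemma qq_monic : (qq α β γ).Monic ∧ (qq α β γ).natDegree = 3 := by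
  have h : (Polynomial.C α * Polynomial.X ^ 2 + Polynomial.C β * Polynomial.X +
      Polynomial.C γ : Polynomial K).degree < (3 : ℕ) :=
    Polynomial.degree_quadratic_lt
  have e : qq α β γ = Polynomial.X ^ 3 + (Polynomial.C α * Polynomial.X ^ 2 +
      Polynomial.C β * Polynomial.X + Polynomial.C γ) := by rw [qq]; ring
  have h1 : (qq α β γ).Monic := by rw [e]; exact Polynomial.monic_X_pow_add h
  refine ⟨h1, ?_⟩
  rw [e, Polynomial.natDegree_add_eq_left_of_degree_lt]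
  · simp
  · rw [Polynomial.degree_X_pow]; exact h

/-- the images of the coordinates -/
noncomputable def thp (α β γ : K) : Fin 4 → Polynomial (Polynomial K) :=
  ![Polynomial.X, Polynomial.X ^ 2, Polynomial.C (qq α β γ),
    Polynomial.C Polynomial.X * Polynomial.X]

lemma thp_FW : aeval (thp α β γ) (FW α β γ) = 0 := by
  simp only [FW, map_sub, map_add, map_mul, map_pow, aeval_X, aeval_C, thp, Matrix.cons_val]
  have e : ∀ c : K, algebraMap K (Polynomial (Polynomial K)) c =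
      Polynomial.C (Polynomial.C c) := fun _ => rfl
  rw [e, e, e]
  simp only [qq, map_add, map_mul, map_pow]
  ring

/-- the parametrisation of the wall surface by `x = Y, w = τ Y, y = Y², z = q(τ)` -/
noncomputable def Th (α β γ : K) : CRing (FW α β γ) →ₐ[K] Polynomial (Polynomial K) :=
  Ideal.Quotient.liftₐ _ (aeval (thp α β γ)) (by
    intro a ha
    obtain ⟨b, rfl⟩ := Ideal.mem_span_singleton.mp ha
    rw [map_mul, thp_FW, zero_mul])

lemma Th_qm (F : MvPolynomial (Fin 4) K) : Th α β γ (qm _ F) = aeval (thp α β γ) F := rfl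

/-- the polynomial part of the image of a standard monomial -/
noncomputable def Pm (α β γ : K) (a : Fin 3 → ℕ) : Polynomial K :=
  Polynomial.X ^ (mo a 3) * qq α β γ ^ (mo a 2)

lemma Th_bm (a : Fin 3 → ℕ) : Th α β γ (bm _ a) =
    Polynomial.C (Pm α β γ a) * Polynomial.X ^ (mo a 0 + 2 * mo a 1 + mo a 3) := by
  rw [bm, Th_qm, aeval_monomial, map_one, one_mul, Finsupp.prod_fintype _ _ (by simp),
    Fin.prod_univ_four]
  simp only [thp, Matrix.cons_val, Pm, map_mul, map_pow]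
  ring

lemma Pm_monic (a : Fin 3 → ℕ) : (Pm α β γ a).Monic :=
  (Polynomial.monic_X.pow _).mul (qq_monic.1.pow _)

lemma Pm_natDegree {n : ℕ} {a : Fin 3 → ℕ} (ha : a ∈ Lk n) : (Pm α β γ a).natDegree = a 2 := by
  rw [Pm, Polynomial.Monic.natDegree_mul (Polynomial.monic_X.pow _) (qq_monic.1.pow _),
    Polynomial.Monic.natDegree_pow qq_monic.1, qq_monic.2]
  have h1 := congrFun (ev_mo ha) 2
  simp only [ev, Matrix.cons_val] at h1
  simp; omega

lemma mo_N {n : ℕ} {a : Fin 3 → ℕ} (ha : a ∈ Lk n) :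
    3 * (mo a 0 + 2 * mo a 1 + mo a 3) = a 0 + 2 * a 1 := by
  have h0 := congrFun (ev_mo ha) 0
  have h1 := congrFun (ev_mo ha) 1
  simp only [ev, Matrix.cons_val] at h0 h1
  omega

/-- leading exponents for `s1` and degrees of the images -/
lemma Th_lead {n : ℕ} {y : CRing (FW α β γ)} (hy : y ∈ sec (FW α β γ) n) {b : Fin 3 → ℕ}
    (h : (s1 α β γ).LD y b) :
    3 * (Th α β γ y).natDegree = b 0 + 2 * b 1 ∧ (Th α β γ y).leadingCoeff ≠ 0 ∧
      (Th α β γ y).leadingCoeff.natDegree = b 2 := by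
  classical
  obtain ⟨c, rfl⟩ := (s1 α β γ).exists_coord (FW_homog _ _ _) (FW_ne_zero _ _ _) hy
  obtain ⟨h1, h2, h3⟩ := (s1 α β γ).of_LD c h
  obtain ⟨M, hM⟩ : ∃ M, M = mo b 0 + 2 * mo b 1 + mo b 3 := ⟨_, rfl⟩
  have hMb := mo_N h1
  rw [← hM] at hMb
  have hT : Th α β γ (∑ a ∈ Lk n, c a • bm _ a) = ∑ a ∈ Lk n,
      Polynomial.C (c a • Pm α β γ a) * Polynomial.X ^ (mo a 0 + 2 * mo a 1 + mo a 3) := by
    rw [map_sum]
    apply sum_congr rfl
    intro a _
    rw [map_smul, Th_bm, ← smul_mul_assoc, Polynomial.smul_C]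
  have key : ∀ a ∈ Lk n, c a ≠ 0 → a ≠ b →
      (mo a 0 + 2 * mo a 1 + mo a 3 < M ∨
        (mo a 0 + 2 * mo a 1 + mo a 3 = M ∧ a 2 < b 2)) := by
    intro a ha hca hab
    have h4 := h3 a ha hca hab
    have h5 := mo_N ha
    rw [s1_A, lexLT_rowHom (by rw [tot_of_mem ha, tot_of_mem h1])] at h4
    simp only [linHom_apply, Matrix.cons_val] at h4
    omega
  have hcoef : ∀ m, (Th α β γ (∑ a ∈ Lk n, c a • bm _ a)).coeff m = ∑ a ∈ Lk n,
      if m = mo a 0 + 2 * mo a 1 + mo a 3 then c a • Pm α β γ a else 0 := by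
    intro m
    rw [hT, Polynomial.finsetSum_coeff]
    apply sum_congr rfl
    intro a _
    rw [Polynomial.coeff_C_mul_X_pow]
  have hbig : ∀ m, M < m → (Th α β γ (∑ a ∈ Lk n, c a • bm _ a)).coeff m = 0 := by
    intro m hm
    rw [hcoef]
    apply sum_eq_zero
    intro a ha
    split_ifs with h6
    · by_cases hca : c a = 0
      · rw [hca, zero_smul]
      · by_cases hab : a = b
        · subst hab; omega
        · have := key a ha hca hab; omega
    · rfl
  have hE : ∀ e, ((Th α β γ (∑ a ∈ Lk n, c a • bm _ a)).coeff M).coeff e =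
      c b * (Pm α β γ b).coeff e + ∑ a ∈ (Lk n).erase b,
        (if M = mo a 0 + 2 * mo a 1 + mo a 3 then c a • Pm α β γ a else 0).coeff e := by
    intro e
    rw [hcoef, ← Finset.add_sum_erase _ _ h1, Polynomial.coeff_add, if_pos hM,
      Polynomial.coeff_smul, smul_eq_mul, Polynomial.finsetSum_coeff]
  have hz : ∀ e, b 2 ≤ e → ∑ a ∈ (Lk n).erase b,
        (if M = mo a 0 + 2 * mo a 1 + mo a 3 then c a • Pm α β γ a else 0).coeff e = 0 := by
    intro e he
    apply sum_eq_zero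
    intro a ha
    rw [mem_erase] at ha
    split_ifs with h6
    · by_cases hca : c a = 0
      · rw [hca, zero_smul, Polynomial.coeff_zero]
      · have h7 := key a ha.2 hca ha.1
        rw [Polynomial.coeff_smul, Polynomial.coeff_eq_zero_of_natDegree_lt, smul_zero]
        rw [Pm_natDegree ha.2]; omega
    · rw [Polynomial.coeff_zero]
  have hEb : ((Th α β γ (∑ a ∈ Lk n, c a • bm _ a)).coeff M).coeff (b 2) = c b := by
    have hmon := Pm_monic (α := α) (β := β) (γ := γ) b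
    have hd := Pm_natDegree (α := α) (β := β) (γ := γ) h1
    rw [hE, hz _ le_rfl, add_zero, ← hd, Polynomial.Monic.coeff_natDegree hmon, mul_one]
  have hne : (Th α β γ (∑ a ∈ Lk n, c a • bm _ a)).coeff M ≠ 0 := by
    intro h0
    rw [h0, Polynomial.coeff_zero] at hEb
    exact h2 hEb.symm
  have hnat : (Th α β γ (∑ a ∈ Lk n, c a • bm _ a)).natDegree = M := by
    apply Polynomial.natDegree_eq_of_le_of_coeff_ne_zero
    · rw [Polynomial.natDegree_le_iff_coeff_eq_zero]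
      intro m hm
      exact hbig m hm
    · exact hne
  refine ⟨by rw [hnat]; exact hMb, ?_, ?_⟩
  · rw [Polynomial.leadingCoeff, hnat]; exact hne
  · rw [Polynomial.leadingCoeff, hnat]
    apply Polynomial.natDegree_eq_of_le_of_coeff_ne_zero
    · rw [Polynomial.natDegree_le_iff_coeff_eq_zero]
      intro e he
      rw [hE, hz e he.le, add_zero, Polynomial.coeff_eq_zero_of_natDegree_lt, mul_zero]
      rw [Pm_natDegree h1]; exact he
    · rw [hEb]; exact h2

lemma qq_coeff (a b c : K) : (qq a b c).coeff 2 = a ∧ (qq a b c).coeff 1 = b ∧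
    (qq a b c).coeff 0 = c := by
  refine ⟨?_, ?_, ?_⟩ <;> simp [qq, Polynomial.coeff_X, Polynomial.coeff_C]

/-- `q` is not the cube of a linear polynomial -/
def NonCube (α β γ : K) : Prop := ∀ d : K, ¬ (α = 3 * d ∧ β = 3 * d ^ 2 ∧ γ = d ^ 3)

lemma not_cube_pow (hq : NonCube α β γ) {k : ℕ} (hk : 1 ≤ k) {L : Polynomial K}
    (hL : L.natDegree = 1) {c : K} (h : L ^ (3 * k) = Polynomial.C c * qq α β γ ^ k) : False := by
  have hL0 : L ≠ 0 := by rintro rfl; simp at hL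
  obtain ⟨u, v, hu, hLuv⟩ : ∃ u v : K, u ≠ 0 ∧ L = Polynomial.C u * (Polynomial.X +
      Polynomial.C v) := by
    have h1 := Polynomial.eq_X_add_C_of_natDegree_le_one hL.le
    have h2 : L.coeff 1 ≠ 0 := by
      rw [← hL]; exact Polynomial.leadingCoeff_ne_zero.mpr hL0
    refine ⟨L.coeff 1, (L.coeff 1)⁻¹ * L.coeff 0, h2, ?_⟩
    rw [mul_add, ← Polynomial.C_mul, mul_inv_cancel_left₀ h2]
    exact h1
  have hm : (Polynomial.X + Polynomial.C v : Polynomial K).Monic := Polynomial.monic_X_add_C v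
  rw [hLuv, mul_pow, ← Polynomial.C_pow] at h
  have hc : u ^ (3 * k) = c := by
    have h1 := congrArg Polynomial.leadingCoeff h
    rw [Polynomial.leadingCoeff_mul, Polynomial.leadingCoeff_mul, Polynomial.leadingCoeff_C,
      Polynomial.leadingCoeff_C, (hm.pow _).leadingCoeff, (qq_monic.1.pow _).leadingCoeff,
      mul_one, mul_one] at h1
    exact h1
  rw [hc] at h
  have hc0 : c ≠ 0 := by rw [← hc]; exact pow_ne_zero _ hu
  have h2 : ((Polynomial.X + Polynomial.C v : Polynomial K) ^ 3) ^ k = qq α β γ ^ k := by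
    rw [← pow_mul]
    exact mul_left_cancel₀ (by simpa using hc0) h
  have hk0 : k ≠ 0 := by omega
  have d1 : ((Polynomial.X + Polynomial.C v : Polynomial K) ^ 3) ∣ qq α β γ :=
    (IsIntegrallyClosed.pow_dvd_pow_iff hk0).mp (by rw [h2])
  have d2 : qq α β γ ∣ ((Polynomial.X + Polynomial.C v : Polynomial K) ^ 3) :=
    (IsIntegrallyClosed.pow_dvd_pow_iff hk0).mp (by rw [h2])
  have h3 : (Polynomial.X + Polynomial.C v : Polynomial K) ^ 3 = qq α β γ :=
    Polynomial.eq_of_monic_of_associated (hm.pow 3) qq_monic.1 (associated_of_dvd_dvd d1 d2)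
  have e : (Polynomial.X + Polynomial.C v : Polynomial K) ^ 3 =
      qq (3 * v) (3 * v ^ 2) (v ^ 3) := by
    rw [qq]; simp only [map_mul, map_pow, map_ofNat]; ring
  rw [e] at h3
  apply hq v
  obtain ⟨c2, c1, c0⟩ := qq_coeff α β γ
  obtain ⟨d2, d1, d0⟩ := qq_coeff (3 * v) (3 * v ^ 2) (v ^ 3)
  rw [h3] at d2 d1 d0
  exact ⟨c2.symm.trans d2, c1.symm.trans d1, c0.symm.trans d0⟩

section bad

variable {k N : ℕ} (s : Module.Basis (Fin N) K (sec (FW α β γ) k)) (r : Fin N → ℕ) (hk : 1 ≤ k)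
  (hb : Bad (FW α β γ) k (fun i => (s i : CRing (FW α β γ))) r)

include hk hb

/-- the wall inequality -/
theorem wall_ineq (hq : NonCube α β γ) :
    (s1 α β γ).GG k (fun i => (s i : CRing (FW α β γ))) r 1 +
      (s1 α β γ).GG k (fun i => (s i : CRing (FW α β γ))) r 2 ≤
      2 * (s1 α β γ).GG k (fun i => (s i : CRing (FW α β γ))) r 0 := by
  have hf : (FW α β γ).IsHomogeneous 3 := FW_homog _ _ _
  have hf0 : FW α β γ ≠ 0 := FW_ne_zero _ _ _
  set t := s1 α β γ with ht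
  set S := fun i => (s i : CRing (FW α β γ)) with hS
  set G := t.GG k S r with hG
  obtain ⟨k', rfl⟩ := Nat.exists_eq_add_of_le' hk
  obtain ⟨a2, A1, A2, A3⟩ : ∃ a : Fin 3 → ℕ, a 0 = 1 ∧ a 1 = 3 * k' + 1 ∧ a 2 = 1 :=
    ⟨![1, 3 * k' + 1, 1], rfl, rfl, rfl⟩
  have ha2 : a2 ∈ Lk (k' + 1) := mem_Lk_iff.mpr (by omega)
  obtain ⟨y2, hy2, l2⟩ := t.exists_elt s r a2 ha2
  obtain ⟨y1, hy1, l1⟩ := t.exists_elt s r (vc (k' + 1) 1) (vc_mem _ _)
  obtain ⟨yx, hyx, lx⟩ := t.exists_elt s r (vc (k' + 1) 0) (vc_mem _ _)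
  obtain ⟨yz, hyz, lz⟩ := t.exists_elt s r (vc (k' + 1) 2) (vc_mem _ _)
  have sec2 := chowFil_one_le_sec s r _ hy2
  have sec1 := chowFil_one_le_sec s r _ hy1
  have secx := chowFil_one_le_sec s r _ hyx
  have secz := chowFil_one_le_sec s r _ hyz
  obtain ⟨n2, c2, d2⟩ := Th_lead sec2 l2
  obtain ⟨n1, c1, d1⟩ := Th_lead sec1 l1
  obtain ⟨nx, cx, dx⟩ := Th_lead secx lx
  obtain ⟨nz, cz, dz⟩ := Th_lead secz lz
  simp only [vc, Pi.single_apply] at n1 nx nz d1 dx dz
  simp at n1 nx nz d1 dx dz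
  rw [A1, A2] at n2
  rw [A3] at d2
  -- the element with leading exponent `z^k` is a multiple of `z^k`
  obtain ⟨cc, hcc0, hcc⟩ : ∃ c : K, c ≠ 0 ∧ yz = c • bm _ (vc (k' + 1) 2) := by
    obtain ⟨c, hc⟩ := t.exists_coord hf hf0 secz
    rw [hc] at lz ⊢
    obtain ⟨o1, o2, o3⟩ := t.of_LD c lz
    refine ⟨c (vc (k' + 1) 2), o2, ?_⟩
    apply Finset.sum_eq_single (vc (k' + 1) 2)
    · intro b hb' hne
      by_cases hcb : c b = 0
      · rw [hcb, zero_smul]
      · exfalso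
        obtain ⟨q1, q2, q3⟩ := ne_vc hb' hne
        have := o3 b hb' hcb hne
        rw [ht, s1_A, lexLT_rowHom q3] at this
        simp [linHom_apply, vc] at this
        omega
    · intro h; exact absurd (vc_mem _ _) h
  have hTz : Th α β γ yz = Polynomial.C (Polynomial.C cc * qq α β γ ^ (k' + 1)) := by
    have e0 : mo (vc (k' + 1) 2) 0 = 0 := by simp [mo, vc]
    have e1 : mo (vc (k' + 1) 2) 1 = 0 := by simp [mo, vc]
    have e2 : mo (vc (k' + 1) 2) 2 = k' + 1 := by simp [mo, vc]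
    have e3 : mo (vc (k' + 1) 2) 3 = 0 := by simp [mo, vc]
    rw [hcc, map_smul, Th_bm, Pm, e0, e1, e2, e3]
    simp only [pow_zero, mul_one, one_mul, mul_zero, add_zero]
    rw [Polynomial.smul_C, Polynomial.smul_eq_C_mul]
  -- products
  have lP1 := t.LD_pow l2 (3 * (k' + 1))
  have lP2 := t.LD_mul (t.LD_mul (t.LD_pow l1 (3 * k' + 1)) lx) lz
  have hpow : ∀ (n : ℕ) {l : ℕ} {y : CRing (FW α β γ)}, y ∈ chowFil (FW α β γ) S r 1 l →
      y ^ n ∈ chowFil (FW α β γ) S r n (n * l) := by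
    intro n l y hy
    induction n with
    | zero => simpa using one_mem_chowFil S r
    | succ n ih =>
      rw [pow_succ, Nat.succ_mul]
      exact mul_mem_chowFil S r ih hy
  have hP1 := hpow (3 * (k' + 1)) hy2
  have hP2 := mul_mem_chowFil _ _ (mul_mem_chowFil _ _ (hpow (3 * k' + 1) hy1) hyx) hyz
  have eE : (3 * k' + 1) • vc (k' + 1) 1 + vc (k' + 1) 0 + vc (k' + 1) 2 =
      (3 * (k' + 1)) • a2 := by
    funext m
    fin_cases m
    · simp [vc, A1]
    · simp [vc, A2]; ring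
    · simp [vc, A3]
  rw [eE] at lP2
  obtain ⟨c, hc, hcan⟩ := t.cancel lP1 lP2
  have faff := t.affine s r hf hf0 hk hb ha2
  rw [Fin.sum_univ_three, A1, A2, A3] at faff
  change 3 * (k' + 1) * t.gg S r a2 = 1 * G 0 + (3 * k' + 1) * G 1 + 1 * G 2 at faff
  have hw : (3 * k' + 1) * t.gg S r (vc (k' + 1) 1) + t.gg S r (vc (k' + 1) 0) +
      t.gg S r (vc (k' + 1) 2) = 3 * (k' + 1) * t.gg S r a2 := by
    rw [faff]
    change (3 * k' + 1) * G 1 + G 0 + G 2 = _
    ring
  have hm : 3 * k' + 1 + 1 + 1 = 3 * (k' + 1) := by ring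
  rw [hw, hm] at hP2
  set P1 := y2 ^ (3 * (k' + 1)) with hP1def
  set P2 := y1 ^ (3 * k' + 1) * yx * yz with hP2def
  have hDm : P1 - c • P2 ∈ chowFil (FW α β γ) S r (3 * (k' + 1))
      (3 * (k' + 1) * t.gg S r a2) :=
    Submodule.sub_mem _ hP1 (Submodule.smul_mem _ c hP2)
  have hDsec := chowFil_le_sec (k := k' + 1) S r (fun i => (s i).2) (3 * (k' + 1)) _ hDm
  -- the images
  obtain ⟨M, hMdef⟩ : ∃ M, M = 3 * (k' + 1) * (2 * k' + 1) := ⟨_, rfl⟩
  have n2' : (Th α β γ y2).natDegree = 2 * k' + 1 := by omega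
  have n1' : (Th α β γ y1).natDegree = 2 * (k' + 1) := by omega
  have nx' : (Th α β γ yx).natDegree = k' + 1 := by omega
  have dP1 : (Th α β γ P1).natDegree = M ∧
      (Th α β γ P1).leadingCoeff = (Th α β γ y2).leadingCoeff ^ (3 * (k' + 1)) := by
    rw [hP1def, map_pow, Polynomial.natDegree_pow, Polynomial.leadingCoeff_pow, n2', hMdef]
    exact ⟨rfl, rfl⟩
  obtain ⟨u1, hu1⟩ : ∃ u, (Th α β γ y1).leadingCoeff = Polynomial.C u :=
    ⟨_, Polynomial.eq_C_of_natDegree_eq_zero d1⟩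
  obtain ⟨ux, hux⟩ : ∃ u, (Th α β γ yx).leadingCoeff = Polynomial.C u :=
    ⟨_, Polynomial.eq_C_of_natDegree_eq_zero dx⟩
  have hne1 : Th α β γ y1 ≠ 0 := Polynomial.leadingCoeff_ne_zero.mp c1
  have hnex : Th α β γ yx ≠ 0 := Polynomial.leadingCoeff_ne_zero.mp cx
  have hnez : Th α β γ yz ≠ 0 := Polynomial.leadingCoeff_ne_zero.mp cz
  have dP2 : (Th α β γ P2).natDegree = M ∧ (Th α β γ P2).leadingCoeff =
      Polynomial.C (u1 ^ (3 * k' + 1) * ux * cc) * qq α β γ ^ (k' + 1) := by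
    rw [hP2def, map_mul, map_mul, map_pow]
    constructor
    · rw [Polynomial.natDegree_mul (mul_ne_zero (pow_ne_zero _ hne1) hnex) hnez,
        Polynomial.natDegree_mul (pow_ne_zero _ hne1) hnex, Polynomial.natDegree_pow, n1', nx',
        hTz, Polynomial.natDegree_C, hMdef]
      ring
    · rw [Polynomial.leadingCoeff_mul, Polynomial.leadingCoeff_mul, Polynomial.leadingCoeff_pow,
        hu1, hux, hTz, Polynomial.leadingCoeff_C]
      simp only [map_mul, map_pow]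
      ring
  obtain ⟨E, hE⟩ : ∃ E, E = (Th α β γ (P1 - c • P2)).coeff M := ⟨_, rfl⟩
  have hE' : E = (Th α β γ y2).leadingCoeff ^ (3 * (k' + 1)) -
      Polynomial.C (c * (u1 ^ (3 * k' + 1) * ux * cc)) * qq α β γ ^ (k' + 1) := by
    rw [hE, map_sub, map_smul, Polynomial.coeff_sub, Polynomial.coeff_smul]
    have e1 : (Th α β γ P1).coeff M = (Th α β γ P1).leadingCoeff := by
      rw [Polynomial.leadingCoeff, dP1.1]
    have e2 : (Th α β γ P2).coeff M = (Th α β γ P2).leadingCoeff := by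
      rw [Polynomial.leadingCoeff, dP2.1]
    rw [e1, e2, dP1.2, dP2.2, Polynomial.smul_eq_C_mul, ← mul_assoc, ← Polynomial.C_mul]
  have hE0 : E ≠ 0 := by
    intro h0
    rw [hE', sub_eq_zero] at h0
    exact not_cube_pow hq hk d2 h0
  have hDne : P1 - c • P2 ≠ 0 := by
    intro h0
    apply hE0
    rw [hE, h0, map_zero, Polynomial.coeff_zero]
  obtain ⟨b, hbL, hlb⟩ := t.psi_ne hf hf0 hDsec hDne
  obtain ⟨nb, _, _⟩ := Th_lead hDsec hlb
  have hnat : (Th α β γ (P1 - c • P2)).natDegree = M := by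
    apply Polynomial.natDegree_eq_of_le_of_coeff_ne_zero
    · rw [map_sub, map_smul]
      refine (Polynomial.natDegree_sub_le _ _).trans (max_le dP1.1.le ?_)
      exact (Polynomial.natDegree_smul_le _ _).trans dP2.1.le
    · rw [← hE]; exact hE0
  rw [hnat, hMdef] at nb
  have hlt : lexLT (t.A b) (t.A ((3 * (k' + 1)) • a2)) := by
    rcases hcan with h | h
    · exact absurd h hlb.1
    · rwa [hlb.2] at h
  have tb := tot_of_mem hbL
  have ta : tot ((3 * (k' + 1)) • a2) = 3 * ((k' + 1) * (3 * (k' + 1))) := by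
    simp only [tot, Pi.smul_apply, smul_eq_mul, A1, A2, A3]; ring
  rw [ht, s1_A, lexLT_rowHom (tb.trans ta.symm)] at hlt
  simp only [linHom_apply, Matrix.cons_val, Pi.smul_apply, smul_eq_mul, A1, A2, A3] at hlt
  have hstar := t.star s r hf hf0 hk hb (by omega) ⟨_, hDm, hlb⟩
  rw [Fin.sum_univ_three] at hstar
  change _ ≤ b 0 * G 0 + b 1 * G 1 + b 2 * G 2 at hstar
  rw [faff] at hstar
  simp only [tot] at tb
  have q1 : b 2 < 3 * (k' + 1) := by
    rcases hlt with h | h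
    · exfalso
      have : 3 * (3 * (k' + 1) * (2 * k' + 1)) =
        1 * (3 * (k' + 1) * 1) + 2 * (3 * (k' + 1) * (3 * k' + 1)) + 0 := by ring
      omega
    · omega
  obtain ⟨x, hx⟩ := Nat.exists_eq_add_of_lt q1
  have q2 : b 0 = 3 * (k' + 1) + 2 * (x + 1) := by
    have e1 : 3 * ((k' + 1) * (3 * (k' + 1))) = 9 * k' ^ 2 + 18 * k' + 9 := by ring
    have e2 : 3 * (3 * (k' + 1) * (2 * k' + 1)) = 18 * k' ^ 2 + 27 * k' + 9 := by ring
    omega
  have q3 : b 1 + (x + 1) = 3 * (k' + 1) * (3 * k' + 1) := by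
    have e1 : 3 * ((k' + 1) * (3 * (k' + 1))) = 9 * k' ^ 2 + 18 * k' + 9 := by ring
    have e2 : 3 * (3 * (k' + 1) * (2 * k' + 1)) = 18 * k' ^ 2 + 27 * k' + 9 := by ring
    have e3 : 3 * (k' + 1) * (3 * k' + 1) = 9 * k' ^ 2 + 12 * k' + 3 := by ring
    omega
  have q4 : b 2 + (x + 1) = 3 * (k' + 1) := by omega
  have f1 : 3 * (k' + 1) * (1 * G 0 + (3 * k' + 1) * G 1 + 1 * G 2) =
      3 * (k' + 1) * G 0 + (b 1 + (x + 1)) * G 1 + (b 2 + (x + 1)) * G 2 := by
    rw [q3, q4]; ring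
  rw [f1, q2] at hstar
  have f2 : (x + 1) * (G 1 + G 2) ≤ (x + 1) * (2 * G 0) := by nlinarith
  exact Nat.le_of_mul_le_mul_left f2 (Nat.succ_pos x)

end bad

end Pool.Agent.Helper223
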