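import Pool.Agent.Helper223_Chow.Transfer
import Pool.Agent.Helper223_Chow.Comb

/-! Weight filtrations on forms and on the coordinate ring. -/

open MvPolynomial Finset

namespace Pool.Agent.Helper223

variable {K : Type*} [Field K]

/-- weight of an exponent vector -/
def bw (β : Fin 4 → ℕ) (m : Fin 4 →₀ ℕ) : ℕ := ∑ i, β i * m i

lemma bw_add (β : Fin 4 → ℕ) (m m' : Fin 4 →₀ ℕ) : bw β (m + m') = bw β m + bw β m' := by
  simp [bw, mul_add, sum_add_distrib]

/-- the substitution `x_i ↦ t^{β i} x_i` -/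
noncomputable def theta (β : Fin 4 → ℕ) :
    MvPolynomial (Fin 4) K →ₐ[K] Polynomial (MvPolynomial (Fin 4) K) :=
  aeval fun i => Polynomial.C (X i) * Polynomial.X ^ β i

lemma theta_monomial (β : Fin 4 → ℕ) (m : Fin 4 →₀ ℕ) (c : K) :
    theta β (monomial m c) = Polynomial.C (monomial m c) * Polynomial.X ^ bw β m := by
  rw [theta, aeval_monomial, Finsupp.prod_fintype _ _ (by simp), monomial_eq,
    Finsupp.prod_fintype _ _ (by simp)]
  simp only [mul_pow, prod_mul_distrib, ← pow_mul, prod_pow_eq_pow_sum, map_mul, map_prod,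
    map_pow, bw]
  rw [mul_assoc]
  rfl

lemma coeff_theta (β : Fin 4 → ℕ) (F : MvPolynomial (Fin 4) K) (n : ℕ) (m : Fin 4 →₀ ℕ) :
    coeff m ((theta β F).coeff n) = if bw β m = n then coeff m F else 0 := by
  classical
  induction F using MvPolynomial.induction_on' with
  | monomial u a =>
    rw [theta_monomial, Polynomial.coeff_C_mul_X_pow]
    by_cases h : n = bw β u
    · rw [if_pos h, coeff_monomial]
      by_cases h2 : u = m
      · subst h2; simp [h]
      · simp [h2]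
    · rw [if_neg h, coeff_zero, coeff_monomial]
      by_cases h2 : u = m
      · subst h2; rw [if_neg (Ne.symm h)]
      · simp [h2]
  | add p q hp hq =>
    rw [map_add, Polynomial.coeff_add, coeff_add, hp, hq, coeff_add]
    split_ifs <;> simp

/-- all monomials of `F` have weight at least `l` -/
def WtGe (β : Fin 4 → ℕ) (l : ℕ) (F : MvPolynomial (Fin 4) K) : Prop :=
  ∀ m ∈ F.support, l ≤ bw β m

lemma wtGe_iff_coeff (β : Fin 4 → ℕ) (l : ℕ) (F : MvPolynomial (Fin 4) K) :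
    WtGe β l F ↔ ∀ n < l, (theta β F).coeff n = 0 := by
  constructor
  · intro h n hn
    ext m
    rw [coeff_theta, coeff_zero]
    split_ifs with h1
    · by_contra h2
      have := h m (mem_support_iff.mpr h2)
      omega
    · rfl
  · intro h m hm
    by_contra hlt
    push Not at hlt
    have h1 := congrArg (coeff m) (h _ hlt)
    rw [coeff_theta, if_pos rfl, coeff_zero] at h1
    exact mem_support_iff.mp hm h1

lemma theta_ne_zero (β : Fin 4 → ℕ) {F : MvPolynomial (Fin 4) K} (hF : F ≠ 0) :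
    theta β F ≠ 0 := by
  intro h
  obtain ⟨m, hm⟩ := (support_nonempty (p := F)).mpr hF
  have h1 := coeff_theta β F (bw β m) m
  rw [h, if_pos rfl, Polynomial.coeff_zero, coeff_zero] at h1
  exact mem_support_iff.mp hm h1.symm

/-- the weight of a nonzero form -/
noncomputable def ord (β : Fin 4 → ℕ) (F : MvPolynomial (Fin 4) K) : ℕ :=
  (theta β F).natTrailingDegree

lemma wtGe_iff_le_ord (β : Fin 4 → ℕ) (l : ℕ) {F : MvPolynomial (Fin 4) K} (hF : F ≠ 0) :
    WtGe β l F ↔ l ≤ ord β F := by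
  rw [wtGe_iff_coeff]
  constructor
  · exact Polynomial.le_natTrailingDegree (theta_ne_zero β hF)
  · intro h n hn
    exact Polynomial.coeff_eq_zero_of_lt_natTrailingDegree (lt_of_lt_of_le hn h)

lemma ord_mul (β : Fin 4 → ℕ) {F G : MvPolynomial (Fin 4) K} (hF : F ≠ 0) (hG : G ≠ 0) :
    ord β (F * G) = ord β F + ord β G := by
  rw [ord, map_mul, Polynomial.natTrailingDegree_mul (theta_ne_zero β hF) (theta_ne_zero β hG)]
  rfl

/-- exponents of degree `n` and weight at least `l` -/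
noncomputable def expoGe (β : Fin 4 → ℕ) (n l : ℕ) : Finset (Fin 4 →₀ ℕ) :=
  (expo n).filter fun m => l ≤ bw β m

/-- forms of degree `n` and weight at least `l` -/
noncomputable def Fs (K : Type*) [Field K] (β : Fin 4 → ℕ) (n l : ℕ) :
    Submodule K (MvPolynomial (Fin 4) K) :=
  restrictSupport K (expoGe β n l : Set (Fin 4 →₀ ℕ))

lemma mem_Fs {β : Fin 4 → ℕ} {n l : ℕ} {F : MvPolynomial (Fin 4) K} :
    F ∈ Fs K β n l ↔ F.IsHomogeneous n ∧ WtGe β l F := by
  have h1 : F.IsHomogeneous n ↔ (F.support : Set (Fin 4 →₀ ℕ)) ⊆ expo n := by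
    rw [← mem_homogeneousSubmodule, homogeneousSubmodule_eq_restrictSupport,
      mem_restrictSupport_iff]
  rw [Fs, mem_restrictSupport_iff, h1]
  constructor
  · intro h
    refine ⟨fun m hm => ?_, fun m hm => ?_⟩
    · exact (mem_filter.mp (h hm)).1
    · exact (mem_filter.mp (h hm)).2
  · rintro ⟨h2, h3⟩ m hm
    exact mem_filter.mpr ⟨h2 hm, h3 m hm⟩

lemma finrank_Fs (β : Fin 4 → ℕ) (n l : ℕ) :
    Module.finrank K (Fs K β n l) = (expoGe β n l).card := finrank_restrictSupport _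

instance finite_Fs (β : Fin 4 → ℕ) (n l : ℕ) : Module.Finite K (Fs K β n l) :=
  finite_restrictSupport _

/-- the weight filtration on the coordinate ring -/
noncomputable def Fa (f : MvPolynomial (Fin 4) K) (β : Fin 4 → ℕ) (n l : ℕ) :
    Submodule K (CRing f) := (Fs K β n l).map (qm f).toLinearMap

lemma Fa_le_sec (f : MvPolynomial (Fin 4) K) (β : Fin 4 → ℕ) (n l : ℕ) :
    Fa f β n l ≤ sec f n := by
  rintro _ ⟨F, hF, rfl⟩
  exact mem_sec.mpr ⟨F, (mem_Fs.mp hF).1, rfl⟩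

lemma Fa_anti (f : MvPolynomial (Fin 4) K) (β : Fin 4 → ℕ) (n : ℕ) {l l' : ℕ} (h : l ≤ l') :
    Fa f β n l' ≤ Fa f β n l := by
  rintro _ ⟨F, hF, rfl⟩
  obtain ⟨h1, h2⟩ := mem_Fs.mp hF
  exact ⟨F, mem_Fs.mpr ⟨h1, fun m hm => h.trans (h2 m hm)⟩, rfl⟩

lemma WtGe_mul {β : Fin 4 → ℕ} {l l' : ℕ} {F G : MvPolynomial (Fin 4) K} (hF : WtGe β l F)
    (hG : WtGe β l' G) : WtGe β (l + l') (F * G) := by
  classical
  intro m hm
  have h1 := support_mul F G hm
  rw [Finset.mem_add] at h1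
  obtain ⟨a, ha, b, hb, rfl⟩ := h1
  rw [bw_add]
  exact Nat.add_le_add (hF a ha) (hG b hb)

lemma Fa_mul {f : MvPolynomial (Fin 4) K} {β : Fin 4 → ℕ} {n l n' l' : ℕ} {x y : CRing f}
    (hx : x ∈ Fa f β n l) (hy : y ∈ Fa f β n' l') : x * y ∈ Fa f β (n + n') (l + l') := by
  obtain ⟨F, hF, rfl⟩ := hx
  obtain ⟨G, hG, rfl⟩ := hy
  obtain ⟨h1, h2⟩ := mem_Fs.mp hF
  obtain ⟨h3, h4⟩ := mem_Fs.mp hG
  exact ⟨F * G, mem_Fs.mpr ⟨h1.mul h3, WtGe_mul h2 h4⟩, map_mul (qm f) _ _⟩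

lemma Fs_inf_ker {f : MvPolynomial (Fin 4) K} (hf : f.IsHomogeneous 3) (hf0 : f ≠ 0)
    (β : Fin 4 → ℕ) (n l : ℕ) :
    Fs K β (n + 3) l ⊓ LinearMap.ker (qm f).toLinearMap =
      (Fs K β n (l - ord β f)).map (mulL f) := by
  ext F
  constructor
  · rintro ⟨h1, h2⟩
    obtain ⟨h3, h4⟩ := mem_Fs.mp h1
    have h5 : F ∈ homogeneousSubmodule (Fin 4) K (n + 3) ⊓ LinearMap.ker (qm f).toLinearMap :=
      ⟨h3, h2⟩
    rw [ker_qm hf] at h5
    obtain ⟨h, h6, rfl⟩ := h5
    refine ⟨h, mem_Fs.mpr ⟨h6, ?_⟩, rfl⟩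
    by_cases hh : h = 0
    · subst hh; intro m hm; simp at hm
    · rw [wtGe_iff_le_ord β _ hh]
      have h7 : WtGe β l (f * h) := h4
      rw [wtGe_iff_le_ord β _ (mul_ne_zero hf0 hh), ord_mul β hf0 hh] at h7
      omega
  · rintro ⟨h, hh, rfl⟩
    obtain ⟨h1, h2⟩ := mem_Fs.mp hh
    have h3 : WtGe β (ord β f) f := (wtGe_iff_le_ord β _ hf0).mpr le_rfl
    have h4 := WtGe_mul h3 h2
    refine ⟨mem_Fs.mpr ⟨?_, fun m hm => ?_⟩, qm_eq_zero_iff.mpr ⟨h, rfl⟩⟩
    · rw [add_comm]; exact hf.mul h1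
    · have := h4 m hm
      omega

lemma finrank_Fa_add {f : MvPolynomial (Fin 4) K} (hf : f.IsHomogeneous 3) (hf0 : f ≠ 0)
    (β : Fin 4 → ℕ) (n l : ℕ) :
    Module.finrank K (Fa f β (n + 3) l) + (expoGe β n (l - ord β f)).card =
      (expoGe β (n + 3) l).card := by
  have h := finrank_map_add (qm f).toLinearMap (Fs K β (n + 3) l)
  rw [Fs_inf_ker hf hf0, finrank_map_of_inj _ (mulL_injective hf0), finrank_Fs, finrank_Fs] at h
  exact h

lemma finrank_Fa_lt {f : MvPolynomial (Fin 4) K} (hf : f.IsHomogeneous 3)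
    (β : Fin 4 → ℕ) {n : ℕ} (hn : n < 3) (l : ℕ) :
    Module.finrank K (Fa f β n l) = (expoGe β n l).card := by
  have h := finrank_map_add (qm f).toLinearMap (Fs K β n l)
  have h2 : Fs K β n l ⊓ LinearMap.ker (qm f).toLinearMap = ⊥ := by
    rw [eq_bot_iff]
    rintro F ⟨h1, h2⟩
    obtain ⟨h, rfl⟩ := qm_eq_zero_iff.mp (by simpa using h2)
    exact (homog_factor_lt hf hn (mem_Fs.mp h1).1)
  rw [h2, finrank_bot, add_zero, finrank_Fs] at h
  exact h

/-! ### Total weights -/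

lemma sum_coord (n : ℕ) (i j : Fin 4) : ∑ m ∈ expo n, m i = ∑ m ∈ expo n, m j := by
  classical
  refine Finset.sum_bij' (fun m _ => Finsupp.equivMapDomain (Equiv.swap i j) m)
    (fun m _ => Finsupp.equivMapDomain (Equiv.swap i j) m) ?_ ?_ ?_ ?_ ?_
  · intro m hm
    rw [mem_expo] at hm ⊢
    rw [← hm]
    simp only [Finsupp.equivMapDomain_apply]
    exact Equiv.sum_comp (Equiv.swap i j).symm (fun l => m l)
  · intro m hm
    rw [mem_expo] at hm ⊢
    rw [← hm]
    simp only [Finsupp.equivMapDomain_apply]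
    exact Equiv.sum_comp (Equiv.swap i j).symm (fun l => m l)
  · intro m _
    ext l; simp
  · intro m _
    ext l; simp
  · intro m _
    simp

lemma four_mul_sum_coord (n : ℕ) (i : Fin 4) :
    4 * ∑ m ∈ expo n, m i = n * (n + 3).choose 3 := by
  have h1 : ∑ j : Fin 4, ∑ m ∈ expo n, m j = n * (n + 3).choose 3 := by
    rw [sum_comm, ← card_expo, mul_comm, ← smul_eq_mul, ← sum_const]
    exact sum_congr rfl fun m hm => mem_expo.mp hm
  rw [← h1, sum_congr rfl (fun j _ => sum_coord n j i)]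
  simp

lemma sum_bw (β : Fin 4 → ℕ) {M : ℕ} (hM : ∑ i, β i = 4 * M) (n : ℕ) :
    ∑ m ∈ expo n, bw β m = M * n * (n + 3).choose 3 := by
  simp only [bw]
  rw [sum_comm]
  simp only [← mul_sum]
  have h1 : ∀ i, 4 * (β i * ∑ m ∈ expo n, m i) = β i * (n * (n + 3).choose 3) := by
    intro i
    rw [← four_mul_sum_coord n i]; ring
  have h2 : 4 * ∑ i, β i * ∑ m ∈ expo n, m i = 4 * (M * n * (n + 3).choose 3) := by
    rw [mul_sum, sum_congr rfl (fun i _ => h1 i), ← sum_mul, hM]; ring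
  omega

lemma bw_le (β : Fin 4 → ℕ) {n : ℕ} {m : Fin 4 →₀ ℕ} (hm : m ∈ expo n) :
    bw β m ≤ n * ∑ i, β i := by
  rw [mem_expo] at hm
  calc bw β m = ∑ i, β i * m i := rfl
    _ ≤ ∑ i, β i * n := sum_le_sum fun i _ => Nat.mul_le_mul_left _ (by
        rw [← hm]; exact single_le_sum (fun _ _ => Nat.zero_le _) (mem_univ i))
    _ = n * ∑ i, β i := by rw [← sum_mul, mul_comm]

lemma sum_card_expoGe (β : Fin 4 → ℕ) (n : ℕ) {L : ℕ} (hL : n * ∑ i, β i ≤ L) :
    ∑ l ∈ Icc 1 L, (expoGe β n l).card = ∑ m ∈ expo n, bw β m :=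
  (sum_layer (expo n) (bw β) L fun _ hm => (bw_le β hm).trans hL).symm

lemma expoGe_zero (β : Fin 4 → ℕ) (n : ℕ) : expoGe β n 0 = expo n := by
  simp [expoGe]

lemma sum_card_expoGe_shift (β : Fin 4 → ℕ) (n e : ℕ) {L : ℕ} (hL : n * ∑ i, β i + e ≤ L) :
    ∑ l ∈ Icc 1 L, (expoGe β n (l - e)).card =
      e * (n + 3).choose 3 + ∑ m ∈ expo n, bw β m := by
  classical
  rw [← sum_card_expoGe β n (L := L - e) (by omega)]
  have h1 : Icc 1 L = Icc 1 e ∪ (Icc 1 (L - e)).image (fun l => l + e) := by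
    ext l
    simp only [mem_union, mem_Icc, mem_image]
    constructor
    · intro h
      by_cases hl : l ≤ e
      · left; omega
      · right; exact ⟨l - e, by omega, by omega⟩
    · rintro (h | ⟨a, ha, rfl⟩) <;> omega
  have h2 : Disjoint (Icc 1 e) ((Icc 1 (L - e)).image (fun l => l + e)) := by
    rw [Finset.disjoint_left]
    intro l h3 h4
    simp only [mem_Icc, mem_image] at h3 h4
    obtain ⟨a, ha, rfl⟩ := h4
    omega
  rw [h1, sum_union h2, sum_image (fun a _ b _ h => by omega)]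
  congr 1
  · rw [← card_expo]
    have : ∀ l ∈ Icc 1 e, (expoGe β n (l - e)).card = (expo n).card := by
      intro l hl
      rw [mem_Icc] at hl
      rw [Nat.sub_eq_zero_of_le hl.2, expoGe_zero]
    rw [sum_congr rfl this]
    simp
  · apply sum_congr rfl
    intro l _
    rw [Nat.add_sub_cancel]

/-- total weight of the filtration on `A_n`, for large `L` -/
lemma sum_finrank_Fa {f : MvPolynomial (Fin 4) K} (hf : f.IsHomogeneous 3) (hf0 : f ≠ 0)
    (β : Fin 4 → ℕ) {M : ℕ} (hM : ∑ i, β i = 4 * M) (n : ℕ) {L : ℕ}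
    (hL : n * ∑ i, β i + ord β f ≤ L) :
    6 * ((∑ l ∈ Icc 1 L, Module.finrank K (Fa f β n l) : ℕ) : ℝ) =
      6 * M * n * Module.finrank K (sec f n) -
        ((ord β f : ℝ) - 3 * M) * (n * (n - 1) * (n - 2)) := by
  have hd : 2 * (Module.finrank K (sec f n) : ℝ) = 3 * (n : ℝ) ^ 2 + 3 * n + 2 := by
    exact_mod_cast two_mul_finrank_sec hf hf0 n
  rcases lt_or_ge n 3 with hn | hn
  · have h1 : ∑ l ∈ Icc 1 L, Module.finrank K (Fa f β n l) = M * n * (n + 3).choose 3 := by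
      rw [← sum_bw β hM n, ← sum_card_expoGe β n (L := L) (by omega)]
      exact sum_congr rfl fun l _ => finrank_Fa_lt hf β hn l
    have h2 : (n : ℝ) * (n - 1) * (n - 2) = 0 := by
      interval_cases n <;> norm_num
    rw [h1, finrank_sec_lt hf hn, h2]
    push_cast
    ring
  · obtain ⟨n, rfl⟩ := Nat.exists_eq_add_of_le' hn
    have h1 : ∑ l ∈ Icc 1 L, Module.finrank K (Fa f β (n + 3) l) +
        (ord β f * (n + 3).choose 3 + M * n * (n + 3).choose 3) =
        M * (n + 3) * (n + 6).choose 3 := by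
      have e1 := sum_bw β hM (n + 3)
      have e2 := sum_bw β hM n
      have hmono : n * ∑ i, β i ≤ (n + 3) * ∑ i, β i := Nat.mul_le_mul_right _ (by omega)
      rw [← e2, ← sum_card_expoGe_shift β n (ord β f) (L := L) (by omega), ← sum_add_distrib]
      have e3 : (n + 3 + 3).choose 3 = (n + 6).choose 3 := rfl
      rw [← e3, ← e1, ← sum_card_expoGe β (n + 3) (L := L) (by omega)]
      exact sum_congr rfl fun l _ => finrank_Fa_add hf hf0 β n l
    have c1 : (6 : ℝ) * ((n + 3).choose 3 : ℕ) = (n + 1) * (n + 2) * (n + 3) := by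
      exact_mod_cast choose_three n
    have c2 : (6 : ℝ) * ((n + 6).choose 3 : ℕ) = (n + 4) * (n + 5) * (n + 6) := by
      have := choose_three (n + 3)
      have e3 : (n + 3 + 3).choose 3 = (n + 6).choose 3 := rfl
      rw [e3] at this
      exact_mod_cast this
    have h1' : ((∑ l ∈ Icc 1 L, Module.finrank K (Fa f β (n + 3) l) : ℕ) : ℝ) +
        (ord β f * ((n + 3).choose 3 : ℕ) + M * n * ((n + 3).choose 3 : ℕ)) =
        M * (n + 3) * ((n + 6).choose 3 : ℕ) := by exact_mod_cast h1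
    generalize ((∑ l ∈ Icc 1 L, Module.finrank K (Fa f β (n + 3) l) : ℕ) : ℝ) = W at *
    generalize (((n + 3).choose 3 : ℕ) : ℝ) = C1 at *
    generalize (((n + 6).choose 3 : ℕ) : ℝ) = C2 at *
    push_cast at hd ⊢
    have hdd : (Module.finrank K (sec f (n + 3)) : ℝ) =
      (3 * ((n : ℝ) + 3) ^ 2 + 3 * (n + 3) + 2) / 2 := by linarith
    rw [hdd]
    have hC1 : C1 = (n + 1) * (n + 2) * (n + 3) / 6 := by linarith
    have hC2 : C2 = (n + 4) * (n + 5) * (n + 6) / 6 := by linarith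
    have hW : W = M * (n + 3) * C2 - (ord β f * C1 + M * n * C1) := by linarith
    rw [hW, hC1, hC2]
    ring

end Pool.Agent.Helper223
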